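import Pool.Agent.Work.MP_0c526b_al.Fg.Stable
import Pool.Agent.Work.MP_0c526b_al.Idx.Subtree

/-!
# M10: admissible systems (X-level)
-/

set_option autoImplicit false
set_option linter.unusedVariables false

namespace LTree.Fg

open LTree LTree.Idx LTree.Idx.Subtree

variable {Λ : Type*} [AddCommGroup Λ] [LinearOrder Λ] [IsOrderedAddMonoid Λ] {X : Type*}
variable {D : Dist Λ X} {G : Type*} [Group G] [MulAction G X]

/-- A finite set of translates of the base point. -/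
noncomputable def orb (x0 : X) (A : Finset G) : Finset X :=
  letI := Classical.decEq X
  A.image (fun w => w • x0)

lemma mem_orb {x0 : X} {A : Finset G} {y : X} : y ∈ orb x0 A ↔ ∃ w ∈ A, y = w • x0 := by
  letI := Classical.decEq X
  change y ∈ A.image (fun w => w • x0) ↔ _
  rw [Finset.mem_image]
  constructor
  · rintro ⟨w, hw, rfl⟩; exact ⟨w, hw, rfl⟩
  · rintro ⟨w, hw, rfl⟩; exact ⟨w, hw, rfl⟩

lemma hull_mono {F F' : Finset X} (h : F ⊆ F') {y : X} (hy : y ∈ hull D F) : y ∈ hull D F' := by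
  obtain ⟨f, hf, f', hf', hb⟩ := hy
  exact ⟨f, h hf, f', h hf', hb⟩

lemma orb_mono {x0 : X} {A A' : Finset G} (h : A ⊆ A') : orb x0 A ⊆ orb x0 A' := by
  intro y hy
  obtain ⟨w, hw, rfl⟩ := mem_orb.1 hy
  exact mem_orb.2 ⟨w, h hw, rfl⟩

lemma KK_iff {x0 y : X} : y ∈ KK D G x0 ↔ ∃ A : Finset G, y ∈ hull D (orb x0 A) := by
  classical
  constructor
  · rintro ⟨g, h, hb⟩
    exact ⟨{g, h}, _, mem_orb.2 ⟨g, by simp, rfl⟩, _, mem_orb.2 ⟨h, by simp, rfl⟩, hb⟩
  · rintro ⟨A, f, hf, f', hf', hb⟩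
    obtain ⟨g, _, rfl⟩ := mem_orb.1 hf
    obtain ⟨h, _, rfl⟩ := mem_orb.1 hf'
    exact ⟨g, h, hb⟩

lemma orbit_KK (x0 : X) (g : G) : g • x0 ∈ KK D G x0 := ⟨g, g, btw_left _ _⟩

lemma base_KK (x0 : X) : x0 ∈ KK D G x0 := ⟨1, 1, by rw [one_smul]; exact btw_left _ _⟩

/-- Finitely many points of the hull of the orbit lie in one finite hull. -/
lemma exists_orb {x0 : X} (P : Finset X) (hP : ∀ y ∈ P, y ∈ KK D G x0) (A0 : Finset G) :
    ∃ A : Finset G, A0 ⊆ A ∧ ∀ y ∈ P, y ∈ hull D (orb x0 A) := by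
  classical
  induction P using Finset.induction_on with
  | empty => exact ⟨A0, Finset.Subset.refl _, by simp⟩
  | insert y P _ ih =>
    obtain ⟨A, hA, h⟩ := ih (fun z hz => hP z (Finset.mem_insert_of_mem hz))
    obtain ⟨B, hB⟩ := KK_iff.1 (hP y (Finset.mem_insert_self _ _))
    refine ⟨A ∪ B, hA.trans Finset.subset_union_left, ?_⟩
    intro z hz
    rcases Finset.mem_insert.1 hz with rfl | hz
    · exact hull_mono (orb_mono Finset.subset_union_right) hB
    · exact hull_mono (orb_mono Finset.subset_union_left) (h z hz)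

lemma Sys.anti {F : Finset X} {T T' : Set (Letter X G)} (h : Sys D F T') (hT : T ⊆ T') :
    Sys D F T :=
  ⟨h.fin.subset hT, fun l hl => h.flag l (hT hl), fun l hl => h.ha l (hT hl),
    fun l hl => h.hb l (hT hl), fun l hl => h.ga l (hT hl), fun l hl => h.gb l (hT hl)⟩

lemma Sys.hull_mono {F F' : Finset X} (h : F ⊆ F') {T : Set (Letter X G)} (hS : Sys D F T) :
    Sys D F' T :=
  ⟨hS.fin, hS.flag, fun l hl => LTree.Fg.hull_mono h (hS.ha l hl),
    fun l hl => LTree.Fg.hull_mono h (hS.hb l hl), fun l hl => LTree.Fg.hull_mono h (hS.ga l hl),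
    fun l hl => LTree.Fg.hull_mono h (hS.gb l hl)⟩

lemma Adm.orb {S : Finset G} {x0 : X} {T : Set (Letter X G)} (hA : Adm D S x0 T) :
    ∃ W : Finset G, Sys D (LTree.Fg.orb x0 W) T := hA.sys

lemma Adm.flag {S : Finset G} {x0 : X} {T : Set (Letter X G)} (hA : Adm D S x0 T) :
    ∀ l ∈ T, l.flag = false := by
  obtain ⟨W, hW⟩ := hA.orb
  exact hW.flag

/-- An admissible system lives in a finite hull, which may contain given points. -/
lemma adm_orb {S : Finset G} {x0 : X} {T : Set (Letter X G)} (hA : Adm D S x0 T)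
    (P : Finset X) (hP : ∀ y ∈ P, y ∈ KK D G x0) (A0 : Finset G) :
    ∃ A : Finset G, A0 ⊆ A ∧ Sys D (orb x0 A) T ∧ ∀ y ∈ P, y ∈ hull D (orb x0 A) := by
  classical
  obtain ⟨W, hW⟩ := hA.orb
  obtain ⟨A, hA, h⟩ := exists_orb P hP (A0 ∪ W)
  exact ⟨A, Finset.subset_union_left.trans hA,
    Sys.hull_mono (orb_mono (Finset.subset_union_right.trans hA)) hW, h⟩

lemma adm_sys {S : Finset G} {x0 : X} {T : Set (Letter X G)} (hA : Adm D S x0 T)
    (P : Finset X) (hP : ∀ y ∈ P, y ∈ KK D G x0) :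
    ∃ F : Finset X, F.Nonempty ∧ Sys D F T ∧ (∀ y ∈ P, y ∈ hull D F) ∧
      ∃ W : Finset G, ∀ y, y ∈ F ↔ ∃ w ∈ W, y = w • x0 := by
  obtain ⟨A, h1, h2, h3⟩ := adm_orb hA P hP {1}
  exact ⟨orb x0 A, ⟨x0, mem_orb.2 ⟨1, h1 (Finset.mem_singleton_self _), (one_smul G x0).symm⟩⟩,
    h2, h3, A, fun y => mem_orb⟩

lemma adm_ins {S : Finset G} {x0 : X} {T : Set (Letter X G)} (hT : IsTree D)
    (hG : FreeAct D G) (hA : Adm D S x0 T) {p q : X} {g : G} (hp : p ∈ KK D G x0)
    (hq : q ∈ KK D G x0) : Adm D S x0 (insert ⟨p, q, g, false⟩ T) := by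
  classical
  refine ⟨fun s hs => Set.mem_insert_of_mem _ (hA.base s hs), ?_⟩
  obtain ⟨A, -, h2, h3⟩ := adm_orb hA {p, q, g • p, g • q} (by
    intro w hw
    simp only [Finset.mem_insert, Finset.mem_singleton] at hw
    rcases hw with rfl | rfl | rfl | rfl
    · exact hp
    · exact hq
    · exact smul_mem_KK hG g hp
    · exact smul_mem_KK hG g hq) ∅
  exact ⟨A, fx_sys_insert h2 (h3 p (by simp)) (h3 q (by simp)) (h3 _ (by simp)) (h3 _ (by simp))⟩

lemma fdata_KK (hT : IsTree D) {x0 : X} {T : Set (Letter X G)} {p q q' : X} {g : G}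
    (hp : p ∈ KK D G x0) (hq : q ∈ KK D G x0) (hd : FData hT T p q g q') : q' ∈ KK D G x0 :=
  KK_convex hT hp hq hd.btw

lemma adm_fold {S : Finset G} {x0 : X} {T : Set (Letter X G)} (hT : IsTree D)
    (hG : FreeAct D G) (hA : Adm D S x0 T) {p q q' : X} {g : G} (hp : p ∈ KK D G x0)
    (hq : q ∈ KK D G x0) (hd : FData hT T p q g q') : Adm D S x0 (fold T p q g q') :=
  adm_ins hT hG (adm_ins hT hG hA hp (fdata_KK hT hp hq hd)) (fdata_KK hT hp hq hd) hq

/-- The index of a system is at least the least one; folding. -/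
theorem claimA_ins (hT : IsTree D) (hG : FreeAct D G) {S : Finset G} {x0 : X}
    {T : Set (Letter X G)} (hA : Adm D S x0 T) {c : ℤ} (hc : ClaimA D T c) {p q q' : X} {g : G}
    (hp : p ∈ KK D G x0) (hq : q ∈ KK D G x0) (hd : FData hT T p q g q') :
    ClaimA D (insert ⟨p, q', g, false⟩ T) c ∧ ClaimA D (fold T p q g q') c := by
  constructor
  · intro F hF hS
    exact fdata_claim1' hT hG (hc F hF (Sys.anti hS (Set.subset_insert _ _))) hS hd
  · intro F hF hS
    exact fdata_claim2' hT hG (hc F hF (Sys.anti hS ((Set.subset_insert _ _).trans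
      (Set.subset_insert _ _)))) hS hd

/-- Stable lemma. -/
theorem stable (hT : IsTree D) (hG : FreeAct D G) {S : Finset G} {x0 : X} {cX : ℤ}
    (hL : Least D S x0 cX) {T : Set (Letter X G)} (hA : Adm D S x0 T) (hc : ClaimA D T cX)
    {p q : X} {g : G} (hp : p ∈ KK D G x0) (hq : q ∈ KK D G x0) (h0 : Conn D T p g)
    (h1 : ¬ ∃ (w : List (Letter X G)) (m : X), (∀ l ∈ w, l ∈ lett T) ∧ val w = g ∧ m ≠ p ∧
      Btw D p m q ∧ mem D w p ∧ mem D w m) :
    ∀ m, Btw D p m q → m ≠ p → ¬ Conn D T m g := by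
  intro y hy hne h2
  have hyO : y ∈ KK D G x0 := KK_convex hT hp hq hy
  have h1' : ¬ Begin D T p y g := by
    rintro ⟨w, m, a1, a2, a3, a4, a5, a6⟩
    exact h1 ⟨w, m, a1, a2, a3, (btw_trans' hy a4).1, a5, a6⟩
  have := hL.lb _ (cX - 1) (adm_ins (g := g) hT hG hA hp hyO) (by
    intro F hFn hF
    have hS : Sys D F T := Sys.anti hF (Set.subset_insert _ _)
    have hl : (⟨p, y, g, false⟩ : Letter X G) ∈
      (insert ⟨p, y, g, false⟩ T : Set (Letter X G)) := Set.mem_insert _ _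
    exact stable_step hT hG hS (hc F hFn hS) (hF.ha _ hl) (hF.hb _ hl) (hF.ga _ hl) (hF.gb _ hl)
      h0 (Ne.symm hne) h1' h2)
  linarith

end LTree.Fg
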