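import Pool.Agent.Work.MP_0c526b_al.Fg.Defs

/-!
# M20: chains of steps and projections
-/

set_option autoImplicit false
set_option linter.unusedVariables false

namespace LTree.Fg

open LTree LTree.Idx

variable {Λ : Type*} [AddCommGroup Λ] [LinearOrder Λ] [IsOrderedAddMonoid Λ] {X : Type*}
variable {D : Dist Λ X} {G : Type*} [Group G] [MulAction G X] {s : Setoid X}

/-- The relation generated by steps, as a setoid. -/
def genS {R : X → X → Prop} (hsymm : ∀ x y, R x y → R y x) : Setoid X where
  r := Relation.ReflTransGen R
  iseqv := ⟨fun x => Relation.ReflTransGen.refl,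
    fun h => by
      induction h with
      | refl => exact Relation.ReflTransGen.refl
      | tail _ h ih => exact Relation.ReflTransGen.head (hsymm _ _ h) ih,
    fun h h' => h.trans h'⟩

lemma eq_of_btw_same {x m : X} (h : Btw D x m x) : m = x := by
  have n1 := D.nonneg x m
  have s1 := D.symm m x
  have z := D.d_self x
  have : D.d x m = 0 := by unfold Btw at h; grind
  exact (D.eq_of_d _ _ this).symm

/-- A segment is covered by the steps of a chain. -/
theorem chain_cover (hT : IsTree D) {R : X → X → Prop} {x y : X}
    (h : Relation.ReflTransGen R x y) {m : X} (hm : Btw D x m y) :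
    m = x ∨ ∃ u v, Relation.ReflTransGen R x u ∧ R u v ∧ Btw D u m v := by
  induction h with
  | refl => exact Or.inl (eq_of_btw_same hm)
  | @tail b c h1 h2 ih =>
    by_cases hb : Btw D x m b
    · exact ih hb
    · exact Or.inr ⟨b, c, h1, h2, dir hT hm hb⟩

/-- A chain between two points of an axis, projected to this axis (uses `pr`, `pr_path`,
`pr_dist_le` of Top.lean): if every step moves the projection by an element of the convex
subgroup `C`, then the distance is in `C`. -/
theorem chain_proj (hT : IsTree D) (hG : FreeAct D G) {a : G} (ha : a ≠ 1)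
    {R : X → X → Prop} {x y : X} (hx : x ∈ axis D a) (hy : y ∈ axis D a)
    (h : Relation.ReflTransGen R x y) (C : Submodule ℤ Λ)
    (hC : ∀ t z : Λ, z ∈ C → |t| ≤ |z| → t ∈ C)
    (hstep : ∀ u v m n, R u v → m ∈ axis D a → n ∈ axis D a → Btw D u m v → Btw D u n v →
      D.d m n ∈ C) : D.d x y ∈ C := by
  have hg : Gated D (axis D a) := axis_gated hT hG ha
  have key : D.d (pr hg x) (pr hg y) ∈ C := by
    clear hy
    induction h with
    | refl => rw [D.d_self]; exact C.zero_mem
    | @tail b c h1 h2 ih =>
      have h3 : D.d (pr hg b) (pr hg c) ∈ C := by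
        by_cases hne : pr hg b = pr hg c
        · rw [hne, D.d_self]; exact C.zero_mem
        · obtain ⟨b1, b2, -⟩ := pr_path hT hg hne
          exact hstep b c _ _ h2 (pr_mem _ _) (pr_mem _ _) b1 b2
      apply hC _ _ (C.add_mem ih h3)
      have t := D.tri (pr hg x) (pr hg b) (pr hg c)
      have n1 := D.nonneg (pr hg x) (pr hg c)
      have n2 := D.nonneg (pr hg x) (pr hg b)
      have n3 := D.nonneg (pr hg b) (pr hg c)
      rw [abs_of_nonneg n1, abs_of_nonneg (add_nonneg n2 n3)]
      exact t
  rwa [pr_self hg hx, pr_self hg hy] at key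

/-- The same for the projection to a segment: the chain can be taken in the segment. -/
theorem chain_seg (hT : IsTree D) {R : X → X → Prop}
    (hsub : ∀ u v m n, R u v → Btw D u m v → Btw D u n v → R m n) {x y : X}
    (h : Relation.ReflTransGen R x y) {m : X} (hm : Btw D x m y) :
    Relation.ReflTransGen R x m := by
  induction h with
  | refl => rw [eq_of_btw_same hm]
  | @tail b c h1 h2 ih =>
    by_cases hb : Btw D x m b
    · exact ih hb
    · exact h1.tail (hsub b c b m h2 (btw_left _ _) (dir hT hm hb))

end LTree.Fg
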