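import Pool.Agent.Work.MP_0c526b_al.Fg.Defs

/-!
# Class-level paths and their values (M2), finite generation of the groups of leaves (M02b)
-/

set_option autoImplicit false
set_option linter.unusedVariables false
set_option linter.unusedSectionVars false

namespace LTree.Fg

open LTree LTree.Idx

variable {Λ : Type*} [AddCommGroup Λ] [LinearOrder Λ] [IsOrderedAddMonoid Λ] {X : Type*}
variable {D : Dist Λ X} {G : Type*} [Group G] [MulAction G X] {s : Setoid X}

lemma WP.congr (hs : Conv D G s) {E : Set (Edge X G)} {x y : X} {g : G} (h : s.r x y)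
    (hw : WP s E x g) : WP s E y g := by
  induction hw with
  | one => exact WP.one
  | fwd g e _ he hr ih => exact WP.fwd g e ih he (s.trans (hs.inv g _ _ (s.symm h)) hr)
  | bwd g e _ he hr ih => exact WP.bwd g e ih he (s.trans (hs.inv g _ _ (s.symm h)) hr)

lemma WP.comp (hs : Conv D G s) {E : Set (Edge X G)} {x : X} {g h : G} (h1 : WP s E x g)
    (h2 : WP s E (g • x) h) : WP s E x (h * g) := by
  induction h2 with
  | one => rwa [one_mul]
  | fwd k e _ he hr ih =>
    rw [mul_assoc]
    refine WP.fwd (k * g) e ih he ?_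
    rwa [mul_smul]
  | bwd k e _ he hr ih =>
    rw [mul_assoc]
    refine WP.bwd (k * g) e ih he ?_
    rwa [mul_smul]

/-- One edge. -/
lemma WP.edge {E : Set (Edge X G)} {e : Edge X G} (he : e ∈ E) : WP s E e.x e.h := by
  have h : WP s E e.x (e.h * 1) := WP.fwd 1 e WP.one he (by rw [one_smul])
  rwa [mul_one] at h

/-- One edge, backwards. -/
lemma WP.edge' {E : Set (Edge X G)} {e : Edge X G} (he : e ∈ E) :
    WP s E (e.h • e.x) e.h⁻¹ := by
  have h : WP s E (e.h • e.x) (e.h⁻¹ * 1) :=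
    WP.bwd 1 e WP.one he (by rw [one_smul])
  rwa [mul_one] at h

lemma WP.symm (hs : Conv D G s) {E : Set (Edge X G)} {x : X} {g : G} (h : WP s E x g) :
    WP s E (g • x) g⁻¹ := by
  induction h with
  | one => rw [inv_one]; exact WP.one
  | fwd k e _ he hr ih =>
    have h1 : WP s E ((e.h * k) • x) e.h⁻¹ := by
      refine WP.congr hs ?_ (WP.edge' he)
      rw [mul_smul]
      exact hs.inv _ _ _ (s.symm hr)
    have h2 : WP s E (e.h⁻¹ • ((e.h * k) • x)) k⁻¹ := by
      rw [mul_smul, inv_smul_smul]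
      exact ih
    rw [mul_inv_rev]
    exact h1.comp hs h2
  | bwd k e _ he hr ih =>
    have h1 : WP s E ((e.h⁻¹ * k) • x) e.h := by
      refine WP.congr hs ?_ (WP.edge he)
      have := hs.inv e.h⁻¹ _ _ hr
      rw [inv_smul_smul] at this
      rw [mul_smul]
      exact s.symm this
    have h2 : WP s E (e.h • ((e.h⁻¹ * k) • x)) k⁻¹ := by
      rw [mul_smul, smul_inv_smul]
      exact ih
    have h3 := h1.comp hs h2
    rwa [mul_inv_rev, inv_inv]

lemma WP.mono {E E' : Set (Edge X G)} (hE : E ⊆ E') {x : X} {g : G} (h : WP s E x g) :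
    WP s E' x g := by
  induction h with
  | one => exact WP.one
  | fwd k e _ he hr ih => exact WP.fwd k e ih (hE he) hr
  | bwd k e _ he hr ih => exact WP.bwd k e ih (hE he) hr

lemma WP_empty {x : X} {g : G} (h : WP s (∅ : Set (Edge X G)) x g) : g = 1 := by
  induction h with
  | one => rfl
  | fwd k e _ he hr ih => exact absurd he (Set.notMem_empty _)
  | bwd k e _ he hr ih => exact absurd he (Set.notMem_empty _)

lemma eqv_iff_WP (hs : Conv D G s) {E : Set (Edge X G)} {x y : X} :
    Relation.EqvGen (rVP s E) x y ↔ ∃ g, WP s E x g ∧ s.r (g • x) y := by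
  constructor
  · intro h
    induction h with
    | rel x y hr =>
      rcases hr with hr | ⟨e, he, h1, h2⟩
      · exact ⟨1, WP.one, by rw [one_smul]; exact hr⟩
      · exact ⟨e.h, (WP.edge he).congr hs (s.symm h1), s.trans (hs.inv e.h _ _ h1) h2⟩
    | refl x => exact ⟨1, WP.one, by rw [one_smul]⟩
    | symm x y _ ih =>
      obtain ⟨g, hg, h1⟩ := ih
      refine ⟨g⁻¹, (hg.symm hs).congr hs h1, ?_⟩
      have h2 := hs.inv g⁻¹ _ _ h1
      rw [inv_smul_smul] at h2
      exact s.symm h2
    | trans x y z _ _ ih1 ih2 =>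
      obtain ⟨g, hg, h1⟩ := ih1
      obtain ⟨k, hk, h2⟩ := ih2
      refine ⟨k * g, hg.comp hs (hk.congr hs (s.symm h1)), ?_⟩
      rw [mul_smul]
      exact s.trans (hs.inv k _ _ h1) h2
  · rintro ⟨g, hg, h⟩
    refine Relation.EqvGen.trans _ (g • x) _ ?_ (Relation.EqvGen.rel _ _ (Or.inl h))
    clear h
    induction hg with
    | one => rw [one_smul]; exact Relation.EqvGen.refl _
    | fwd k e _ he hr ih =>
      refine ih.trans _ _ _ (Relation.EqvGen.rel _ _ (Or.inr ⟨e, he, hr, ?_⟩))
      rw [mul_smul]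
      exact hs.inv e.h _ _ (s.symm hr)
    | bwd k e _ he hr ih =>
      refine ih.trans _ _ _ (Relation.EqvGen.symm _ _
        (Relation.EqvGen.rel _ _ (Or.inr ⟨e, he, ?_, s.symm hr⟩)))
      have := hs.inv e.h⁻¹ _ _ hr
      rw [inv_smul_smul] at this
      rw [mul_smul]
      exact this

/-- A path gives a connection. -/
lemma WP.eqv (hs : Conv D G s) {E : Set (Edge X G)} {x : X} {g : G} (h : WP s E x g) :
    Relation.EqvGen (rVP s E) x (g • x) :=
  (eqv_iff_WP hs).2 ⟨g, h, s.refl _⟩

/-- Connected directions have a value. -/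
lemma rHP_value (hG : FreeAct D G) (hs : Conv D G s) {E : Set (Edge X G)} {x y : X}
    {d d' : Set X} (h : Relation.EqvGen (rHP D s E) (x, d) (y, d')) :
    ∃ g, WP s E x g ∧ s.r (g • x) y ∧ d' = sm g d := by
  have key : ∀ u v : X × Set X, Relation.EqvGen (rHP D s E) u v →
      ∃ g, WP s E u.1 g ∧ s.r (g • u.1) v.1 ∧ v.2 = sm g u.2 := by
    intro u v huv
    induction huv with
    | rel u v hr =>
      rcases hr with ⟨h1, h2⟩ | ⟨e, he, h1, h2, h3, h4⟩
      · exact ⟨1, WP.one, by rw [one_smul]; exact h1, by rw [h2, sm_one]⟩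
      · exact ⟨e.h, (WP.edge he).congr hs (s.symm h1), s.trans (hs.inv e.h _ _ h1) h3, h4⟩
    | refl u => exact ⟨1, WP.one, by rw [one_smul], by rw [sm_one]⟩
    | symm u v _ ih =>
      obtain ⟨g, hg, h1, h2⟩ := ih
      refine ⟨g⁻¹, (hg.symm hs).congr hs h1, ?_, ?_⟩
      · have h3 := hs.inv g⁻¹ _ _ h1
        rw [inv_smul_smul] at h3
        exact s.symm h3
      · rw [h2, ← sm_mul, inv_mul_cancel, sm_one]
    | trans u v w _ _ ih1 ih2 =>
      obtain ⟨g, hg, h1, h2⟩ := ih1
      obtain ⟨k, hk, h3, h4⟩ := ih2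
      refine ⟨k * g, hg.comp hs (hk.congr hs (s.symm h1)), ?_, ?_⟩
      · rw [mul_smul]
        exact s.trans (hs.inv k _ _ h1) h3
      · rw [h4, h2, sm_mul]
  exact key _ _ h

lemma Tr.eqv (hs : Conv D G s) {E : Set (Edge X G)} {x y : X}
    (h : Relation.EqvGen (rVP s E) x y) (hx : Tr s E x) : Tr s E y := by
  obtain ⟨k, hk, h1⟩ := (eqv_iff_WP hs).1 h
  intro g hg h2
  have h3 : WP s E x (k⁻¹ * (g * k)) := by
    refine WP.comp hs (WP.comp hs hk (hg.congr hs (s.symm h1))) ?_
    refine (hk.symm hs).congr hs ?_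
    rw [mul_smul]
    exact s.trans h1 (s.trans h2 (hs.inv g _ _ (s.symm h1)))
  have h4 : s.r x ((k⁻¹ * (g * k)) • x) := by
    have h5 : s.r (k • x) ((g * k) • x) := by
      rw [mul_smul]
      exact s.trans h1 (s.trans h2 (hs.inv g _ _ (s.symm h1)))
    have h6 := hs.inv k⁻¹ _ _ h5
    rw [inv_smul_smul] at h6
    rwa [mul_smul]
  have h7 := hx _ h3 h4
  have h8 : g * k = k := by
    rw [inv_mul_eq_one] at h7
    exact h7.symm
  simpa using h8

lemma Tr.anti {E E' : Set (Edge X G)} (hE : E ⊆ E') {x : X} (h : Tr s E' x) : Tr s E x :=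
  fun g hg hr => h g (hg.mono hE) hr

lemma WP_ins_red (hs : Conv D G s) {E : Set (Edge X G)} {e : Edge X G} (h : WP s E e.x e.h)
    {x : X} {g : G} (hw : WP s (insert e E) x g) : WP s E x g := by
  induction hw with
  | one => exact WP.one
  | fwd k e' _ he hr ih =>
    rcases Set.mem_insert_iff.1 he with rfl | he
    · exact ih.comp hs (h.congr hs (s.symm hr))
    · exact WP.fwd k e' ih he hr
  | bwd k e' _ he hr ih =>
    rcases Set.mem_insert_iff.1 he with rfl | he
    · exact ih.comp hs ((h.symm hs).congr hs (s.symm hr))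
    · exact WP.bwd k e' ih he hr

lemma WP_ins_out (hs : Conv D G s) {E : Set (Edge X G)} {e : Edge X G} {x : X}
    (h1 : ¬ Relation.EqvGen (rVP s E) x e.x) (h2 : ¬ Relation.EqvGen (rVP s E) x (e.h • e.x))
    {g : G} (hw : WP s (insert e E) x g) : WP s E x g := by
  induction hw with
  | one => exact WP.one
  | fwd k e' _ he hr ih =>
    rcases Set.mem_insert_iff.1 he with rfl | he
    · exact absurd ((eqv_iff_WP hs).2 ⟨k, ih, hr⟩) h1
    · exact WP.fwd k e' ih he hr
  | bwd k e' _ he hr ih =>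
    rcases Set.mem_insert_iff.1 he with rfl | he
    · exact absurd ((eqv_iff_WP hs).2 ⟨k, ih, hr⟩) h2
    · exact WP.bwd k e' ih he hr

/-- A bridge to a trivial leaf. -/
lemma WP_ins_bridge (hs : Conv D G s) {E : Set (Edge X G)} {e : Edge X G}
    (hc : ¬ Relation.EqvGen (rVP s E) e.x (e.h • e.x)) (ht : Tr s E (e.h • e.x)) {x : X}
    (hx : Relation.EqvGen (rVP s E) x e.x) {g : G} (hg : s.r x (g • x))
    (hw : WP s (insert e E) x g) : WP s E x g := by
  have key : ∀ g : G, WP s (insert e E) x g → WP s E x g ∨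
      ∃ k1 k2 : G, WP s E x k1 ∧ s.r (k1 • x) e.x ∧ WP s E (e.h • e.x) k2 ∧
        g = k2 * (e.h * k1) := by
    intro g hw
    clear hg
    induction hw with
    | one => exact Or.inl WP.one
    | fwd k e' _ he hr ih =>
      rcases Set.mem_insert_iff.1 he with rfl | he
      · rcases ih with ih | ⟨k1, k2, a1, a2, a3, rfl⟩
        · exact Or.inr ⟨k, 1, ih, hr, WP.one, by rw [one_mul]⟩
        · exfalso
          apply hc
          apply Relation.EqvGen.symm
          refine (eqv_iff_WP hs).2 ⟨k2, a3, ?_⟩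
          rw [mul_smul, mul_smul] at hr
          exact s.trans (hs.inv k2 _ _ (hs.inv e'.h _ _ (s.symm a2))) hr
      · rcases ih with ih | ⟨k1, k2, a1, a2, a3, rfl⟩
        · exact Or.inl (WP.fwd k e' ih he hr)
        · refine Or.inr ⟨k1, e'.h * k2, a1, a2, WP.fwd k2 e' a3 he ?_, by rw [mul_assoc]⟩
          rw [mul_smul, mul_smul] at hr
          exact s.trans (hs.inv k2 _ _ (hs.inv e.h _ _ (s.symm a2))) hr
    | bwd k e' _ he hr ih =>
      rcases Set.mem_insert_iff.1 he with rfl | he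
      · rcases ih with ih | ⟨k1, k2, a1, a2, a3, rfl⟩
        · exfalso
          exact hc ((hx.symm _ _).trans _ _ _ ((eqv_iff_WP hs).2 ⟨k, ih, hr⟩))
        · have h1 : s.r (e'.h • e'.x) (k2 • (e'.h • e'.x)) := by
            rw [mul_smul, mul_smul] at hr
            exact s.symm (s.trans (hs.inv k2 _ _ (hs.inv e'.h _ _ (s.symm a2))) hr)
          have h2 := ht k2 a3 h1
          left
          rw [h2, one_mul, inv_mul_cancel_left]
          exact a1
      · rcases ih with ih | ⟨k1, k2, a1, a2, a3, rfl⟩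
        · exact Or.inl (WP.bwd k e' ih he hr)
        · refine Or.inr ⟨k1, e'.h⁻¹ * k2, a1, a2, WP.bwd k2 e' a3 he ?_, by rw [mul_assoc]⟩
          rw [mul_smul, mul_smul] at hr
          exact s.trans (hs.inv k2 _ _ (hs.inv e.h _ _ (s.symm a2))) hr
  rcases key g hw with h | ⟨k1, k2, a1, a2, a3, rfl⟩
  · exact h
  · exfalso
    apply hc
    have h1 : Relation.EqvGen (rVP s E) (e.h • e.x) x := by
      refine (eqv_iff_WP hs).2 ⟨k2, a3, ?_⟩
      rw [mul_smul, mul_smul] at hg
      exact s.symm (s.trans hg (hs.inv k2 _ _ (hs.inv e.h _ _ a2)))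
    exact (h1.trans _ _ _ hx).symm _ _

/-- The reversed edge. -/
def erev (e : Edge X G) : Edge X G := ⟨e.h • e.a, e.h • e.b, e.h⁻¹, e.h • e.x⟩

lemma WP_ins_erev {E : Set (Edge X G)} {e : Edge X G} {x : X} {g : G}
    (hw : WP s (insert e E) x g) : WP s (insert (erev e) E) x g := by
  have e1 : (erev e).h • (erev e).x = e.x := by
    show e.h⁻¹ • (e.h • e.x) = e.x
    rw [inv_smul_smul]
  induction hw with
  | one => exact WP.one
  | fwd k e' _ he hr ih =>
    rcases Set.mem_insert_iff.1 he with rfl | he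
    · have h1 := WP.bwd k (erev e') ih (Set.mem_insert _ _) (by rw [e1]; exact hr)
      have h2 : (erev e').h⁻¹ = e'.h := by
        show (e'.h⁻¹)⁻¹ = e'.h
        rw [inv_inv]
      rwa [h2] at h1
    · exact WP.fwd k e' ih (Set.mem_insert_of_mem _ he) hr
  | bwd k e' _ he hr ih =>
    rcases Set.mem_insert_iff.1 he with rfl | he
    · exact WP.fwd k (erev e') ih (Set.mem_insert _ _) hr
    · exact WP.bwd k e' ih (Set.mem_insert_of_mem _ he) hr

/-- A bridge from a trivial leaf. -/
lemma WP_ins_bridge' (hs : Conv D G s) {E : Set (Edge X G)} {e : Edge X G}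
    (hc : ¬ Relation.EqvGen (rVP s E) e.x (e.h • e.x)) (ht : Tr s E e.x) {x : X}
    (hx : Relation.EqvGen (rVP s E) x (e.h • e.x)) {g : G} (hg : s.r x (g • x))
    (hw : WP s (insert e E) x g) : WP s E x g := by
  have e1 : (erev e).h • (erev e).x = e.x := by
    show e.h⁻¹ • (e.h • e.x) = e.x
    rw [inv_smul_smul]
  refine WP_ins_bridge (e := erev e) hs ?_ ?_ hx hg (WP_ins_erev hw)
  · rw [e1]
    exact fun h => hc (h.symm _ _)
  · rw [e1]
    exact ht

/-- A new loop. -/
lemma WP_ins_loop (hs : Conv D G s) {E : Set (Edge X G)} {e : Edge X G}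
    (hc : Relation.EqvGen (rVP s E) e.x (e.h • e.x)) (hn : ¬ WP s E e.x e.h) :
    ¬ Tr s (insert e E) e.x := by
  obtain ⟨k, hk, h1⟩ := (eqv_iff_WP hs).1 hc
  intro ht
  have h2 : WP s (insert e E) e.x (k⁻¹ * e.h) := by
    refine (WP.edge (Set.mem_insert _ _)).comp hs ?_
    refine (((hk.mono (Set.subset_insert _ _)).symm hs)).congr hs h1
  have h3 : s.r e.x ((k⁻¹ * e.h) • e.x) := by
    have := hs.inv k⁻¹ _ _ h1
    rw [inv_smul_smul] at this
    rwa [mul_smul]
  have h4 := ht _ h2 h3
  rw [inv_mul_eq_one] at h4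
  exact hn (h4 ▸ hk)

/-- The groups of the leaves of a finite set of edges are finitely generated. -/
theorem grp_fg (hs : Conv D G s) {E : Set (Edge X G)} (hE : E.Finite) (x : X) :
    ∃ H : Subgroup G, H.FG ∧ ∀ g, g ∈ H ↔ (WP s E x g ∧ s.r x (g • x)) := by
  classical
  -- a path to each class
  let K : Quotient s → G := fun q =>
    if h : ∃ k, WP s E x k ∧ (Quotient.mk s (k • x)) = q then h.choose else 1
  have hK : ∀ q, (∃ k, WP s E x k ∧ (Quotient.mk s (k • x)) = q) →
      WP s E x (K q) ∧ (Quotient.mk s (K q • x)) = q := by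
    intro q h
    have : K q = h.choose := dif_pos h
    rw [this]
    exact h.choose_spec
  have hK0 := hK (Quotient.mk s x) ⟨1, WP.one, by rw [one_smul]⟩
  let L : Subgroup G :=
    { carrier := {g | WP s E x g ∧ s.r x (g • x)}
      one_mem' := ⟨WP.one, by rw [one_smul]⟩
      mul_mem' := by
        rintro a b ⟨h1, h2⟩ ⟨h3, h4⟩
        refine ⟨h3.comp hs (h1.congr hs h4), ?_⟩
        rw [mul_smul]
        exact s.trans h2 (hs.inv a _ _ h4)
      inv_mem' := by
        rintro a ⟨h1, h2⟩
        refine ⟨(h1.symm hs).congr hs (s.symm h2), ?_⟩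
        have h3 := hs.inv a⁻¹ _ _ h2
        rw [inv_smul_smul] at h3
        exact s.symm h3 }
  let gen : Edge X G → G := fun e =>
    if (∃ k, WP s E x k ∧ (Quotient.mk s (k • x)) = Quotient.mk s e.x) then
      (K (Quotient.mk s (e.h • e.x)))⁻¹ * (e.h * K (Quotient.mk s e.x)) else 1
  let S : Set G := insert (K (Quotient.mk s x)) (gen '' E)
  have hS : S.Finite := (hE.image gen).insert _
  have reach : ∀ e ∈ E, (∃ k, WP s E x k ∧ (Quotient.mk s (k • x)) = Quotient.mk s e.x) →
      (∃ k, WP s E x k ∧ (Quotient.mk s (k • x)) = Quotient.mk s (e.h • e.x)) := by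
    rintro e he ⟨k, hk, h1⟩
    have h2 : s.r (k • x) e.x := Quotient.exact h1
    refine ⟨e.h * k, WP.fwd k e hk he h2, ?_⟩
    rw [mul_smul]
    exact Quotient.sound (hs.inv e.h _ _ h2)
  have hSL : Subgroup.closure S ≤ L := by
    rw [Subgroup.closure_le]
    intro g hg
    rcases Set.mem_insert_iff.1 hg with rfl | ⟨e, he, rfl⟩
    · exact ⟨hK0.1, s.symm (Quotient.exact hK0.2)⟩
    · show gen e ∈ L
      by_cases h : (∃ k, WP s E x k ∧ (Quotient.mk s (k • x)) = Quotient.mk s e.x)
      · have hgen : gen e = (K (Quotient.mk s (e.h • e.x)))⁻¹ * (e.h * K (Quotient.mk s e.x)) :=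
          if_pos h
        rw [hgen]
        obtain ⟨a1, a2⟩ := hK _ h
        obtain ⟨b1, b2⟩ := hK _ (reach e he h)
        have a3 : s.r (K (Quotient.mk s e.x) • x) e.x := Quotient.exact a2
        have b3 : s.r (K (Quotient.mk s (e.h • e.x)) • x) (e.h • e.x) := Quotient.exact b2
        have c1 : s.r ((e.h * K (Quotient.mk s e.x)) • x) (e.h • e.x) := by
          rw [mul_smul]
          exact hs.inv e.h _ _ a3
        have c2 := WP.fwd _ e a1 he a3
        refine ⟨c2.comp hs ((b1.symm hs).congr hs (s.trans b3 (s.symm c1))), ?_⟩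
        have c3 := hs.inv (K (Quotient.mk s (e.h • e.x)))⁻¹ _ _ (s.trans c1 (s.symm b3))
        rw [inv_smul_smul] at c3
        rw [mul_smul]
        exact s.symm c3
      · have hgen : gen e = 1 := if_neg h
        rw [hgen]
        exact L.one_mem
  refine ⟨Subgroup.closure S, (Subgroup.fg_iff _).2 ⟨S, rfl, hS⟩, fun g => ⟨fun hg => hSL hg, ?_⟩⟩
  have key : ∀ g, WP s E x g → ∃ c ∈ Subgroup.closure S, g = K (Quotient.mk s (g • x)) * c := by
    intro g hg
    induction hg with
    | one =>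
      refine ⟨(K (Quotient.mk s x))⁻¹,
        inv_mem (Subgroup.subset_closure (Set.mem_insert _ _)), ?_⟩
      rw [one_smul, mul_inv_cancel]
    | fwd k e hk he hr ih =>
      obtain ⟨c, hc, h1⟩ := ih
      have h2 : Quotient.mk s (k • x) = Quotient.mk s e.x := Quotient.sound hr
      have h3 : Quotient.mk s ((e.h * k) • x) = Quotient.mk s (e.h • e.x) := by
        rw [mul_smul]
        exact Quotient.sound (hs.inv e.h _ _ hr)
      have hgen : gen e = (K (Quotient.mk s (e.h • e.x)))⁻¹ * (e.h * K (Quotient.mk s e.x)) :=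
        if_pos ⟨k, hk, h2⟩
      refine ⟨gen e * c, mul_mem (Subgroup.subset_closure
        (Set.mem_insert_of_mem _ (Set.mem_image_of_mem _ he))) hc, ?_⟩
      rw [h3, hgen, h1, h2]
      group
    | bwd k e hk he hr ih =>
      obtain ⟨c, hc, h1⟩ := ih
      have h2 : Quotient.mk s (k • x) = Quotient.mk s (e.h • e.x) := Quotient.sound hr
      have h4 : s.r ((e.h⁻¹ * k) • x) e.x := by
        have := hs.inv e.h⁻¹ _ _ hr
        rw [inv_smul_smul] at this
        rwa [mul_smul]
      have h3 : Quotient.mk s ((e.h⁻¹ * k) • x) = Quotient.mk s e.x := Quotient.sound h4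
      have hgen : gen e = (K (Quotient.mk s (e.h • e.x)))⁻¹ * (e.h * K (Quotient.mk s e.x)) :=
        if_pos ⟨e.h⁻¹ * k, WP.bwd k e hk he hr, h3⟩
      refine ⟨(gen e)⁻¹ * c, mul_mem (inv_mem (Subgroup.subset_closure
        (Set.mem_insert_of_mem _ (Set.mem_image_of_mem _ he)))) hc, ?_⟩
      rw [h3, hgen, h1, h2]
      group
  rintro ⟨h1, h2⟩
  obtain ⟨c, hc, h3⟩ := key g h1
  have h4 : Quotient.mk s (g • x) = Quotient.mk s x := Quotient.sound (s.symm h2)
  rw [h4] at h3
  rw [h3]
  exact mul_mem (Subgroup.subset_closure (Set.mem_insert _ _)) hc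

/-- Words of a system are paths of edges. -/
theorem conn_WP (hG : FreeAct D G) (hs : Conv D G s) {T : Set (Letter X G)}
    (hTf : ∀ l ∈ T, l.flag = false) {x : X} {g : G} (h : Conn D T x g) :
    ∃ E : Set (Edge X G), E.Finite ∧ (∀ e ∈ E, EdgeOf D T e) ∧ WP s E x g := by
  obtain ⟨w, hw, hm, rfl⟩ := h
  induction w generalizing x with
  | nil => exact ⟨∅, Set.finite_empty, fun e he => absurd he (Set.notMem_empty _), WP.one⟩
  | cons l w ih =>
    obtain ⟨E, hE1, hE2, h2⟩ := ih (fun l' hl' => hw l' (by simp [hl'])) hm.2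
    have h1 : ∃ e : Edge X G, EdgeOf D T e ∧ WP s {e} x l.h := by
      rcases hw l (by simp) with h | ⟨l', h, hl⟩
      · refine ⟨⟨l.a, l.b, l.h, x⟩, ⟨?_, hm.1⟩, ?_⟩
        · have := hTf l h
          obtain ⟨a, b, g, f⟩ := l
          simp only at this
          rw [this] at h
          exact h
        · exact WP.edge (e := (⟨l.a, l.b, l.h, x⟩ : Edge X G)) (Set.mem_singleton _)
      · refine ⟨⟨l'.a, l'.b, l'.h, l'.h⁻¹ • x⟩, ⟨?_, ?_⟩, ?_⟩
        · have := hTf l' h
          obtain ⟨a, b, g, f⟩ := l'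
          simp only at this
          rw [this] at h
          exact h
        · have h1 := hG.btw l'.h⁻¹ hm.1
          rw [hl] at h1
          unfold Letter.inv at h1
          simpa using h1
        · have h3 := WP.edge' (s := s) (e := (⟨l'.a, l'.b, l'.h, l'.h⁻¹ • x⟩ : Edge X G))
            (Set.mem_singleton _)
          have h4 : l'.h • (l'.h⁻¹ • x) = x := smul_inv_smul _ _
          have h5 : l.h = l'.h⁻¹ := by rw [hl]; rfl
          rw [h5]
          show WP s _ x l'.h⁻¹
          simp only [h4] at h3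
          exact h3
    obtain ⟨e, he, h1⟩ := h1
    refine ⟨insert e E, hE1.insert e, ?_, ?_⟩
    · intro e' he'
      rcases Set.mem_insert_iff.1 he' with rfl | h
      · exact he
      · exact hE2 e' h
    · show WP s (insert e E) x (val w * l.h)
      exact (h1.mono (by simp)).comp hs (h2.mono (Set.subset_insert e E))

end LTree.Fg
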