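import Pool.Agent.Work.MP_0c526b_al.Fg.PBasics
import Pool.Agent.Work.MP_0c526b_al.Fg.PWords

/-!
# M5: Lemma K
-/

set_option autoImplicit false
set_option linter.unusedVariables false

namespace LTree.Fg

open LTree LTree.Idx Relation

variable {Λ : Type*} [AddCommGroup Λ] [LinearOrder Λ] [IsOrderedAddMonoid Λ] {X : Type*}
variable {D : Dist Λ X} {G : Type*} [Group G] [MulAction G X] {s : Setoid X}

/-! ### Number of classes (private versions of M3) -/

private lemma pc_pair {α : Type*} {r r' : α → α → Prop} {a b : α}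
    (h : ∀ x y, r' x y → r x y ∨ (x = a ∧ y = b)) {x y : α} (hxy : EqvGen r' x y) :
    EqvGen r x y ∨ (EqvGen r x a ∧ EqvGen r b y) ∨ (EqvGen r x b ∧ EqvGen r a y) := by
  induction hxy with
  | rel x y h1 =>
    rcases h x y h1 with h2 | ⟨rfl, rfl⟩
    · exact Or.inl (EqvGen.rel _ _ h2)
    · exact Or.inr (Or.inl ⟨EqvGen.refl _, EqvGen.refl _⟩)
  | refl x => exact Or.inl (EqvGen.refl _)
  | symm x y _ ih =>
    rcases ih with h1 | ⟨h1, h2⟩ | ⟨h1, h2⟩
    · exact Or.inl (EqvGen.symm _ _ h1)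
    · exact Or.inr (Or.inr ⟨EqvGen.symm _ _ h2, EqvGen.symm _ _ h1⟩)
    · exact Or.inr (Or.inl ⟨EqvGen.symm _ _ h2, EqvGen.symm _ _ h1⟩)
  | trans x y z _ _ ih1 ih2 =>
    rcases ih1 with h1 | ⟨h1, h2⟩ | ⟨h1, h2⟩
    · rcases ih2 with h3 | ⟨h3, h4⟩ | ⟨h3, h4⟩
      · exact Or.inl (EqvGen.trans _ _ _ h1 h3)
      · exact Or.inr (Or.inl ⟨EqvGen.trans _ _ _ h1 h3, h4⟩)
      · exact Or.inr (Or.inr ⟨EqvGen.trans _ _ _ h1 h3, h4⟩)
    · rcases ih2 with h3 | ⟨h3, h4⟩ | ⟨h3, h4⟩
      · exact Or.inr (Or.inl ⟨h1, EqvGen.trans _ _ _ h2 h3⟩)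
      · exact Or.inr (Or.inl ⟨h1, h4⟩)
      · exact Or.inl (EqvGen.trans _ _ _ h1 h4)
    · rcases ih2 with h3 | ⟨h3, h4⟩ | ⟨h3, h4⟩
      · exact Or.inr (Or.inr ⟨h1, EqvGen.trans _ _ _ h2 h3⟩)
      · exact Or.inl (EqvGen.trans _ _ _ h1 h4)
      · exact Or.inr (Or.inr ⟨h1, h4⟩)

private lemma pc_le_on {α : Type*} {r r' : α → α → Prop} (W : Finset α)
    (h : ∀ x ∈ W, ∀ y ∈ W, EqvGen r' x y → EqvGen r x y) : ncl r W ≤ ncl r' W := by
  classical
  rcases W.eq_empty_or_nonempty with rfl | ⟨w, _⟩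
  · rw [ncl_eq, ncl_eq]; simp
  · haveI : Nonempty α := ⟨w⟩
    rw [ncl_eq]
    have hch : ∀ q ∈ W.image (Quot.mk r), ∃ x ∈ W, Quot.mk r x = q := by
      intro q hq
      obtain ⟨x, hx, rfl⟩ := Finset.mem_image.1 hq
      exact ⟨x, hx, rfl⟩
    choose! f hf1 hf2 using hch
    refine le_ncl W _ f hf1 ?_
    intro i hi j hj hij
    rw [← hf2 i hi, ← hf2 j hj]
    exact Quot.eqvGen_sound (h _ (hf1 i hi) _ (hf1 j hj) hij)

private theorem pc_out {α : Type*} {r r' : α → α → Prop} {a b : α}
    (h : ∀ x y, r' x y ↔ r x y ∨ (x = a ∧ y = b)) (W : Finset α)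
    (hW : (∀ w ∈ W, ¬ EqvGen r w a) ∨ (∀ w ∈ W, ¬ EqvGen r w b)) :
    ncl r' W = ncl r W := by
  apply le_antisymm
  · exact ncl_mono (fun x y hxy => EqvGen.rel _ _ ((h x y).2 (Or.inl hxy))) W
  · refine pc_le_on W ?_
    intro x hx y hy hxy
    rcases pc_pair (fun x y => (h x y).1) hxy with h1 | ⟨h1, h2⟩ | ⟨h1, h2⟩
    · exact h1
    · rcases hW with hW | hW
      · exact absurd h1 (hW x hx)
      · exact absurd (EqvGen.symm _ _ h2) (hW y hy)
    · rcases hW with hW | hW
      · exact absurd (EqvGen.symm _ _ h2) (hW y hy)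
      · exact absurd h1 (hW x hx)

private theorem pc_remove {α : Type*} {r : α → α → Prop} (W W' : Finset α) {a : α} (ha : a ∈ W)
    (hW : ∀ w, w ∈ W' ↔ w ∈ W ∧ ¬ EqvGen r w a) : ncl r W' + 1 = ncl r W := by
  classical
  rw [ncl_eq, ncl_eq]
  have h1 : W.image (Quot.mk r) = insert (Quot.mk r a) (W'.image (Quot.mk r)) := by
    ext q
    simp only [Finset.mem_image, Finset.mem_insert]
    constructor
    · rintro ⟨x, hx, rfl⟩
      by_cases hxa : EqvGen r x a
      · exact Or.inl (Quot.eqvGen_sound hxa)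
      · exact Or.inr ⟨x, (hW x).2 ⟨hx, hxa⟩, rfl⟩
    · rintro (rfl | ⟨x, hx, rfl⟩)
      · exact ⟨a, ha, rfl⟩
      · exact ⟨x, ((hW x).1 hx).1, rfl⟩
  rw [h1, Finset.card_insert_of_notMem]
  rintro hmem
  obtain ⟨x, hx, hxa⟩ := Finset.mem_image.1 hmem
  exact ((hW x).1 hx).2 (Quot.eqvGen_exact hxa)

lemma Stp.refl (s : Setoid X) (F V : Finset X) (E : Set (Edge X G)) : Stp D s F V E E 0 where
  sub := Set.Subset.rfl
  le := by simp
  grp := fun _ _ _ _ _ h => h

lemma Stp.comp {F V : Finset X} {E E' E'' : Set (Edge X G)} {b b' : ℤ}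
    (h : Stp D s F V E E' b) (h' : Stp D s F V E' E'' b') : Stp D s F V E E'' (b + b') where
  sub := h.sub.trans h'.sub
  le := by have := h.le; have := h'.le; linarith
  grp := by
    intro he x hx g hg hw
    have h1 := h.le
    have h2 := h'.le
    have e1 : Psi D s F V E' = Psi D s F V E + b := by linarith
    have e2 : Psi D s F V E'' = Psi D s F V E' + b' := by linarith
    refine h.grp e1 x hx g hg (h'.grp e2 x ?_ g hg hw)
    intro ht
    exact hx fun g hw hg => ht g (WP.mono h.sub hw) hg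

lemma Stp.weak {F V : Finset X} {E E' : Set (Edge X G)} {b b' : ℤ}
    (h : Stp D s F V E E' b) (hb : b ≤ b') : Stp D s F V E E' b' where
  sub := h.sub
  le := by have := h.le; linarith
  grp := by
    intro he x hx g hg hw
    have h1 := h.le
    have e1 : Psi D s F V E' = Psi D s F V E + b := by linarith
    exact h.grp e1 x hx g hg hw

/-! ### Number of trivial leaves -/

/-- Number of trivial leaves. -/
noncomputable def nv (s : Setoid X) (V : Finset X) (E : Set (Edge X G)) : ℕ := by
  classical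
  exact ncl (rVP s E) (V.filter (fun x => Tr s E x))

lemma Psi_eq (F V : Finset X) (E : Set (Edge X G)) :
    Psi D s F V E = (ncl (rHP D s E) (HP D s F V) : ℤ) - 2 * (nv s V E : ℤ) := rfl

lemma rVP_ins (_hs : Conv D G s) {E : Set (Edge X G)} {e : Edge X G} (x y : X) :
    EqvGen (rVP s (insert e E)) x y ↔
      EqvGen (fun x y => rVP s E x y ∨ (x = e.x ∧ y = e.h • e.x)) x y := by
  constructor
  · intro h
    induction h with
    | rel x y h =>
      rcases h with h | ⟨e', he', h1, h2⟩
      · exact EqvGen.rel _ _ (Or.inl (Or.inl h))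
      · rcases he' with rfl | he'
        · refine EqvGen.trans _ e'.x _ (EqvGen.rel _ _ (Or.inl (Or.inl h1))) ?_
          refine EqvGen.trans _ (e'.h • e'.x) _ (EqvGen.rel _ _ (Or.inr ⟨rfl, rfl⟩)) ?_
          exact EqvGen.rel _ _ (Or.inl (Or.inl h2))
        · exact EqvGen.rel _ _ (Or.inl (Or.inr ⟨e', he', h1, h2⟩))
    | refl x => exact EqvGen.refl _
    | symm x y _ ih => exact EqvGen.symm _ _ ih
    | trans x y z _ _ ih1 ih2 => exact EqvGen.trans _ _ _ ih1 ih2
  · intro h
    induction h with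
    | rel x y h =>
      rcases h with (h | ⟨e', he', h1, h2⟩) | ⟨rfl, rfl⟩
      · exact EqvGen.rel _ _ (Or.inl h)
      · exact EqvGen.rel _ _ (Or.inr ⟨e', Set.mem_insert_of_mem _ he', h1, h2⟩)
      · exact EqvGen.rel _ _ (Or.inr ⟨e, Set.mem_insert _ _, s.refl _, s.refl _⟩)
    | refl x => exact EqvGen.refl _
    | symm x y _ ih => exact EqvGen.symm _ _ ih
    | trans x y z _ _ ih1 ih2 => exact EqvGen.trans _ _ _ ih1 ih2

lemma rVP_mono {E E' : Set (Edge X G)} (hE : E ⊆ E') {x y : X} (h : EqvGen (rVP s E) x y) :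
    EqvGen (rVP s E') x y := by
  refine EqvGen.mono (fun x y h => ?_) _ _ h
  rcases h with h | ⟨e, he, h1, h2⟩
  · exact Or.inl h
  · exact Or.inr ⟨e, hE he, h1, h2⟩

lemma nv_red (hs : Conv D G s) {V : Finset X} {E : Set (Edge X G)} {e : Edge X G}
    (h : WP s E e.x e.h) : nv s V (insert e E) = nv s V E := by
  classical
  have h1 : ∀ x, Tr s (insert e E) x ↔ Tr s E x := by
    intro x
    constructor
    · exact fun ht => Tr.anti (Set.subset_insert _ _) ht
    · intro ht g hw hg
      exact ht g (WP_ins_red hs h hw) hg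
  have h2 : V.filter (fun x => Tr s (insert e E) x) = V.filter (fun x => Tr s E x) := by
    ext x
    simp only [Finset.mem_filter, h1]
  unfold nv
  rw [h2]
  apply ncl_congr
  intro x y
  constructor
  · intro hxy
    obtain ⟨g, hg, h3⟩ := (eqv_iff_WP hs).1 hxy
    exact (eqv_iff_WP hs).2 ⟨g, WP_ins_red hs h hg, h3⟩
  · exact rVP_mono (Set.subset_insert _ _)

/-- Groups outside the leaves of the ends of the new edge. -/
lemma Tr_out (hs : Conv D G s) {E : Set (Edge X G)} {e : Edge X G} {x : X}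
    (h1 : ¬ EqvGen (rVP s E) x e.x) (h2 : ¬ EqvGen (rVP s E) x (e.h • e.x)) :
    Tr s (insert e E) x ↔ Tr s E x :=
  ⟨fun ht => Tr.anti (Set.subset_insert _ _) ht,
    fun ht g hw hg => ht g (WP_ins_out hs h1 h2 hw) hg⟩

lemma eqv_new {E : Set (Edge X G)} (e : Edge X G) :
    EqvGen (rVP s (insert e E)) e.x (e.h • e.x) :=
  EqvGen.rel _ _ (Or.inr ⟨e, Set.mem_insert _ _, s.refl _, s.refl _⟩)

lemma nv_bad (hs : Conv D G s) {V : Finset X} {E : Set (Edge X G)} {e : Edge X G}
    (h1 : ¬ Tr s E e.x) (h2 : ¬ Tr s E (e.h • e.x)) : nv s V (insert e E) = nv s V E := by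
  classical
  have key : ∀ x, Tr s E x → ¬ EqvGen (rVP s E) x e.x ∧ ¬ EqvGen (rVP s E) x (e.h • e.x) :=
    fun x hx => ⟨fun h => h1 (Tr.eqv hs h hx), fun h => h2 (Tr.eqv hs h hx)⟩
  have h3 : ∀ x, Tr s (insert e E) x ↔ Tr s E x := by
    intro x
    constructor
    · exact fun ht => Tr.anti (Set.subset_insert _ _) ht
    · intro ht
      exact (Tr_out hs (key x ht).1 (key x ht).2).2 ht
  have h4 : V.filter (fun x => Tr s (insert e E) x) = V.filter (fun x => Tr s E x) := by
    ext x
    simp only [Finset.mem_filter, h3]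
  unfold nv
  rw [h4, ncl_congr (rVP_ins hs)]
  refine pc_out (fun _ _ => Iff.rfl) _ (Or.inl ?_)
  intro w hw
  exact (key w (Finset.mem_filter.1 hw).2).1

lemma nv_good (hs : Conv D G s) {V : Finset X} {E : Set (Edge X G)} {e : Edge X G}
    (hx : e.x ∈ V) (hy : e.h • e.x ∈ V) (hn : ¬ WP s E e.x e.h)
    (ht : Tr s E e.x ∨ Tr s E (e.h • e.x)) : nv s V (insert e E) + 1 = nv s V E := by
  classical
  by_cases hc : EqvGen (rVP s E) e.x (e.h • e.x)
  · -- a new loop in a trivial leaf
    have ht' : Tr s E e.x := by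
      rcases ht with h | h
      · exact h
      · exact Tr.eqv hs (EqvGen.symm _ _ hc) h
    have hl := WP_ins_loop hs hc hn
    have e1 : ∀ x, Tr s (insert e E) x ↔ Tr s E x ∧ ¬ EqvGen (rVP s E) x e.x := by
      intro x
      constructor
      · intro h
        refine ⟨Tr.anti (Set.subset_insert _ _) h, fun h' => hl ?_⟩
        exact Tr.eqv hs (rVP_mono (Set.subset_insert _ _) h') h
      · rintro ⟨h, h'⟩
        refine (Tr_out hs h' fun h'' => h' ?_).2 h
        exact EqvGen.trans _ _ _ h'' (EqvGen.symm _ _ hc)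
    have e2 : ncl (rVP s (insert e E)) (V.filter (fun x => Tr s (insert e E) x)) =
        ncl (rVP s E) (V.filter (fun x => Tr s (insert e E) x)) := by
      rw [ncl_congr (rVP_ins hs)]
      refine pc_out (fun _ _ => Iff.rfl) _ (Or.inl ?_)
      intro w hw
      exact ((e1 w).1 (Finset.mem_filter.1 hw).2).2
    unfold nv
    rw [e2]
    refine pc_remove _ _ (a := e.x) (Finset.mem_filter.2 ⟨hx, ht'⟩) ?_
    intro w
    simp only [Finset.mem_filter, e1]
    tauto
  · by_cases hty : Tr s E (e.h • e.x)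
    · by_cases htx : Tr s E e.x
      · -- both trivial
        have e1 : ∀ x, Tr s (insert e E) x ↔ Tr s E x := by
          intro x
          constructor
          · exact fun h => Tr.anti (Set.subset_insert _ _) h
          · intro h g hw hg
            by_cases hxa : EqvGen (rVP s E) x e.x
            · exact h g (WP_ins_bridge hs hc hty hxa hg hw) hg
            · by_cases hxb : EqvGen (rVP s E) x (e.h • e.x)
              · exact h g (WP_ins_bridge' hs hc htx hxb hg hw) hg
              · exact h g (WP_ins_out hs hxa hxb hw) hg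
        have e2 : V.filter (fun x => Tr s (insert e E) x) = V.filter (fun x => Tr s E x) := by
          ext x
          simp only [Finset.mem_filter, e1]
        unfold nv
        rw [e2, ncl_congr (rVP_ins hs)]
        exact ncl_add (fun _ _ => Iff.rfl) _ (Finset.mem_filter.2 ⟨hx, htx⟩)
          (Finset.mem_filter.2 ⟨hy, hty⟩) hc
      · -- `e.x` nontrivial, `e.h • e.x` trivial
        have e1 : ∀ x, Tr s (insert e E) x ↔ Tr s E x ∧
            ¬ EqvGen (rVP s E) x (e.h • e.x) := by
          intro x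
          constructor
          · intro h
            refine ⟨Tr.anti (Set.subset_insert _ _) h, fun h' => htx ?_⟩
            have h1 : Tr s (insert e E) e.x :=
              Tr.eqv hs (EqvGen.trans _ _ _ (rVP_mono (Set.subset_insert _ _) h')
                (EqvGen.symm _ _ (eqv_new e))) h
            exact Tr.anti (Set.subset_insert _ _) h1
          · rintro ⟨h, h'⟩
            exact (Tr_out hs (fun h'' => htx (Tr.eqv hs h'' h)) h').2 h
        have e2 : ncl (rVP s (insert e E)) (V.filter (fun x => Tr s (insert e E) x)) =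
            ncl (rVP s E) (V.filter (fun x => Tr s (insert e E) x)) := by
          rw [ncl_congr (rVP_ins hs)]
          refine pc_out (fun _ _ => Iff.rfl) _ (Or.inr ?_)
          intro w hw
          exact ((e1 w).1 (Finset.mem_filter.1 hw).2).2
        unfold nv
        rw [e2]
        refine pc_remove _ _ (a := e.h • e.x) (Finset.mem_filter.2 ⟨hy, hty⟩) ?_
        intro w
        simp only [Finset.mem_filter, e1]
        tauto
    · -- `e.x` trivial, `e.h • e.x` nontrivial
      have htx : Tr s E e.x := ht.resolve_right hty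
      have e1 : ∀ x, Tr s (insert e E) x ↔ Tr s E x ∧ ¬ EqvGen (rVP s E) x e.x := by
        intro x
        constructor
        · intro h
          refine ⟨Tr.anti (Set.subset_insert _ _) h, fun h' => hty ?_⟩
          have h1 : Tr s (insert e E) (e.h • e.x) :=
            Tr.eqv hs (EqvGen.trans _ _ _ (rVP_mono (Set.subset_insert _ _) h')
              (eqv_new e)) h
          exact Tr.anti (Set.subset_insert _ _) h1
        · rintro ⟨h, h'⟩
          exact (Tr_out hs h' (fun h'' => hty (Tr.eqv hs h'' h))).2 h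
      have e2 : ncl (rVP s (insert e E)) (V.filter (fun x => Tr s (insert e E) x)) =
          ncl (rVP s E) (V.filter (fun x => Tr s (insert e E) x)) := by
        rw [ncl_congr (rVP_ins hs)]
        refine pc_out (fun _ _ => Iff.rfl) _ (Or.inl ?_)
        intro w hw
        exact ((e1 w).1 (Finset.mem_filter.1 hw).2).2
      unfold nv
      rw [e2]
      refine pc_remove _ _ (a := e.x) (Finset.mem_filter.2 ⟨hx, htx⟩) ?_
      intro w
      simp only [Finset.mem_filter, e1]
      tauto

/-! ### Number of classes of directions -/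

lemma rHP_mono {E E' : Set (Edge X G)} (hE : E ⊆ E') {u v : X × Set X}
    (h : EqvGen (rHP D s E) u v) : EqvGen (rHP D s E') u v := by
  refine EqvGen.mono (fun u v h => ?_) _ _ h
  rcases h with h | ⟨e, he, h1, h2⟩
  · exact Or.inl h
  · exact Or.inr ⟨e, hE he, h1, h2⟩

lemma nd_le {F V : Finset X} {E : Set (Edge X G)} (e : Edge X G) :
    ncl (rHP D s (insert e E)) (HP D s F V) ≤ ncl (rHP D s E) (HP D s F V) :=
  ncl_mono (fun _ _ h => rHP_mono (Set.subset_insert _ _) (EqvGen.rel _ _ h)) _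

/-- The relation with one more pair. -/
def ins1 (r : X × Set X → X × Set X → Prop) (e : Edge X G) (d : Set X) :
    X × Set X → X × Set X → Prop :=
  fun u v => r u v ∨ (u = (e.x, d) ∧ v = (e.h • e.x, sm e.h d))

lemma new_dir {E : Set (Edge X G)} {e : Edge X G} {d : Set X} (hd : d ∈ dsP D s e) :
    EqvGen (rHP D s (insert e E)) (e.x, d) (e.h • e.x, sm e.h d) :=
  EqvGen.rel _ _ (Or.inr ⟨e, Set.mem_insert _ _, s.refl _, hd, s.refl _, rfl⟩)

lemma nd_one (hT : IsTree D) (hG : FreeAct D G) (hs : Conv D G s) {F V : Finset X}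
    {E : Set (Edge X G)} {e : Edge X G} (he : EV D F V e) {d : Set X} (hd : d ∈ dsP D s e)
    (hn : ¬ EqvGen (rHP D s E) (e.x, d) (e.h • e.x, sm e.h d)) :
    ncl (rHP D s (insert e E)) (HP D s F V) + 1 ≤ ncl (rHP D s E) (HP D s F V) := by
  have h1 := ncl_add (r := rHP D s E) (r' := ins1 (rHP D s E) e d) (fun _ _ => Iff.rfl)
    (HP D s F V) (dsP_mem hT hG hs he hd).1 (dsP_mem hT hG hs he hd).2 hn
  have h2 : ncl (rHP D s (insert e E)) (HP D s F V) ≤
      ncl (ins1 (rHP D s E) e d) (HP D s F V) := by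
    refine ncl_mono ?_ _
    rintro u v (h | ⟨rfl, rfl⟩)
    · exact rHP_mono (Set.subset_insert _ _) (EqvGen.rel _ _ h)
    · exact new_dir hd
  omega

lemma nd_two (hT : IsTree D) (hG : FreeAct D G) (hs : Conv D G s) {F V : Finset X}
    {E : Set (Edge X G)} {e : Edge X G} (he : EV D F V e) {d1 d2 : Set X}
    (hd1 : d1 ∈ dsP D s e) (hd2 : d2 ∈ dsP D s e)
    (hn1 : ¬ EqvGen (rHP D s E) (e.x, d1) (e.h • e.x, sm e.h d1))
    (hn2 : ¬ EqvGen (ins1 (rHP D s E) e d1) (e.x, d2) (e.h • e.x, sm e.h d2)) :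
    ncl (rHP D s (insert e E)) (HP D s F V) + 2 ≤ ncl (rHP D s E) (HP D s F V) := by
  have h1 := ncl_add (r := rHP D s E) (r' := ins1 (rHP D s E) e d1) (fun _ _ => Iff.rfl)
    (HP D s F V) (dsP_mem hT hG hs he hd1).1 (dsP_mem hT hG hs he hd1).2 hn1
  have h3 := ncl_add (r := ins1 (rHP D s E) e d1) (r' := ins1 (ins1 (rHP D s E) e d1) e d2)
    (fun _ _ => Iff.rfl)
    (HP D s F V) (dsP_mem hT hG hs he hd2).1 (dsP_mem hT hG hs he hd2).2 hn2
  have h2 : ncl (rHP D s (insert e E)) (HP D s F V) ≤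
      ncl (ins1 (ins1 (rHP D s E) e d1) e d2) (HP D s F V) := by
    refine ncl_mono ?_ _
    rintro u v ((h | ⟨rfl, rfl⟩) | ⟨rfl, rfl⟩)
    · exact rHP_mono (Set.subset_insert _ _) (EqvGen.rel _ _ h)
    · exact new_dir hd1
    · exact new_dir hd2
  omega

/-! ### Uniqueness of values -/

/-- Two elements with the same effect on a direction are equal. -/
lemma val_unique (hT : IsTree D) (hG : FreeAct D G) (hs : Clus D G s) {e : Edge X G}
    {d : Set X} (hd : d ∈ dsP D s e) {k h : G} (hk : s.r (k • e.x) (h • e.x))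
    (hd' : sm h d = sm k d) : h = k := by
  obtain ⟨y, hy, rfl⟩ := dsP_dir hd
  have h1 : sm (k⁻¹ * h) (drP D s e.x y) = drP D s e.x y := by
    rw [sm_mul, hd', ← sm_mul, inv_mul_cancel, sm_one]
  have h2 : s.r e.x ((k⁻¹ * h) • e.x) := by
    have := hs.toConv.inv k⁻¹ _ _ hk
    rwa [inv_smul_smul, ← mul_smul] at this
  have h3 := drP_free hT hG hs hy h2 h1
  exact (inv_mul_eq_one.1 h3).symm

lemma not_merged (hT : IsTree D) (hG : FreeAct D G) (hs : Clus D G s) {E : Set (Edge X G)}
    {e : Edge X G} {d : Set X} (hd : d ∈ dsP D s e) (hn : ¬ WP s E e.x e.h) :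
    ¬ EqvGen (rHP D s E) (e.x, d) (e.h • e.x, sm e.h d) := by
  intro h
  obtain ⟨k, h1, h2, h3⟩ := rHP_value hG hs.toConv h
  have := val_unique hT hG hs hd h2 h3
  rw [this] at hn
  exact hn h1

lemma sq_one (hG : FreeAct D G) {u : G} (x : X) (h : u * u = 1) : u = 1 := by
  by_contra hu
  apply hG.ne2 hu x
  rw [← mul_smul, h, one_smul]

lemma not_merged_two (hT : IsTree D) (hG : FreeAct D G) (hs : Clus D G s)
    {E : Set (Edge X G)} {e : Edge X G} {d1 d2 : Set X} (hd1 : d1 ∈ dsP D s e)
    (hd2 : d2 ∈ dsP D s e) (h12 : d1 ≠ d2) (hn : ¬ WP s E e.x e.h)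
    (ht : Tr s E e.x ∨ Tr s E (e.h • e.x)) :
    ¬ EqvGen (ins1 (rHP D s E) e d1) (e.x, d2) (e.h • e.x, sm e.h d2) := by
  intro h
  rcases pc_pair (r := rHP D s E) (r' := ins1 (rHP D s E) e d1) (fun _ _ => id) h with h | ⟨ha, hb⟩ | ⟨ha, hb⟩
  · exact not_merged hT hG hs hd2 hn h
  · obtain ⟨k, k1, k2, k3⟩ := rHP_value hG hs.toConv ha
    obtain ⟨k', k1', k2', k3'⟩ := rHP_value hG hs.toConv hb
    rcases ht with ht | ht
    · have := ht k k1 (s.symm k2)
      rw [this, sm_one] at k3
      exact h12 k3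
    · have := ht k' k1' (s.symm k2')
      rw [this, sm_one] at k3'
      apply h12
      have h5 : sm e.h⁻¹ (sm e.h d2) = sm e.h⁻¹ (sm e.h d1) := by rw [k3']
      rw [← sm_mul, ← sm_mul, inv_mul_cancel, sm_one, sm_one] at h5
      exact h5.symm
  · obtain ⟨k, k1, k2, k3⟩ := rHP_value hG hs.toConv ha
    obtain ⟨k', k1', k2', k3'⟩ := rHP_value hG hs.toConv hb
    -- `k, k'` lead from the class of `e.x` to the class of `e.h • e.x`
    have hc : EqvGen (rVP s E) e.x (e.h • e.x) := (eqv_iff_WP hs.toConv).2 ⟨k, k1, k2⟩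
    have htx : Tr s E e.x := by
      rcases ht with h | h
      · exact h
      · exact Tr.eqv hs.toConv (EqvGen.symm _ _ hc) h
    have hkk : k⁻¹ * k' = 1 := by
      apply htx
      · refine WP.comp hs.toConv k1' ?_
        refine WP.congr hs.toConv ?_ (WP.symm hs.toConv k1)
        exact s.trans k2 (s.symm k2')
      · have := hs.toConv.inv k⁻¹ _ _ (s.trans k2 (s.symm k2'))
        rwa [inv_smul_smul, ← mul_smul] at this
    have hkk' : k = k' := inv_mul_eq_one.1 hkk
    subst hkk'
    -- `k⁻¹ e.h` exchanges the directions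
    have u1 : sm (k⁻¹ * e.h) d1 = d2 := by
      rw [sm_mul, k3, ← sm_mul, inv_mul_cancel, sm_one]
    have u2 : sm (k⁻¹ * e.h) d2 = d1 := by
      rw [sm_mul, k3', ← sm_mul, inv_mul_cancel, sm_one]
    have hux : s.r e.x ((k⁻¹ * e.h) • e.x) := by
      have := hs.toConv.inv k⁻¹ _ _ k2
      rwa [inv_smul_smul, ← mul_smul] at this
    have huu : (k⁻¹ * e.h) * (k⁻¹ * e.h) = 1 := by
      obtain ⟨y, hy, hyd⟩ := dsP_dir hd1
      refine drP_free hT hG hs hy ?_ ?_
      · have := hs.toConv.inv (k⁻¹ * e.h) _ _ hux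
        rw [← mul_smul] at this
        exact s.trans hux this
      · rw [← hyd, sm_mul, u1, u2]
    have hu := sq_one hG e.x huu
    have : k = e.h := inv_mul_eq_one.1 hu
    exact hn (this ▸ k1)

/-! ### The steps -/

/-- A redundant edge. -/
theorem stp_red (hT : IsTree D) (hG : FreeAct D G) (hs : Clus D G s) {F V : Finset X}
    {E : Set (Edge X G)} {e : Edge X G} (he : EV D F V e) (h : WP s E e.x e.h) :
    Stp D s F V E (insert e E) 0 where
  sub := Set.subset_insert _ _
  le := by
    rw [Psi_eq, Psi_eq, nv_red hs.toConv h]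
    have := nd_le (D := D) (s := s) (F := F) (V := V) (E := E) e
    have h2 : (ncl (rHP D s (insert e E)) (HP D s F V) : ℤ) ≤
      (ncl (rHP D s E) (HP D s F V) : ℤ) := by exact_mod_cast this
    linarith
  grp := fun _ _ _ _ _ hw => WP_ins_red hs.toConv h hw

/-- A redundant edge with a direction which is not merged. -/
theorem stp_merge (hT : IsTree D) (hG : FreeAct D G) (hs : Clus D G s) {F V : Finset X}
    {E : Set (Edge X G)} {e : Edge X G} (he : EV D F V e) (h : WP s E e.x e.h)
    (hd : ∃ d ∈ dsP D s e, ¬ Relation.EqvGen (rHP D s E) (e.x, d) (e.h • e.x, sm e.h d)) :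
    Stp D s F V E (insert e E) (-1) where
  sub := Set.subset_insert _ _
  le := by
    obtain ⟨d, hd, hn⟩ := hd
    rw [Psi_eq, Psi_eq, nv_red hs.toConv h]
    have := nd_one hT hG hs.toConv he hd hn
    have h2 : (ncl (rHP D s (insert e E)) (HP D s F V) : ℤ) + 1 ≤
      (ncl (rHP D s E) (HP D s F V) : ℤ) := by exact_mod_cast this
    linarith
  grp := fun _ _ _ _ _ hw => WP_ins_red hs.toConv h hw

/-- Lemma K. -/
theorem stp_gen (hT : IsTree D) (hG : FreeAct D G) (hs : Clus D G s) {F V : Finset X}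
    {E : Set (Edge X G)} {e : Edge X G} (he : EV D F V e) :
    Stp D s F V E (insert e E) (2 - ((dsP D s e).ncard : ℤ)) := by
  have hle := dsP_le_two (D := D) (s := s) e
  by_cases hn : WP s E e.x e.h
  · refine (stp_red hT hG hs he hn).weak ?_
    have : ((dsP D s e).ncard : ℤ) ≤ 2 := by exact_mod_cast hle
    linarith
  · by_cases ht : Tr s E e.x ∨ Tr s E (e.h • e.x)
    · -- the good case
      have hnv := nv_good hs.toConv he.x he.hx hn ht
      have hnd : ncl (rHP D s (insert e E)) (HP D s F V) + (dsP D s e).ncard ≤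
          ncl (rHP D s E) (HP D s F V) := by
        have hcases : (dsP D s e).ncard = 0 ∨ (dsP D s e).ncard = 1 ∨ (dsP D s e).ncard = 2 := by
          omega
        rcases hcases with h0 | h1 | h2
        · rw [h0]; exact nd_le e
        · obtain ⟨d, hd⟩ := Set.ncard_eq_one.1 h1
          rw [h1]
          have hdm : d ∈ dsP D s e := by rw [hd]; exact Set.mem_singleton _
          exact nd_one hT hG hs.toConv he hdm (not_merged hT hG hs hdm hn)
        · obtain ⟨d1, d2, h12, hd⟩ := Set.ncard_eq_two.1 h2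
          rw [h2]
          have hdm1 : d1 ∈ dsP D s e := by rw [hd]; simp
          have hdm2 : d2 ∈ dsP D s e := by rw [hd]; simp
          exact nd_two hT hG hs.toConv he hdm1 hdm2 (not_merged hT hG hs hdm1 hn)
            (not_merged_two hT hG hs hdm1 hdm2 h12 hn ht)
      refine ⟨Set.subset_insert _ _, ?_, ?_⟩
      · rw [Psi_eq, Psi_eq]
        have h1 : (nv s V (insert e E) : ℤ) + 1 = (nv s V E : ℤ) := by exact_mod_cast hnv
        have h2 : (ncl (rHP D s (insert e E)) (HP D s F V) : ℤ) + ((dsP D s e).ncard : ℤ) ≤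
          (ncl (rHP D s E) (HP D s F V) : ℤ) := by exact_mod_cast hnd
        linarith
      · intro _ x hx g hg hw
        by_cases hxa : EqvGen (rVP s E) x e.x
        · have hxn : ¬ Tr s E e.x := fun h => hx (Tr.eqv hs.toConv (EqvGen.symm _ _ hxa) h)
          have hty := ht.resolve_left hxn
          have hc : ¬ EqvGen (rVP s E) e.x (e.h • e.x) := by
            intro hc
            exact hxn (Tr.eqv hs.toConv (EqvGen.symm _ _ hc) hty)
          exact WP_ins_bridge hs.toConv hc hty hxa hg hw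
        · by_cases hxb : EqvGen (rVP s E) x (e.h • e.x)
          · have hxn : ¬ Tr s E (e.h • e.x) :=
              fun h => hx (Tr.eqv hs.toConv (EqvGen.symm _ _ hxb) h)
            have htx := ht.resolve_right hxn
            have hc : ¬ EqvGen (rVP s E) e.x (e.h • e.x) := by
              intro hc
              exact hxn (Tr.eqv hs.toConv hc htx)
            exact WP_ins_bridge' hs.toConv hc htx hxb hg hw
          · exact WP_ins_out hs.toConv hxa hxb hw
    · -- the bad case: the bound is not attained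
      push Not at ht
      have hnv := nv_bad (V := V) hs.toConv ht.1 ht.2
      have hlt : Psi D s F V (insert e E) + 1 ≤ Psi D s F V E + (2 - ((dsP D s e).ncard : ℤ)) := by
        rw [Psi_eq, Psi_eq, hnv]
        rcases Nat.eq_zero_or_pos (dsP D s e).ncard with h0 | h0
        · have := nd_le (D := D) (s := s) (F := F) (V := V) (E := E) e
          have h2 : (ncl (rHP D s (insert e E)) (HP D s F V) : ℤ) ≤
            (ncl (rHP D s E) (HP D s F V) : ℤ) := by exact_mod_cast this
          rw [h0]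
          push_cast
          linarith
        · obtain ⟨d, hd⟩ := (Set.ncard_pos (dsP_finite e)).1 h0
          have := nd_one hT hG hs.toConv he hd (not_merged hT hG hs hd hn)
          have h2 : (ncl (rHP D s (insert e E)) (HP D s F V) : ℤ) + 1 ≤
            (ncl (rHP D s E) (HP D s F V) : ℤ) := by exact_mod_cast this
          have h3 : ((dsP D s e).ncard : ℤ) ≤ 2 := by exact_mod_cast hle
          linarith
      refine ⟨Set.subset_insert _ _, by linarith, ?_⟩
      intro heq
      exfalso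
      linarith

end LTree.Fg
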