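import Pool.Agent.Work.MP_0c526b_al.Fg.PBasics
import Pool.Agent.Work.MP_0c526b_al.Idx.Germ

/-!
# M6: connected class directions are connected by words (P-germ lemma)
-/

set_option autoImplicit false
set_option linter.unusedVariables false

namespace LTree.Fg

open LTree LTree.Idx

variable {Λ : Type*} [AddCommGroup Λ] [LinearOrder Λ] [IsOrderedAddMonoid Λ] {X : Type*}
variable {D : Dist Λ X} {G : Type*} [Group G] [MulAction G X] {s : Setoid X}

/-- The pair `m1, m2` crosses from the class of `x` to the outside, in the direction `d`. -/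
structure PG (D : Dist Λ X) (s : Setoid X) (x : X) (d : Set X) (m1 m2 : X) : Prop where
  i : s.r x m1
  o : ¬ s.r x m2
  e : d = drP D s x m2

lemma PG.congr (hs : Conv D G s) {x x' m1 m2 : X} {d : Set X} (h : s.r x x')
    (hp : PG D s x d m1 m2) : PG D s x' d m1 m2 where
  i := s.trans (s.symm h) hp.i
  o h' := hp.o (s.trans h h')
  e := by rw [hp.e, drP_congr hs h]

/-- One letter. -/
lemma pg_letter (hT : IsTree D) (hG : FreeAct D G) (hs : Conv D G s) {l : Letter X G}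
    {x z m1 m2 : X} {d : Set X} (hx : Btw D l.a x l.b) (hz : Btw D l.a z l.b)
    (hxz : ¬ s.r x z) (hd : d = drP D s x z) (h : PG D s x d m1 m2) :
    ∃ n1 n2, Btw D m1 n1 m2 ∧ Btw D m1 n2 m2 ∧ s.r x n1 ∧ ¬ s.r x n2 ∧ Btw D l.a n1 l.b ∧
      Btw D l.a n2 l.b ∧ PG D s (l.h • x) (sm l.h d) (l.h • n1) (l.h • n2) := by
  obtain ⟨n2, b1, b2, b3⟩ := exists_median hT m1 m2 z
  obtain ⟨n1, c1, c2, c3⟩ := exists_median hT m1 x n2
  have hout : ∀ m, Btw D m2 m z → ¬ s.r x m :=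
    (drP_eq_iff hT hs h.o hxz).1 (by rw [← h.e, hd])
  have o2 : ¬ s.r x n2 := hout n2 b2
  have i1 : s.r x n1 := s.trans h.i (hs.convex m1 n1 x (s.symm h.i) c1)
  have e1 : Btw D m1 n1 m2 := (btw_trans' b1 c3).1
  have e2 : Btw D x n2 z := by
    by_contra hcon
    have h1 : ¬ Btw D z n2 x := fun h2 => hcon h2.symm
    have h2 : Btw D x n2 m1 := dir hT b3.symm h1
    exact o2 (hs.convex x n2 m1 h.i h2)
  have e3 : Btw D x n1 z := (btw_trans' e2 c2).1
  have hd2 : d = drP D s x n2 := by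
    rw [hd]
    refine (drP_eq_iff hT hs hxz o2).2 (fun m hm => hout m ?_)
    exact (btw_trans' b2.symm hm).1.symm
  refine ⟨n1, n2, e1, b1, i1, o2, btw_convex hT hx hz e3, btw_convex hT hx hz e2,
    hs.inv _ _ _ i1, ?_, ?_⟩
  · intro h3
    have h4 := hs.inv l.h⁻¹ _ _ h3
    rw [inv_smul_smul, inv_smul_smul] at h4
    exact o2 h4
  · rw [hd2, sm_drP hG hs]

/-- Crossing pairs can be carried from `u` to `v` by words. -/
def PCl (D : Dist Λ X) (s : Setoid X) (T : Set (Letter X G)) (u v : X × Set X) : Prop :=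
  ∀ m1 m2, PG D s u.1 u.2 m1 m2 → ∃ (w : List (Letter X G)) (n1 n2 : X),
    (∀ l ∈ w, l ∈ lett T) ∧ Btw D m1 n1 m2 ∧ Btw D m1 n2 m2 ∧ s.r u.1 n1 ∧ ¬ s.r u.1 n2 ∧
      mem D w n1 ∧ mem D w n2 ∧ PG D s v.1 v.2 (val w • n1) (val w • n2)

lemma PCl.congr (hs : Conv D G s) {T : Set (Letter X G)} {u v : X × Set X} (h1 : s.r u.1 v.1)
    (h2 : u.2 = v.2) : PCl (G := G) D s T u v := by
  intro m1 m2 h
  refine ⟨[], m1, m2, fun l hl => absurd hl List.not_mem_nil, btw_left _ _, btw_right _ _,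
    h.i, h.o, trivial, trivial, ?_⟩
  simp only [val, one_smul]
  rw [← h2]
  exact h.congr hs h1

lemma PCl.trans (hT : IsTree D) (hG : FreeAct D G) (hs : Conv D G s) {T : Set (Letter X G)} {u v z : X × Set X}
    (h1 : PCl D s T u v) (h2 : PCl D s T v z) : PCl D s T u z := by
  intro m1 m2 h
  obtain ⟨w, n1, n2, hw, b1, b2, i1, o1, a1, a2, hn⟩ := h1 m1 m2 h
  obtain ⟨w', k1, k2, hw', c1, c2, i2, o2, d1, d2, hk⟩ := h2 _ _ hn
  have hv : s.r v.1 (val w • u.1) := s.trans hn.i (hs.inv _ _ _ (s.symm i1))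
  have i3 : s.r u.1 ((val w)⁻¹ • k1) := by
    have := hs.inv (val w)⁻¹ _ _ (s.trans (s.symm hv) i2)
    rwa [inv_smul_smul] at this
  have o3 : ¬ s.r u.1 ((val w)⁻¹ • k2) := by
    intro h3
    have := hs.inv (val w) _ _ h3
    rw [smul_inv_smul] at this
    exact o2 (s.trans hv this)
  have f1 : Btw D n1 ((val w)⁻¹ • k1) n2 := by
    have := hG.btw (val w)⁻¹ c1
    rwa [inv_smul_smul, inv_smul_smul] at this
  have f2 : Btw D n1 ((val w)⁻¹ • k2) n2 := by
    have := hG.btw (val w)⁻¹ c2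
    rwa [inv_smul_smul, inv_smul_smul] at this
  refine ⟨w ++ w', (val w)⁻¹ • k1, (val w)⁻¹ • k2, ?_, btw_convex hT b1 b2 f1,
    btw_convex hT b1 b2 f2, i3, o3, ?_, ?_, ?_⟩
  · intro l hl
    rcases List.mem_append.1 hl with h | h
    · exact hw l h
    · exact hw' l h
  · rw [mem_append, smul_inv_smul]
    exact ⟨mem_convex hT hG a1 a2 f1, d1⟩
  · rw [mem_append, smul_inv_smul]
    exact ⟨mem_convex hT hG a1 a2 f2, d2⟩
  · rw [val_append, mul_smul, mul_smul, smul_inv_smul, smul_inv_smul]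
    exact hk

lemma pcl_letter (hT : IsTree D) (hG : FreeAct D G) (hs : Conv D G s) {T : Set (Letter X G)}
    {l : Letter X G} (hl : l ∈ lett T) {u v : X × Set X} {x z : X} (hx : Btw D l.a x l.b)
    (hz : Btw D l.a z l.b) (hxz : ¬ s.r x z) (hux : s.r u.1 x) (hd : u.2 = drP D s x z)
    (hv : s.r (l.h • x) v.1) (hv2 : v.2 = sm l.h u.2) : PCl D s T u v := by
  intro m1 m2 h
  obtain ⟨n1, n2, e1, e2, i1, o1, e3, e4, h5⟩ :=
    pg_letter hT hG hs hx hz hxz hd (h.congr hs hux)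
  refine ⟨[l], n1, n2, ?_, e1, e2, s.trans hux i1, fun h6 => o1 (s.trans (s.symm hux) h6),
    ⟨e3, trivial⟩, ⟨e4, trivial⟩, ?_⟩
  · intro l' hl'
    rw [List.mem_singleton] at hl'
    rw [hl']; exact hl
  · have hval : val [l] = l.h := by simp [val]
    rw [hval, hv2]
    exact h5.congr hs hv

lemma pcl_edge (hT : IsTree D) (hG : FreeAct D G) (hs : Conv D G s) {T : Set (Letter X G)}
    {E : Set (Edge X G)} (hE : ∀ e ∈ E, EdgeOf D T e) {u v : X × Set X} (h : rHP D s E u v) :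
    PCl D s T u v ∧ PCl D s T v u := by
  rcases h with ⟨h1, h2⟩ | ⟨e, he, h1, h2, h3, h4⟩
  · exact ⟨PCl.congr hs h1 h2, PCl.congr hs (s.symm h1) h2.symm⟩
  · obtain ⟨hl, hx⟩ := hE e he
    have key : ∀ z, Btw D e.a z e.b → ¬ s.r e.x z → u.2 = drP D s e.x z →
        PCl D s T u v ∧ PCl D s T v u := by
      intro z hz hxz hd
      refine ⟨pcl_letter hT hG hs (l := ⟨e.a, e.b, e.h, false⟩) (Or.inl hl) hx hz hxz h1 hd h3 h4,
        ?_⟩
      refine pcl_letter hT hG hs (l := (⟨e.a, e.b, e.h, false⟩ : Letter X G).inv)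
        (Or.inr ⟨_, hl, rfl⟩) (x := e.h • e.x) (z := e.h • z) (hG.btw _ hx) (hG.btw _ hz) ?_
        (s.symm h3) ?_ ?_ ?_
      · intro h5
        have h6 := hs.inv e.h⁻¹ _ _ h5
        rw [inv_smul_smul, inv_smul_smul] at h6
        exact hxz h6
      · rw [h4, hd, sm_drP hG hs]
      · show s.r (e.h⁻¹ • e.h • e.x) u.1
        rw [inv_smul_smul]
        exact s.symm h1
      · show u.2 = sm e.h⁻¹ v.2
        rw [h4, ← sm_mul, inv_mul_cancel, sm_one]
    rcases h2 with ⟨h5, h6⟩ | ⟨h5, h6⟩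
    · exact key e.a (btw_left _ _) h5 h6
    · exact key e.b (btw_right _ _) h5 h6

theorem pgerm (hT : IsTree D) (hG : FreeAct D G) (hs : Clus D G s) {T : Set (Letter X G)}
    (hTf : ∀ l ∈ T, l.flag = false) {E : Set (Edge X G)} (hE : ∀ e ∈ E, EdgeOf D T e)
    {p q : X} {g : G} (hpq : ¬ s.r p q)
    (h : Relation.EqvGen (rHP D s E) (p, drP D s p q) (g • p, sm g (drP D s p q))) :
    ∃ m, Btw D p m q ∧ m ≠ p ∧ Conn D T m g := by
  have hc := hs.toConv
  have key : ∀ u v : X × Set X, Relation.EqvGen (rHP D s E) u v →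
      PCl D s T u v ∧ PCl D s T v u := by
    intro u v huv
    induction huv with
    | rel u v hr => exact pcl_edge hT hG hc hE hr
    | refl u => exact ⟨PCl.congr hc (s.refl _) rfl, PCl.congr hc (s.refl _) rfl⟩
    | symm u v _ ih => exact ⟨ih.2, ih.1⟩
    | trans u v w _ _ ih1 ih2 => exact ⟨ih1.1.trans hT hG hc ih2.1, ih2.2.trans hT hG hc ih1.2⟩
  obtain ⟨w, n1, n2, hw, b1, b2, i1, o1, a1, a2, hn⟩ :=
    (key _ _ h).1 p q ⟨s.refl _, hpq, rfl⟩
  have hval : s.r (g • p) (val w • p) := s.trans hn.i (hc.inv _ _ _ (s.symm i1))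
  have hd : drP D s p q = drP D s p n2 := by
    refine (drP_eq_iff hT hc hpq o1).2 (fun m hm hcon => o1 ?_)
    exact hc.convex p n2 m hcon (btw_trans' b2.symm hm).2.symm
  have hk : (val w)⁻¹ * g = 1 := by
    refine drP_free hT hG hs hpq ?_ ?_
    · have := hc.inv (val w)⁻¹ _ _ (s.symm hval)
      rwa [inv_smul_smul, ← mul_smul] at this
    · have h1 : sm g (drP D s p q) = drP D s (g • p) (val w • n2) := hn.e
      rw [sm_mul, h1, drP_congr hc hval, ← sm_drP hG hc, ← sm_mul, inv_mul_cancel, sm_one, hd]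
  refine ⟨n2, b2, ?_, w, hw, a2, (inv_mul_eq_one.1 hk)⟩
  rintro rfl
  exact o1 (s.refl _)

end LTree.Fg
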