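import Pool.Agent.Work.MP_0c526b_al.Fg.Defs

/-!
# M8: the definition of a lift (shared by PFold and PFoldC)
-/

set_option autoImplicit false
set_option linter.unusedVariables false

namespace LTree.Fg

open LTree LTree.Idx

variable {Λ : Type*} [AddCommGroup Λ] [LinearOrder Λ] [IsOrderedAddMonoid Λ] {X : Type*}
variable {G : Type*} [Group G] [MulAction G X]

/-- Everything that can be done in `T` extends to `T'` without raising the count. -/
def Lift (D : Dist Λ X) (s : Setoid X) (F : Finset X) (T T' : Set (Letter X G)) : Prop :=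
  ∀ (V0 : Finset X) (E0 : Set (Edge X G)), (∀ x ∈ V0, x ∈ hull D F) → E0.Finite →
    (∀ e ∈ E0, EdgeOf D T' e) → ∃ (V1 : Finset X) (E1 : Set (Edge X G)),
      (∀ x ∈ V1, x ∈ hull D F) ∧ E1.Finite ∧ (∀ e ∈ E1, EdgeOf D T e) ∧
      ∀ (V : Finset X) (E : Set (Edge X G)), V1 ⊆ V → E1 ⊆ E → E.Finite → Sk D F V →
        (∀ e ∈ E, EdgeOf D T e ∧ e.x ∈ V ∧ e.h • e.x ∈ V) →
        V0 ⊆ V ∧ ∃ E' : Set (Edge X G), E0 ⊆ E' ∧ E'.Finite ∧
          (∀ e ∈ E', EdgeOf D T' e ∧ e.x ∈ V ∧ e.h • e.x ∈ V) ∧ Stp D s F V E E' 0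

end LTree.Fg
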