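import Pool.Agent.Work.MP_0c526b_al.Fg.PBasics
import Pool.Agent.Work.MP_0c526b_al.Fg.LiftDef

/-!
# Inserting a finite set of edges one by one
-/

set_option autoImplicit false
set_option linter.unusedVariables false

namespace LTree.Fg

open LTree LTree.Idx

variable {Λ : Type*} [AddCommGroup Λ] [LinearOrder Λ] [IsOrderedAddMonoid Λ] {X : Type*}
variable {D : Dist Λ X} {G : Type*} [Group G] [MulAction G X] {s : Setoid X}

lemma WP.mono0 {E E' : Set (Edge X G)} (hE : E ⊆ E') {x : X} {g : G} (h : WP s E x g) :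
    WP s E' x g := by
  induction h with
  | one => exact WP.one
  | fwd g e _ he hr ih => exact WP.fwd g e ih (hE he) hr
  | bwd g e _ he hr ih => exact WP.bwd g e ih (hE he) hr

lemma Stp.refl0 (F V : Finset X) (E : Set (Edge X G)) : Stp D s F V E E 0 :=
  ⟨subset_rfl, by rw [add_zero], fun _ _ _ _ _ h => h⟩

lemma Stp.comp0 {F V : Finset X} {E E' E'' : Set (Edge X G)} {b b' : ℤ}
    (h : Stp D s F V E E' b) (h' : Stp D s F V E' E'' b') : Stp D s F V E E'' (b + b') := by
  have h1 := h.le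
  have h2 := h'.le
  refine ⟨h.sub.trans h'.sub, by omega, ?_⟩
  intro he x hx g hg hw
  have h3 : ¬ Tr s E' x := fun ht => hx fun g hw hg => ht g (hw.mono0 h.sub) hg
  exact h.grp (by omega) x hx g hg (h'.grp (by omega) x h3 g hg hw)

/-- If every edge of the finite set `A` can be inserted at no cost into all sets of edges between
`E` and `E ∪ A`, then `A` can be inserted at no cost. -/
theorem stp_many {F V : Finset X} {E A : Set (Edge X G)} (hA : A.Finite)
    (h : ∀ e ∈ A, ∀ E' : Set (Edge X G), E ⊆ E' → E' ⊆ E ∪ A →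
      Stp D s F V E' (insert e E') 0) : Stp D s F V E (E ∪ A) 0 := by
  have key : ∀ B : Set (Edge X G), B.Finite → B ⊆ A → Stp D s F V E (E ∪ B) 0 := by
    intro B hB
    induction B, hB using Set.Finite.induction_on with
    | empty =>
      intro _
      rw [Set.union_empty]
      exact Stp.refl0 F V E
    | @insert e B _ _ ih =>
      intro hBA
      have h1 := ih ((Set.subset_insert e B).trans hBA)
      have h2 := h e (hBA (Set.mem_insert e B)) (E ∪ B) Set.subset_union_left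
        (Set.union_subset_union_right E ((Set.subset_insert e B).trans hBA))
      have h3 := h1.comp0 h2
      rw [add_zero] at h3
      rwa [Set.union_insert]
  exact key A hA subset_rfl

/-! ### Lifts -/

theorem Lift.comp {F : Finset X} {T T' T'' : Set (Letter X G)} (h : Lift D s F T T')
    (h' : Lift D s F T' T'') : Lift D s F T T'' := by
  intro V0 E0 hV0 hE0 hE0T
  obtain ⟨V1, E1, hV1, hE1, hE1T, h1⟩ := h' V0 E0 hV0 hE0 hE0T
  obtain ⟨V2, E2, hV2, hE2, hE2T, h2⟩ := h V1 E1 hV1 hE1 hE1T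
  refine ⟨V2, E2, hV2, hE2, hE2T, ?_⟩
  intro V E hV hE hEf hSk hEV
  obtain ⟨a1, E', a2, a3, a4, a5⟩ := h2 V E hV hE hEf hSk hEV
  obtain ⟨b1, E'', b2, b3, b4, b5⟩ := h1 V E' a1 a2 a3 hSk a4
  refine ⟨b1, E'', b2, b3, b4, ?_⟩
  have := a5.comp0 b5
  rwa [add_zero] at this

/-- The common part of the closed and the open fold. -/
theorem lift_core (hT : IsTree D) (hG : FreeAct D G) {F : Finset X} {T : Set (Letter X G)}
    {p q : X} {g : G} (hp : p ∈ hull D F) (hq : q ∈ hull D F) (gp : g • p ∈ hull D F)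
    (gq : g • q ∈ hull D F) (E2 : Set (Edge X G)) (hE2 : E2.Finite)
    (hE2T : ∀ e ∈ E2, EdgeOf D T e) (R2 : Set X) (hR2 : R2.Finite)
    (hR2b : ∀ r ∈ R2, Btw D p r q)
    (hcount : ∀ (V : Finset X) (E : Set (Edge X G)) (R : Set X), Sk D F V → E2 ⊆ E →
      (∀ e ∈ E, EdgeOf D T e) → R.Finite → (∀ r ∈ R, Btw D p r q ∧ r ∈ V ∧ g • r ∈ V) →
      R2 ⊆ R → p ∈ R → q ∈ R →
      Stp D s F V E (E ∪ (fun r => (⟨p, q, g, r⟩ : Edge X G)) '' R) 0) :
    Lift D s F T (insert ⟨p, q, g, false⟩ T) := by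
  classical
  intro V0 E0 hV0 hE0 hE0T
  obtain ⟨E1, R1, hE1, hR1, hE1T, hR1b, hsub⟩ := fx_exists_points hE0 hE0T
  have hR : ((R1 ∪ R2) ∪ {p, q}).Finite := (hR1.union hR2).union (Set.toFinite _)
  set R : Set X := (R1 ∪ R2) ∪ {p, q} with hRdef
  have hRb : ∀ r ∈ R, Btw D p r q := by
    rintro r ((h | h) | h)
    · exact hR1b r h
    · exact hR2b r h
    · rcases h with rfl | h
      · exact btw_left _ _
      · rw [Set.mem_singleton_iff.1 h]
        exact btw_right _ _
  have hin : ∀ r, Btw D p r q → r ∈ hull D F ∧ g • r ∈ hull D F := fun r hr =>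
    ⟨hull_convex hT hp hq hr, hull_convex hT gp gq (hG.btw g hr)⟩
  refine ⟨V0 ∪ (hR.toFinset ∪ hR.toFinset.image (fun r => g • r)), E1 ∪ E2, ?_,
    hE1.union hE2, ?_, ?_⟩
  · intro x hx
    simp only [Finset.mem_union, Finset.mem_image, Set.Finite.mem_toFinset] at hx
    rcases hx with h | h | ⟨r, h, rfl⟩
    · exact hV0 x h
    · exact (hin x (hRb x h)).1
    · exact (hin r (hRb r h)).2
  · rintro e (h | h)
    · exact hE1T e h
    · exact hE2T e h
  · intro V E hV hE hEf hSk hEV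
    have m1 : ∀ r ∈ R, r ∈ V := fun r hr =>
      hV (Finset.mem_union_right _ (Finset.mem_union_left _ (hR.mem_toFinset.2 hr)))
    have m2 : ∀ r ∈ R, g • r ∈ V := fun r hr =>
      hV (Finset.mem_union_right _ (Finset.mem_union_right _
        (Finset.mem_image.2 ⟨r, hR.mem_toFinset.2 hr, rfl⟩)))
    refine ⟨Finset.subset_union_left.trans hV,
      E ∪ (fun r => (⟨p, q, g, r⟩ : Edge X G)) '' R, ?_, hEf.union (hR.image _), ?_, ?_⟩
    · intro e he
      rcases hsub he with h | ⟨r, h, rfl⟩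
      · exact Or.inl (hE (Or.inl h))
      · exact Or.inr ⟨r, Or.inl (Or.inl h), rfl⟩
    · rintro e (he | ⟨r, hr, rfl⟩)
      · obtain ⟨h1, h2⟩ := hEV e he
        exact ⟨fx_edgeOf_mono (Set.subset_insert _ _) h1, h2⟩
      · exact ⟨⟨Or.inl rfl, hRb r hr⟩, m1 r hr, m2 r hr⟩
    · exact hcount V E R hSk (Set.subset_union_right.trans hE) (fun e he => (hEV e he).1) hR
        (fun r hr => ⟨hRb r hr, m1 r hr, m2 r hr⟩) (fun r hr => Or.inl (Or.inr hr))
        (Or.inr (Or.inl rfl)) (Or.inr (Or.inr rfl))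

end LTree.Fg
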