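import Pool.Agent.Work.MP_0c526b_al.Fg.PWords
import Pool.Agent.Work.MP_0c526b_al.Fg.PGerm
import Pool.Agent.Work.MP_0c526b_al.Fg.PCount
import Pool.Agent.Work.MP_0c526b_al.Fg.PIns

/-!
# M8: the open fold and the transfer of the class index
-/

set_option autoImplicit false
set_option linter.unusedVariables false

namespace LTree.Fg

open LTree LTree.Idx

variable {Λ : Type*} [AddCommGroup Λ] [LinearOrder Λ] [IsOrderedAddMonoid Λ] {X : Type*}
variable {D : Dist Λ X} {G : Type*} [Group G] [MulAction G X] {s : Setoid X}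

/-- Edges of one family: each one is redundant over `E`, or interior. -/
theorem stp_fam_o (hT : IsTree D) (hG : FreeAct D G) (hs : Clus D G s) {F V : Finset X}
    {E : Set (Edge X G)} {p q : X} {g : G} {A : Set X} (hA : A.Finite)
    (hEV : ∀ r ∈ A, EV D F V (⟨p, q, g, r⟩ : Edge X G))
    (h : ∀ r ∈ A, WP s E r g ∨ (¬ s.r r p ∧ ¬ s.r r q)) :
    Stp D s F V E (E ∪ (fun r => (⟨p, q, g, r⟩ : Edge X G)) '' A) 0 := by
  apply stp_many (hA.image _)
  rintro _ ⟨r, hr, rfl⟩ E' hE' -
  rcases h r hr with h1 | ⟨h1, h2⟩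
  · exact stp_red hT hG hs (hEV r hr) (h1.mono0 hE')
  · have h3 := stp_gen hT hG hs (E := E') (hEV r hr)
    rw [dsP_mid hT hs.toConv g (hEV r hr).btw h1 h2] at h3
    simpa using h3

/-- Once an edge at the class of `x` is inserted, its value is available there. -/
lemma WP_edge_o (hs : Conv D G s) {E : Set (Edge X G)} {p q r r' : X} {g : G}
    (he : (⟨p, q, g, r⟩ : Edge X G) ∈ E) (h : s.r r' r) : WP s E r' g := by
  have h1 := WP.fwd (s := s) (E := E) (x := r') 1 (⟨p, q, g, r⟩ : Edge X G) WP.one he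
    (by rw [one_smul]; exact h)
  rwa [mul_one] at h1

/-- The open fold. -/
theorem lift_open (hT : IsTree D) (hG : FreeAct D G) (hs : Clus D G s) {F : Finset X}
    {T : Set (Letter X G)} (hS : Sys D F T) {p q : X} {g : G} (hp : p ∈ hull D F)
    (hq : q ∈ hull D F) (gp : g • p ∈ hull D F) (gq : g • q ∈ hull D F)
    (h0 : Conn D T p g) (h1 : ∀ m, Btw D p m q → m ≠ p → ¬ Conn D T m g) :
    Lift D s F T (insert ⟨p, q, g, false⟩ T) := by
  obtain ⟨E2, hE2, hE2T, hw⟩ := conn_WP hG hs.toConv hS.flag h0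
  refine lift_core hT hG hp hq gp gq E2 hE2 hE2T ∅ Set.finite_empty
    (fun r hr => absurd hr (Set.notMem_empty r)) ?_
  intro V E R hSk hEE hET hR hRb _ hpR hqR
  have hEV : ∀ r ∈ R, EV D F V (⟨p, q, g, r⟩ : Edge X G) := fun r hr =>
    ⟨(hRb r hr).2.1, (hRb r hr).2.2, hp, hq, gp, gq, (hRb r hr).1⟩
  have hwE : WP s E p g := hw.mono0 hEE
  by_cases hpq : s.r p q
  · -- everything in one class
    apply stp_fam_o hT hG hs hR hEV
    intro r hr
    left
    exact WP.congr hs.toConv (hs.convex p r q hpq (hRb r hr).1) hwE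
  · set f : X → Edge X G := fun r => ⟨p, q, g, r⟩ with hf
    -- the edge at p
    have a1 : Stp D s F V E (insert (f p) E) (-1) := by
      refine stp_merge hT hG hs (hEV p hpR) hwE
        ⟨drP D s p q, dsP_start hs.toConv g (s.refl p) hpq, ?_⟩
      intro hcon
      obtain ⟨m, hm1, hm2, hm3⟩ := pgerm hT hG hs hS.flag hET hpq hcon
      exact h1 m hm1 hm2 hm3
    -- the edges near p and the interior ones
    set A : Set X := {r ∈ R | ¬ s.r r q} with hA
    have hAR : A ⊆ R := fun r hr => hr.1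
    have a2 : Stp D s F V (insert (f p) E) (insert (f p) E ∪ f '' A) 0 := by
      apply stp_fam_o hT hG hs (hR.subset hAR) (fun r hr => hEV r (hAR hr))
      intro r hr
      by_cases h2 : s.r r p
      · left
        exact (WP.congr hs.toConv (s.symm h2) hwE).mono0 (Set.subset_insert _ _)
      · exact Or.inr ⟨h2, hr.2⟩
    -- the edge at q
    have a3 : Stp D s F V (insert (f p) E ∪ f '' A) (insert (f q) (insert (f p) E ∪ f '' A)) 1 := by
      have h3 := stp_gen hT hG hs (E := insert (f p) E ∪ f '' A) (hEV q hqR)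
      rw [dsP_end hs.toConv g (s.refl q) hpq] at h3
      simpa using h3
    set B : Set X := {r ∈ R | s.r r q} with hB
    have hBR : B ⊆ R := fun r hr => hr.1
    have a4 : Stp D s F V (insert (f q) (insert (f p) E ∪ f '' A))
        (insert (f q) (insert (f p) E ∪ f '' A) ∪ f '' B) 0 := by
      apply stp_fam_o hT hG hs (hR.subset hBR) (fun r hr => hEV r (hBR hr))
      intro r hr
      left
      exact WP_edge_o hs.toConv (Set.mem_insert _ _) hr.2
    have a5 := ((a1.comp0 a2).comp0 a3).comp0 a4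
    have e1 : insert (f q) (insert (f p) E ∪ f '' A) ∪ f '' B = E ∪ f '' R := by
      ext e
      constructor
      · rintro ((rfl | ((rfl | h) | ⟨r, hr, rfl⟩)) | ⟨r, hr, rfl⟩)
        · exact Or.inr ⟨q, hqR, rfl⟩
        · exact Or.inr ⟨p, hpR, rfl⟩
        · exact Or.inl h
        · exact Or.inr ⟨r, hAR hr, rfl⟩
        · exact Or.inr ⟨r, hBR hr, rfl⟩
      · rintro (h | ⟨r, hr, rfl⟩)
        · exact Or.inl (Or.inr (Or.inl (Or.inr h)))
        · by_cases h2 : s.r r q
          · exact Or.inr ⟨r, ⟨hr, h2⟩, rfl⟩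
          · exact Or.inl (Or.inr (Or.inr ⟨r, ⟨hr, h2⟩, rfl⟩))
    rw [e1] at a5
    simpa using a5

/-- Transfer of the class index. -/
theorem Lift.claimP {F : Finset X} {T T' : Set (Letter X G)} (h : Lift D s F T T')
    {Q : Set (Edge X G) → Prop} {c : ℤ} (hc : ClaimP D s F T Q c)
    (hQ : (∀ E, Q E) ∨ (¬ ClaimP D s F T' (fun _ => True) (c - 1) ∧
      ∀ E E' : Set (Edge X G), E ⊆ E' → Q E →
        (∀ x, ¬ Tr s E x → ∀ g : G, s.r x (g • x) → WP s E' x g → WP s E x g) → Q E')) :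
    ClaimP D s F T' Q c := by
  classical
  intro V0 E0 hV0 hE0 hE0T
  rcases hQ with hQ | ⟨hlow, hQ⟩
  · obtain ⟨V1, E1, hV1, hE1, hE1T, h1⟩ := h V0 E0 hV0 hE0 hE0T
    obtain ⟨V, E, hV, hE, hEf, hSk, hEV, -, hPsi⟩ := hc V1 E1 hV1 hE1 hE1T
    obtain ⟨b1, E', b2, b3, b4, b5⟩ := h1 V E hV hE hEf hSk hEV
    exact ⟨V, E', b1, b2, b3, hSk, b4, hQ E', by have := b5.le; omega⟩
  · unfold ClaimP at hlow
    push Not at hlow
    obtain ⟨V', E', hV', hE', hE'T, hlow⟩ := hlow
    obtain ⟨V1, E1, hV1, hE1, hE1T, h1⟩ := h (V0 ∪ V') (E0 ∪ E') (by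
      intro x hx
      rcases Finset.mem_union.1 hx with hx | hx
      · exact hV0 x hx
      · exact hV' x hx) (hE0.union hE') (by
      rintro e (he | he)
      · exact hE0T e he
      · exact hE'T e he)
    obtain ⟨V, E, hV, hE, hEf, hSk, hEV, hQE, hPsi⟩ := hc V1 E1 hV1 hE1 hE1T
    obtain ⟨b1, E'', b2, b3, b4, b5⟩ := h1 V E hV hE hEf hSk hEV
    have h2 := hlow V E'' (Finset.subset_union_right.trans b1)
      (Set.subset_union_right.trans b2) b3 hSk b4 trivial
    have h3 := b5.le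
    exact ⟨V, E'', Finset.subset_union_left.trans b1, Set.subset_union_left.trans b2, b3, hSk, b4,
      hQ E E'' b5.sub hQE (b5.grp (by omega)), by omega⟩

end LTree.Fg
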