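import Pool.Agent.Work.MP_0c526b_al.Fg.PFoldC
import Pool.Agent.Work.MP_0c526b_al.Fg.Adm
import Pool.Agent.Work.MP_0c526b_al.Fg.PFold

/-!
# M10b: the whole fold lifts, for stable systems
-/

set_option autoImplicit false
set_option linter.unusedVariables false

namespace LTree.Fg

open LTree LTree.Idx LTree.Idx.Subtree

variable {Λ : Type*} [AddCommGroup Λ] [LinearOrder Λ] [IsOrderedAddMonoid Λ] {X : Type*}
variable {D : Dist Λ X} {G : Type*} [Group G] [MulAction G X] {s : Setoid X}

/-- The whole fold lifts, for stable systems. -/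
theorem lift_fold (hT : IsTree D) (hG : FreeAct D G) (hs : Clus D G s) {S : Finset G} {x0 : X}
    {cX : ℤ} (hL : Least D S x0 cX) {T : Set (Letter X G)} (hA : Adm D S x0 T)
    (hc : ClaimA D T cX) {p q q' : X} {g : G} (hp : p ∈ KK D G x0) (hq : q ∈ KK D G x0)
    (hd : FData hT T p q g q') {F : Finset X} (hF : Sys D F (fold T p q g q')) :
    Lift D s F T (fold T p q g q') := by
  have hq' := fdata_KK hT hp hq hd
  set T1 : Set (Letter X G) := insert ⟨p, q', g, false⟩ T with hT1
  have hA1 : Adm D S x0 T1 := adm_ins hT hG hA hp hq'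
  have hc1 : ClaimA D T1 cX := (claimA_ins hT hG hA hc hp hq hd).1
  have hF1 : Sys D F T1 := Sys.anti hF (Set.subset_insert _ _)
  have hF0 : Sys D F T := Sys.anti hF1 (Set.subset_insert _ _)
  have l1 : (⟨p, q', g, false⟩ : Letter X G) ∈ T1 := Set.mem_insert _ _
  have l2 : (⟨q', q, g, false⟩ : Letter X G) ∈ fold T p q g q' := Set.mem_insert _ _
  have p1 := hF1.ha _ l1
  have p2 := hF1.ga _ l1
  have p3 := hF1.hb _ l1
  have p4 := hF1.gb _ l1
  have q1 := hF.hb _ l2
  have q2 := hF.gb _ l2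
  have h0 : Conn D T1 q' g :=
    ⟨[⟨p, q', g, false⟩], by
      intro l hl
      rw [List.mem_singleton] at hl
      subst hl
      exact Or.inl l1, ⟨btw_right p q', trivial⟩, by simp [val]⟩
  have h1 := stable hT hG hL hA1 hc1 hq' hq h0 hd.stop
  exact (lift_closed hT hG hs hF0 p1 q1 p2 q2 hd).comp
    (lift_open hT hG hs hF1 p3 q1 p4 q2 h0 h1)

end LTree.Fg
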