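import Pool.Agent.Work.MP_0c526b_al.Fg.PBasics
import Pool.Agent.Work.MP_0c526b_al.Fg.PWords
import Pool.Agent.Work.MP_0c526b_al.Idx.Ncl

/-!
# M13: the class index is at least `-2`
-/

set_option autoImplicit false
set_option linter.unusedVariables false

namespace LTree.Fg

open LTree LTree.Idx

variable {Λ : Type*} [AddCommGroup Λ] [LinearOrder Λ] [IsOrderedAddMonoid Λ] {X : Type*}
variable {D : Dist Λ X} {G : Type*} [Group G] [MulAction G X] {s : Setoid X}

/-- Representatives of the classes. -/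
theorem exists_reps {α : Type*} (r : α → α → Prop) (W : Finset α) :
    ∃ I : Finset α, I ⊆ W ∧ I.card = ncl r W ∧
      (∀ x ∈ I, ∀ y ∈ I, Relation.EqvGen r x y → x = y) := by
  classical
  rcases W.eq_empty_or_nonempty with rfl | ⟨w, -⟩
  · refine ⟨∅, Finset.Subset.refl _, ?_, fun x hx => absurd hx (Finset.notMem_empty _)⟩
    rw [ncl_eq, Finset.image_empty]
    rfl
  have : Nonempty α := ⟨w⟩
  have hrep : ∀ q ∈ W.image (Quot.mk r), ∃ x ∈ W, Quot.mk r x = q := fun q hq =>
    Finset.mem_image.1 hq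
  choose! rep h1 h2 using hrep
  refine ⟨(W.image (Quot.mk r)).image rep, ?_, ?_, ?_⟩
  · intro x hx
    obtain ⟨q, hq, rfl⟩ := Finset.mem_image.1 hx
    exact h1 q hq
  · rw [ncl_eq]
    refine Finset.card_image_of_injOn ?_
    intro q hq q' hq' h
    rw [← h2 q hq, ← h2 q' hq', h]
  · intro x hx y hy h
    obtain ⟨q, hq, rfl⟩ := Finset.mem_image.1 hx
    obtain ⟨q', hq', rfl⟩ := Finset.mem_image.1 hy
    have h3 : Quot.mk r (rep q) = Quot.mk r (rep q') := Quot.eqvGen_sound h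
    rw [h2 q hq, h2 q' hq'] at h3
    rw [h3]

theorem claimP_lb (hT : IsTree D) (hG : FreeAct D G) (hs : Clus D G s) {F : Finset X}
    {T : Set (Letter X G)} (hS : Sys D F T) {x0 : X} (hx0 : x0 ∈ F)
    (hconn : ∀ f ∈ F, ∃ g : G, Conn D T x0 g ∧ f = g • x0) {c : ℤ}
    (hc : ClaimP D s F T (fun _ => True) c) : -2 ≤ c := by
  classical
  have hs' := hs.toConv
  have h1 : ∀ f ∈ F, ∃ E : Set (Edge X G), E.Finite ∧ (∀ e ∈ E, EdgeOf D T e) ∧
      ∃ g : G, WP s E x0 g ∧ f = g • x0 := by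
    intro f hf
    obtain ⟨g, hg, rfl⟩ := hconn f hf
    obtain ⟨E, h1, h2, h3⟩ := conn_WP (s := s) hG hs' hS.flag hg
    exact ⟨E, h1, h2, g, h3, rfl⟩
  choose! Ef hE1 hE2 hE3 using h1
  obtain ⟨V, E, hV0, hE0, hEfin, hSk, hEV, -, hPsi⟩ := hc F (⋃ f ∈ F, Ef f)
    (fun x hx => subset_hull hx) (Set.Finite.biUnion F.finite_toSet hE1)
    (by
      intro e he
      simp only [Set.mem_iUnion] at he
      obtain ⟨f, hf, he⟩ := he
      exact hE2 f hf e he)
  have hF0 : ∀ f ∈ F, Relation.EqvGen (rVP s E) x0 f := by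
    intro f hf
    obtain ⟨g, hg, hfg⟩ := hE3 f hf
    rw [eqv_iff_WP hs']
    refine ⟨g, WP.mono (fun e he => hE0 ?_) hg, ?_⟩
    · simp only [Set.mem_iUnion]
      exact ⟨f, hf, he⟩
    · rw [← hfg]
  obtain ⟨I, hIW, hIcard, hIinj⟩ := exists_reps (rVP s E) (V.filter (fun x => Tr s E x))
  have hIV : ∀ x ∈ I, x ∈ V ∧ Tr s E x := fun x hx => Finset.mem_filter.1 (hIW hx)
  -- the representatives which are not connected to `x0`
  obtain ⟨J, hJ⟩ : ∃ J : Finset X, J = I.filter (fun x => ¬ Relation.EqvGen (rVP s E) x x0) :=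
    ⟨_, rfl⟩
  have hJcard : I.card ≤ J.card + 1 := by
    have h1 : (I.filter (fun x => Relation.EqvGen (rVP s E) x x0)).card ≤ 1 := by
      rw [Finset.card_le_one]
      intro a ha b hb
      rw [Finset.mem_filter] at ha hb
      exact hIinj a ha.1 b hb.1 (ha.2.trans _ _ _ (hb.2.symm _ _))
    have h2 := Finset.card_filter_add_card_filter_not (s := I)
      (fun x => Relation.EqvGen (rVP s E) x x0)
    rw [← hJ] at h2
    omega
  have hJI : ∀ x ∈ J, x ∈ I := by
    intro x hx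
    rw [hJ] at hx
    exact (Finset.mem_filter.1 hx).1
  -- two directions at each of them
  have hdir : ∀ x ∈ J, ∃ f ∈ F, ∃ f' ∈ F, ¬ s.r x f ∧ ¬ s.r x f' ∧
      drP D s x f ≠ drP D s x f' := by
    intro x hx
    rw [hJ, Finset.mem_filter] at hx
    have h1 : ∀ f ∈ F, ¬ s.r x f := by
      intro f hf h
      refine hx.2 (Relation.EqvGen.trans _ f _ (Relation.EqvGen.rel _ _ (Or.inl h)) ?_)
      exact (hF0 f hf).symm _ _
    obtain ⟨f, hf, f', hf', h2⟩ := two_drP hT hs' (hSk.sub x (hIV x hx.1).1) h1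
    exact ⟨f, hf, f', hf', h1 f hf, h1 f' hf', h2⟩
  choose! f1 hf1 f2 hf2 hn1 hn2 hne using hdir
  have hcount : (J ×ˢ (Finset.univ : Finset Bool)).card ≤ ncl (rHP D s E) (HP D s F V) := by
    refine le_ncl (HP D s F V) (J ×ˢ (Finset.univ : Finset Bool))
      (fun u => (u.1, if u.2 then drP D s u.1 (f1 u.1) else drP D s u.1 (f2 u.1))) ?_ ?_
    · rintro ⟨x, b⟩ hu
      rw [Finset.mem_product] at hu
      have hx : x ∈ J := hu.1
      have hxI : x ∈ I := hJI x hx
      cases b with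
      | true => exact mem_HP.2 ⟨(hIV x hxI).1, f1 x, hf1 x hx, hn1 x hx, rfl⟩
      | false => exact mem_HP.2 ⟨(hIV x hxI).1, f2 x, hf2 x hx, hn2 x hx, rfl⟩
    · rintro ⟨x, b⟩ hu ⟨y, b'⟩ hu' h
      rw [Finset.mem_product] at hu hu'
      have hx : x ∈ J := hu.1
      have hy : y ∈ J := hu'.1
      have hxI : x ∈ I := hJI x hx
      have hyI : y ∈ I := hJI y hy
      obtain ⟨g, hg1, hg2, hg3⟩ := rHP_value hG hs' h
      have hxy : x = y := hIinj x hxI y hyI ((eqv_iff_WP hs').2 ⟨g, hg1, hg2⟩)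
      subst hxy
      have hg : g = 1 := (hIV x hxI).2 g hg1 (s.symm hg2)
      subst hg
      rw [sm_one] at hg3
      refine Prod.ext rfl ?_
      cases b with
      | true =>
        cases b' with
        | true => rfl
        | false => exact absurd hg3.symm (hne x hx)
      | false =>
        cases b' with
        | true => exact absurd hg3 (hne x hx)
        | false => rfl
  rw [Finset.card_product, Finset.card_univ, Fintype.card_bool] at hcount
  have hP : Psi D s F V E = (ncl (rHP D s E) (HP D s F V) : ℤ) -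
      2 * (ncl (rVP s E) (V.filter (fun x => Tr s E x)) : ℤ) := by
    rfl
  rw [hP, ← hIcard] at hPsi
  omega

end LTree.Fg
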