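import Pool.Agent.Work.MP_0c526b_al.Idx.Ncl

/-!
# M3: number of classes, adding a pair
-/

set_option autoImplicit false
set_option linter.unusedVariables false

namespace LTree.Fg

open LTree LTree.Idx

theorem eqv_pair {α : Type*} {r r' : α → α → Prop} {a b : α}
    (h : ∀ x y, r' x y ↔ r x y ∨ (x = a ∧ y = b)) (x y : α) :
    Relation.EqvGen r' x y ↔ Relation.EqvGen r x y ∨
      (Relation.EqvGen r x a ∧ Relation.EqvGen r b y) ∨
      (Relation.EqvGen r x b ∧ Relation.EqvGen r a y) := by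
  have hmono : ∀ x y, Relation.EqvGen r x y → Relation.EqvGen r' x y := fun x y hxy =>
    Relation.EqvGen.mono (fun x y hr => (h x y).2 (Or.inl hr)) _ _ hxy
  have hab : Relation.EqvGen r' a b := Relation.EqvGen.rel _ _ ((h a b).2 (Or.inr ⟨rfl, rfl⟩))
  have T : ∀ {u v w : α}, Relation.EqvGen r u v → Relation.EqvGen r v w →
      Relation.EqvGen r u w := fun h1 h2 => Relation.EqvGen.trans _ _ _ h1 h2
  have S : ∀ {u v : α}, Relation.EqvGen r u v → Relation.EqvGen r v u :=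
    fun h1 => Relation.EqvGen.symm _ _ h1
  constructor
  · intro hxy
    induction hxy with
    | rel x y hr =>
      rcases (h x y).1 hr with h1 | ⟨rfl, rfl⟩
      · exact Or.inl (Relation.EqvGen.rel _ _ h1)
      · exact Or.inr (Or.inl ⟨Relation.EqvGen.refl _, Relation.EqvGen.refl _⟩)
    | refl x => exact Or.inl (Relation.EqvGen.refl _)
    | symm x y _ ih =>
      rcases ih with h1 | ⟨h1, h2⟩ | ⟨h1, h2⟩
      · exact Or.inl (S h1)
      · exact Or.inr (Or.inr ⟨S h2, S h1⟩)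
      · exact Or.inr (Or.inl ⟨S h2, S h1⟩)
    | trans x y z _ _ ih1 ih2 =>
      rcases ih1 with h1 | ⟨h1, h2⟩ | ⟨h1, h2⟩
      · rcases ih2 with h3 | ⟨h3, h4⟩ | ⟨h3, h4⟩
        · exact Or.inl (T h1 h3)
        · exact Or.inr (Or.inl ⟨T h1 h3, h4⟩)
        · exact Or.inr (Or.inr ⟨T h1 h3, h4⟩)
      · rcases ih2 with h3 | ⟨h3, h4⟩ | ⟨h3, h4⟩
        · exact Or.inr (Or.inl ⟨h1, T h2 h3⟩)
        · exact Or.inl (T h1 (T (S (T h2 h3)) h4))
        · exact Or.inl (T h1 h4)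
      · rcases ih2 with h3 | ⟨h3, h4⟩ | ⟨h3, h4⟩
        · exact Or.inr (Or.inr ⟨h1, T h2 h3⟩)
        · exact Or.inl (T h1 h4)
        · exact Or.inl (T h1 (T (S (T h2 h3)) h4))
  · rintro (h1 | ⟨h1, h2⟩ | ⟨h1, h2⟩)
    · exact hmono _ _ h1
    · exact Relation.EqvGen.trans _ _ _ (hmono _ _ h1)
        (Relation.EqvGen.trans _ _ _ hab (hmono _ _ h2))
    · exact Relation.EqvGen.trans _ _ _ (hmono _ _ h1)
        (Relation.EqvGen.trans _ _ _ (Relation.EqvGen.symm _ _ hab) (hmono _ _ h2))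

/-- Comparison of the numbers of classes of one set. -/
theorem ncl_le_of {α : Type*} {r r' : α → α → Prop} (W : Finset α)
    (h : ∀ x ∈ W, ∀ y ∈ W, Relation.EqvGen r' x y → Relation.EqvGen r x y) :
    ncl r W ≤ ncl r' W := by
  classical
  have hrep : ∀ q ∈ W.image (Quot.mk r), ∃ w ∈ W, Quot.mk r w = q := fun q hq =>
    Finset.mem_image.1 hq
  rcases W.eq_empty_or_nonempty with h0 | ⟨w0, hw0⟩
  · subst h0
    rw [ncl_eq]
    simp
  · have : Nonempty α := ⟨w0⟩
    choose! f hf1 hf2 using hrep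
    rw [ncl_eq r]
    refine le_ncl W _ f hf1 ?_
    intro i hi j hj hij
    rw [← hf2 i hi, ← hf2 j hj]
    exact Quot.eqvGen_sound (h _ (hf1 i hi) _ (hf1 j hj) hij)

/-- Adding a pair which does not concern `W`. -/
theorem ncl_out {α : Type*} {r r' : α → α → Prop} {a b : α}
    (h : ∀ x y, r' x y ↔ r x y ∨ (x = a ∧ y = b)) (W : Finset α)
    (hW : (∀ w ∈ W, ¬ Relation.EqvGen r w a) ∨ (∀ w ∈ W, ¬ Relation.EqvGen r w b)) :
    ncl r' W = ncl r W := by
  apply le_antisymm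
  · apply ncl_mono
    intro x y hxy
    exact Relation.EqvGen.rel _ _ ((h x y).2 (Or.inl hxy))
  · apply ncl_le_of
    intro x hx y hy hxy
    rcases (eqv_pair h x y).1 hxy with h1 | ⟨h1, h2⟩ | ⟨h1, h2⟩
    · exact h1
    · rcases hW with hW | hW
      · exact absurd h1 (hW x hx)
      · exact absurd (Relation.EqvGen.symm _ _ h2) (hW y hy)
    · rcases hW with hW | hW
      · exact absurd (Relation.EqvGen.symm _ _ h2) (hW y hy)
      · exact absurd h1 (hW x hx)

/-- Removing one class. -/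
theorem ncl_remove {α : Type*} {r : α → α → Prop} (W W' : Finset α) {a : α} (ha : a ∈ W)
    (hW : ∀ w, w ∈ W' ↔ w ∈ W ∧ ¬ Relation.EqvGen r w a) : ncl r W' + 1 = ncl r W := by
  classical
  rw [ncl_eq, ncl_eq]
  have h1 : W.image (Quot.mk r) = insert (Quot.mk r a) (W'.image (Quot.mk r)) := by
    ext q
    rw [Finset.mem_insert, Finset.mem_image, Finset.mem_image]
    constructor
    · rintro ⟨w, hw, rfl⟩
      by_cases hwa : Relation.EqvGen r w a
      · exact Or.inl (Quot.eqvGen_sound hwa)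
      · exact Or.inr ⟨w, (hW w).2 ⟨hw, hwa⟩, rfl⟩
    · rintro (rfl | ⟨w, hw, rfl⟩)
      · exact ⟨a, ha, rfl⟩
      · exact ⟨w, ((hW w).1 hw).1, rfl⟩
  rw [h1, Finset.card_insert_of_notMem]
  intro h2
  obtain ⟨w, hw, e⟩ := Finset.mem_image.1 h2
  exact ((hW w).1 hw).2 (Quot.eqvGen_exact e)

theorem ncl_sub {α : Type*} {r : α → α → Prop} {V W : Finset α} (h : V ⊆ W) :
    ncl r V ≤ ncl r W := by
  classical
  rw [ncl_eq, ncl_eq]
  exact Finset.card_le_card (Finset.image_subset_image h)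

end LTree.Fg
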