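import Pool.Agent.Work.MP_0c526b_al.Fg.PBasics
import Pool.Agent.Work.MP_0c526b_al.Fg.PWords
import Pool.Agent.Work.MP_0c526b_al.Fg.PNcl

/-!
# M4: Euler characteristic at the level of classes
-/

set_option autoImplicit false
set_option linter.unusedVariables false

namespace LTree.Fg

open LTree LTree.Idx

variable {Λ : Type*} [AddCommGroup Λ] [LinearOrder Λ] [IsOrderedAddMonoid Λ] {X : Type*}
variable {D : Dist Λ X} {G : Type*} [Group G] [MulAction G X] {s : Setoid X}

namespace PEuler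

/-- Two points of a segment are comparable. -/
lemma btw_total (hT : IsTree D) {o p q y : X} (hp : Btw D o p y) (hq : Btw D o q y) :
    Btw D o p q ∨ Btw D o q p := by
  have h := btw_dist hT hp hq
  have h' := D.symm p q
  rcases le_total (D.d o p) (D.d o q) with h1 | h1
  · left
    unfold Btw
    rw [h, abs_of_nonpos (by grind)]
    grind
  · right
    unfold Btw
    rw [← h', h, abs_of_nonneg (by grind)]
    grind

/-- Every point of `V` outside the class of `o` has a nearest other class before it. -/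
lemma exists_parP {V : Finset X} {o y : X} (ho : o ∈ V) (hy : ¬ s.r o y) :
    ∃ x ∈ V, ¬ s.r x y ∧ Btw D o x y ∧ ∀ z ∈ V, ¬ s.r z y → Btw D o z y →
      D.d o z ≤ D.d o x := by
  classical
  obtain ⟨x, hx, hmax⟩ := (V.filter (fun z => ¬ s.r z y ∧ Btw D o z y)).exists_max_image
    (fun z => D.d o z) ⟨o, Finset.mem_filter.2 ⟨ho, hy, btw_left _ _⟩⟩
  obtain ⟨h1, h2, h3⟩ := Finset.mem_filter.1 hx
  exact ⟨x, h1, h2, h3, fun z hz hzy hb => hmax z (Finset.mem_filter.2 ⟨hz, hzy, hb⟩)⟩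

lemma eq_of_le (hT : IsTree D) {o p q : X} (h : Btw D o p q) (hle : D.d o q ≤ D.d o p) :
    p = q := by
  apply D.eq_of_d
  have h1 := D.nonneg p q
  unfold Btw at h
  grind

/-- Injectivity of the parent map. -/
lemma par_inj (hT : IsTree D) (hs : Conv D G s) {F V : Finset X} (hV : Sk D F V) {o : X}
    (ho : o ∈ V) {x1 x2 y1 y2 : X} (hx1 : x1 ∈ V) (hx2 : x2 ∈ V) (hy1 : y1 ∈ V) (hy2 : y2 ∈ V)
    (n1 : ¬ s.r x1 y1) (n2 : ¬ s.r x2 y2) (b1 : Btw D o x1 y1) (b2 : Btw D o x2 y2)
    (m1 : ∀ z ∈ V, ¬ s.r z y1 → Btw D o z y1 → D.d o z ≤ D.d o x1)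
    (m2 : ∀ z ∈ V, ¬ s.r z y2 → Btw D o z y2 → D.d o z ≤ D.d o x2)
    (hx : s.r x1 x2) (hd : drP D s x1 y1 = drP D s x2 y2) : s.r y1 y2 := by
  have n2' : ¬ s.r x1 y2 := fun h => n2 (s.trans (s.symm hx) h)
  rw [← drP_congr hs hx y2, drP_eq_iff hT hs n1 n2'] at hd
  have hm := med_spec hT o y1 y2
  set m := med hT o y1 y2 with hmdef
  have hmV : m ∈ V := hV.med_mem hT ho hy1 hy2 hm
  obtain ⟨hmo1, hm12, hmo2⟩ := hm
  have hnm : ¬ s.r x1 m := hd m hm12
  -- the first side
  have e1 : s.r m y1 := by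
    by_contra hne
    rcases btw_total hT b1 hmo1 with h | h
    · have h1 := eq_of_le hT h (m1 m hmV hne hmo1)
      rw [← h1] at hnm
      exact hnm (s.refl x1)
    · have h1 : Btw D m x1 y1 := (btw_trans' b1 h).2
      have h2 : Btw D y1 x1 y2 := by
        have h3 : Btw D y1 x1 m := h1.symm
        exact (btw_trans' hm12 h3).1
      exact hd x1 h2 (s.refl x1)
  have e2 : s.r m y2 := by
    by_contra hne
    rcases btw_total hT b2 hmo2 with h | h
    · have h1 := eq_of_le hT h (m2 m hmV hne hmo2)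
      rw [← h1] at hnm
      exact hnm hx
    · have h1 : Btw D m x2 y2 := (btw_trans' b2 h).2
      have h2 : Btw D y1 x2 y2 := (btw_trans hm12 h1).1
      exact hd x2 h2 hx
  exact s.trans (s.symm e1) e2

/-- The first class in a direction not containing `o`. -/
lemma exists_first (hT : IsTree D) (hs : Conv D G s) {F V : Finset X} (hV : Sk D F V) {x f : X}
    (o : X) (hf : f ∈ F) (hxf : ¬ s.r x f) :
    ∃ y ∈ V, ¬ s.r x y ∧ drP D s x y = drP D s x f ∧
      ∀ z ∈ V, ¬ s.r x z → drP D s x z = drP D s x f → D.d o y ≤ D.d o z := by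
  classical
  obtain ⟨y, hy, hmin⟩ := (V.filter (fun z => ¬ s.r x z ∧ drP D s x z = drP D s x f)
    ).exists_min_image (fun z => D.d o z) ⟨f, Finset.mem_filter.2 ⟨hV.F_sub hf, hxf, rfl⟩⟩
  obtain ⟨h1, h2, h3⟩ := Finset.mem_filter.1 hy
  exact ⟨y, h1, h2, h3, fun z hz hz1 hz2 => hmin z (Finset.mem_filter.2 ⟨hz, hz1, hz2⟩)⟩

/-- The class of `x` meets `[o,y]` in a point of `V`. -/
lemma exists_on (hT : IsTree D) (hs : Conv D G s) {F V : Finset X} (hV : Sk D F V) {o x y : X}
    (ho : o ∈ V) (hx : x ∈ V) (hy : y ∈ V) (hn : o ∉ drP D s x y) :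
    ∃ x' ∈ V, s.r x x' ∧ Btw D o x' y := by
  unfold drP at hn
  simp only [Set.mem_ofPred_eq, not_forall, not_not] at hn
  obtain ⟨m, hm, hxm⟩ := hn
  have hc := med_spec hT o y x
  set c := med hT o y x with hcdef
  have hcV : c ∈ V := hV.med_mem hT ho hy hx hc
  refine ⟨c, hcV, ?_, hc.1⟩
  -- `c` is between `m` and `x`
  have h1 : Btw D m c x := by
    rcases btw_total hT hm hc.1 with h | h
    · -- `o, m, c`
      have h2 : Btw D o c x := hc.2.2
      exact (btw_trans' h2 h).2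
    · -- `o, c, m`: `m` in `[c,y]`
      have h3 : Btw D c m y := (btw_trans' hm h).2
      have h4 : Btw D y c x := hc.2.1
      exact (btw_trans' h4 h3.symm).2
  exact s.trans hxm (hs.convex m c x (s.symm hxm) h1)

/-- Injectivity of the first class. -/
lemma first_inj (hT : IsTree D) (hs : Conv D G s) {F V : Finset X} (hV : Sk D F V) {o : X}
    (ho : o ∈ V) {x1 x2 y1 y2 : X} (hx1 : x1 ∈ V) (hx2 : x2 ∈ V) (hy1 : y1 ∈ V) (hy2 : y2 ∈ V)
    (n1 : ¬ s.r x1 y1) (n2 : ¬ s.r x2 y2) (o1 : o ∉ drP D s x1 y1) (o2 : o ∉ drP D s x2 y2)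
    (m1 : ∀ z ∈ V, ¬ s.r x1 z → drP D s x1 z = drP D s x1 y1 → D.d o y1 ≤ D.d o z)
    (m2 : ∀ z ∈ V, ¬ s.r x2 z → drP D s x2 z = drP D s x2 y2 → D.d o y2 ≤ D.d o z)
    (hy : s.r y1 y2) : s.r x1 x2 ∧ drP D s x1 y1 = drP D s x2 y2 := by
  obtain ⟨u1, hu1, r1, b1⟩ := exists_on hT hs hV ho hx1 hy1 o1
  obtain ⟨u2, hu2, r2, b2⟩ := exists_on hT hs hV ho hx2 hy2 o2
  have hm := med_spec hT o y1 y2
  set m := med hT o y1 y2 with hmdef
  have hmV : m ∈ V := hV.med_mem hT ho hy1 hy2 hm
  obtain ⟨hmo1, hm12, hmo2⟩ := hm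
  have hmy1 : s.r y1 m := hs.convex y1 m y2 hy hm12
  have hmy2 : s.r m y2 := hs.convex' hy hm12
  -- the median is the point itself
  have key : ∀ x u y, u ∈ V → s.r x u → ¬ s.r x y → Btw D o u y → Btw D o m y → s.r m y →
      (∀ z ∈ V, ¬ s.r x z → drP D s x z = drP D s x y → D.d o y ≤ D.d o z) → m = y := by
    intro x u y hu r n b hmo hmy hmin
    have nm : ¬ s.r x m := fun h => n (s.trans h hmy)
    refine eq_of_le hT hmo (hmin m hmV nm ?_)
    rw [drP_eq_iff hT hs nm n]
    intro z hz h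
    exact n (s.trans h (s.trans (s.symm (hs.convex m z y hmy hz)) hmy))
  have e1 := key x1 u1 y1 hu1 r1 n1 b1 hmo1 (s.symm hmy1) m1
  have e2 := key x2 u2 y2 hu2 r2 n2 b2 hmo2 hmy2 m2
  have e : y1 = y2 := e1.symm.trans e2
  subst e
  -- comparison of `u1` and `u2` on `[o,y]`
  have main : ∀ x x' u u' : X, u ∈ V → u' ∈ V → s.r x u → s.r x' u' → ¬ s.r x y1 →
      ¬ s.r x' y1 → Btw D o u y1 → Btw D o u' y1 → Btw D o u u' →
      (∀ z ∈ V, ¬ s.r x z → drP D s x z = drP D s x y1 → D.d o y1 ≤ D.d o z) →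
      s.r x x' := by
    intro x x' u u' hu hu' r r' n n' b b' h hmin
    by_contra hne
    have nu : ¬ s.r x u' := fun h1 => hne (s.trans h1 (s.symm r'))
    have h1 := eq_of_le hT b' (hmin u' hu' nu (by
      rw [drP_eq_iff hT hs nu n]
      intro z hz hxz
      -- `u, u', z, y`
      have h2 : Btw D o u' z := (btw_trans b' hz).2
      have h3 : Btw D u u' z := by
        have h4 : Btw D o z y1 := (btw_trans b' hz).1
        exact (btw_trans' h2 h).2
      exact nu (s.trans r (hs.convex u u' z (s.trans (s.symm r) hxz) h3))))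
    rw [h1] at r'
    exact n' r'
  have hx12 : s.r x1 x2 := by
    rcases btw_total hT b1 b2 with h | h
    · exact main x1 x2 u1 u2 hu1 hu2 r1 r2 n1 n2 b1 b2 h m1
    · exact s.symm (main x2 x1 u2 u1 hu2 hu1 r2 r1 n2 n1 b2 b1 h m2)
  exact ⟨hx12, drP_congr hs hx12 y1⟩

end PEuler

open PEuler

theorem Psi_empty (hT : IsTree D) (hs : Conv D G s) {F V : Finset X} (hF : F.Nonempty)
    (hV : Sk D F V) : Psi D s F V (∅ : Set (Edge X G)) = -2 := by
  classical
  obtain ⟨o, hoF⟩ := hF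
  have ho : o ∈ V := hV.F_sub hoF
  have hfil : V.filter (fun x => Tr s (∅ : Set (Edge X G)) x) = V := by
    apply Finset.filter_true_of_mem
    intro x _ g hg _
    exact WP_empty hg
  -- the classes of points
  have hVeq : ∀ x y, Relation.EqvGen (rVP s (∅ : Set (Edge X G))) x y ↔ s.r x y := by
    intro x y
    constructor
    · intro h
      induction h with
      | rel x y hr =>
        rcases hr with h | ⟨e, he, -⟩
        · exact h
        · exact absurd he (Set.notMem_empty _)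
      | refl x => exact s.refl x
      | symm x y _ ih => exact s.symm ih
      | trans x y z _ _ ih1 ih2 => exact s.trans ih1 ih2
    · intro h
      exact Relation.EqvGen.rel _ _ (Or.inl h)
  have hHeq : ∀ u v : X × Set X, Relation.EqvGen (rHP D s (∅ : Set (Edge X G))) u v ↔
      (s.r u.1 v.1 ∧ u.2 = v.2) := by
    intro u v
    constructor
    · intro h
      induction h with
      | rel x y hr =>
        rcases hr with h | ⟨e, he, -⟩
        · exact h
        · exact absurd he (Set.notMem_empty _)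
      | refl x => exact ⟨s.refl _, rfl⟩
      | symm x y _ ih => exact ⟨s.symm ih.1, ih.2.symm⟩
      | trans x y z _ _ ih1 ih2 => exact ⟨s.trans ih1.1 ih2.1, ih1.2.trans ih2.2⟩
    · intro h
      exact Relation.EqvGen.rel _ _ (Or.inl h)
  set mkV : X → Quot (rVP s (∅ : Set (Edge X G))) := Quot.mk _ with hmkV
  set mkH : X × Set X → Quot (rHP D s (∅ : Set (Edge X G))) := Quot.mk _ with hmkH
  have hmkV_iff : ∀ x y, mkV x = mkV y ↔ s.r x y := fun x y =>
    ⟨fun h => (hVeq x y).1 (Quot.eqvGen_exact h), fun h => Quot.eqvGen_sound ((hVeq x y).2 h)⟩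
  have hmkH_iff : ∀ u v, mkH u = mkH v ↔ (s.r u.1 v.1 ∧ u.2 = v.2) := fun u v =>
    ⟨fun h => (hHeq u v).1 (Quot.eqvGen_exact h), fun h => Quot.eqvGen_sound ((hHeq u v).2 h)⟩
  set Q := V.image mkV with hQ
  set H := (HP D s F V).image mkH with hH
  have hcard : H.card + 2 = 2 * Q.card := by
    set A := ((HP D s F V).filter fun u => o ∉ u.2).image mkH with hA
    set B := ((HP D s F V).filter fun u => o ∈ u.2).image mkH with hB
    have hHAB : H = A ∪ B := by
      rw [hA, hB, ← Finset.image_union, hH]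
      congr 1
      ext u
      simp only [Finset.mem_union, Finset.mem_filter]
      tauto
    have hdisj : Disjoint A B := by
      rw [Finset.disjoint_left]
      intro q hq hq'
      obtain ⟨u, hu, e⟩ := Finset.mem_image.1 hq
      obtain ⟨v, hv, e'⟩ := Finset.mem_image.1 hq'
      have h1 := ((hmkH_iff u v).1 (e.trans e'.symm)).2
      rw [Finset.mem_filter] at hu hv
      rw [h1] at hu
      exact hu.2 hv.2
    have hqo : mkV o ∈ Q := Finset.mem_image_of_mem _ ho
    have hrep : ∀ q ∈ Q.erase (mkV o), ∃ y ∈ V, mkV y = q ∧ ¬ s.r o y := by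
      intro q hq
      obtain ⟨hne, hq⟩ := Finset.mem_erase.1 hq
      obtain ⟨y, hy, rfl⟩ := Finset.mem_image.1 hq
      exact ⟨y, hy, rfl, fun h => hne ((hmkV_iff _ _).2 (s.symm h))⟩
    have : Nonempty X := ⟨o⟩
    choose! rep hrepV hrepq hrepo using hrep
    -- directions containing `o`
    have hBc : B.card = (Q.erase (mkV o)).card := by
      symm
      apply Finset.card_bij (fun q _ => mkH (rep q, drP D s (rep q) o))
      · intro q hq
        rw [hB]
        apply Finset.mem_image_of_mem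
        rw [Finset.mem_filter, mem_HP]
        have hn : ¬ s.r (rep q) o := fun h => hrepo q hq (s.symm h)
        exact ⟨⟨hrepV q hq, o, hoF, hn, rfl⟩, self_mem_drP hn⟩
      · intro q hq q' hq' h
        have h1 := ((hmkH_iff _ _).1 h).1
        rw [← hrepq q hq, ← hrepq q' hq']
        exact (hmkV_iff _ _).2 h1
      · intro b hb
        obtain ⟨⟨x, d⟩, hu, rfl⟩ := Finset.mem_image.1 hb
        rw [Finset.mem_filter, mem_HP] at hu
        obtain ⟨⟨hx, f, hf, hxf, rfl⟩, hod⟩ := hu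
        have hxo : ¬ s.r x o := hod o (btw_left _ _)
        have hq : mkV x ∈ Q.erase (mkV o) := by
          rw [Finset.mem_erase]
          exact ⟨fun h => hxo ((hmkV_iff _ _).1 h), Finset.mem_image_of_mem _ hx⟩
        refine ⟨mkV x, hq, ?_⟩
        have hr : s.r (rep (mkV x)) x := (hmkV_iff _ _).1 (hrepq _ hq)
        rw [hmkH_iff]
        refine ⟨hr, ?_⟩
        show drP D s (rep (mkV x)) o = drP D s x f
        rw [drP_congr hs hr o, drP_eq_iff hT hs hxo hxf]
        exact hod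
    -- directions not containing `o`
    have hA1 : (Q.erase (mkV o)).card ≤ A.card := by
      have hpar : ∀ q ∈ Q.erase (mkV o), ∃ x ∈ V, ¬ s.r x (rep q) ∧ Btw D o x (rep q) ∧
          ∀ z ∈ V, ¬ s.r z (rep q) → Btw D o z (rep q) → D.d o z ≤ D.d o x :=
        fun q hq => exists_parP ho (hrepo q hq)
      choose! par hp1 hp2 hp3 hp4 using hpar
      apply Finset.card_le_card_of_injOn (fun q => mkH (par q, drP D s (par q) (rep q)))
      · intro q hq
        have hq' := Finset.mem_coe.1 hq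
        refine Finset.mem_coe.2 ?_
        rw [hA]
        apply Finset.mem_image_of_mem
        rw [Finset.mem_filter, mem_HP]
        obtain ⟨f, hf, hf1, hf2⟩ := drP_mem hT hs (hV.sub _ (hrepV q hq')) (hp2 q hq')
        refine ⟨⟨hp1 q hq', f, hf, hf1, hf2⟩, ?_⟩
        intro h
        exact h (par q) (hp3 q hq') (s.refl _)
      · intro q hq q' hq' h
        have hq1 := Finset.mem_coe.1 hq
        have hq2 := Finset.mem_coe.1 hq'
        obtain ⟨h1, h2⟩ := (hmkH_iff _ _).1 h
        rw [← hrepq q hq1, ← hrepq q' hq2]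
        exact (hmkV_iff _ _).2 (par_inj hT hs hV ho (hp1 q hq1) (hp1 q' hq2) (hrepV q hq1)
          (hrepV q' hq2) (hp2 q hq1) (hp2 q' hq2) (hp3 q hq1) (hp3 q' hq2) (hp4 q hq1)
          (hp4 q' hq2) h1 h2)
    have hA2 : A.card ≤ (Q.erase (mkV o)).card := by
      have hfst : ∀ a ∈ A, ∃ u : X × X, u.1 ∈ V ∧ u.2 ∈ V ∧ ¬ s.r u.1 u.2 ∧
          a = mkH (u.1, drP D s u.1 u.2) ∧ o ∉ drP D s u.1 u.2 ∧
          ∀ z ∈ V, ¬ s.r u.1 z → drP D s u.1 z = drP D s u.1 u.2 → D.d o u.2 ≤ D.d o z := by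
        intro a ha
        obtain ⟨⟨x, d⟩, hu, rfl⟩ := Finset.mem_image.1 ha
        rw [Finset.mem_filter, mem_HP] at hu
        obtain ⟨⟨hx, f, hf, hxf, rfl⟩, hod⟩ := hu
        obtain ⟨y, hy, hn, hd, hmin⟩ := exists_first hT hs hV o hf hxf
        refine ⟨(x, y), hx, hy, hn, ?_, ?_, ?_⟩
        · rw [hd]
        · show o ∉ drP D s x y
          rw [hd]
          exact hod
        · intro z hz hz1 hz2
          exact hmin z hz hz1 (hz2.trans hd)
      choose! fs h1 h2 h3 h4 h5 h6 using hfst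
      apply Finset.card_le_card_of_injOn (fun a => mkV (fs a).2)
      · intro a ha
        have ha' := Finset.mem_coe.1 ha
        refine Finset.mem_coe.2 (Finset.mem_erase.2 ⟨?_, Finset.mem_image_of_mem _ (h2 a ha')⟩)
        intro h
        have hr : s.r (fs a).2 o := (hmkV_iff _ _).1 h
        obtain ⟨u, hu, r, b⟩ := exists_on hT hs hV ho (h1 a ha') (h2 a ha') (h5 a ha')
        have : s.r u (fs a).2 := hs.convex' (s.symm hr) b
        exact h3 a ha' (s.trans r this)
      · intro a ha a' ha' h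
        have ha1 := Finset.mem_coe.1 ha
        have ha2 := Finset.mem_coe.1 ha'
        have hr : s.r (fs a).2 (fs a').2 := (hmkV_iff _ _).1 h
        obtain ⟨e1, e2⟩ := first_inj hT hs hV ho (h1 a ha1) (h1 a' ha2) (h2 a ha1) (h2 a' ha2)
          (h3 a ha1) (h3 a' ha2) (h5 a ha1) (h5 a' ha2) (h6 a ha1) (h6 a' ha2) hr
        rw [h4 a ha1, h4 a' ha2]
        exact (hmkH_iff _ _).2 ⟨e1, e2⟩
    have hpos : 0 < Q.card := Finset.card_pos.2 ⟨_, hqo⟩
    rw [hHAB, Finset.card_union_of_disjoint hdisj, hBc, le_antisymm hA2 hA1,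
      Finset.card_erase_of_mem hqo]
    omega
  have h1 : ncl (rHP D s (∅ : Set (Edge X G))) (HP D s F V) = H.card := ncl_eq _ _
  have h2 : ncl (rVP s (∅ : Set (Edge X G))) V = Q.card := ncl_eq _ _
  unfold Psi
  simp only [hfil]
  rw [h1, h2]
  omega

end LTree.Fg
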