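import Pool.Agent.Work.MP_0c526b_al.Fg.PBasics
import Pool.Agent.Work.MP_0c526b_al.Fg.PWords
import Pool.Agent.Work.MP_0c526b_al.Fg.PEuler
import Pool.Agent.Work.MP_0c526b_al.Fg.PCount

/-!
# M14: upper bound of the class index, groups of the leaves
-/

set_option autoImplicit false
set_option linter.unusedVariables false

namespace LTree.Fg

open LTree LTree.Idx

variable {Λ : Type*} [AddCommGroup Λ] [LinearOrder Λ] [IsOrderedAddMonoid Λ] {X : Type*}
variable {D : Dist Λ X} {G : Type*} [Group G] [MulAction G X] {s : Setoid X}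

/-! ### Counting classes -/

lemma pu_ncl_absorb {α : Type*} {r : α → α → Prop} {V W : Finset α} (h : V ⊆ W)
    (h' : ∀ w ∈ W, ∃ v ∈ V, Relation.EqvGen r w v) : ncl r W = ncl r V := by
  classical
  rw [ncl_eq, ncl_eq]
  congr 1
  apply Finset.Subset.antisymm
  · intro q hq
    obtain ⟨w, hw, rfl⟩ := Finset.mem_image.1 hq
    obtain ⟨v, hv, hwv⟩ := h' w hw
    exact Finset.mem_image.2 ⟨v, hv, (Quot.eqvGen_sound hwv).symm⟩
  · exact Finset.image_subset_image h

lemma pu_ncl_union {α : Type*} {r : α → α → Prop} [DecidableEq α] {V W : Finset α}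
    (h : ∀ v ∈ V, ∀ w ∈ W, ¬ Relation.EqvGen r w v) :
    ncl r (V ∪ W) = ncl r V + ncl r W := by
  classical
  rw [ncl_eq, ncl_eq, ncl_eq, Finset.image_union, Finset.card_union_of_disjoint]
  rw [Finset.disjoint_left]
  intro q hq hq'
  obtain ⟨v, hv, rfl⟩ := Finset.mem_image.1 hq
  obtain ⟨w, hw, hwv⟩ := Finset.mem_image.1 hq'
  exact h v hv w hw (Quot.eqvGen_exact hwv)

lemma pu_ncl_card {α : Type*} {r : α → α → Prop} {V : Finset α}
    (h : ∀ v ∈ V, ∀ w ∈ V, Relation.EqvGen r v w → v = w) : ncl r V = V.card := by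
  classical
  rw [ncl_eq]
  apply Finset.card_image_of_injOn
  intro v hv w hw hvw
  exact h v hv w hw (Quot.eqvGen_exact hvw)

/-! ### Points without edges -/

lemma pu_sm_one (d : Set X) : sm (1 : G) d = d := by
  unfold sm
  simp

/-- No path starts at a class without edges. -/
lemma pu_WP_iso {E : Set (Edge X G)} {V : Finset X} (hE : ∀ e ∈ E, e.x ∈ V ∧ e.h • e.x ∈ V)
    {y : X} (hy : ∀ x ∈ V, ¬ s.r y x) {g : G} (h : WP s E y g) : g = 1 := by
  induction h with
  | one => rfl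
  | fwd g e _ he hx ih =>
    rw [ih, one_smul] at hx
    exact absurd hx (hy _ (hE e he).1)
  | bwd g e _ he hx ih =>
    rw [ih, one_smul] at hx
    exact absurd hx (hy _ (hE e he).2)

lemma pu_HP_insert [DecidableEq X] [DecidableEq (X × Set X)] (F V : Finset X) (y : X) :
    HP D s F (insert y V) = HP D s F V ∪ HP D s F {y} := by
  ext ⟨x, d⟩
  rw [Finset.mem_union, mem_HP, mem_HP, mem_HP, Finset.mem_insert, Finset.mem_singleton]
  constructor
  · rintro ⟨rfl | h, h'⟩
    · exact Or.inr ⟨rfl, h'⟩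
    · exact Or.inl ⟨h, h'⟩
  · rintro (⟨h, h'⟩ | ⟨rfl, h'⟩)
    · exact ⟨Or.inr h, h'⟩
    · exact ⟨Or.inl rfl, h'⟩

/-- The count after adding a new class. -/
lemma pu_Psi_new (hG : FreeAct D G) (hs : Conv D G s) [DecidableEq X] {F V : Finset X} {y : X}
    (hy : ∀ x ∈ V, ¬ s.r y x) {E : Set (Edge X G)}
    (hE : ∀ e ∈ E, e.x ∈ V ∧ e.h • e.x ∈ V) :
    Psi D s F (insert y V) E = Psi D s F V E + ((HP D s F {y}).card : ℤ) - 2 := by
  classical
  have hval : ∀ {z : X} {d d' : Set X}, Relation.EqvGen (rHP D s E) (y, d) (z, d') →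
      s.r y z ∧ d' = d := by
    intro z d d' h
    obtain ⟨g, h1, h2, h3⟩ := rHP_value hG hs h
    have h4 := pu_WP_iso hE hy h1
    subst h4
    rw [one_smul] at h2
    rw [pu_sm_one] at h3
    exact ⟨h2, h3⟩
  have hH : ncl (rHP D s E) (HP D s F (insert y V)) =
      ncl (rHP D s E) (HP D s F V) + (HP D s F {y}).card := by
    rw [pu_HP_insert, pu_ncl_union, pu_ncl_card (V := HP D s F {y})]
    · rintro ⟨x, d⟩ hx ⟨x', d'⟩ hx' h
      rw [mem_HP, Finset.mem_singleton] at hx hx'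
      obtain ⟨rfl, -⟩ := hx
      obtain ⟨rfl, -⟩ := hx'
      rw [(hval h).2]
    · rintro ⟨x, d⟩ hx ⟨x', d'⟩ hx' h
      rw [mem_HP] at hx hx'
      rw [Finset.mem_singleton] at hx'
      obtain ⟨rfl, -⟩ := hx'
      exact hy x hx.1 (hval h).1
  have hTr : Tr s E y := fun g hg _ => pu_WP_iso hE hy hg
  have hV : ncl (rVP s E) ((insert y V).filter (fun x => Tr s E x)) =
      ncl (rVP s E) (V.filter (fun x => Tr s E x)) + 1 := by
    rw [Finset.filter_insert, if_pos hTr, Finset.insert_eq, Finset.union_comm, pu_ncl_union,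
      pu_ncl_card (V := {y}), Finset.card_singleton]
    · intro v hv w hw _
      rw [Finset.mem_singleton] at hv hw
      rw [hv, hw]
    · intro v hv w hw h
      rw [Finset.mem_singleton] at hw
      subst hw
      obtain ⟨g, h1, h2⟩ := (eqv_iff_WP hs).1 h
      rw [pu_WP_iso hE hy h1, one_smul] at h2
      exact hy v (Finset.mem_filter.1 hv).1 h2
  unfold Psi
  rw [hH]
  have e1 : ∀ (i : DecidablePred fun x => Tr s E x), ncl (rVP s E)
      (@Finset.filter _ (fun x => Tr s E x) i (insert y V)) =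
      ncl (rVP s E) (@Finset.filter _ (fun x => Tr s E x) i V) + 1 := by
    intro i
    rw [Subsingleton.elim i (fun x => Classical.propDecidable _)]
    convert hV
  rw [e1]
  push_cast
  ring

/-- The count after adding a point of an old class. -/
lemma pu_Psi_old (hs : Conv D G s) [DecidableEq X] {F V : Finset X} {x y : X} (hx : x ∈ V)
    (hxy : s.r y x) (E : Set (Edge X G)) : Psi D s F (insert y V) E = Psi D s F V E := by
  classical
  have hH : ncl (rHP D s E) (HP D s F (insert y V)) = ncl (rHP D s E) (HP D s F V) := by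
    refine pu_ncl_absorb ?_ ?_
    · rintro ⟨z, d⟩ hz
      rw [mem_HP] at hz ⊢
      exact ⟨Finset.mem_insert_of_mem hz.1, hz.2⟩
    · rintro ⟨z, d⟩ hz
      have hz' := hz
      rw [mem_HP, Finset.mem_insert] at hz
      obtain ⟨rfl | h1, f, hf, hzf, rfl⟩ := hz
      · refine ⟨(x, drP D s x f), ?_, ?_⟩
        · rw [mem_HP]
          exact ⟨hx, f, hf, fun h => hzf (s.trans hxy h), rfl⟩
        · refine Relation.EqvGen.rel _ _ (Or.inl ⟨hxy, ?_⟩)
          exact drP_congr hs hxy f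
      · exact ⟨_, mem_HP.2 ⟨h1, f, hf, hzf, rfl⟩, Relation.EqvGen.refl _⟩
  have hr : Relation.EqvGen (rVP s E) y x := Relation.EqvGen.rel _ _ (Or.inl hxy)
  have hV : ncl (rVP s E) ((insert y V).filter (fun x => Tr s E x)) =
      ncl (rVP s E) (V.filter (fun x => Tr s E x)) := by
    refine pu_ncl_absorb ?_ ?_
    · exact Finset.filter_subset_filter _ (Finset.subset_insert _ _)
    · intro w hw
      rw [Finset.mem_filter, Finset.mem_insert] at hw
      obtain ⟨rfl | h1, h2⟩ := hw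
      · exact ⟨x, Finset.mem_filter.2 ⟨hx, Tr.eqv hs hr h2⟩, hr⟩
      · exact ⟨w, Finset.mem_filter.2 ⟨h1, h2⟩, Relation.EqvGen.refl _⟩
  unfold Psi
  rw [hH]
  have e1 : ∀ (i : DecidablePred fun x => Tr s E x), ncl (rVP s E)
      (@Finset.filter _ (fun x => Tr s E x) i (insert y V)) =
      ncl (rVP s E) (@Finset.filter _ (fun x => Tr s E x) i V) := by
    intro i
    rw [Subsingleton.elim i (fun x => Classical.propDecidable _)]
    convert hV
  rw [e1]

lemma pu_Sk_insert [DecidableEq X] {F V : Finset X} (hV : Sk D F V) {y : X}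
    (hy : y ∈ hull D F) : Sk D F (insert y V) where
  meds := fun a ha b hb c hc m hm => Finset.mem_insert_of_mem (hV.meds a ha b hb c hc m hm)
  sub := by
    intro x hx
    rcases Finset.mem_insert.1 hx with rfl | h
    · exact hy
    · exact hV.sub x h

/-- Enlarging the skeleton does not change the count. -/
theorem Psi_enlarge (hT : IsTree D) (hG : FreeAct D G) (hs : Conv D G s) {F V V' : Finset X}
    (hF : F.Nonempty) (hV : Sk D F V) (hV' : Sk D F V') (hVV : V ⊆ V') {E : Set (Edge X G)}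
    (hE : ∀ e ∈ E, e.x ∈ V ∧ e.h • e.x ∈ V) : Psi D s F V' E = Psi D s F V E := by
  classical
  have key : ∀ R : Finset X, (∀ y ∈ R, y ∈ hull D F) →
      Sk D F (R ∪ V) ∧ Psi D s F (R ∪ V) E = Psi D s F V E := by
    intro R
    induction R using Finset.induction_on with
    | empty =>
      intro _
      rw [Finset.empty_union]
      exact ⟨hV, rfl⟩
    | insert y R hy ih =>
      intro hR
      obtain ⟨h1, h2⟩ := ih (fun z hz => hR z (Finset.mem_insert_of_mem hz))
      have hyh := hR y (Finset.mem_insert_self _ _)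
      rw [Finset.insert_union]
      refine ⟨pu_Sk_insert h1 hyh, ?_⟩
      rw [← h2]
      by_cases hc : ∃ x ∈ R ∪ V, s.r y x
      · obtain ⟨x, hx, hxy⟩ := hc
        exact pu_Psi_old hs hx hxy E
      · push Not at hc
        have e1 := pu_Psi_new (D := D) hG hs (F := F) hc (E := E) (fun e he =>
          ⟨Finset.mem_union_right _ (hE e he).1, Finset.mem_union_right _ (hE e he).2⟩)
        have e2 := pu_Psi_new (D := D) hG hs (F := F) hc (E := (∅ : Set (Edge X G)))
          (fun e he => absurd he (Set.notMem_empty e))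
        rw [Psi_empty hT hs hF (pu_Sk_insert h1 hyh), Psi_empty hT hs hF h1] at e2
        rw [e1]
        linarith
  have h1 := (key V' hV'.sub).2
  rwa [Finset.union_eq_left.2 hVV] at h1

/-! ### End edges -/

/-- The edges at the end points of the families. -/
def Eend (T : Set (Letter X G)) : Set (Edge X G) :=
  {e | (⟨e.a, e.b, e.h, false⟩ : Letter X G) ∈ T ∧ (e.x = e.a ∨ e.x = e.b)}

omit [Group G] [MulAction G X] in
lemma Eend_finite {T : Set (Letter X G)} (hT : T.Finite) : (Eend T).Finite := by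
  refine ((hT.image (fun l => (⟨l.a, l.b, l.h, l.a⟩ : Edge X G))).union
    (hT.image (fun l => (⟨l.a, l.b, l.h, l.b⟩ : Edge X G)))).subset ?_
  rintro ⟨a, b, h, x⟩ ⟨h1, h2⟩
  rcases h2 with h2 | h2
  · left
    simp only at h2
    subst h2
    exact ⟨_, h1, rfl⟩
  · right
    simp only at h2
    subst h2
    exact ⟨_, h1, rfl⟩

omit [Group G] [MulAction G X] in
lemma Eend_edgeOf {T : Set (Letter X G)} {e : Edge X G} (he : e ∈ Eend T) : EdgeOf D T e := by
  refine ⟨he.1, ?_⟩
  rcases he.2 with h | h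
  · rw [h]
    exact btw_left _ _
  · rw [h]
    exact btw_right _ _

lemma pu_EV {F V : Finset X} {T : Set (Letter X G)} (hS : Sys D F T) {e : Edge X G}
    (he : EdgeOf D T e) (hx : e.x ∈ V) (hhx : e.h • e.x ∈ V) : EV D F V e where
  x := hx
  hx := hhx
  a := hS.ha _ he.1
  b := hS.hb _ he.1
  ga := hS.ga _ he.1
  gb := hS.gb _ he.1
  btw := he.2

/-- Once the end edges are there, no edge raises the count. -/
lemma stp_edge (hT : IsTree D) (hG : FreeAct D G) (hs : Clus D G s) {F V : Finset X}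
    {T : Set (Letter X G)} (hS : Sys D F T) {E : Set (Edge X G)} (hE : Eend T ⊆ E)
    {e : Edge X G} (he : EdgeOf D T e) (hx : e.x ∈ V) (hhx : e.h • e.x ∈ V) :
    Stp D s F V E (insert e E) 0 := by
  have hEV := pu_EV hS he hx hhx
  by_cases ha : s.r e.x e.a
  · refine stp_red hT hG hs hEV ?_
    have h1 := WP.fwd (s := s) (E := E) (x := e.x) 1 ⟨e.a, e.b, e.h, e.a⟩ WP.one
      (hE ⟨he.1, Or.inl rfl⟩) (by rw [one_smul]; exact ha)
    rwa [mul_one] at h1
  · by_cases hb : s.r e.x e.b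
    · refine stp_red hT hG hs hEV ?_
      have h1 := WP.fwd (s := s) (E := E) (x := e.x) 1 ⟨e.a, e.b, e.h, e.b⟩ WP.one
        (hE ⟨he.1, Or.inr rfl⟩) (by rw [one_smul]; exact hb)
      rwa [mul_one] at h1
    · have h1 := stp_gen hT hG hs (E := E) hEV
      have h2 : (dsP D s e).ncard = 2 := dsP_mid hT hs.toConv e.h he.2 ha hb
      rw [h2] at h1
      simpa using h1

lemma pu_stp_many (hT : IsTree D) (hG : FreeAct D G) (hs : Clus D G s) {F V : Finset X}
    {T : Set (Letter X G)} (hS : Sys D F T) {E : Set (Edge X G)} (hE : Eend T ⊆ E)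
    {E' : Set (Edge X G)} (hf : E'.Finite)
    (h : ∀ e ∈ E', EdgeOf D T e ∧ e.x ∈ V ∧ e.h • e.x ∈ V) :
    Stp D s F V E (E ∪ E') 0 := by
  refine Set.Finite.induction_on (motive := fun E' _ =>
    (∀ e ∈ E', EdgeOf D T e ∧ e.x ∈ V ∧ e.h • e.x ∈ V) → Stp D s F V E (E ∪ E') 0) E' hf ?_ ?_ h
  · intro _
    rw [Set.union_empty]
    exact Stp.refl s F V E
  · intro e E' _ _ ih h
    have h1 := ih (fun e' he' => h e' (Or.inr he'))
    obtain ⟨h2, h3, h4⟩ := h e (Or.inl rfl)
    have h5 := stp_edge hT hG hs hS (E := E ∪ E') (fun e he => Or.inl (hE he)) h2 h3 h4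
    rw [Set.union_insert]
    simpa using h1.comp h5

lemma pu_Psi_end (hT : IsTree D) (hG : FreeAct D G) (hs : Clus D G s) {F V : Finset X}
    {E' : Set (Edge X G)} (hf : E'.Finite) (h : ∀ e ∈ E', EV D F V e) :
    Psi D s F V E' ≤ Psi D s F V (∅ : Set (Edge X G)) + 2 * (E'.ncard : ℤ) := by
  refine Set.Finite.induction_on (motive := fun E' _ =>
    (∀ e ∈ E', EV D F V e) → Psi D s F V E' ≤ Psi D s F V (∅ : Set (Edge X G)) + 2 * (E'.ncard : ℤ)) E' hf ?_ ?_ h
  · intro _
    rw [Set.ncard_empty]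
    simp
  · intro e E' he hE' ih h
    have h1 := ih (fun e' he' => h e' (Or.inr he'))
    have h2 := (stp_gen hT hG hs (E := E') (h e (Or.inl rfl))).le
    rw [Set.ncard_insert_of_notMem he hE']
    push_cast
    have h3 : (0 : ℤ) ≤ ((dsP D s e).ncard : ℤ) := Int.natCast_nonneg _
    linarith

theorem claimP_ub (hT : IsTree D) (hG : FreeAct D G) (hs : Clus D G s)
    (T : Set (Letter X G)) : ∃ c : ℤ, ClaimPA D s T c := by
  classical
  refine ⟨-2 + 2 * ((Eend T).ncard : ℤ), ?_⟩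
  intro F hF hS V0 E0 hV0 hE0 hE0T
  have hEf := Eend_finite hS.fin
  let W : Finset X := V0 ∪ ((hEf.union hE0).toFinset.image (fun e => e.x) ∪
    (hEf.union hE0).toFinset.image (fun e => e.h • e.x))
  have hall : ∀ e ∈ Eend T ∪ E0, EdgeOf D T e := by
    rintro e (he | he)
    · exact Eend_edgeOf he
    · exact hE0T e he
  have hW : ∀ x ∈ W, x ∈ hull D F := by
    intro x hx
    simp only [W, Finset.mem_union, Finset.mem_image, Set.Finite.mem_toFinset] at hx
    rcases hx with h | ⟨e, he, rfl⟩ | ⟨e, he, rfl⟩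
    · exact hV0 x h
    · have h1 := hall e he
      exact hull_convex hT (hS.ha _ h1.1) (hS.hb _ h1.1) h1.2
    · have h1 := hall e he
      exact hull_convex hT (hS.ga _ h1.1) (hS.gb _ h1.1) (hG.btw e.h h1.2)
  obtain ⟨V, hV, hWV⟩ := exists_Sk hT F W hW
  have hsup : ∀ e ∈ Eend T ∪ E0, e.x ∈ V ∧ e.h • e.x ∈ V := by
    intro e he
    constructor
    · apply hWV
      simp only [W, Finset.mem_union, Finset.mem_image, Set.Finite.mem_toFinset]
      exact Or.inr (Or.inl ⟨e, he, rfl⟩)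
    · apply hWV
      simp only [W, Finset.mem_union, Finset.mem_image, Set.Finite.mem_toFinset]
      exact Or.inr (Or.inr ⟨e, he, rfl⟩)
  refine ⟨V, Eend T ∪ E0, fun x hx => hWV (Finset.mem_union_left _ hx), Set.subset_union_right,
    hEf.union hE0, hV, fun e he => ⟨hall e he, hsup e he⟩, trivial, ?_⟩
  have h1 := (pu_stp_many hT hG hs hS (V := V) (E := Eend T) le_rfl hE0 (fun e he =>
    ⟨hE0T e he, hsup e (Or.inr he)⟩)).le
  have h2 := pu_Psi_end hT hG hs (F := F) (V := V) hEf (fun e he =>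
    pu_EV hS (Eend_edgeOf he) (hsup e (Or.inl he)).1 (hsup e (Or.inl he)).2)
  rw [Psi_empty hT hs.toConv hF hV] at h2
  linarith

/-- In a system, below the least count, adding edges to a large set of edges changes no group. -/
theorem claimP_grp (hT : IsTree D) (hG : FreeAct D G) (hs : Clus D G s) {F : Finset X}
    {T : Set (Letter X G)} (hS : Sys D F T) {c : ℤ} (hc : ClaimP D s F T (fun _ => True) c)
    (hlow : ¬ ClaimP D s F T (fun _ => True) (c - 1)) {x0 : X} {g1 : G} (hg1 : g1 ≠ 1)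
    (h1 : s.r x0 (g1 • x0)) (h2 : Conn D T x0 g1) :
    ∃ H : Subgroup G, H.FG ∧ g1 ∈ H ∧ (∀ g, Conn D T x0 g → s.r x0 (g • x0) → g ∈ H) ∧
      ClaimP D s F T (fun E => ∀ g, (WP s E x0 g ∧ s.r x0 (g • x0)) ↔ g ∈ H) c := by
  classical
  have hF : F.Nonempty := by
    by_contra hF
    rw [Finset.not_nonempty_iff_eq_empty] at hF
    apply hg1
    obtain ⟨w, hw, -, hv⟩ := h2
    rcases w with _ | ⟨l, w⟩
    · exact hv.symm
    · exfalso
      have h3 : ∀ l ∈ T, False := by
        intro l hl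
        obtain ⟨f, hf, -⟩ := hS.ha l hl
        rw [hF] at hf
        exact absurd hf (Finset.notMem_empty f)
      rcases hw l (List.mem_cons_self ..) with h4 | ⟨l', h4, -⟩
      · exact h3 l h4
      · exact h3 l' h4
  unfold ClaimP at hlow
  push Not at hlow
  obtain ⟨Vb, Eb, hVb, hEb, hEbT, hlow⟩ := hlow
  obtain ⟨Eg, hEg, hEgT, hWg⟩ := conn_WP hG hs.toConv hS.flag h2
  obtain ⟨V1, E1, hV1, hE1, hE1f, hSk1, hE1V, -, hPsi1⟩ := hc Vb (Eb ∪ (Eend T ∪ Eg)) hVb
    (hEb.union ((Eend_finite hS.fin).union hEg)) (by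
      rintro e (he | he | he)
      · exact hEbT e he
      · exact Eend_edgeOf he
      · exact hEgT e he)
  obtain ⟨H, hH, hmem⟩ := grp_fg hs.toConv hE1f x0
  have hW1 : WP s E1 x0 g1 := WP.mono (fun e he => hE1 (Or.inr (Or.inr he))) hWg
  have hK : ∀ (V' : Finset X) (E' : Set (Edge X G)), V1 ⊆ V' → E1 ⊆ E' → E'.Finite →
      Sk D F V' → (∀ e ∈ E', EdgeOf D T e ∧ e.x ∈ V' ∧ e.h • e.x ∈ V') → ∀ g,
      s.r x0 (g • x0) → WP s E' x0 g → WP s E1 x0 g := by
    intro V' E' hVV hEE hE'f hSk' hE'V g hg hWP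
    have h3 := pu_stp_many hT hG hs hS (V := V') (E := E1) (fun e he => hE1 (Or.inr (Or.inl he)))
      hE'f hE'V
    rw [Set.union_eq_self_of_subset_left hEE] at h3
    have h4 : c - 1 < Psi D s F V' E' := hlow V' E' (fun x hx => hVV (hV1 hx))
      (fun e he => hEE (hE1 (Or.inl he))) hE'f hSk' hE'V trivial
    have h5 : Psi D s F V' E1 = Psi D s F V1 E1 :=
      Psi_enlarge hT hG hs.toConv hF hSk1 hSk' hVV fun e he => (hE1V e he).2
    refine h3.grp ?_ x0 (fun hTr => hg1 (hTr g1 hW1 h1)) g hg hWP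
    have h6 := h3.le
    linarith
  refine ⟨H, hH, (hmem g1).2 ⟨hW1, h1⟩, ?_, ?_⟩
  · intro g hg hgx
    obtain ⟨E3, hE3, hE3T, hW3⟩ := conn_WP hG hs.toConv hS.flag hg
    obtain ⟨V, E, hV, hE, hEf, hSk, hEV, -, -⟩ := hc V1 (E1 ∪ E3) hSk1.sub (hE1f.union hE3) (by
      rintro e (he | he)
      · exact (hE1V e he).1
      · exact hE3T e he)
    exact (hmem g).2 ⟨hK V E hV (fun e he => hE (Or.inl he)) hEf hSk hEV g hgx
      (WP.mono (fun e he => hE (Or.inr he)) hW3), hgx⟩
  · intro V0 E0 hV0 hE0 hE0T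
    obtain ⟨V, E, hV, hE, hEf, hSk, hEV, -, hP⟩ := hc (V0 ∪ V1) (E0 ∪ E1) (by
        intro x hx
        rcases Finset.mem_union.1 hx with h | h
        · exact hV0 x h
        · exact hSk1.sub x h) (hE0.union hE1f) (by
        rintro e (he | he)
        · exact hE0T e he
        · exact (hE1V e he).1)
    refine ⟨V, E, fun x hx => hV (Finset.mem_union_left _ hx), fun e he => hE (Or.inl he), hEf,
      hSk, hEV, fun g => ?_, hP⟩
    constructor
    · rintro ⟨h3, h4⟩
      exact (hmem g).2 ⟨hK V E (fun x hx => hV (Finset.mem_union_right _ hx))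
        (fun e he => hE (Or.inr he)) hEf hSk hEV g h4 h3, h4⟩
    · intro h3
      obtain ⟨h4, h5⟩ := (hmem g).1 h3
      exact ⟨WP.mono (fun e he => hE (Or.inr he)) h4, h5⟩

end LTree.Fg
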