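import Pool.Agent.Work.MP_0c526b_al.Fg.Lower
import Pool.Agent.Work.MP_0c526b_al.Fg.LiftFold
import Pool.Agent.Work.MP_0c526b_al.Fg.PLower
import Pool.Agent.Work.MP_0c526b_al.Fg.PUpper

/-!
# M15: the groups of the clusters are finitely generated (T1)
-/

set_option autoImplicit false
set_option linter.unusedVariables false

namespace LTree.Fg

open LTree LTree.Idx LTree.Idx.Subtree

variable {Λ : Type*} [AddCommGroup Λ] [LinearOrder Λ] [IsOrderedAddMonoid Λ] {X : Type*}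
variable {D : Dist Λ X} {G : Type*} [Group G] [MulAction G X] {s : Setoid X}

lemma cl_sys_mono {F : Finset X} {T T' : Set (Letter X G)} (h : T ⊆ T') (hS : Sys D F T') :
    Sys D F T :=
  ⟨hS.fin.subset h, fun l hl => hS.flag l (h hl), fun l hl => hS.ha l (h hl),
    fun l hl => hS.hb l (h hl), fun l hl => hS.ga l (h hl), fun l hl => hS.gb l (h hl)⟩

omit [Group G] [MulAction G X] in
lemma cl_sub_fold {T : Set (Letter X G)} {p q : X} {g : G} {q' : X} : T ⊆ fold T p q g q' :=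
  (Set.subset_insert _ _).trans (Set.subset_insert _ _)

lemma cl_lift_refl (D : Dist Λ X) (s : Setoid X) (F : Finset X) (T : Set (Letter X G)) :
    Lift D s F T T :=
  fun V0 E0 hV0 hE0 hE => ⟨V0, E0, hV0, hE0, hE, fun V E hV hE hEf _ hEd =>
    ⟨hV, E, hE, hEf, hEd, Stp.refl s F V E⟩⟩

/-- The property kept by the folds. -/
def ClK (D : Dist Λ X) (s : Setoid X) (cX c : ℤ) (T : Set (Letter X G)) : Prop :=
  ClaimA D T cX ∧ ClaimPA D s T c

lemma clK_fold (hT : IsTree D) (hG : FreeAct D G) (hs : Clus D G s) {S : Finset G} {x0 : X}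
    {cX : ℤ} (hL : Least D S x0 cX) (c : ℤ) (T : Set (Letter X G)) (p q : X) (g : G) (q' : X)
    (hA : Adm D S x0 T) (hK : ClK D s cX c T) (hp : p ∈ KK D G x0) (hq : q ∈ KK D G x0)
    (hd : FData hT T p q g q') : ClK D s cX c (fold T p q g q') := by
  refine ⟨(claimA_ins hT hG hA hK.1 hp hq hd).2, ?_⟩
  intro F hF hS
  exact (lift_fold hT hG hs hL hA hK.1 hp hq hd hS).claimP
    (hK.2 F hF (cl_sys_mono cl_sub_fold hS)) (Or.inl fun _ => trivial)

/-- The orbit points of the ball are connected. -/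
lemma cl_conn_ball (hG : FreeAct D G) (S : Finset G) (x0 : X) (N : ℕ) (T : Set (Letter X G))
    (hl : ∀ g ∈ S, ∀ w ∈ ball S N, g * w ∈ ball S N →
      ∀ x, Btw D x0 x (w • x0) → Conn D T x g) :
    ∀ k, k ≤ N → ∀ w ∈ ball S k, Conn D T x0 w := by
  intro k
  induction k with
  | zero =>
    intro _ w hw
    rw [mem_ball_zero] at hw
    exact ⟨[], by simp, trivial, by rw [hw]; rfl⟩
  | succ k ih =>
    intro hk w hw
    have ih' := ih (by omega)
    have hW : w ∈ ball S N := ball_mono S hk hw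
    rcases (mem_ball_succ S k w).1 hw with h | ⟨g, hg, w', hw', rfl⟩ | ⟨g, hg, w', hw', rfl⟩
    · exact ih' w h
    · have hW' : w' ∈ ball S N := ball_mono S (by omega) hw'
      exact conn_trans (ih' w' hw') (hl g hg w' hW' hW _ (btw_right _ _))
    · have hW' : g * (g⁻¹ * w') ∈ ball S N := by
        rw [mul_inv_cancel_left]
        exact ball_mono S (by omega) hw'
      have h1 := conn_symm hG (hl g hg (g⁻¹ * w') hW hW' _ (btw_right _ _))
      have h2 : g • (g⁻¹ * w') • x0 = w' • x0 := by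
        rw [← mul_smul, mul_inv_cancel_left]
      rw [h2] at h1
      exact conn_trans (ih' w' hw') h1

/-- The class index of an admissible system of least index is at least `-2`. -/
lemma cl_lb (hT : IsTree D) (hG : FreeAct D G) (hs : Clus D G s) {S : Finset G}
    (hS : Subgroup.closure (S : Set G) = ⊤) {x0 : X} {cX : ℤ} (hL : Least D S x0 cX)
    {T : Set (Letter X G)} (hA : Adm D S x0 T) {c : ℤ} (hK : ClK D s cX c T) : -2 ≤ c := by
  classical
  obtain ⟨n, -, hn⟩ := adm_ball hT S hS x0 hA 0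
  set F : Finset X := (ball S (n + 1)).image fun w => w • x0 with hF
  have hFm : ∀ y, y ∈ F ↔ ∃ w ∈ ball S (n + 1), y = w • x0 := by
    intro y
    rw [hF, Finset.mem_image]
    exact ⟨fun ⟨w, h1, h2⟩ => ⟨w, h1, h2.symm⟩, fun ⟨w, h1, h2⟩ => ⟨w, h1, h2.symm⟩⟩
  have hx0 : x0 ∈ F := (hFm x0).2 ⟨1, one_mem_ball S _, (one_smul G x0).symm⟩
  obtain ⟨T', hTT', hA', hK', hS', hconn⟩ := extend_ball hT hG S x0 (K := ClK D s cX c)
    (fun T p q g q' hA hK hp hq hd => clK_fold hT hG hs hL c T p q g q' hA hK hp hq hd)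
    n F hFm hA hK (hn F hFm)
  refine claimP_lb hT hG hs hS' hx0 ?_ (hK'.2 F ⟨x0, hx0⟩ hS')
  intro f hf
  obtain ⟨w, hw, rfl⟩ := (hFm f).1 hf
  exact ⟨w, cl_conn_ball hG S x0 (n + 1) T' hconn (n + 1) le_rfl w hw, rfl⟩

theorem cluster_fg (hT : IsTree D) (hG : FreeAct D G) (hfg : Group.FG G) (hs : Clus D G s)
    (x0 : X) : (hs.toConv.stab x0).FG := by
  classical
  obtain ⟨-, S, -, hS⟩ := Group.fg_iff'.1 hfg
  obtain ⟨cX, T0, hL, hA0, hC0⟩ := least_exists hT hG S hS x0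
  -- the least class index
  have hbdd : ∀ z : ℤ, (∃ T, Adm D S x0 T ∧ ClK D s cX z T) → -2 ≤ z := by
    rintro z ⟨T, hA, hK⟩
    exact cl_lb hT hG hs hS hL hA hK
  have hne : ∃ z : ℤ, ∃ T, Adm D S x0 T ∧ ClK D s cX z T := by
    obtain ⟨c, hc⟩ := claimP_ub hT hG hs T0
    exact ⟨c, T0, hA0, hC0, hc⟩
  obtain ⟨c, ⟨T00, hA00, hK00⟩, hmin⟩ := Int.exists_least_of_bdd ⟨-2, hbdd⟩ hne
  by_cases htriv : ∀ g ∈ hs.toConv.stab x0, g = 1
  · have : hs.toConv.stab x0 = ⊥ := (Subgroup.eq_bot_iff_forall _).2 htriv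
    rw [this]
    exact ⟨∅, by simp⟩
  · push Not at htriv
    obtain ⟨g1, hg1s, hg1⟩ := htriv
    have hg1r : s.r x0 (g1 • x0) := hg1s
    obtain ⟨T1, hT001, hA1, hK1, hc1⟩ := extend_all hT hG S hS x0 (K := ClK D s cX c)
      (fun T p q g q' hA hK hp hq hd => clK_fold hT hG hs hL c T p q g q' hA hK hp hq hd)
      hA00 hK00 g1
    -- the group
    set Z : Set G := {g | ∃ E : Set (Edge X G), E.Finite ∧ (∀ e ∈ E, EdgeOf D T1 e) ∧
      WP s E x0 g ∧ s.r x0 (g • x0)} with hZ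
    have key : ∀ g ∈ hs.toConv.stab x0, ∃ H : Subgroup G, H.FG ∧ (∀ h, h ∈ H ↔ h ∈ Z) ∧
        g ∈ H := by
      intro g hg
      have hgr : s.r x0 (g • x0) := hg
      obtain ⟨Tn, -, hAn, ⟨hCn, hsub, hlift⟩, hcn⟩ := extend_all hT hG S hS x0
        (K := fun T => ClaimA D T cX ∧ T1 ⊆ T ∧ ∀ F : Finset X, Sys D F T → Lift D s F T1 T)
        (by
          intro T p q g q' hA hK hp hq hd
          refine ⟨(claimA_ins hT hG hA hK.1 hp hq hd).2, hK.2.1.trans cl_sub_fold, ?_⟩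
          intro F hF
          exact (hK.2.2 F (cl_sys_mono cl_sub_fold hF)).comp
            (lift_fold hT hG hs hL hA hK.1 hp hq hd hF))
        hA1 ⟨hK1.1, subset_rfl, fun F _ => cl_lift_refl D s F T1⟩ g
      -- the count cannot be lowered
      have hnot : ¬ ClaimPA D s Tn (c - 1) := by
        intro h
        have := hmin (c - 1) ⟨Tn, hAn, hCn, h⟩
        omega
      unfold ClaimPA at hnot
      push Not at hnot
      obtain ⟨F, hFne, hSn, hFn⟩ := hnot
      have hS1 : Sys D F T1 := cl_sys_mono hsub hSn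
      have hli := hlift F hSn
      have hlow : ¬ ClaimP D s F T1 (fun _ => True) (c - 1) := fun h =>
        hFn (hli.claimP h (Or.inl fun _ => trivial))
      obtain ⟨H, hHfg, hg1H, hHc, hHQ⟩ := claimP_grp hT hG hs hS1 (hK1.2 F hFne hS1) hlow hg1
        hg1r hc1
      have hQn : ClaimP D s F Tn (fun E => ∀ h, (WP s E x0 h ∧ s.r x0 (h • x0)) ↔ h ∈ H) c := by
        refine hli.claimP hHQ (Or.inr ⟨hFn, ?_⟩)
        intro E E' hEE' hQ hst h
        have hnt : ¬ Tr s E x0 := by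
          intro ht
          have h1 := (hQ g1).2 hg1H
          exact hg1 (ht g1 h1.1 h1.2)
        constructor
        · rintro ⟨h1, h2⟩
          exact (hQ h).1 ⟨hst x0 hnt h h2 h1, h2⟩
        · intro h1
          obtain ⟨h2, h3⟩ := (hQ h).2 h1
          exact ⟨WP.mono hEE' h2, h3⟩
      refine ⟨H, hHfg, ?_, ?_⟩
      · intro h
        constructor
        · intro hh
          obtain ⟨V, E, -, -, hEf, -, hEd, hQ, -⟩ := hHQ ∅ ∅ (by simp) Set.finite_empty (by simp)
          obtain ⟨h1, h2⟩ := (hQ h).2 hh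
          exact ⟨E, hEf, fun e he => (hEd e he).1, h1, h2⟩
        · rintro ⟨E, hEf, hEd, h1, h2⟩
          obtain ⟨V, E', -, hEE', -, -, -, hQ, -⟩ := hHQ ∅ E (by simp) hEf hEd
          exact (hQ h).1 ⟨WP.mono hEE' h1, h2⟩
      · obtain ⟨E, hEf, hEd, hw⟩ := conn_WP hG hs.toConv hSn.flag hcn
        obtain ⟨V, E', -, hEE', -, -, -, hQ, -⟩ := hQn ∅ E (by simp) hEf hEd
        exact (hQ g).1 ⟨WP.mono hEE' hw, hgr⟩
    obtain ⟨H, hHfg, hHZ, -⟩ := key 1 (one_mem _)
    have hEq : hs.toConv.stab x0 = H := by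
      ext g
      constructor
      · intro hg
        obtain ⟨H', -, hH'Z, hgH'⟩ := key g hg
        exact (hHZ g).2 ((hH'Z g).1 hgH')
      · intro hg
        obtain ⟨E, -, -, -, h2⟩ := (hHZ g).1 hg
        exact h2
    rw [hEq]
    exact hHfg

end LTree.Fg
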