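import Pool.Agent.Work.MP_0c526b_al.Fg.Defs
import Pool.Agent.Work.MP_0c526b_al.Full.Graph

/-!
# T2: stabilisers of the classes of a cut are finitely generated
-/

set_option autoImplicit false
set_option linter.unusedVariables false

namespace LTree.Fg

open LTree LTree.Idx

variable {Λ : Type*} [AddCommGroup Λ] [LinearOrder Λ] [IsOrderedAddMonoid Λ] {X : Type*}
variable {D : Dist Λ X} {G : Type*} [Group G] [MulAction G X] {s : Setoid X}

/-- The gate of a segment. -/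
lemma seg_gate (hT : IsTree D) {p q y c z : X} (hc : IsMedian D p q y c) (hz : Btw D p z q) :
    Btw D y c z := by
  obtain ⟨h1, h2, h3⟩ := hc
  have h4 := btw_dist hT h1 hz
  have t1 := D.tri y c z
  have t2 := D.tri y z p
  have t3 := D.tri y z q
  have s1 := D.symm y c
  have s2 := D.symm y p
  have s3 := D.symm z p
  have s4 := D.symm y q
  have s5 := D.symm q c
  unfold Btw at *
  grind

/-- The line through which one leaves the class of `x0` on the way to `x`. -/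
def Br (D : Dist Λ X) (s : Setoid X) (B : Set (Set X)) (x0 x : X) (l : Set X) : Prop :=
  l ∈ B ∧ ∃ m1 ∈ l, ∃ m2 ∈ l, Btw D x0 m1 x ∧ Btw D x0 m2 x ∧ s.r x0 m1 ∧ ¬ s.r x0 m2

/-- Lines are convex. -/
def CvxL (D : Dist Λ X) (B : Set (Set X)) : Prop :=
  ∀ l ∈ B, ∀ x ∈ l, ∀ y ∈ l, ∀ m, Btw D x m y → m ∈ l

lemma seg_lt (hT : IsTree D) (hs : Conv D G s) {x0 x m1 m2 : X} (h1 : Btw D x0 m1 x)
    (h2 : Btw D x0 m2 x) (r1 : s.r x0 m1) (r2 : ¬ s.r x0 m2) : D.d x0 m1 < D.d x0 m2 := by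
  by_contra h
  apply r2
  have h4 := btw_dist hT h1 h2
  have s1 := D.symm m1 m2
  refine hs.convex x0 m2 m1 r1 ?_
  unfold Btw at *
  grind

lemma seg_btw (hT : IsTree D) {x0 x a b c : X} (h1 : Btw D x0 a x)
    (h2 : Btw D x0 b x) (h3 : Btw D x0 c x) (h4 : D.d x0 a ≤ D.d x0 b) (h5 : D.d x0 b ≤ D.d x0 c) :
    Btw D a b c := by
  have e1 := btw_dist hT h1 h2
  have e2 := btw_dist hT h2 h3
  have e3 := btw_dist hT h1 h3
  unfold Btw at *
  grind

lemma seg_init (hT : IsTree D) {x0 x a b : X} (h1 : Btw D x0 a x)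
    (h2 : Btw D x0 b x) (h4 : D.d x0 a ≤ D.d x0 b) : Btw D x0 a b := by
  have e1 := btw_dist hT h1 h2
  unfold Btw at *
  grind

lemma Br_exists (hT : IsTree D) (hs : Conv D G s) {B : Set (Set X)} (hB : CvxL D B) {x0 x : X}
    (hchain : Relation.ReflTransGen (fun u v => s.r u v ∨ ∃ l ∈ B, u ∈ l ∧ v ∈ l) x0 x)
    (hx : ¬ s.r x0 x) : ∃ l, Br D s B x0 x l := by
  have key : ∀ y, Relation.ReflTransGen (fun u v => s.r u v ∨ ∃ l ∈ B, u ∈ l ∧ v ∈ l) x0 y →
      (∀ c, IsMedian D x0 x y c → s.r x0 c) ∨ ∃ l, Br D s B x0 x l := by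
    intro y hy
    induction hy with
    | refl =>
      left
      intro c hc
      have := eq_of_btw_self hc.2.2
      subst this
      exact s.refl _
    | @tail y z _ hyz ih =>
      rcases ih with ih | ih
      · by_cases hz : ∀ c, IsMedian D x0 x z c → s.r x0 c
        · exact Or.inl hz
        · right
          push Not at hz
          obtain ⟨c2, hc2, r2⟩ := hz
          obtain ⟨c1, hc1⟩ := exists_median hT x0 x y
          have hc1' : IsMedian D x0 x y c1 := hc1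
          have r1 := ih c1 hc1'
          have hne : c1 ≠ c2 := by
            rintro rfl
            exact r2 r1
          have g1 := seg_gate hT hc1' hc2.1
          have g2 := (seg_gate hT hc2 hc1.1).symm
          have g3 := lg_btw hT g1 g2 hne
          rcases hyz with h | ⟨l, hl, hyl, hzl⟩
          · exfalso
            have a1 := hs.convex y c1 z h g3.1
            have a2 := hs.convex y c2 z h g3.2
            exact r2 (s.trans r1 (s.trans (s.symm a1) a2))
          · exact ⟨l, hl, c1, hB l hl y hyl z hzl c1 g3.1, c2, hB l hl y hyl z hzl c2 g3.2, hc1.1,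
              hc2.1, r1, r2⟩
      · exact Or.inr ih
  rcases key x hchain with h | h
  · exact absurd (h x ⟨btw_right x0 x, btw_left x x, btw_right x0 x⟩) hx
  · exact h

lemma Br_unique (hT : IsTree D) (hs : Conv D G s) {B : Set (Set X)} (hB : CvxL D B) {x0 x : X}
    (hsep : ∀ l ∈ B, ∀ l' ∈ B, l ≠ l' → ∀ x y, x ∈ l → x ∈ l' → y ∈ l → y ∈ l' → s.r x y)
    {l l' : Set X} (h : Br D s B x0 x l) (h' : Br D s B x0 x l') : l = l' := by
  by_contra hne
  obtain ⟨hl, m1, m1l, m2, m2l, b1, b2, r1, r2⟩ := h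
  obtain ⟨hl', n1, n1l, n2, n2l, c1, c2, t1, t2⟩ := h'
  have e1 := seg_lt hT hs b1 b2 r1 r2
  have e2 := seg_lt hT hs b1 c2 r1 t2
  have e3 := seg_lt hT hs c1 b2 t1 r2
  have e4 := seg_lt hT hs c1 c2 t1 t2
  -- the further of `m1`, `n1`
  have ha : ∃ a, Btw D x0 a x ∧ s.r x0 a ∧ D.d x0 m1 ≤ D.d x0 a ∧ D.d x0 n1 ≤ D.d x0 a ∧
      D.d x0 a < D.d x0 m2 ∧ D.d x0 a < D.d x0 n2 := by
    rcases le_total (D.d x0 m1) (D.d x0 n1) with h | h
    · exact ⟨n1, c1, t1, h, le_refl _, e3, e4⟩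
    · exact ⟨m1, b1, r1, le_refl _, h, e1, e2⟩
  obtain ⟨a, a1, ra, am, an, am2, an2⟩ := ha
  have hb : ∃ b, Btw D x0 b x ∧ ¬ s.r x0 b ∧ D.d x0 b ≤ D.d x0 m2 ∧ D.d x0 b ≤ D.d x0 n2 ∧
      D.d x0 a < D.d x0 b := by
    rcases le_total (D.d x0 m2) (D.d x0 n2) with h | h
    · exact ⟨m2, b2, r2, le_refl _, h, am2⟩
    · exact ⟨n2, c2, t2, h, le_refl _, an2⟩
  obtain ⟨b, b1', rb, bm, bn, ab⟩ := hb
  have al : a ∈ l := hB l hl m1 m1l m2 m2l a (seg_btw hT b1 a1 b2 am am2.le)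
  have al' : a ∈ l' := hB l' hl' n1 n1l n2 n2l a (seg_btw hT c1 a1 c2 an an2.le)
  have bl : b ∈ l := hB l hl m1 m1l m2 m2l b (seg_btw hT b1 b1' b2 (am.trans ab.le) bm)
  have bl' : b ∈ l' := hB l' hl' n1 n1l n2 n2l b (seg_btw hT c1 b1' c2 (an.trans ab.le) bn)
  exact rb (s.trans ra (hsep l hl l' hl' hne a b al al' bl bl'))

lemma Br_congr (hT : IsTree D) (hs : Conv D G s) {B : Set (Set X)} (hB : CvxL D B) {x0 x y : X}
    (hxy : ∀ m, Btw D x m y → ¬ s.r x0 m) {l : Set X} (h : Br D s B x0 x l) :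
    Br D s B x0 y l := by
  obtain ⟨hl, m1, m1l, m2, m2l, b1, b2, r1, r2⟩ := h
  obtain ⟨c, c1, c2, c3⟩ := exists_median hT x0 x y
  have rc := hxy c c2
  have e1 := seg_lt hT hs b1 c1 r1 rc
  have e2 := seg_lt hT hs b1 b2 r1 r2
  have d1 : Btw D x0 m1 y := (btw_trans' c3 (seg_init hT b1 c1 e1.le)).1
  rcases le_total (D.d x0 m2) (D.d x0 c) with h | h
  · exact ⟨hl, m1, m1l, m2, m2l, d1, (btw_trans' c3 (seg_init hT b2 c1 h)).1, r1, r2⟩
  · exact ⟨hl, m1, m1l, c, hB l hl m1 m1l m2 m2l c (seg_btw hT b1 c1 b2 e1.le h), d1, c3, r1, rc⟩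

lemma Br_line (hT : IsTree D) (hs : Conv D G s) {B : Set (Set X)} (hB : CvxL D B)
    {x0 w y : X} {l : Set X} (hl : l ∈ B) (hw : w ∈ l) (rw : s.r x0 w) (hy : y ∈ l)
    (ry : ¬ s.r x0 y) : Br D s B x0 y l := by
  obtain ⟨m, c1, c2, c3⟩ := exists_median hT x0 w y
  exact ⟨hl, m, hB l hl w hw y hy m c2, y, hy, c3, btw_right x0 y, hs.convex x0 m w rw c1, ry⟩

/-- The action on the classes. -/
@[reducible] def actQ (hs : Conv D G s) : MulAction G (Quotient s) where
  smul g := Quotient.map (fun x => g • x) (fun x y h => hs.inv g x y h)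
  one_smul := by
    rintro ⟨x⟩
    exact congrArg (Quotient.mk s) (one_smul G x)
  mul_smul := by
    rintro a b ⟨x⟩
    exact congrArg (Quotient.mk s) (mul_smul a b x)

/-- The action on sets. -/
@[reducible] def actS (G : Type*) [Group G] (X : Type*) [MulAction G X] : MulAction G (Set X) where
  smul g d := sm g d
  one_smul := sm_one
  mul_smul := sm_mul

lemma mem_stab_iff_sm {l : Set X} {g : G} : g ∈ stab G l ↔ sm g l = l := by
  constructor
  · intro h
    ext y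
    constructor
    · rintro ⟨z, hz, rfl⟩
      exact (h z).2 hz
    · intro hy
      refine ⟨g⁻¹ • y, ?_, smul_inv_smul g y⟩
      rw [← h, smul_inv_smul]
      exact hy
  · intro h y
    constructor
    · intro hy
      rw [← h] at hy
      obtain ⟨z, hz, e⟩ := hy
      have : z = y := by
        have := congrArg (fun t => g⁻¹ • t) e
        simpa using this
      rwa [← this]
    · intro hy
      rw [← h]
      exact ⟨y, hy, rfl⟩

theorem cut_fg (hT : IsTree D) (hG : FreeAct D G) (hfg : Group.FG G) (hs : Conv D G s)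
    (B : Set (Set X)) (hB : ∀ l ∈ B, ∃ b : G, b ≠ 1 ∧ l = axis D b)
    (hBi : ∀ (g : G), ∀ l ∈ B, sm g l ∈ B)
    (hsep : ∀ l ∈ B, ∀ l' ∈ B, l ≠ l' → ∀ x y, x ∈ l → x ∈ l' → y ∈ l → y ∈ l' → s.r x y)
    (hchain : ∀ x y : X, Relation.ReflTransGen
      (fun u v => s.r u v ∨ ∃ l ∈ B, u ∈ l ∧ v ∈ l) x y)
    (hst : ∀ l ∈ B, ∀ x ∈ l, (hs.stab x ⊓ stab G l).FG) (x0 : X) : (hs.stab x0).FG := by
  classical
  have hC : CvxL D B := by
    intro l hl x hx y hy m hm
    obtain ⟨b, hb, rfl⟩ := hB l hl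
    exact axis_convex hT hG hb hx hy hm
  let _ := actQ hs
  let _ := actS G X
  obtain ⟨S, hS⟩ := hfg.out
  let mk : X → Quotient s := Quotient.mk s
  have hmk : ∀ x y, mk x = mk y ↔ s.r x y := fun x y => Quotient.eq (r := s)
  let adj : Quotient s → Set X → Prop := fun q l => l ∈ B ∧ ∃ x ∈ l, mk x = q
  have hadj : ∀ (g : G) v w, adj v w → adj (g • v) (g • w) := by
    rintro g v w ⟨hw, x, hx, rfl⟩
    exact ⟨hBi g w hw, g • x, ⟨x, hx, rfl⟩, rfl⟩
  let βV : Quotient s → Set X := fun q =>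
    if h : ∃ l, ∃ x, mk x = q ∧ Br D s B x0 x l then h.choose else ∅
  have hβV : ∀ x l, ¬ s.r x0 x → Br D s B x0 x l → βV (mk x) = l := by
    intro x l hx hl
    have h : ∃ l, ∃ y, mk y = mk x ∧ Br D s B x0 y l := ⟨l, x, rfl, hl⟩
    have e : βV (mk x) = h.choose := dif_pos h
    rw [e]
    obtain ⟨y, hy, hyl⟩ := h.choose_spec
    rw [hmk] at hy
    refine Br_unique hT hs hC hsep (Br_congr hT hs hC ?_ hyl) hl
    intro m hm hm'
    exact hx (s.trans hm' (s.trans (s.symm (hs.convex y m x hy hm)) hy))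
  let βW : Set X → Set X := fun l =>
    if ∃ w ∈ l, s.r x0 w then l else if h : ∃ x, x ∈ l then βV (mk h.choose) else ∅
  have hβW : ∀ l, adj (mk x0) l → βW l = l := by
    rintro l ⟨hl, x, hx, e⟩
    rw [hmk] at e
    have h : ∃ w ∈ l, s.r x0 w := ⟨x, hx, s.symm e⟩
    exact if_pos h
  have hβ : ∀ q l, q ≠ mk x0 → adj q l → βV q = βW l := by
    rintro q l hq ⟨hl, x, hx, rfl⟩
    have hx0 : ¬ s.r x0 x := by
      intro h
      exact hq ((hmk _ _).2 (s.symm h))
    by_cases h : ∃ w ∈ l, s.r x0 w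
    · have e : βW l = l := if_pos h
      rw [e]
      obtain ⟨w, hw, rw'⟩ := h
      exact hβV x l hx0 (Br_line hT hs hC hl hw rw' hx hx0)
    · have h2 : ∃ x, x ∈ l := ⟨x, hx⟩
      have e : βW l = βV (mk h2.choose) := by
        show (if ∃ w ∈ l, s.r x0 w then l else if h : ∃ x, x ∈ l then βV (mk h.choose) else ∅) = _
        rw [if_neg h, dif_pos h2]
      rw [e]
      have hy := h2.choose_spec
      have hy0 : ¬ s.r x0 h2.choose := fun h3 => h ⟨_, hy, h3⟩
      obtain ⟨n, hn⟩ := Br_exists hT hs hC (hchain x0 x) hx0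
      rw [hβV x n hx0 hn]
      refine (hβV _ n hy0 (Br_congr hT hs hC ?_ hn)).symm
      intro m hm hm'
      exact h ⟨m, hC l hl x hx _ hy m hm, hm'⟩
  have hconn : ∀ g ∈ S, Relation.ReflTransGen (Full.Stp adj) (mk x0) (g • mk x0) := by
    intro g _
    have key : ∀ y, Relation.ReflTransGen (fun u v => s.r u v ∨ ∃ l ∈ B, u ∈ l ∧ v ∈ l) x0 y →
        Relation.ReflTransGen (Full.Stp adj) (mk x0) (mk y) := by
      intro y hy
      induction hy with
      | refl => exact Relation.ReflTransGen.refl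
      | @tail y z _ hyz ih =>
        rcases hyz with h | ⟨l, hl, hy, hz⟩
        · rw [← (hmk y z).2 h]
          exact ih
        · exact ih.tail ⟨l, ⟨hl, y, hy, rfl⟩, ⟨hl, z, hz, rfl⟩⟩
    exact key (g • x0) (hchain x0 (g • x0))
  have hstab : ∀ l, adj (mk x0) l →
      (MulAction.stabilizer G (mk x0) ⊓ MulAction.stabilizer G l).FG := by
    rintro l ⟨hl, x, hx, e⟩
    have h1 := hst l hl x hx
    have e2 : MulAction.stabilizer G (mk x0) ⊓ MulAction.stabilizer G l =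
        hs.stab x ⊓ stab G l := by
      ext g
      rw [Subgroup.mem_inf, Subgroup.mem_inf, MulAction.mem_stabilizer_iff,
        MulAction.mem_stabilizer_iff, mem_stab_iff_sm, hs.mem_stab, ← e]
      have e3 : g • mk x = mk x ↔ s.r x (g • x) :=
        (hmk (g • x) x).trans ⟨fun h => s.symm h, fun h => s.symm h⟩
      rw [e3]
      exact Iff.rfl
    rw [e2]
    exact h1
  have hmain := Full.graph_fg adj hadj (mk x0) βV βW hβW hβ S hS hconn hstab
  have e2 : MulAction.stabilizer G (mk x0) = hs.stab x0 := by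
    ext g
    rw [MulAction.mem_stabilizer_iff, hs.mem_stab]
    exact (hmk (g • x0) x0).trans ⟨fun h => s.symm h, fun h => s.symm h⟩
  rwa [e2] at hmain

end LTree.Fg
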