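import Pool.Agent.Work.MP_0c526b_al.Fg.Defs
import Pool.Agent.Work.MP_0c526b_al.TopMain

/-!
# Short elements preserving an axis which is not small
-/

set_option autoImplicit false
set_option linter.unusedVariables false

namespace LTree.Fg

open LTree LTree.Idx

variable {Λ : Type*} [AddCommGroup Λ] [LinearOrder Λ] [IsOrderedAddMonoid Λ] {X : Type*}
variable {D : Dist Λ X} {G : Type*} [Group G] [MulAction G X]

/-- The stabiliser of an axis is abelian. -/
lemma stab_comm (hT : IsTree D) (hG : FreeAct D G) {b : G} (hb : b ≠ 1) {p : X}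
    (hp : p ∈ axis D b) {g h : G} (hg : g ∈ stab G (axis D b)) (hh : h ∈ stab G (axis D b)) :
    g * h = h * g := by
  have hY := axis_linear hT hG hb
  have hq : b • p ∈ axis D b := smul_mem_axis_self hG hp
  have hpq : b • p ≠ p := hG.ne hb p
  have key : ∀ u ∈ stab G (axis D b), ∀ v ∈ stab G (axis D b),
      coord D p (b • p) ((u * v) • p) = coord D p (b • p) (v • p) + coord D p (b • p) (u • p) := by
    intro u hu v hv
    rw [mul_smul, coord_smul hT hG hY hp hq hpq (fun y hy => (hu y).2 hy) ((hv p).2 hp)]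
  have e : coord D p (b • p) ((g * h) • p) = coord D p (b • p) ((h * g) • p) := by
    rw [key g hg h hh, key h hh g hg, add_comm]
  have e2 := coord_inj hT hY hp hq hpq (((stab G _).mul_mem hg hh p).2 hp)
    (((stab G _).mul_mem hh hg p).2 hp) e
  have e3 : (h * g)⁻¹ * (g * h) = 1 := by
    apply hG.free _ p
    rw [mul_smul, e2, inv_smul_smul]
  have := mul_left_cancel (a := (h * g)⁻¹) (b := g * h) (c := h * g) (by rw [e3]; group)
  exact this

/-- Elements preserving the axis of `b` commute with `b`. -/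
lemma stab_comm_self (hT : IsTree D) (hG : FreeAct D G) {b : G} (hb : b ≠ 1) {p : X}
    (hp : p ∈ axis D b) {g : G} (hg : g ∈ stab G (axis D b)) : b * g = g * b :=
  stab_comm hT hG hb hp (comm_mem_stab hG rfl) hg

/-- Nontrivial elements preserving an axis have this axis. -/
lemma axis_of_stab (hT : IsTree D) (hG : FreeAct D G) {b : G} (hb : b ≠ 1) {p : X}
    (hp : p ∈ axis D b) {g : G} (hg : g ∈ stab G (axis D b)) (hg1 : g ≠ 1) :
    axis D g = axis D b :=
  axis_comm_eq hT hG hg1 hb (stab_comm_self hT hG hb hp hg).symm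

/-- Elements preserving an axis have constant displacement on it. -/
lemma disp_stab (hT : IsTree D) (hG : FreeAct D G) {b : G} (hb : b ≠ 1) {p q : X}
    (hp : p ∈ axis D b) (hq : q ∈ axis D b) {g : G} (hg : g ∈ stab G (axis D b)) :
    D.d q (g • q) = D.d p (g • p) := by
  by_cases hg1 : g = 1
  · rw [hg1, one_smul, one_smul, D.d_self, D.d_self]
  · have e := axis_of_stab hT hG hb hp hg hg1
    exact (mem_axis_iff hT hG hg1 (by rw [e]; exact hp) q).1 (by rw [e]; exact hq)

/-- If the axis of `b` is not small, groups of short elements preserving it are f.g. -/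
theorem not_small_fg (hT : IsTree D) (hG : FreeAct D G) {l : Λ} (hl : 0 < l) {b : G}
    (hb : b ≠ 1) (hs : ¬ Small D G l b) (H : Subgroup G)
    (hH : ∀ h ∈ H, h ∈ stab G (axis D b) ∧ ∃ p ∈ axis D b, D.d p (h • p) ∈ hullC l) :
    H.FG := by
  classical
  obtain ⟨-, p, hp, -⟩ := hH 1 H.one_mem
  have hst : ∀ h ∈ H, h ∈ stab G (axis D b) := fun h hh => (hH h hh).1
  have hlen : ∀ h ∈ H, D.d p (h • p) ∈ hullC l := by
    intro h hh
    obtain ⟨h1, q, hq, h2⟩ := hH h hh
    rwa [disp_stab hT hG hb hp hq h1] at h2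
  have hY := axis_linear hT hG hb
  have hq : b • p ∈ axis D b := smul_mem_axis_self hG hp
  have hpq : b • p ≠ p := hG.ne hb p
  set κ := coord D p (b • p) with hκ
  have hκabs : ∀ h ∈ H, |κ (h • p)| = D.d p (h • p) := fun h hh => abs_coord _ _ _
  have hκmem : ∀ h ∈ H, κ (h • p) ∈ hullC l := by
    intro h hh
    apply hullC_convex (hlen h hh)
    rw [hκabs h hh, abs_of_nonneg (D.nonneg _ _)]
  have hκmul : ∀ u ∈ H, ∀ v ∈ H, κ ((u * v) • p) = κ (u • p) + κ (v • p) := by
    intro u hu v hv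
    rw [mul_smul, hκ, coord_smul hT hG hY hp hq hpq (fun y hy => (hst u hu y).2 hy)
      ((hst v hv p).2 hp), add_comm]
  let ρ : H →* Multiplicative ℝ :=
    { toFun := fun b => Multiplicative.ofAdd (theta l (κ ((b : G) • p)))
      map_one' := by
        rw [Subgroup.coe_one, one_smul, hκ, coord_self, theta_zero hl]; rfl
      map_mul' := by
        intro b c
        rw [Subgroup.coe_mul, hκmul b b.2 c c.2, theta_add hl (hκmem b b.2) (hκmem c c.2)]
        rfl }
  have hρabs : ∀ h : H, |(ρ h).toAdd| = theta l (D.d p ((h : G) • p)) := by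
    intro h
    rw [← hκabs h h.2, theta_abs hl (hκmem h h.2)]; rfl
  -- the gap
  obtain ⟨ε, hε, hgap⟩ : ∃ ε : ℝ, 0 < ε ∧ ∀ h : H, h ≠ 1 → ε ≤ |(ρ h).toAdd| := by
    unfold Small at hs
    push Not at hs
    obtain ⟨ε, hε, h1⟩ := hs
    refine ⟨ε, hε, fun h hh => ?_⟩
    obtain ⟨q, hq', h2⟩ := h1 (h : G) (fun e => hh (Subtype.ext e))
      (stab_comm_self hT hG hb hp (hst h h.2))
    rw [hρabs, ← disp_stab hT hG hb hp hq' (hst h h.2)]
    apply h2
    rw [disp_stab hT hG hb hp hq' (hst h h.2)]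
    exact hlen h h.2
  have hinj : ∀ h : H, ρ h = 1 → h = 1 := by
    intro h hh
    by_contra hne
    have := hgap h hne
    rw [hh] at this
    simp at this
    linarith
  let Θ : AddSubgroup ℝ := Subgroup.toAddSubgroup' ρ.range
  have hΘ : ∀ t, t ∈ Θ ↔ ∃ b : H, (ρ b).toAdd = t := by
    intro t
    constructor
    · rintro ⟨b, hb⟩; exact ⟨b, by rw [hb]; rfl⟩
    · rintro ⟨b, hb⟩; exact ⟨b, by rw [← hb]; rfl⟩
  rcases AddSubgroup.dense_or_cyclic Θ with hd | ⟨t, ht⟩
  · exfalso
    obtain ⟨t, ht, ht0, ht1⟩ : ∃ t ∈ Θ, 0 < t ∧ t < ε := by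
      obtain ⟨t, ht1, ht2⟩ := hd.exists_between hε
      exact ⟨t, ht1, ht2.1, ht2.2⟩
    obtain ⟨m, hm⟩ := (hΘ t).1 ht
    have hm1 : m ≠ 1 := by
      intro e
      rw [e, map_one] at hm
      have : t = 0 := hm.symm
      linarith
    have := hgap m hm1
    rw [hm, abs_of_pos ht0] at this
    linarith
  · have htΘ : t ∈ Θ := by rw [ht]; exact AddSubgroup.mem_closure_singleton_self t
    obtain ⟨b0, hb0⟩ := (hΘ t).1 htΘ
    refine ⟨{(b0 : G)}, ?_⟩
    apply le_antisymm
    · rw [Subgroup.closure_le]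
      intro x hx
      rw [Finset.coe_singleton, Set.mem_singleton_iff] at hx
      rw [hx]; exact b0.2
    · intro h hh
      have hb' : (ρ ⟨h, hh⟩).toAdd ∈ AddSubgroup.closure {t} := by
        rw [← ht]; exact (hΘ _).2 ⟨_, rfl⟩
      obtain ⟨n, hn⟩ := AddSubgroup.mem_closure_singleton.1 hb'
      have e : ρ (⟨h, hh⟩ * (b0 ^ n)⁻¹) = 1 := by
        rw [map_mul, map_inv, map_zpow]
        apply Multiplicative.toAdd.injective
        rw [toAdd_mul, toAdd_inv, toAdd_zpow, hb0, hn, toAdd_one]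
        ring
      have e2 := hinj _ e
      have e3 : (⟨h, hh⟩ : H) = b0 ^ n := mul_inv_eq_one.1 e2
      have e4 : h = (b0 : G) ^ n := congrArg Subtype.val e3
      rw [e4]
      exact Subgroup.zpow_mem _ (Subgroup.subset_closure (by simp)) n

end LTree.Fg
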