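import Pool.Agent.Work.MP_0c526b_al.Idx.Fold
import Pool.Agent.Work.MP_0c526b_al.Idx.System
import Pool.Agent.Work.MP_0c526b_al.Sum

/-!
# Abelian subgroups of finitely generated tree-free groups are finitely generated: definitions

Paper proof: note 3164 (helper85, kind plan) on MP_0c526b_al.
-/

set_option autoImplicit false
set_option linter.unusedVariables false

namespace LTree.Fg

open LTree LTree.Idx

variable {Λ : Type*} [AddCommGroup Λ] [LinearOrder Λ] [IsOrderedAddMonoid Λ] {X : Type*}
variable {D : Dist Λ X} {G : Type*} [Group G] [MulAction G X]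

/-! ### Invariant relations with convex classes -/

/-- An invariant equivalence relation with convex classes. -/
structure Conv (D : Dist Λ X) (G : Type*) [Group G] [MulAction G X] (s : Setoid X) : Prop where
  convex : ∀ x m y, s.r x y → Btw D x m y → s.r x m
  inv : ∀ (g : G) (x y : X), s.r x y → s.r (g • x) (g • y)

/-- If an element preserves a class, then its axis lies in this class. -/
structure Clus (D : Dist Λ X) (G : Type*) [Group G] [MulAction G X] (s : Setoid X) : Prop
    extends Conv D G s where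
  ax : ∀ (u : G) (x y : X), u ≠ 1 → s.r x (u • x) → y ∈ axis D u → s.r x y

/-- The stabiliser of the class of `x`. -/
def Conv.stab {s : Setoid X} (hs : Conv D G s) (x : X) : Subgroup G where
  carrier := {g | s.r x (g • x)}
  one_mem' := by
    show s.r x ((1 : G) • x)
    rw [one_smul]
  mul_mem' := by
    intro a b ha hb
    show s.r x ((a * b) • x)
    rw [mul_smul]
    exact s.trans ha (hs.inv a _ _ hb)
  inv_mem' := by
    intro a ha
    show s.r x (a⁻¹ • x)
    have h := hs.inv a⁻¹ _ _ ha
    rw [inv_smul_smul] at h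
    exact s.symm h

lemma Conv.mem_stab {s : Setoid X} (hs : Conv D G s) {x : X} {g : G} :
    g ∈ hs.stab x ↔ s.r x (g • x) := Iff.rfl

/-! ### Class level (P-level): directions, edges, words, the count -/

/-- The direction of `y` at the class of `x` (`y` not in this class): the points `z` such that
`[z,y]` misses the class of `x`. -/
def drP (D : Dist Λ X) (s : Setoid X) (x y : X) : Set X := {z | ∀ m, Btw D z m y → ¬ s.r x m}

/-- The class directions carried by an edge. -/
def dsP (D : Dist Λ X) (s : Setoid X) (e : Edge X G) : Set (Set X) :=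
  {d | (¬ s.r e.x e.a ∧ d = drP D s e.x e.a) ∨ (¬ s.r e.x e.b ∧ d = drP D s e.x e.b)}

/-- Adjacency of classes. -/
def rVP (s : Setoid X) (E : Set (Edge X G)) : X → X → Prop :=
  fun x y => s.r x y ∨ ∃ e ∈ E, s.r x e.x ∧ s.r (e.h • e.x) y

/-- Adjacency of class directions. -/
def rHP (D : Dist Λ X) (s : Setoid X) (E : Set (Edge X G)) : X × Set X → X × Set X → Prop :=
  fun u v => (s.r u.1 v.1 ∧ u.2 = v.2) ∨
    ∃ e ∈ E, s.r u.1 e.x ∧ u.2 ∈ dsP D s e ∧ s.r (e.h • e.x) v.1 ∧ v.2 = sm e.h u.2

/-- The pairs (point of `V`, class direction of the hull at it). -/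
noncomputable def HP (D : Dist Λ X) (s : Setoid X) (F V : Finset X) : Finset (X × Set X) := by
  classical
  exact V.biUnion (fun x => (F.filter (fun f => ¬ s.r x f)).image (fun f => (x, drP D s x f)))

/-- `WP s E x g`: some path of edges from the class of `x` to the class of `g • x` has
value `g`. -/
inductive WP (s : Setoid X) (E : Set (Edge X G)) (x : X) : G → Prop
  | one : WP s E x 1
  | fwd (g : G) (e : Edge X G) : WP s E x g → e ∈ E → s.r (g • x) e.x → WP s E x (e.h * g)
  | bwd (g : G) (e : Edge X G) : WP s E x g → e ∈ E → s.r (g • x) (e.h • e.x) →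
      WP s E x (e.h⁻¹ * g)

/-- The group of the leaf of `x` is trivial. -/
def Tr (s : Setoid X) (E : Set (Edge X G)) (x : X) : Prop :=
  ∀ g : G, WP s E x g → s.r x (g • x) → g = 1

/-- The count: number of classes of directions minus twice the number of trivial leaves. -/
noncomputable def Psi (D : Dist Λ X) (s : Setoid X) (F V : Finset X) (E : Set (Edge X G)) : ℤ := by
  classical
  exact (ncl (rHP D s E) (HP D s F V) : ℤ) - 2 * (ncl (rVP s E) (V.filter (fun x => Tr s E x)) : ℤ)

/-- From `E` to `E'` the count is raised by at most `b`, and if it is raised by exactly `b` then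
the groups of the nontrivial leaves of `E` do not change. -/
structure Stp (D : Dist Λ X) (s : Setoid X) (F V : Finset X) (E E' : Set (Edge X G)) (b : ℤ) :
    Prop where
  sub : E ⊆ E'
  le : Psi D s F V E' ≤ Psi D s F V E + b
  grp : Psi D s F V E' = Psi D s F V E + b → ∀ x, ¬ Tr s E x → ∀ g : G, s.r x (g • x) →
    WP s E' x g → WP s E x g

/-- An edge between points of `V` with end points in the hull. -/
structure EV (D : Dist Λ X) (F V : Finset X) (e : Edge X G) : Prop where
  x : e.x ∈ V
  hx : e.h • e.x ∈ V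
  a : e.a ∈ hull D F
  b : e.b ∈ hull D F
  ga : e.h • e.a ∈ hull D F
  gb : e.h • e.b ∈ hull D F
  btw : Btw D e.a e.x e.b

/-- The class index of `T` is at most `c`; `Q` is an extra condition on the set of edges. -/
def ClaimP (D : Dist Λ X) (s : Setoid X) (F : Finset X) (T : Set (Letter X G))
    (Q : Set (Edge X G) → Prop) (c : ℤ) : Prop :=
  ∀ (V0 : Finset X) (E0 : Set (Edge X G)), (∀ x ∈ V0, x ∈ hull D F) → E0.Finite →
    (∀ e ∈ E0, EdgeOf D T e) → ∃ (V : Finset X) (E : Set (Edge X G)), V0 ⊆ V ∧ E0 ⊆ E ∧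
      E.Finite ∧ Sk D F V ∧ (∀ e ∈ E, EdgeOf D T e ∧ e.x ∈ V ∧ e.h • e.x ∈ V) ∧ Q E ∧
      Psi D s F V E ≤ c

/-! ### Fold data and systems -/

/-- The letters of `T` and the flagged family `(p,q,g)`. -/
def LF (T : Set (Letter X G)) (p q : X) (g : G) : Set (Letter X G) :=
  {l | l ∈ lett T ∨ l = ⟨p, q, g, true⟩ ∨ l = (⟨p, q, g, true⟩ : Letter X G).inv}

/-- `q'` is the point at which the closing lemma stops. -/
structure FData (hT : IsTree D) (T : Set (Letter X G)) (p q : X) (g : G) (q' : X) : Prop where
  btw : Btw D p q' q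
  base : Conn D T p g
  time : D.d p q' ∈ JJ hT (LF T p q g) p q g
  word : ∃ w : List (Letter X G), (∀ l ∈ w, l ∈ LF T p q g) ∧ val w = g ∧
    ok D (D.d p q') w q'
  stop : ¬ ∃ (w : List (Letter X G)) (m : X),
    (∀ l ∈ w, l ∈ lett (insert ⟨p, q', g, false⟩ T)) ∧ val w = g ∧ m ≠ q' ∧
      Btw D q' m q ∧ mem D w q' ∧ mem D w m

/-- The system after the fold step. -/
def fold (T : Set (Letter X G)) (p q : X) (g : G) (q' : X) : Set (Letter X G) :=
  insert ⟨q', q, g, false⟩ (insert ⟨p, q', g, false⟩ T)

/-- A system in the hull of the orbit of `x0`, containing the point families of `S`. -/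
structure Adm (D : Dist Λ X) (S : Finset G) (x0 : X) (T : Set (Letter X G)) : Prop where
  base : ∀ g ∈ S, (⟨x0, x0, g, false⟩ : Letter X G) ∈ T
  sys : ∃ W : Finset G, Sys D (letI := Classical.decEq X; W.image (fun w => w • x0)) T

/-- The index of `T` is at most `c`, in all hulls containing `T`. -/
def ClaimA (D : Dist Λ X) (T : Set (Letter X G)) (c : ℤ) : Prop :=
  ∀ F : Finset X, F.Nonempty → Sys D F T → Claim D F T c

/-- The class index of `T` is at most `c`, in all hulls containing `T`. -/
def ClaimPA (D : Dist Λ X) (s : Setoid X) (T : Set (Letter X G)) (c : ℤ) : Prop :=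
  ∀ F : Finset X, F.Nonempty → Sys D F T → ClaimP D s F T (fun _ => True) c

/-- `cX` is the least index of an admissible system. -/
structure Least (D : Dist Λ X) (S : Finset G) (x0 : X) (cX : ℤ) : Prop where
  lb : ∀ (T : Set (Letter X G)) (c : ℤ), Adm D S x0 T → ClaimA D T c → cX ≤ c

/-! ### Axes -/

/-- The axis of `b` carries elements of arbitrarily small translation length, compared to `l`. -/
def Small (D : Dist Λ X) (G : Type*) [Group G] [MulAction G X] (l : Λ) (b : G) : Prop :=
  ∀ ε : ℝ, 0 < ε → ∃ m : G, m ≠ 1 ∧ b * m = m * b ∧ ∀ p ∈ axis D b,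
    D.d p (m • p) ∈ hullC l ∧ theta l (D.d p (m • p)) < ε

/-- The axis of `b` is much longer than the translation length of some element preserving it. -/
def Long (D : Dist Λ X) (G : Type*) [Group G] [MulAction G X] (b : G) : Prop :=
  ∃ m : G, m ≠ 1 ∧ b * m = m * b ∧ ∃ x ∈ axis D b, ∃ y ∈ axis D b,
    ∀ n : ℕ, n • D.d x (m • x) < D.d x y

/-- A step: a distance comparable to `l` or smaller, or two points of a small axis. -/
def Stl (D : Dist Λ X) (G : Type*) [Group G] [MulAction G X] (l : Λ) (x y : X) : Prop :=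
  D.d x y ∈ hullC l ∨ ∃ b : G, b ≠ 1 ∧ Small D G l b ∧ x ∈ axis D b ∧ y ∈ axis D b

/-- The state of the descending induction. -/
structure State (D : Dist Λ X) (G : Type*) [Group G] [MulAction G X] (l : Λ) : Prop where
  hT : IsTree D
  hG : FreeAct D G
  fg : Group.FG G
  hl : 0 < l
  chain : ∀ x y : X, Relation.ReflTransGen (Stl D G l) x y

/-- A step at the level `C`, long axes allowed. -/
def StL (D : Dist Λ X) (G : Type*) [Group G] [MulAction G X] (C : Submodule ℤ Λ) (x y : X) :
    Prop :=
  D.d x y ∈ C ∨ ∃ b : G, b ≠ 1 ∧ Long D G b ∧ x ∈ axis D b ∧ y ∈ axis D b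

/-- A step at the level `l`, long small axes allowed. -/
def StS (D : Dist Λ X) (G : Type*) [Group G] [MulAction G X] (l : Λ) (x y : X) : Prop :=
  D.d x y ∈ hullC l ∨ ∃ b : G, b ≠ 1 ∧ Long D G b ∧ Small D G l b ∧ x ∈ axis D b ∧ y ∈ axis D b

/-- Restriction of a distance to a subset. -/
def rst (D : Dist Λ X) (Y : Set X) : Dist Λ Y where
  d x y := D.d x y
  d_self x := D.d_self x
  eq_of_d x y h := Subtype.ext (D.eq_of_d _ _ h)
  symm x y := D.symm _ _
  tri x y z := D.tri _ _ _

end LTree.Fg
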