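import Pool.Agent.Work.MP_0c526b_al.Fg.Adm
import Pool.Agent.Work.MP_0c526b_al.Idx.BallDef

/-!
# M11: extension of systems by fold steps
-/

set_option autoImplicit false
set_option linter.unusedVariables false

namespace LTree.Fg

open LTree LTree.Idx LTree.Idx.Subtree

variable {Λ : Type*} [AddCommGroup Λ] [LinearOrder Λ] [IsOrderedAddMonoid Λ] {X : Type*}
variable {D : Dist Λ X} {G : Type*} [Group G] [MulAction G X]

lemma conn_mem {T : Set (Letter X G)} {p q : X} {g : G} (h : (⟨p, q, g, false⟩ : Letter X G) ∈ T)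
    {x : X} (hx : Btw D p x q) : Conn D T x g :=
  ⟨[⟨p, q, g, false⟩], by
    intro l h'
    rw [List.mem_singleton] at h'
    rw [h']; exact Or.inl h, ⟨hx, trivial⟩, by simp [val]⟩

lemma conn_mono {T T' : Set (Letter X G)} (h : T ⊆ T') {x : X} {g : G} (hc : Conn D T x g) :
    Conn D T' x g := by
  obtain ⟨w, hw, h1, h2⟩ := hc
  refine ⟨w, fun l hl => ?_, h1, h2⟩
  rcases hw l hl with h3 | ⟨l', h3, h4⟩
  · exact Or.inl (h h3)
  · exact Or.inr ⟨l', h h3, h4⟩

/-- A point of `[p,q]` is in `[p,q']` or in `[q',q]`. -/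
lemma btw_split (hT : IsTree D) {p q q' x : X} (hq' : Btw D p q' q) (hx : Btw D p x q) :
    Btw D p x q' ∨ Btw D q' x q := by
  rcases le_total (D.d p x) (D.d p q') with h | h
  · left
    have h1 := btw_dist hT hx hq'
    rw [abs_of_nonpos (sub_nonpos.2 h)] at h1
    unfold Btw
    rw [h1]
    abel
  · right
    have h1 := btw_dist hT hx hq'
    rw [abs_of_nonneg (sub_nonneg.2 h)] at h1
    have h2 := D.symm q' x
    unfold Btw at *
    grind

lemma conn_fold (hT : IsTree D) {T : Set (Letter X G)} {p q q' : X} {g : G}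
    (hq' : Btw D p q' q) {x : X} (hx : Btw D p x q) : Conn D (fold T p q g q') x g := by
  rcases btw_split hT hq' hx with h | h
  · exact conn_mem (Or.inr (Or.inl rfl)) h
  · exact conn_mem (Or.inl rfl) h

lemma sub_fold {T : Set (Letter X G)} {p q q' : X} {g : G} : T ⊆ fold T p q g q' :=
  (Set.subset_insert _ _).trans (Set.subset_insert _ _)

lemma sys_fold (hT : IsTree D) (hG : FreeAct D G) {F : Finset X} {T : Set (Letter X G)}
    (hS : Sys D F T) {p q q' : X} {g : G} (hp : p ∈ hull D F) (hq : q ∈ hull D F)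
    (gp : g • p ∈ hull D F) (gq : g • q ∈ hull D F) (hq' : Btw D p q' q) :
    Sys D F (fold T p q g q') := by
  have h1 := hull_convex hT hp hq hq'
  have h2 := hull_convex hT gp gq (hG.btw g hq')
  exact fx_sys_insert (fx_sys_insert hS hp h1 gp h2) h1 hq h2 gq

/-- Connecting everything in a ball, keeping a property stable under folds. -/
theorem extend_ball (hT : IsTree D) (hG : FreeAct D G) (S : Finset G) (x0 : X)
    {K : Set (Letter X G) → Prop}
    (hK : ∀ (T : Set (Letter X G)) (p q : X) (g : G) (q' : X), Adm D S x0 T → K T →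
      p ∈ KK D G x0 → q ∈ KK D G x0 → FData hT T p q g q' → K (fold T p q g q'))
    (n : ℕ) (F : Finset X) (hF : ∀ y, y ∈ F ↔ ∃ w ∈ ball S (n + 1), y = w • x0)
    {T : Set (Letter X G)} (hA : Adm D S x0 T) (hKT : K T) (hS : Sys D F T) :
    ∃ T', T ⊆ T' ∧ Adm D S x0 T' ∧ K T' ∧ Sys D F T' ∧
      ∀ g ∈ S, ∀ w ∈ ball S (n + 1), g * w ∈ ball S (n + 1) →
        ∀ x, Btw D x0 x (w • x0) → Conn D T' x g := by
  classical
  have hW : ∀ w ∈ ball S (n + 1), w • x0 ∈ hull D F :=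
    fun w hw => subset_hull ((hF _).2 ⟨w, hw, rfl⟩)
  have hx0 : x0 ∈ hull D F := by
    have := hW 1 (one_mem_ball S _)
    rwa [one_smul] at this
  have step : ∀ P : Finset (G × G), (∀ u ∈ P, u.1 ∈ S ∧ u.2 ∈ ball S (n + 1) ∧
        u.1 * u.2 ∈ ball S (n + 1)) →
      ∃ T', T ⊆ T' ∧ Adm D S x0 T' ∧ K T' ∧ Sys D F T' ∧
        ∀ u ∈ P, ∀ x, Btw D x0 x (u.2 • x0) → Conn D T' x u.1 := by
    intro P
    induction P using Finset.induction_on with
    | empty => exact fun _ => ⟨T, Set.Subset.refl _, hA, hKT, hS, by simp⟩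
    | insert u P hu ih =>
      intro hP
      obtain ⟨T1, hT1, hA1, hK1, hS1, h1⟩ := ih (fun v hv => hP v (Finset.mem_insert_of_mem hv))
      obtain ⟨hs, hw, hsw⟩ := hP u (Finset.mem_insert_self _ _)
      have h0 : Conn D T1 x0 u.1 := conn_mem (hA1.base _ hs) (btw_left _ _)
      have gp : u.1 • x0 ∈ hull D F := hW _ (subset_ball S n hs)
      have gq : u.1 • u.2 • x0 ∈ hull D F := by
        rw [← mul_smul]; exact hW _ hsw
      obtain ⟨q', hd⟩ := fdata_exists hT hG hS1 hx0 (hW _ hw) gp gq h0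
      refine ⟨fold T1 x0 (u.2 • x0) u.1 q', hT1.trans sub_fold,
        adm_fold hT hG hA1 (base_KK x0) (orbit_KK x0 _) hd,
        hK _ _ _ _ _ hA1 hK1 (base_KK x0) (orbit_KK x0 _) hd,
        sys_fold hT hG hS1 hx0 (hW _ hw) gp gq hd.btw, ?_⟩
      intro v hv x hx
      rcases Finset.mem_insert.1 hv with rfl | hv
      · exact conn_fold hT hd.btw hx
      · exact conn_mono sub_fold (h1 v hv x hx)
  obtain ⟨T', h1, h2, h3, h4, h⟩ := step ((S ×ˢ ball S (n + 1)).filter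
      (fun u => u.1 * u.2 ∈ ball S (n + 1))) (by
    intro u hu
    obtain ⟨h2, h3⟩ := Finset.mem_filter.1 hu
    obtain ⟨h4, h5⟩ := Finset.mem_product.1 h2
    exact ⟨h4, h5, h3⟩)
  refine ⟨T', h1, h2, h3, h4, ?_⟩
  intro s hs w hw hsw
  exact h (s, w) (Finset.mem_filter.2 ⟨Finset.mem_product.2 ⟨hs, hw⟩, hsw⟩)

theorem ball_conn (hT : IsTree D) (hG : FreeAct D G) (S : Finset G)
    (hS : Subgroup.closure (S : Set G) = ⊤) (x0 : X) {x : X} (hx : x ∈ KK D G x0) (g : G) :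
    ∃ n0 : ℕ, ∀ n, n0 ≤ n → ∀ T' : Set (Letter X G),
      (∀ h ∈ S, ∀ w ∈ ball S (n + 1), h * w ∈ ball S (n + 1) →
        ∀ y, Btw D x0 y (w • x0) → Conn D T' y h) → Conn D T' x g := by
  classical
  have one : ∀ (y : X), y ∈ KK D G x0 → ∀ h ∈ S, ∃ n0 : ℕ, ∀ n, n0 ≤ n →
      ∀ T' : Set (Letter X G), (∀ h ∈ S, ∀ w ∈ ball S (n + 1), h * w ∈ ball S (n + 1) →
        ∀ y, Btw D x0 y (w • x0) → Conn D T' y h) → Conn D T' y h := by
    intro y hy h hh
    obtain ⟨a, ha⟩ := KK_beyond hT hy x0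
    obtain ⟨n, hn⟩ := ball_exhaust S hS {a, h * a}
    refine ⟨n, fun m hm T' hT' => ?_⟩
    have hsub := hn (m + 1) (hm.trans (Nat.le_succ m))
    exact hT' h hh a (hsub (by simp)) (hsub (by simp)) y ha.symm
  have hg : g ∈ Subgroup.closure (S : Set G) := by rw [hS]; trivial
  induction hg using Subgroup.closure_induction_left with
  | one => exact ⟨0, fun n _ T' _ => ⟨[], by simp, trivial, rfl⟩⟩
  | mul_left s hs y _ ih =>
    obtain ⟨n1, h1⟩ := ih
    obtain ⟨n2, h2⟩ := one (y • x) (smul_mem_KK hG y hx) s hs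
    refine ⟨max n1 n2, fun n hn T' hT' => ?_⟩
    have a1 := h1 n (le_trans (le_max_left _ _) hn) T' hT'
    have a2 := h2 n (le_trans (le_max_right _ _) hn) T' hT'
    exact conn_trans a1 a2
  | inv_mul_cancel s hs y _ ih =>
    obtain ⟨n1, h1⟩ := ih
    obtain ⟨n2, h2⟩ := one ((s⁻¹ * y) • x) (smul_mem_KK hG _ hx) s hs
    refine ⟨max n1 n2, fun n hn T' hT' => ?_⟩
    have a1 := h1 n (le_trans (le_max_left _ _) hn) T' hT'
    have a2 := h2 n (le_trans (le_max_right _ _) hn) T' hT'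
    have a3 := conn_symm hG a2
    have e : s • (s⁻¹ * y) • x = y • x := by
      rw [← mul_smul, mul_inv_cancel_left]
    rw [e] at a3
    exact conn_trans a1 a3

/-- Every admissible system lies in the hull of a ball. -/
theorem adm_ball (hT : IsTree D) (S : Finset G) (hS : Subgroup.closure (S : Set G) = ⊤)
    (x0 : X) {T : Set (Letter X G)} (hA : Adm D S x0 T) (n0 : ℕ) :
    ∃ n, n0 ≤ n ∧ ∀ F : Finset X, (∀ y, y ∈ F ↔ ∃ w ∈ ball S (n + 1), y = w • x0) →
      Sys D F T := by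
  obtain ⟨W, hW⟩ := hA.orb
  obtain ⟨n, hn⟩ := ball_exhaust S hS W
  refine ⟨max n0 n, le_max_left _ _, fun F hF => Sys.hull_mono ?_ hW⟩
  intro y hy
  obtain ⟨w, hw, rfl⟩ := mem_orb.1 hy
  exact (hF _).2 ⟨w, hn _ (le_trans (le_max_right n0 n) (Nat.le_succ _)) hw, rfl⟩

/-- Everything can be connected. -/
theorem extend_all (hT : IsTree D) (hG : FreeAct D G) (S : Finset G)
    (hS : Subgroup.closure (S : Set G) = ⊤) (x0 : X) {K : Set (Letter X G) → Prop}
    (hK : ∀ (T : Set (Letter X G)) (p q : X) (g : G) (q' : X), Adm D S x0 T → K T →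
      p ∈ KK D G x0 → q ∈ KK D G x0 → FData hT T p q g q' → K (fold T p q g q'))
    {T : Set (Letter X G)} (hA : Adm D S x0 T) (hKT : K T) (g : G) :
    ∃ T', T ⊆ T' ∧ Adm D S x0 T' ∧ K T' ∧ Conn D T' x0 g := by
  obtain ⟨n0, hn0⟩ := ball_conn (D := D) hT hG S hS x0 (base_KK x0) g
  obtain ⟨n, hn, hSys⟩ := adm_ball hT S hS x0 hA n0
  have hF : ∀ y, y ∈ orb x0 (ball S (n + 1)) ↔ ∃ w ∈ ball S (n + 1), y = w • x0 :=
    fun y => mem_orb
  obtain ⟨T', h1, h2, h3, h4, h5⟩ := extend_ball hT hG S x0 hK n _ hF hA hKT (hSys _ hF)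
  exact ⟨T', h1, h2, h3, hn0 n hn T' h5⟩

end LTree.Fg
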