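import Mathlib

/-!
# Finite generation from an image and a kernel
-/

set_option autoImplicit false
set_option linter.unusedVariables false

namespace LTree.Fg

/-- Images of finitely generated subgroups. -/
lemma fg_image {G M : Type*} [Group G] [Group M] {A : Subgroup G} (h : A.FG) (ψ : G →* M) :
    (A.map ψ).FG := by
  classical
  obtain ⟨S, hS⟩ := h
  refine ⟨S.image ψ, ?_⟩
  rw [← hS, MonoidHom.map_closure, Finset.coe_image]

/-- A subgroup is finitely generated if its image and its part in the kernel are. -/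
lemma fg_of_map {G M : Type*} [Group G] [Group M] (A : Subgroup G) (ψ : G →* M)
    (h1 : (A.map ψ).FG) (h2 : (A ⊓ ψ.ker).FG) : A.FG := by
  classical
  obtain ⟨S, hS⟩ := h1
  have hlift : ∀ s : S, ∃ g ∈ A, ψ g = (s : M) := by
    intro s
    have : (s : M) ∈ A.map ψ := by rw [← hS]; exact Subgroup.subset_closure s.2
    obtain ⟨g, hg, e⟩ := this
    exact ⟨g, hg, e⟩
  choose g hg hgs using hlift
  have key : A = Subgroup.closure ((Finset.univ.image g : Finset G) : Set G) ⊔ (A ⊓ ψ.ker) := by
    apply le_antisymm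
    · intro a ha
      have hm : ψ a ∈ (Subgroup.closure ((Finset.univ.image g : Finset G) : Set G)).map ψ := by
        have h3 : ψ a ∈ Subgroup.closure (S : Set M) := by
          rw [hS]; exact Subgroup.mem_map_of_mem ψ ha
        have h4 : Subgroup.closure (S : Set M) ≤
            (Subgroup.closure ((Finset.univ.image g : Finset G) : Set G)).map ψ := by
          rw [Subgroup.closure_le]
          intro s hs
          exact ⟨g ⟨s, hs⟩, Subgroup.subset_closure (Finset.mem_coe.2
            (Finset.mem_image_of_mem _ (Finset.mem_univ _))), hgs _⟩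
        exact h4 h3
      obtain ⟨r, hr, e⟩ := hm
      have hrA : r ∈ A := by
        have : Subgroup.closure ((Finset.univ.image g : Finset G) : Set G) ≤ A := by
          rw [Subgroup.closure_le]
          intro s hs
          obtain ⟨s', -, rfl⟩ := Finset.mem_image.1 (Finset.mem_coe.1 hs)
          exact hg _
        exact this hr
      have : a = r * (r⁻¹ * a) := by group
      rw [this]
      refine Subgroup.mul_mem_sup hr ⟨A.mul_mem (A.inv_mem hrA) ha, ?_⟩
      change ψ (r⁻¹ * a) = 1
      rw [map_mul, map_inv, e]; simp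
    · refine sup_le ?_ inf_le_left
      rw [Subgroup.closure_le]
      intro s hs
      obtain ⟨s', -, rfl⟩ := Finset.mem_image.1 (Finset.mem_coe.1 hs)
      exact hg _
  rw [key]
  exact Subgroup.FG.sup ⟨_, rfl⟩ h2

/-- Subgroups of finitely generated subgroups of `ℝ` are finitely generated. -/
lemma fg_real {Θ Θ' : AddSubgroup ℝ} (h : Θ ≤ Θ') (hfg : Θ'.FG) : Θ.FG := by
  classical
  obtain ⟨S, hS⟩ := hfg
  have hnoeth : IsNoetherian ℤ (Submodule.span ℤ (S : Set ℝ)) :=
    isNoetherian_of_fg_of_noetherian _ ⟨_, rfl⟩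
  have hle : AddSubgroup.toIntSubmodule Θ ≤ Submodule.span ℤ (S : Set ℝ) := by
    intro t ht
    have h1 : t ∈ AddSubgroup.closure (S : Set ℝ) := by rw [hS]; exact h ht
    rw [← Submodule.span_int_eq_addSubgroupClosure] at h1
    exact h1
  obtain ⟨U, hU⟩ := (isNoetherian_submodule.1 hnoeth) _ hle
  refine ⟨U, ?_⟩
  ext t
  rw [← Submodule.span_int_eq_addSubgroupClosure]
  change t ∈ Submodule.span ℤ (U : Set ℝ) ↔ _
  rw [hU]; exact Iff.rfl

/-- The image of a subgroup under a homomorphism from a f.g. group to `ℝ` is f.g. -/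
lemma map_real_fg {G : Type*} [Group G] (hG : Group.FG G) (ψ : G →* Multiplicative ℝ)
    (A : Subgroup G) : (A.map ψ).FG := by
  classical
  have h1 : (ψ.range).FG := by
    have := hG
    exact (Group.fg_iff_subgroup_fg ψ.range).1 (Group.fg_range ψ)
  have h2 : (Subgroup.toAddSubgroup' (A.map ψ)) ≤ Subgroup.toAddSubgroup' ψ.range := by
    rintro t ⟨a, ha, e⟩
    exact ⟨a, e⟩
  have h3 : (Subgroup.toAddSubgroup' ψ.range).FG := (AddSubgroup.fg_iff_mul_fg _).2 h1
  exact (AddSubgroup.fg_iff_mul_fg (Subgroup.toAddSubgroup' (A.map ψ))).1 (fg_real h2 h3)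

end LTree.Fg
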