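import Pool.Agent.Work.MP_0c526b_al.Fg.Defs
import Pool.Agent.Work.MP_0c526b_al.TopMain

/-!
# Overlaps of axes
-/

set_option autoImplicit false
set_option linter.unusedVariables false

namespace LTree.Fg

open LTree LTree.Idx

variable {Λ : Type*} [AddCommGroup Λ] [LinearOrder Λ] [IsOrderedAddMonoid Λ] {X : Type*}
variable {D : Dist Λ X} {G : Type*} [Group G] [MulAction G X]

/-- Points between `u` and `v` have a nonnegative coordinate. -/
lemma coord_btw {u v x : X} (h : Btw D u x v) : coord D u v x = D.d u x := by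
  unfold coord
  split
  · rename_i h1
    unfold Btw at h h1
    have s := D.symm u x
    have n := D.nonneg u x
    grind
  · rfl

/-- Points of a line with a small nonnegative coordinate are between `u` and `v`. -/
lemma btw_of_coord (hT : IsTree D) {Y : Set X} (hY : Linear D Y) {u v z : X} (hu : u ∈ Y)
    (hv : v ∈ Y) (hvu : v ≠ u) (hz : z ∈ Y) {s : Λ} (h0 : 0 ≤ s) (hs : coord D u v z = s)
    (hle : s ≤ D.d u v) : Btw D u z v ∧ D.d u z = s := by
  have h1 := coord_dist hT hY hu hv hvu hz hv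
  have h2 := abs_coord (D := D) u v z
  rw [hs, coord_pos hvu] at h1
  rw [hs, abs_of_nonneg h0] at h2
  rw [abs_of_nonpos (sub_nonpos.2 hle)] at h1
  refine ⟨?_, h2.symm⟩
  unfold Btw
  rw [← h1, ← h2]; abel

/-- Axes are convex. -/
lemma axis_cvx (hT : IsTree D) (hG : FreeAct D G) {a : G} (ha : a ≠ 1) {u v x : X}
    (hu : u ∈ axis D a) (hv : v ∈ axis D a) (hx : Btw D u x v) : x ∈ axis D a := by
  obtain ⟨c, hc, h⟩ := axis_gated hT hG ha x
  have h1 := h u hu
  have h2 := h v hv
  unfold Btw at hx h1 h2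
  have t := D.tri u c v
  have s1 := D.symm u x
  have s2 := D.symm u c
  have n := D.nonneg x c
  have e : D.d x c = 0 := by grind
  rw [D.eq_of_d _ _ e]; exact hc

/-- Two axes with a long overlap coincide. -/
theorem overlap_two (hT : IsTree D) (hG : FreeAct D G) {a b m m' : G} (ha : a ≠ 1) (hb : b ≠ 1)
    (hm1 : m ≠ 1) (hm1' : m' ≠ 1) (hm : a * m = m * a) (hm' : b * m' = m' * b) {p q : X}
    (hp : p ∈ axis D a) (hq : q ∈ axis D b) {u v : X} (hu : u ∈ axis D a) (hv : v ∈ axis D a)
    (hu' : u ∈ axis D b) (hv' : v ∈ axis D b)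
    (hle : D.d p (m • p) + D.d q (m' • q) ≤ D.d u v) : axis D a = axis D b := by
  have n1 := D.nonneg p (m • p)
  have n2 := D.nonneg q (m' • q)
  obtain ⟨c, hc, b1, e1⟩ := move hT hG ha hp hm hu hv (by grind)
  obtain ⟨c', hc', b2, e2⟩ := move hT hG hb hq hm' hu' hv' (by grind)
  have hvu : v ≠ u := by
    intro e
    rw [e, D.d_self] at hle
    have h0 : D.d p (m • p) = 0 := by grind
    exact hm1 (hG.free m p (D.eq_of_d _ _ h0).symm)
  have hac : a * c = c * a := by
    rcases hc with rfl | rfl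
    · exact hm
    · have : m * a = a * m := hm.symm
      calc a * m⁻¹ = m⁻¹ * (m * a) * m⁻¹ := by group
        _ = m⁻¹ * (a * m) * m⁻¹ := by rw [this]
        _ = m⁻¹ * a := by group
  have hbc : b * c' = c' * b := by
    rcases hc' with rfl | rfl
    · exact hm'
    · have : m' * b = b * m' := hm'.symm
      calc b * m'⁻¹ = m'⁻¹ * (m' * b) * m'⁻¹ := by group
        _ = m'⁻¹ * (b * m') * m'⁻¹ := by rw [this]
        _ = m'⁻¹ * b := by group
  have hc1 : c ≠ 1 := by
    rcases hc with rfl | rfl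
    · exact hm1
    · simpa using hm1
  have hc1' : c' ≠ 1 := by
    rcases hc' with rfl | rfl
    · exact hm1'
    · simpa using hm1'
  have hsc := comm_mem_stab hG hac
  have hsc' := comm_mem_stab hG hbc
  have hYa := axis_linear hT hG ha
  have hYb := axis_linear hT hG hb
  have k1 : coord D u v (c • u) = D.d p (m • p) := by rw [coord_btw b1, e1]
  have k2 : coord D u v (c' • u) = D.d q (m' • q) := by rw [coord_btw b2, e2]
  have hcu : c • u ∈ axis D b := axis_cvx hT hG hb hu' hv' b1
  have hcu' : c' • u ∈ axis D a := axis_cvx hT hG ha hu hv b2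
  have z1 : coord D u v (c' • c • u) = D.d p (m • p) + D.d q (m' • q) := by
    rw [coord_smul hT hG hYb hu' hv' hvu (fun y hy => (hsc' y).2 hy) hcu, k1, k2]
  have z2 : coord D u v (c • c' • u) = D.d p (m • p) + D.d q (m' • q) := by
    rw [coord_smul hT hG hYa hu hv hvu (fun y hy => (hsc y).2 hy) hcu', k1, k2, add_comm]
  obtain ⟨w1, f1⟩ := btw_of_coord hT hYb hu' hv' hvu ((hsc' _).2 hcu) (add_nonneg n1 n2) z1 hle
  obtain ⟨w2, f2⟩ := btw_of_coord hT hYa hu hv hvu ((hsc _).2 hcu') (add_nonneg n1 n2) z2 hle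
  have heq : c' • c • u = c • c' • u := btw_unique hT w1 w2 (by rw [f1, f2])
  have hcc : c * c' = c' * c := by
    have e3 : (c' * c)⁻¹ * (c * c') = 1 := by
      apply hG.free _ u
      rw [mul_smul, mul_smul c c', ← heq, ← mul_smul c' c, inv_smul_smul]
    exact mul_left_cancel (a := (c' * c)⁻¹) (by rw [e3]; group)
  rw [axis_comm_eq hT hG ha hc1 hac, axis_comm_eq hT hG hb hc1' hbc,
    axis_comm_eq hT hG hc1 hc1' hcc]

/-- Two different small axes overlap in an infinitesimal segment. -/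
theorem overlap_small (hT : IsTree D) (hG : FreeAct D G) {l : Λ} (hl : 0 < l) {a b : G}
    (ha : a ≠ 1) (hb : b ≠ 1) (sa : Small D G l a) (sb : Small D G l b)
    (hab : axis D a ≠ axis D b) {u v : X} (hu : u ∈ axis D a) (hv : v ∈ axis D a)
    (hu' : u ∈ axis D b) (hv' : v ∈ axis D b) : D.d u v ∈ infC l := by
  by_contra hn
  apply hab
  by_cases ht : D.d u v ∈ hullC l
  · have hpos : 0 < theta l (D.d u v) := by
      rcases (theta_nonneg hl ht (D.nonneg _ _)).lt_or_eq with h | h
      · exact h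
      · exact absurd ((mem_infC_iff hl ht).2 h.symm) hn
    obtain ⟨m, hm1, hm, hm2⟩ := sa _ (half_pos hpos)
    obtain ⟨m', hm1', hm', hm2'⟩ := sb _ (half_pos hpos)
    obtain ⟨h1, h2⟩ := hm2 u hu
    obtain ⟨h1', h2'⟩ := hm2' u hu'
    refine overlap_two hT hG ha hb hm1 hm1' hm hm' hu hu' hu hv hu' hv' ?_
    by_contra hc
    push Not at hc
    have h3 := theta_mono hl ht ((hullC l).add_mem h1 h1') hc.le
    rw [theta_add hl h1 h1'] at h3
    linarith
  · obtain ⟨m, hm1, hm, hm2⟩ := sa 1 one_pos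
    obtain ⟨m', hm1', hm', hm2'⟩ := sb 1 one_pos
    obtain ⟨h1, h2⟩ := hm2 u hu
    obtain ⟨h1', h2'⟩ := hm2' u hu'
    refine overlap_two hT hG ha hb hm1 hm1' hm hm' hu hu' hu hv hu' hv' ?_
    by_contra hc
    push Not at hc
    apply ht
    apply hullC_convex ((hullC l).add_mem h1 h1')
    rw [abs_of_nonneg (D.nonneg _ _), abs_of_nonneg (add_nonneg (D.nonneg _ _) (D.nonneg _ _))]
    exact hc.le

end LTree.Fg
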