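import Pool.Agent.Work.MP_0c526b_al.Fg.Defs
import Pool.Agent.Work.MP_0c526b_al.Fg.Overlap

/-!
# The homomorphism of a small axis, under a chain condition
-/

set_option autoImplicit false
set_option linter.unusedVariables false

namespace LTree.Fg

open LTree LTree.Idx

section ext

variable {Λ : Type*} [AddCommGroup Λ] [LinearOrder Λ] [IsOrderedAddMonoid Λ]

/-- An additive extension of `theta l`. -/
theorem theta_ext {l : Λ} (hl : 0 < l) :
    ∃ π : Λ →+ ℝ, ∀ x ∈ hullC l, π x = theta l x := by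
  let f : (hullC l).toAddSubgroup →+ ℝ :=
    { toFun := fun x => theta l x
      map_zero' := theta_zero hl
      map_add' := fun x y => theta_add hl x.2 y.2 }
  obtain ⟨π, hπ⟩ := (Module.Baer.of_divisible ℝ).extension_property_addMonoidHom
    (hullC l).toAddSubgroup.subtype Subtype.val_injective f
  exact ⟨π, fun x hx => DFunLike.congr_fun hπ ⟨x, hx⟩⟩

end ext

variable {Λ : Type*} [AddCommGroup Λ] [LinearOrder Λ] [IsOrderedAddMonoid Λ] {X : Type*}
variable {D : Dist Λ X} {G : Type*} [Group G] [MulAction G X]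

section

variable {a : G} {p : X} {l : Λ} (h : Setup D G a p l) (π : Λ →+ ℝ)

include h

/-- The translates of the axis are small. -/
lemma Setup.small_conj (g : G) : Small D G l (g * a * g⁻¹) := by
  intro ε hε
  obtain ⟨m, m1, m2, m3, m4⟩ := h.dense ε hε
  refine ⟨g * m * g⁻¹, ?_, ?_, ?_⟩
  · intro e
    apply m1
    have : m = g⁻¹ * (g * m * g⁻¹) * g := by group
    rw [this, e]; group
  · have e1 : g * a * g⁻¹ * (g * m * g⁻¹) = g * (a * m) * g⁻¹ := by group
    have e2 : g * m * g⁻¹ * (g * a * g⁻¹) = g * (m * a) * g⁻¹ := by group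
    rw [e1, e2, m2]
  · intro q hq
    have hq' : g⁻¹ • q ∈ axis D a := by
      have := axis_conj_mem h.hG (a := a) (g := g) (y := g⁻¹ • q)
      rw [smul_inv_smul] at this
      exact this.1 hq
    have hmax : axis D a = axis D m := axis_comm_eq h.hT h.hG h.ha m1 m2
    have hpm : p ∈ axis D m := hmax ▸ h.hp
    have hqm : g⁻¹ • q ∈ axis D m := hmax ▸ hq'
    have e1 := (mem_axis_iff h.hT h.hG m1 hpm (g⁻¹ • q)).1 hqm
    have e2 : D.d q ((g * m * g⁻¹) • q) = D.d (g⁻¹ • q) (m • g⁻¹ • q) := by
      rw [← h.hG.iso g (g⁻¹ • q) (m • g⁻¹ • q), smul_inv_smul, mul_smul, mul_smul]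
    rw [e2, e1]
    exact ⟨m3, m4⟩

/-- The signed length of `[x, y]` on the translate of the axis by `g`, measured by `π`. -/
noncomputable def Setup.fπ (x y : X) (g : G) : ℝ :=
  π (coord D p (a • p) (pr h.gated (g⁻¹ • y)) - coord D p (a • p) (pr h.gated (g⁻¹ • x)))

lemma Setup.fπ_mul (x y : X) (g : G) {m : G} (hm : m ∈ stab G (axis D a)) :
    Setup.fπ h π x y (g * m) = Setup.fπ h π x y g := by
  have hm' := (stab G _).inv_mem hm
  unfold Setup.fπ
  rw [mul_inv_rev, mul_smul, mul_smul, pr_smul h.hG h.gated hm', pr_smul h.hG h.gated hm',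
    h.coord_smul hm' (pr_mem _ _), h.coord_smul hm' (pr_mem _ _)]
  congr 1; abel

/-- The same as a function of the translate. -/
noncomputable def Setup.Fπ (x y : X) (c : G ⧸ stab G (axis D a)) : ℝ :=
  Setup.fπ h π x y c.out

lemma Setup.Fπ_mk (x y : X) (g : G) :
    Setup.Fπ h π x y (g : G ⧸ stab G (axis D a)) = Setup.fπ h π x y g := by
  obtain ⟨m, hm⟩ := QuotientGroup.mk_out_eq_mul (stab G (axis D a)) g
  unfold Setup.Fπ
  rw [hm]
  exact Setup.fπ_mul h π x y g m.2

lemma Setup.Fπ_smul (x y : X) (w : G) (c : G ⧸ stab G (axis D a)) :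
    Setup.Fπ h π (w • x) (w • y) c = Setup.Fπ h π x y (w⁻¹ • c) := by
  induction c using QuotientGroup.induction_on with
  | H g =>
    have : w⁻¹ • (g : G ⧸ stab G (axis D a)) = ((w⁻¹ * g : G) : G ⧸ stab G (axis D a)) := rfl
    rw [this, Setup.Fπ_mk, Setup.Fπ_mk]
    unfold Setup.fπ
    rw [mul_inv_rev, inv_inv, mul_smul, mul_smul]

lemma Setup.Fπ_add (x y z : X) (c : G ⧸ stab G (axis D a)) :
    Setup.Fπ h π x z c = Setup.Fπ h π x y c + Setup.Fπ h π y z c := by
  induction c using QuotientGroup.induction_on with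
  | H g =>
    rw [Setup.Fπ_mk, Setup.Fπ_mk, Setup.Fπ_mk]
    unfold Setup.fπ
    rw [← map_add]
    congr 1; abel

variable {π} (hπ : ∀ x ∈ hullC l, π x = theta l x)

include hπ

lemma Setup.Fπ_eq {x y : X} (hxy : D.d x y ∈ hullC l) (c : G ⧸ stab G (axis D a)) :
    Setup.Fπ h π x y c = h.F x y c := by
  induction c using QuotientGroup.induction_on with
  | H g =>
    rw [Setup.Fπ_mk, h.F_mk]
    unfold Setup.fπ Setup.f
    exact hπ _ (h.diff_mem hxy g)

/-- A step on a small axis: at most one nonzero term. -/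
lemma Setup.Fπ_small {x y : X} {b : G} (hb : b ≠ 1) (sb : Small D G l b) (hx : x ∈ axis D b)
    (hy : y ∈ axis D b) {g : G} (hne : Setup.fπ h π x y g ≠ 0) :
    axis D (g * a * g⁻¹) = axis D b := by
  by_contra hab
  apply hne
  have hga : g * a * g⁻¹ ≠ 1 := by
    intro e
    apply h.ha
    have : a = g⁻¹ * (g * a * g⁻¹) * g := by group
    rw [this, e]; group
  by_cases hpp : g • pr h.gated (g⁻¹ • x) = g • pr h.gated (g⁻¹ • y)
  · have : pr h.gated (g⁻¹ • x) = pr h.gated (g⁻¹ • y) := (MulAction.injective g) hpp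
    unfold Setup.fπ
    rw [this, sub_self, map_zero]
  · obtain ⟨b1, b2, b3⟩ := h.path hpp
    have c1 := axis_convex h.hT h.hG hb hx hy b1
    have c2 := axis_convex h.hT h.hG hb hx hy b2
    have d1 : g • pr h.gated (g⁻¹ • x) ∈ axis D (g * a * g⁻¹) :=
      smul_mem_axis h.hG g (pr_mem _ _)
    have d2 : g • pr h.gated (g⁻¹ • y) ∈ axis D (g * a * g⁻¹) :=
      smul_mem_axis h.hG g (pr_mem _ _)
    have e := overlap_small h.hT h.hG h.hl hga hb (Setup.small_conj h g) sb hab d1 d2 c1 c2
    rw [h.hG.iso, D.symm, ← h.coord_dist (pr_mem _ _) (pr_mem _ _)] at e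
    have e' : coord D p (a • p) (pr h.gated (g⁻¹ • y)) -
        coord D p (a • p) (pr h.gated (g⁻¹ • x)) ∈ infC l :=
      infC_convex e (by rw [abs_abs])
    unfold Setup.fπ
    rw [hπ _ (infC_le_hullC l e')]
    exact (mem_infC_iff h.hl (infC_le_hullC l e')).1 e'

/-- Steps have summable lengths. -/
lemma Setup.summable_step {x y : X} (hxy : Stl D G l x y) : Summable (Setup.Fπ h π x y) := by
  rcases hxy with hxy | ⟨b, hb, sb, hx, hy⟩
  · rw [show Setup.Fπ h π x y = h.F x y from funext (Setup.Fπ_eq h hπ hxy)]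
    exact h.summable hxy
  · by_cases hz : ∃ c, Setup.Fπ h π x y c ≠ 0
    · obtain ⟨c, hc⟩ := hz
      refine summable_of_ne_finset_zero (s := {c}) fun c' hc' => ?_
      by_contra hne
      apply hc'
      rw [Finset.mem_singleton]
      induction c using QuotientGroup.induction_on with
      | H g =>
        induction c' using QuotientGroup.induction_on with
        | H g' =>
          rw [Setup.Fπ_mk] at hc hne
          have e1 := Setup.Fπ_small h hπ hb sb hx hy hc
          have e2 := Setup.Fπ_small h hπ hb sb hx hy hne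
          rw [QuotientGroup.eq]
          intro z
          have f1 := axis_conj_mem h.hG (a := a) (g := g) (y := z)
          have f2 := axis_conj_mem h.hG (a := a) (g := g') (y := (g'⁻¹ * g) • z)
          have e3 : g' • (g'⁻¹ * g) • z = g • z := by rw [smul_smul, mul_inv_cancel_left]
          rw [e3, e2, ← e1] at f2
          exact f2.symm.trans f1
    · push Not at hz
      rw [show Setup.Fπ h π x y = 0 from funext hz]
      exact summable_zero

lemma Setup.summable_all (hchain : ∀ x y : X, Relation.ReflTransGen (Stl D G l) x y) (x y : X) :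
    Summable (Setup.Fπ h π x y) := by
  induction hchain x y with
  | refl =>
    have h0 : D.d x x ∈ hullC l := by rw [D.d_self]; exact (hullC l).zero_mem
    exact Setup.summable_step h hπ (Or.inl h0)
  | @tail b c _ hbc ih =>
    rw [show Setup.Fπ h π x c = fun t => Setup.Fπ h π x b t + Setup.Fπ h π b c t from
      funext (Setup.Fπ_add h π x b c)]
    exact ih.add (Setup.summable_step h hπ hbc)

end

/-- The homomorphism. -/
theorem layer_hom {a : G} {p : X} {l : Λ} (h : Setup D G a p l)
    (hchain : ∀ x y : X, Relation.ReflTransGen (Stl D G l) x y) :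
    ∃ ψ : G →* Multiplicative ℝ, ∀ m ∈ stab G (axis D a), D.d p (m • p) ∈ hullC l →
      (ψ m).toAdd = theta l (coord D p (a • p) (m • p)) := by
  obtain ⟨π, hπ⟩ := theta_ext h.hl
  have hsum := Setup.summable_all h hπ hchain
  have hadd : ∀ x y z : X, ∑' c, Setup.Fπ h π x z c =
      ∑' c, Setup.Fπ h π x y c + ∑' c, Setup.Fπ h π y z c := by
    intro x y z
    rw [← (hsum x y).tsum_add (hsum y z)]
    exact tsum_congr (Setup.Fπ_add h π x y z)
  have hsmul : ∀ (w : G) (x y : X), ∑' c, Setup.Fπ h π (w • x) (w • y) c =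
      ∑' c, Setup.Fπ h π x y c := by
    intro w x y
    rw [← (MulAction.toPerm (w⁻¹ : G)).tsum_eq (Setup.Fπ h π x y)]
    exact tsum_congr (fun c => Setup.Fπ_smul h π x y w c)
  refine ⟨{ toFun := fun w => Multiplicative.ofAdd (∑' c, Setup.Fπ h π p (w • p) c)
            map_one' := ?_
            map_mul' := ?_ }, ?_⟩
  · rw [one_smul]
    have := hadd p p p
    have : ∑' c, Setup.Fπ h π p p c = 0 := by linarith
    rw [this]; rfl
  · intro u v
    rw [mul_smul, hadd p (u • p) (u • v • p), hsmul]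
    rfl
  · intro m hm hml
    change ∑' c, Setup.Fπ h π p (m • p) c = _
    rw [← h.φ_axis hm hml]
    exact tsum_congr (Setup.Fπ_eq h hπ hml)

end LTree.Fg
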