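import Pool.Agent.Work.MP_0c526b_al.Alg

/-!
# Finite rank: convex subgroups are hulls of elements, the rank drops
-/

set_option autoImplicit false

namespace LTree.Fg

open LTree

section

variable {Λ : Type*} [AddCommGroup Λ] [LinearOrder Λ] [IsOrderedAddMonoid Λ]

lemma abs_le_abs_zsmul {c : ℤ} (hc : c ≠ 0) (x : Λ) : |x| ≤ |c • x| := by
  rw [abs_zsmul]
  have h1 : (1 : ℤ) ≤ |c| := Int.one_le_abs hc
  calc |x| = (1 : ℤ) • |x| := (one_zsmul _).symm
    _ ≤ |c| • |x| := zsmul_le_zsmul_left (abs_nonneg x) h1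

/-- Adding an element outside a convex subgroup keeps linear independence. -/
lemma linInd_cons (C : Submodule ℤ Λ) (hC : ∀ t z : Λ, z ∈ C → |t| ≤ |z| → t ∈ C) {n : ℕ}
    {v : Fin n → Λ} (hv : ∀ i, v i ∈ C) (hli : LinearIndependent ℤ v) {x : Λ} (hx : x ∉ C) :
    LinearIndependent ℤ (Fin.cons x v : Fin (n + 1) → Λ) := by
  refine LinearIndependent.finCons' x v hli fun c y hy h => ?_
  by_contra hc
  refine hx (hC x (c • x) ?_ (abs_le_abs_zsmul hc x))
  have h1 : y ∈ C := by
    have h2 : Submodule.span ℤ (Set.range v) ≤ C := by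
      rw [Submodule.span_le]
      rintro _ ⟨i, rfl⟩
      exact hv i
    exact h2 hy
  have h3 : c • x = -y := eq_neg_of_add_eq_zero_left h
  rw [h3]
  exact C.neg_mem h1

end

/-- In a group of finite rank every nonzero convex subgroup is the hull of an element. -/
theorem exists_hullC {Λ : Type*} [AddCommGroup Λ] [LinearOrder Λ] [IsOrderedAddMonoid Λ]
    {N : ℕ} (C : Submodule ℤ Λ)
    (hN : ∀ (n : ℕ) (v : Fin n → Λ), (∀ i, v i ∈ C) → LinearIndependent ℤ v → n ≤ N)
    (hC : ∀ t z : Λ, z ∈ C → |t| ≤ |z| → t ∈ C) (hne : C ≠ ⊥) :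
    ∃ l : Λ, 0 < l ∧ hullC l = C := by
  by_contra hcon
  push Not at hcon
  obtain ⟨z, hz, hz0⟩ := Submodule.exists_mem_ne_zero_of_ne_bot hne
  have hle : ∀ l ∈ C, hullC l ≤ C := by
    rintro l hlC y ⟨m, hm⟩
    refine hC y (m • l) (C.nsmul_mem hlC m) ?_
    rw [abs_nsmul]
    exact hm
  have key : ∀ n : ℕ, ∃ (v : Fin n → Λ) (l : Λ), LinearIndependent ℤ v ∧ 0 < l ∧ l ∈ C ∧
      ∀ i, v i ∈ hullC l := by
    intro n
    induction n with
    | zero =>
      refine ⟨fun i => i.elim0, |z|, linearIndependent_empty_type, abs_pos.2 hz0,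
        hC _ z hz (abs_abs z).le, fun i => i.elim0⟩
    | succ n ih =>
      obtain ⟨v, l, hli, hl, hlC, hv⟩ := ih
      obtain ⟨y, hy, hyl⟩ : ∃ y ∈ C, y ∉ hullC l := by
        by_contra h2
        push Not at h2
        exact hcon l hl (le_antisymm (hle l hlC) h2)
      have hy0 : y ≠ 0 := by
        rintro rfl
        exact hyl (Submodule.zero_mem _)
      refine ⟨Fin.cons y v, |y|, linInd_cons (hullC l) (fun t w hw h => hullC_convex hw h) hv hli
        hyl, abs_pos.2 hy0, hC _ y hy (abs_abs y).le, ?_⟩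
      have h3 : hullC y ≤ hullC |y| := hullC_le_of_mem
        (hullC_convex (self_mem_hullC |y|) (abs_abs y).ge)
      have h4 : hullC l ≤ hullC |y| :=
        (hullC_le_of_mem (infC_le_hullC y (mem_infC_of_not_mem hyl))).trans h3
      intro i
      refine Fin.cases ?_ (fun j => ?_) i
      · rw [Fin.cons_zero]
        exact h3 (self_mem_hullC y)
      · rw [Fin.cons_succ]
        exact h4 (hv j)
  obtain ⟨v, l, hli, -, hlC, hv⟩ := key (N + 1)
  have := hN (N + 1) v (fun i => hle l hlC (hv i)) hli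
  omega

/-- The rank drops. -/
theorem rank_drop {Λ : Type*} [AddCommGroup Λ] [LinearOrder Λ] [IsOrderedAddMonoid Λ]
    {N : ℕ} {l : Λ} (hl : 0 < l)
    (hN : ∀ (n : ℕ) (v : Fin n → Λ), (∀ i, v i ∈ hullC l) → LinearIndependent ℤ v → n ≤ N + 1) :
    ∀ (n : ℕ) (v : Fin n → Λ), (∀ i, v i ∈ infC l) → LinearIndependent ℤ v → n ≤ N := by
  intro n v hv hli
  have h1 := linInd_cons (infC l) (fun t w hw h => infC_convex hw h) hv hli
    (self_not_mem_infC hl.ne')
  have h2 := hN (n + 1) _ (fun i => by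
    refine Fin.cases ?_ (fun j => ?_) i
    · rw [Fin.cons_zero]
      exact self_mem_hullC l
    · rw [Fin.cons_succ]
      exact infC_le_hullC l (hv j)) h1
  omega

end LTree.Fg
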