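import Pool.Agent.Work.MP_0c526b_al.Fg.Chain

/-!
# M22: long axes, and the two relations of the step down
-/

set_option autoImplicit false

namespace LTree.Fg

open LTree LTree.Idx

variable {Λ : Type*} [AddCommGroup Λ] [LinearOrder Λ] [IsOrderedAddMonoid Λ] {X : Type*}
variable {D : Dist Λ X} {G : Type*} [Group G] [MulAction G X]

/-- Elements preserving an axis commute. -/
lemma lv_comm (hT : IsTree D) (hG : FreeAct D G) {a b m : G} (ha : a ≠ 1) {p : X}
    (hp : p ∈ axis D a) (hb : b ∈ stab G (axis D a)) (hm : m ∈ stab G (axis D a)) :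
    b * m = m * b := by
  have hY := axis_linear hT hG ha
  have hq : a • p ∈ axis D a := smul_mem_axis_self hG hp
  have hpq : a • p ≠ p := hG.ne ha p
  have pb : ∀ y ∈ axis D a, b • y ∈ axis D a := fun y hy => (hb y).2 hy
  have pm : ∀ y ∈ axis D a, m • y ∈ axis D a := fun y hy => (hm y).2 hy
  have e1 := coord_smul hT hG hY hp hq hpq pb (pm p hp)
  have e2 := coord_smul hT hG hY hp hq hpq pm (pb p hp)
  have e3 : coord D p (a • p) (b • m • p) = coord D p (a • p) (m • b • p) := by
    rw [e1, e2, add_comm]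
  have e4 := coord_inj hT hY hp hq hpq (pb _ (pm p hp)) (pm _ (pb p hp)) e3
  have e5 : ((m * b)⁻¹ * (b * m)) • p = p := by
    rw [mul_smul, mul_smul b m, e4, ← mul_smul m b, inv_smul_smul]
  exact (inv_mul_eq_one.1 (hG.free _ _ e5)).symm

lemma lv_small_congr (hT : IsTree D) (hG : FreeAct D G) {a b : G} (ha : a ≠ 1) {p : X}
    (hp : p ∈ axis D a) (e : axis D a = axis D b) {l : Λ} (h : Small D G l b) :
    Small D G l a := by
  intro ε hε
  obtain ⟨m, hm1, hm, hd⟩ := h ε hε
  refine ⟨m, hm1, ?_, fun q hq => hd q (by rw [← e]; exact hq)⟩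
  have h1 : a ∈ stab G (axis D a) := comm_mem_stab hG rfl
  have h2 : m ∈ stab G (axis D a) := by rw [e]; exact comm_mem_stab hG hm
  exact lv_comm hT hG ha hp h1 h2

/-- Translation lengths along the axis of a commuting element. -/
lemma lv_disp (hT : IsTree D) (hG : FreeAct D G) {b m : G} (hb : b ≠ 1) (hm1 : m ≠ 1)
    (hm : b * m = m * b) {x y : X} (hx : x ∈ axis D b) (hy : y ∈ axis D b) :
    D.d y (m • y) = D.d x (m • x) := by
  have e : axis D b = axis D m := axis_comm_eq hT hG hb hm1 hm
  rw [e] at hx hy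
  exact (mem_axis_iff hT hG hm1 hx y).1 hy

/-- A distance between two points of a segment. -/
lemma lv_dist_le (hT : IsTree D) {u v m n : X} (hm : Btw D u m v) (hn : Btw D u n v) :
    D.d m n ≤ D.d u v := by
  have e := btw_dist hT hm hn
  have n1 := D.nonneg u m
  have n2 := D.nonneg u n
  have n3 := D.nonneg m v
  have n4 := D.nonneg n v
  unfold Btw at *
  rw [e]
  grind

/-- A translation moves the points of a segment of its axis in the same direction. -/
lemma lv_shift (hT : IsTree D) (hG : FreeAct D G) {a m : G} (ha : a ≠ 1)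
    (hm : m ∈ stab G (axis D a)) {u v w : X} (hu : u ∈ axis D a) (hv : v ∈ axis D a)
    (h1 : Btw D u (m • u) v) (hw : Btw D u w v) (hle : D.d u w + D.d u (m • u) ≤ D.d u v) :
    Btw D u (m • w) v ∧ D.d u (m • w) = D.d u w + D.d u (m • u) := by
  have hY := axis_linear hT hG ha
  have hq : a • u ∈ axis D a := smul_mem_axis_self hG hu
  have hpq : a • u ≠ u := hG.ne ha u
  have pm : ∀ y ∈ axis D a, m • y ∈ axis D a := fun y hy => (hm y).2 hy
  have hwa : w ∈ axis D a := axis_convex hT hG ha hu hv hw
  set κ := coord D u (a • u) with hκ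
  have c1 : κ (m • w) = κ w + κ (m • u) := coord_smul hT hG hY hu hq hpq pm hwa
  have a1 : |κ w| = D.d u w := abs_coord _ _ _
  have a2 : |κ (m • u)| = D.d u (m • u) := abs_coord _ _ _
  have a3 : |κ v| = D.d u v := abs_coord _ _ _
  have a4 : |κ (m • w)| = D.d u (m • w) := abs_coord _ _ _
  have d1 : |κ w - κ v| = D.d w v := coord_dist hT hY hu hq hpq hwa hv
  have d2 : |κ (m • u) - κ v| = D.d (m • u) v := coord_dist hT hY hu hq hpq (pm u hu) hv
  have d3 : |κ (m • w) - κ v| = D.d (m • w) v := coord_dist hT hY hu hq hpq (pm w hwa) hv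
  clear_value κ
  unfold Btw at *
  generalize κ (m • w) = k1 at *
  generalize κ (m • u) = k2 at *
  generalize κ w = k3 at *
  generalize κ v = k4 at *
  generalize D.d u (m • w) = e1 at *
  generalize D.d (m • w) v = e2 at *
  generalize D.d (m • u) v = e3 at *
  generalize D.d u (m • u) = e4 at *
  generalize D.d u w = e5 at *
  generalize D.d w v = e6 at *
  generalize D.d u v = e7 at *
  clear hκ hpq hq pm hwa hY hu hv hm
  constructor <;> grind

/-- Two axes with a long overlap coincide. -/
lemma lv_overlap (hT : IsTree D) (hG : FreeAct D G) {a b m m' : G} (ha : a ≠ 1) (hb : b ≠ 1)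
    (hm1 : m ≠ 1) (hm1' : m' ≠ 1) (hm : a * m = m * a) (hm' : b * m' = m' * b) {p q : X}
    (hp : p ∈ axis D a) (hq : q ∈ axis D b) {u v : X} (hu : u ∈ axis D a) (hv : v ∈ axis D a)
    (hu' : u ∈ axis D b) (hv' : v ∈ axis D b)
    (hle : D.d p (m • p) + D.d q (m' • q) ≤ D.d u v) : axis D a = axis D b := by
  have n1 := D.nonneg p (m • p)
  have n2 := D.nonneg q (m' • q)
  obtain ⟨g, hg, b1, e1⟩ := move hT hG ha hp hm hu hv (by grind)
  obtain ⟨k, hk, b2, e2⟩ := move hT hG hb hq hm' hu' hv' (by grind)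
  have sm : m ∈ stab G (axis D a) := comm_mem_stab hG hm
  have sk : m' ∈ stab G (axis D b) := comm_mem_stab hG hm'
  have sg : g ∈ stab G (axis D a) := by
    rcases hg with rfl | rfl
    · exact sm
    · exact (stab G _).inv_mem sm
  have sk' : k ∈ stab G (axis D b) := by
    rcases hk with rfl | rfl
    · exact sk
    · exact (stab G _).inv_mem sk
  obtain ⟨c1, c2⟩ := lv_shift hT hG ha sg hu hv b1 b2 (by rw [e1, e2]; grind)
  obtain ⟨c3, c4⟩ := lv_shift hT hG hb sk' hu' hv' b2 b1 (by rw [e1, e2]; exact hle)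
  have e3 : g • k • u = k • g • u := btw_unique hT c1 c3 (by rw [c2, c4, add_comm])
  have e5 : ((k * g)⁻¹ * (g * k)) • u = u := by
    rw [mul_smul, mul_smul g k, e3, ← mul_smul k g, inv_smul_smul]
  have hcomm : g * k = k * g := (inv_mul_eq_one.1 (hG.free _ _ e5)).symm
  have g1 : g ≠ 1 := by
    rcases hg with rfl | rfl
    · exact hm1
    · exact inv_ne_one.2 hm1
  have k1 : k ≠ 1 := by
    rcases hk with rfl | rfl
    · exact hm1'
    · exact inv_ne_one.2 hm1'
  have ag : a * g = g * a := by
    rcases hg with rfl | rfl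
    · exact hm
    · rw [← mul_right_inj m, ← mul_left_inj m]
      have e6 : m * (a * m⁻¹) * m = m * a := by group
      have e7 : m * (m⁻¹ * a) * m = a * m := by group
      rw [e6, e7, hm]
  have bk : b * k = k * b := by
    rcases hk with rfl | rfl
    · exact hm'
    · rw [← mul_right_inj m', ← mul_left_inj m']
      have e6 : m' * (b * m'⁻¹) * m' = m' * b := by group
      have e7 : m' * (m'⁻¹ * b) * m' = b * m' := by group
      rw [e6, e7, hm']
  rw [axis_comm_eq hT hG ha g1 ag, axis_comm_eq hT hG g1 k1 hcomm,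
    axis_comm_eq hT hG k1 hb bk.symm]

/-- Every long axis is small. -/
theorem long_small {l : Λ} (h : State D G l) {b : G} (hb : b ≠ 1) (hL : Long D G b) :
    Small D G l b := by
  obtain ⟨m, hm1, hm, x, hx, y, hy, hxy⟩ := hL
  have hT := h.hT
  have hG := h.hG
  have hl := h.hl
  set t := D.d x (m • x) with ht
  have ht0 : 0 ≤ t := D.nonneg _ _
  have hpos : 0 < D.d x y := by
    have := hxy 0
    simpa using this
  by_cases hc : D.d x y ∈ hullC l
  · -- the distance is comparable to `l`
    obtain ⟨N, hN⟩ := hc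
    rw [abs_of_pos hpos, abs_of_pos hl] at hN
    have hN0 : 0 < N := by
      rcases Nat.eq_zero_or_pos N with e | e
      · subst e
        rw [zero_smul] at hN
        exact absurd hN (not_le.2 hpos)
      · exact e
    have hinf : t ∈ infC l := by
      intro n
      rw [abs_of_nonneg ht0, abs_of_pos hl]
      by_contra hcon
      push Not at hcon
      have h1 : N • l ≤ N • (n • t) := nsmul_le_nsmul_right hcon.le N
      rw [smul_smul] at h1
      exact absurd (hxy (N * n)) (not_lt.2 (hN.trans h1))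
    have hth : theta l t = 0 := (mem_infC_iff hl (infC_le_hullC l hinf)).1 hinf
    intro ε hε
    refine ⟨m, hm1, hm, fun p hp => ?_⟩
    rw [lv_disp hT hG hb hm1 hm hx hp, ← ht]
    exact ⟨infC_le_hullC l hinf, by rw [hth]; exact hε⟩
  · -- a step of a chain has a long projection
    set l' := max l t with hl'
    have hl'0 : 0 < l' := lt_of_lt_of_le hl (le_max_left _ _)
    have hll : hullC l ≤ hullC l' := hullC_le_of_mem (hullC_convex (self_mem_hullC l') (by
      rw [abs_of_pos hl, abs_of_pos hl'0]; exact le_max_left _ _))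
    have htl : t ∈ hullC l' := hullC_convex (self_mem_hullC l') (by
      rw [abs_of_nonneg ht0, abs_of_pos hl'0]; exact le_max_right _ _)
    have hc' : D.d x y ∉ hullC l' := by
      rcases max_choice l t with e | e
      · rw [hl', e]; exact hc
      · rw [hl', e]
        rintro ⟨n, hn⟩
        rw [abs_of_pos hpos, abs_of_nonneg ht0] at hn
        exact absurd (hxy n) (not_lt.2 hn)
    by_contra hns
    apply hc'
    refine chain_proj hT hG hb hx hy (h.chain x y) (hullC l')
      (fun s z hz hs => hullC_convex hz hs) ?_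
    intro u v m' n' huv hm' hn' bm bn
    have hle := lv_dist_le hT bm bn
    rcases huv with huv | ⟨c, hc1, hsc, huc, hvc⟩
    · apply hll
      apply hullC_convex huv
      rw [abs_of_nonneg (D.nonneg _ _), abs_of_nonneg (D.nonneg _ _)]
      exact hle
    · by_contra hcon
      apply hns
      obtain ⟨m1, hm11, hmc, hd⟩ := hsc 1 one_pos
      have c1 : m' ∈ axis D c := axis_convex hT hG hc1 huc hvc bm
      have c2 : n' ∈ axis D c := axis_convex hT hG hc1 huc hvc bn
      have hsum : D.d x (m • x) + D.d u (m1 • u) ∈ hullC l' :=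
        (hullC l').add_mem htl (hll (hd u huc).1)
      have e : axis D b = axis D c := by
        refine lv_overlap hT hG hb hc1 hm1 hm11 hm hmc hx huc hm' hn' c1 c2 ?_
        by_contra hlt
        push Not at hlt
        apply hcon
        apply hullC_convex hsum
        rw [abs_of_nonneg (D.nonneg _ _),
          abs_of_nonneg (add_nonneg (D.nonneg _ _) (D.nonneg _ _))]
        exact hlt.le
      exact lv_small_congr hT hG hb hx e hsc

/-! ### Invariance -/

lemma lv_axis_conj (hG : FreeAct D G) {b g : G} {x : X} (hx : x ∈ axis D b) :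
    g • x ∈ axis D (g * b * g⁻¹) := smul_mem_axis hG g hx

lemma lv_long_conj (hG : FreeAct D G) {b : G} (g : G) (h : Long D G b) :
    Long D G (g * b * g⁻¹) := by
  obtain ⟨m, hm1, hm, x, hx, y, hy, hxy⟩ := h
  refine ⟨g * m * g⁻¹, ?_, ?_, g • x, lv_axis_conj hG hx, g • y, lv_axis_conj hG hy, ?_⟩
  · intro e
    apply hm1
    have : m = g⁻¹ * (g * m * g⁻¹) * g := by group
    rw [this, e]; group
  · have e1 : g * b * g⁻¹ * (g * m * g⁻¹) = g * (b * m) * g⁻¹ := by group
    have e2 : g * m * g⁻¹ * (g * b * g⁻¹) = g * (m * b) * g⁻¹ := by group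
    rw [e1, e2, hm]
  · intro n
    have e : (g * m * g⁻¹) • g • x = g • m • x := by
      rw [mul_smul, mul_smul, inv_smul_smul]
    rw [e, hG.iso, hG.iso]
    exact hxy n

lemma lv_small_conj (hG : FreeAct D G) {b : G} (g : G) {l : Λ} (h : Small D G l b) :
    Small D G l (g * b * g⁻¹) := by
  intro ε hε
  obtain ⟨m, hm1, hm, hd⟩ := h ε hε
  refine ⟨g * m * g⁻¹, ?_, ?_, ?_⟩
  · intro e
    apply hm1
    have : m = g⁻¹ * (g * m * g⁻¹) * g := by group
    rw [this, e]; group
  · have e1 : g * b * g⁻¹ * (g * m * g⁻¹) = g * (b * m) * g⁻¹ := by group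
    have e2 : g * m * g⁻¹ * (g * b * g⁻¹) = g * (m * b) * g⁻¹ := by group
    rw [e1, e2, hm]
  · intro p hp
    have h1 : g⁻¹ • p ∈ axis D b := by
      have := smul_mem_axis hG g⁻¹ hp
      have e : g⁻¹ * (g * b * g⁻¹) * g⁻¹⁻¹ = b := by group
      rwa [e] at this
    have h2 : D.d p ((g * m * g⁻¹) • p) = D.d (g⁻¹ • p) (m • g⁻¹ • p) := by
      rw [← hG.iso g (g⁻¹ • p), smul_inv_smul, mul_smul, mul_smul]
    rw [h2]
    exact hd _ h1

lemma lv_conj_ne {b : G} (g : G) (hb : b ≠ 1) : g * b * g⁻¹ ≠ 1 := by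
  intro e
  apply hb
  have : b = g⁻¹ * (g * b * g⁻¹) * g := by group
  rw [this, e]; group

/-- The relation generated by steps which may be restricted to subsegments and translated. -/
lemma lv_conv (hT : IsTree D) {R : X → X → Prop} (hsymm : ∀ x y, R x y → R y x)
    (hsub : ∀ u v m n, R u v → Btw D u m v → Btw D u n v → R m n)
    (hinv : ∀ (g : G) (u v : X), R u v → R (g • u) (g • v)) : Conv D G (genS hsymm) where
  convex := fun x m y h hm => chain_seg hT hsub h hm
  inv := by
    intro g x y h
    change Relation.ReflTransGen R (g • x) (g • y)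
    change Relation.ReflTransGen R x y at h
    induction h with
    | refl => exact Relation.ReflTransGen.refl
    | tail _ h ih => exact ih.tail (hinv g _ _ h)

/-- A point close to the middle of a segment of a linear set lies on it. -/
lemma lv_between {v q y w : X} {t : Λ} (hlin : Btw D v y w ∨ Btw D y w v ∨ Btw D w v y)
    (h1 : D.d v q = t) (h2 : D.d q w = t) (h3 : D.d v w = t + t) (hlt : D.d q y < t) :
    Btw D v y w := by
  have t1 := D.tri v q y
  have t2 := D.tri w q y
  have s1 := D.symm w q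
  have s2 := D.symm w v
  have s3 := D.symm y v
  have s4 := D.symm y w
  have n1 := D.nonneg v y
  have n2 := D.nonneg y w
  unfold Btw at *
  grind

/-- The relation of the clusters. -/
theorem clus_long (hT : IsTree D) (hG : FreeAct D G) (C : Submodule ℤ Λ)
    (hC : ∀ t z : Λ, z ∈ C → |t| ≤ |z| → t ∈ C) :
    ∃ s : Setoid X, Clus D G s ∧ ∀ x y, s.r x y ↔ Relation.ReflTransGen (StL D G C) x y := by
  have hsymm : ∀ x y, StL D G C x y → StL D G C y x := by
    rintro x y (h | ⟨b, hb, hL, hx, hy⟩)
    · exact Or.inl (by rw [D.symm]; exact h)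
    · exact Or.inr ⟨b, hb, hL, hy, hx⟩
  have hconv : Conv D G (genS hsymm) := by
    refine lv_conv hT hsymm ?_ ?_
    · rintro u v m n (h | ⟨b, hb, hL, hx, hy⟩) bm bn
      · left
        apply hC _ _ h
        rw [abs_of_nonneg (D.nonneg _ _), abs_of_nonneg (D.nonneg _ _)]
        exact lv_dist_le hT bm bn
      · exact Or.inr ⟨b, hb, hL, axis_convex hT hG hb hx hy bm, axis_convex hT hG hb hx hy bn⟩
    · rintro g u v (h | ⟨b, hb, hL, hx, hy⟩)
      · left; rw [hG.iso]; exact h
      · exact Or.inr ⟨g * b * g⁻¹, lv_conj_ne g hb, lv_long_conj hG g hL, lv_axis_conj hG hx,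
          lv_axis_conj hG hy⟩
  refine ⟨genS hsymm, { toConv := hconv, ax := ?_ }, fun x y => Iff.rfl⟩
  intro u x y hu hxu hy
  set s : Setoid X := genS hsymm with hs
  obtain ⟨p, -, p2, -, hp, -, -⟩ := exists_proj hT hG hu x
  have hxp : s.r x p := hconv.convex _ _ _ hxu p2
  -- every point equivalent to `x` is equivalent to its translates
  have hup : ∀ q : X, s.r x q → s.r x (u • q) ∧ s.r x (u⁻¹ • q) := by
    intro q hq
    have h1 : s.r x (u • q) := s.trans hxu (hconv.inv u _ _ hq)
    have h2 : s.r q (u • q) := s.trans (s.symm hq) h1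
    have h3 := hconv.inv u⁻¹ _ _ h2
    rw [inv_smul_smul] at h3
    exact ⟨h1, s.trans hq (s.symm h3)⟩
  by_cases hlong : Long D G u
  · exact s.trans hxp (Relation.ReflTransGen.single (Or.inr ⟨u, hu, hlong, hp, hy⟩))
  · have hex : ∃ n : ℕ, D.d p y ≤ n • D.d p (u • p) := by
      by_contra hcon
      push Not at hcon
      exact hlong ⟨u, hu, rfl, p, hp, y, hy, hcon⟩
    obtain ⟨n, hn⟩ := hex
    set t := D.d p (u • p) with ht
    have key : ∀ (n : ℕ) (q : X), q ∈ axis D u → s.r x q → D.d q y ≤ n • t → s.r x y := by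
      intro n
      induction n with
      | zero =>
        intro q _ hxq hd
        rw [zero_smul] at hd
        have : D.d q y = 0 := le_antisymm hd (D.nonneg _ _)
        rw [← D.eq_of_d _ _ this]; exact hxq
      | succ n ih =>
        intro q hq hxq hd
        have hqt : D.d q (u • q) = t := (mem_axis_iff hT hG hu hp q).1 hq
        by_cases hlt : t ≤ D.d q y
        · obtain ⟨m', hm', b1, e1⟩ := move hT hG hu hp (m := u) rfl hq hy hlt
          have hq' : m' • q ∈ axis D u ∧ s.r x (m' • q) := by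
            rcases hm' with rfl | rfl
            · exact ⟨smul_mem_axis_self hG hq, (hup q hxq).1⟩
            · exact ⟨inv_smul_mem_axis_self hG hq, (hup q hxq).2⟩
          refine ih (m' • q) hq'.1 hq'.2 ?_
          unfold Btw at b1
          rw [succ_nsmul] at hd
          grind
        · push Not at hlt
          have a1 : u⁻¹ • q ∈ axis D u := inv_smul_mem_axis_self hG hq
          have a2 : u • q ∈ axis D u := smul_mem_axis_self hG hq
          have i1 := hG.iso u (u⁻¹ • q) q
          rw [smul_inv_smul, hqt] at i1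
          have b0 : D.d (u⁻¹ • q) (u • q) = t + t := by
            have h1 : D.d (u⁻¹ • q) (u • u • u⁻¹ • q) =
              D.d (u⁻¹ • q) (u • u⁻¹ • q) + D.d (u⁻¹ • q) (u • u⁻¹ • q) := a1
            rw [smul_inv_smul] at h1
            rw [h1, ← i1]
          have hlin := axis_linear hT hG hu _ a1 _ hy _ a2
          have hb : Btw D (u⁻¹ • q) y (u • q) := lv_between hlin i1.symm hqt b0 hlt
          have h2 : s.r (u⁻¹ • q) (u • q) := s.trans (s.symm (hup q hxq).2) (hup q hxq).1
          exact s.trans (hup q hxq).2 (hconv.convex _ _ _ h2 hb)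
    exact key n p hp hxp hn

theorem conv_small (hT : IsTree D) (hG : FreeAct D G) (l : Λ) :
    ∃ s : Setoid X, Conv D G s ∧ ∀ x y, s.r x y ↔ Relation.ReflTransGen (StS D G l) x y := by
  have hsymm : ∀ x y, StS D G l x y → StS D G l y x := by
    rintro x y (h | ⟨b, hb, hL, hS, hx, hy⟩)
    · exact Or.inl (by rw [D.symm]; exact h)
    · exact Or.inr ⟨b, hb, hL, hS, hy, hx⟩
  refine ⟨genS hsymm, lv_conv hT hsymm ?_ ?_, fun x y => Iff.rfl⟩
  · rintro u v m n (h | ⟨b, hb, hL, hS, hx, hy⟩) bm bn
    · left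
      apply hullC_convex h
      rw [abs_of_nonneg (D.nonneg _ _), abs_of_nonneg (D.nonneg _ _)]
      exact lv_dist_le hT bm bn
    · exact Or.inr ⟨b, hb, hL, hS, axis_convex hT hG hb hx hy bm,
        axis_convex hT hG hb hx hy bn⟩
  · rintro g u v (h | ⟨b, hb, hL, hS, hx, hy⟩)
    · left; rw [hG.iso]; exact h
    · exact Or.inr ⟨g * b * g⁻¹, lv_conj_ne g hb, lv_long_conj hG g hL, lv_small_conj hG g hS,
        lv_axis_conj hG hx, lv_axis_conj hG hy⟩

end LTree.Fg
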