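import Pool.Agent.Work.MP_0c526b_al.Fg.Cut
import Pool.Agent.Work.MP_0c526b_al.Full.Convex
import Pool.Agent.Work.MP_0c526b_al.Fg.Chain
import Pool.Agent.Work.MP_0c526b_al.Fg.Cyc
import Pool.Agent.Work.MP_0c526b_al.Fg.Overlap
import Pool.Agent.Work.MP_0c526b_al.Fg.Levels
import Pool.Agent.Work.MP_0c526b_al.Fg.Cluster

/-!
# The step down
-/

set_option autoImplicit false
set_option linter.unusedVariables false

namespace LTree.Fg

open LTree LTree.Idx

variable {Λ : Type*} [AddCommGroup Λ] [LinearOrder Λ] [IsOrderedAddMonoid Λ] {X : Type*}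
variable {D : Dist Λ X} {G : Type*} [Group G] [MulAction G X] {s : Setoid X}

lemma sd_fg_map {G G' : Type*} [Group G] [Group G'] {H : Subgroup G} (h : H.FG) (f : G →* G') :
    (H.map f).FG := by
  classical
  obtain ⟨S, hS⟩ := h
  exact ⟨S.image f, by rw [Finset.coe_image, ← MonoidHom.map_closure, hS]⟩

/-- Elements preserving the axis of `b` commute with `b`. -/
lemma comm_of_stab (hT : IsTree D) (hG : FreeAct D G) {b g : G} (hb : b ≠ 1) {p : X}
    (hp : p ∈ axis D b) (hg : g ∈ stab G (axis D b)) : b * g = g * b := by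
  have hY := axis_linear hT hG hb
  have hq : b • p ∈ axis D b := smul_mem_axis_self hG hp
  have hgp : g • p ∈ axis D b := (hg p).2 hp
  have hpq : b • p ≠ p := hG.ne hb p
  have pb : ∀ y ∈ axis D b, b • y ∈ axis D b := fun y hy => smul_mem_axis_self hG hy
  have pg : ∀ y ∈ axis D b, g • y ∈ axis D b := fun y hy => (hg y).2 hy
  have c1 := coord_smul hT hG hY hp hq hpq pb hgp
  have c2 := coord_smul hT hG hY hp hq hpq pg hq
  have e : b • g • p = g • b • p := by
    apply coord_inj hT hY hp hq hpq (pb _ hgp) (pg _ hq)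
    rw [c1, c2, add_comm]
  have h1 : ((g * b)⁻¹ * (b * g)) • p = p := by
    rw [mul_smul, mul_smul, e, ← mul_smul g b, inv_smul_smul]
  have h2 := hG.free _ _ h1
  exact (inv_mul_eq_one.1 h2).symm

/-- The translation length is constant on the axis. -/
lemma len_const (hT : IsTree D) (hG : FreeAct D G) {b m : G} (hb : b ≠ 1)
    (hm : b * m = m * b) {p q : X} (hp : p ∈ axis D b) (hq : q ∈ axis D b) :
    D.d p (m • p) = D.d q (m • q) := by
  by_cases h1 : m = 1
  · subst h1
    rw [one_smul, one_smul, D.d_self, D.d_self]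
  · have e := axis_comm_eq hT hG hb h1 hm
    rw [e] at hp hq
    exact le_antisymm (axis_min hT hG hp q) (axis_min hT hG hq p)

lemma small_congr (hT : IsTree D) (hG : FreeAct D G) {l : Λ} {b b' : G} (hb : b ≠ 1)
    (hb' : b' ≠ 1) (h : axis D b' = axis D b) {p : X} (hp : p ∈ axis D b)
    (hS : Small D G l b') : Small D G l b := by
  intro ε hε
  obtain ⟨m, m1, hm, hp'⟩ := hS ε hε
  refine ⟨m, m1, ?_, ?_⟩
  · apply comm_of_stab hT hG hb hp
    rw [← h]
    exact comm_mem_stab hG hm
  · rw [← h]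
    exact hp'

lemma mem_stab_class (hs : Conv D G s) {x0 : X} {g : G} :
    g ∈ stab G {y | s.r x0 y} ↔ s.r x0 (g • x0) := by
  constructor
  · intro h
    exact (h x0).2 (s.refl x0)
  · intro h y
    constructor
    · intro h1
      have h2 : s.r (g • x0) (g • y) := s.trans (s.symm h) h1
      have h3 := hs.inv g⁻¹ _ _ h2
      rwa [inv_smul_smul, inv_smul_smul] at h3
    · intro h1
      exact s.trans h (hs.inv g _ _ h1)

lemma stab_class_eq (hs : Conv D G s) (x0 : X) : stab G {y | s.r x0 y} = hs.stab x0 := by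
  ext g
  rw [mem_stab_class hs, hs.mem_stab]

lemma cvx_class (hs : Conv D G s) (x0 : X) : Full.Cvx D {y | s.r x0 y} := by
  intro x hx y hy m hm
  exact s.trans hx (hs.convex x m y (s.trans (s.symm hx) hy) hm)

/-- The conjugate of a small axis. -/
lemma small_conj (hG : FreeAct D G) {l : Λ} {b : G} (g : G) (h : Small D G l b) :
    Small D G l (g * b * g⁻¹) := by
  intro ε hε
  obtain ⟨m, m1, hm, hp⟩ := h ε hε
  refine ⟨g * m * g⁻¹, ?_, ?_, ?_⟩
  · intro h1
    apply m1
    have : m = g⁻¹ * (g * m * g⁻¹) * g := by group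
    rw [this, h1]
    group
  · have : g * b * g⁻¹ * (g * m * g⁻¹) = g * (b * m) * g⁻¹ := by group
    rw [this, hm]
    group
  · intro p hp'
    have h1 : g⁻¹ • p ∈ axis D b := by
      rw [← axis_conj_mem hG (g := g), smul_inv_smul]
      exact hp'
    have h2 := hp _ h1
    have h3 : D.d p ((g * m * g⁻¹) • p) = D.d (g⁻¹ • p) (m • g⁻¹ • p) := by
      rw [← hG.iso g (g⁻¹ • p), smul_inv_smul, mul_smul, mul_smul]
    rw [h3]
    exact h2

lemma long_conj (hG : FreeAct D G) {b : G} (g : G) (h : Long D G b) :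
    Long D G (g * b * g⁻¹) := by
  obtain ⟨m, m1, hm, x, hx, y, hy, hn⟩ := h
  refine ⟨g * m * g⁻¹, ?_, ?_, g • x, ?_, g • y, ?_, ?_⟩
  · intro h1
    apply m1
    have : m = g⁻¹ * (g * m * g⁻¹) * g := by group
    rw [this, h1]
    group
  · have : g * b * g⁻¹ * (g * m * g⁻¹) = g * (b * m) * g⁻¹ := by group
    rw [this, hm]
    group
  · exact (axis_conj_mem hG).2 hx
  · exact (axis_conj_mem hG).2 hy
  · intro n
    rw [mul_smul, mul_smul, inv_smul_smul, hG.iso, hG.iso]
    exact hn n

lemma axis_conj (hG : FreeAct D G) (g b : G) : axis D (g * b * g⁻¹) = sm g (axis D b) := by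
  ext y
  constructor
  · intro h
    refine ⟨g⁻¹ • y, ?_, smul_inv_smul g y⟩
    rw [← axis_conj_mem hG (g := g), smul_inv_smul]
    exact h
  · rintro ⟨z, hz, rfl⟩
    exact (axis_conj_mem hG).2 hz

theorem step_down {l l' : Λ} (h : State D G l) (hl' : 0 < l') (hC : hullC l' = infC l) (x0 : X) :
    ∃ Y : Set X, x0 ∈ Y ∧ Full.Cvx D Y ∧
      (∀ g : G, D.d x0 (g • x0) ∈ hullC l' → g ∈ stab G Y) ∧
      State (Full.res D Y) (stab G Y) l' := by
  have hT := h.hT
  have hG := h.hG
  have hconv : ∀ t z : Λ, z ∈ hullC l' → |t| ≤ |z| → t ∈ hullC l' :=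
    fun t z hz ht => hullC_convex hz ht
  obtain ⟨s1, hs1, e1⟩ := clus_long hT hG (hullC l') hconv
  obtain ⟨s2, hs2, e2⟩ := conv_small hT hG l'
  have hc1 := hs1.toConv
  -- `s2` is finer than `s1`
  have h21 : ∀ x y, s2.r x y → s1.r x y := by
    intro x y hxy
    rw [e2] at hxy
    rw [e1]
    refine Relation.ReflTransGen.mono ?_ _ _ hxy
    rintro u v (h1 | ⟨b, hb, hL, -, hu, hv⟩)
    · exact Or.inl h1
    · exact Or.inr ⟨b, hb, hL, hu, hv⟩
  set Y1 : Set X := {y | s1.r x0 y} with hY1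
  have cY1 : Full.Cvx D Y1 := cvx_class hc1 x0
  have T1 : IsTree (Full.res D Y1) := Full.res_tree hT cY1
  have F1 : FreeAct (Full.res D Y1) (stab G Y1) := Full.res_free hG Y1
  have fg1 : Group.FG (stab G Y1) := by
    rw [Group.fg_iff_subgroup_fg, hY1, stab_class_eq hc1]
    exact cluster_fg hT hG h.fg hs1 x0
  -- the restriction of `s2`
  let t2 : Setoid Y1 := s2.comap Subtype.val
  have ht2 : Conv (Full.res D Y1) (stab G Y1) t2 := by
    constructor
    · intro x m y hxy hm
      exact hs2.convex x m y hxy hm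
    · intro g x y hxy
      exact hs2.inv g x y hxy
  -- the lines
  let B : Set (Set Y1) := {L | ∃ b : stab G Y1, b ≠ 1 ∧ Long D G (b : G) ∧
    ¬ Small D G l' (b : G) ∧ L = axis (Full.res D Y1) b}
  have hB : ∀ L ∈ B, ∃ b : stab G Y1, b ≠ 1 ∧ L = axis (Full.res D Y1) b := by
    rintro L ⟨b, hb, -, -, hL⟩
    exact ⟨b, hb, hL⟩
  have hBi : ∀ (g : stab G Y1), ∀ L ∈ B, sm g L ∈ B := by
    rintro g L ⟨b, hb, hL, hS, rfl⟩
    refine ⟨g * b * g⁻¹, ?_, ?_, ?_, ?_⟩
    · intro h1
      apply hb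
      have : b = g⁻¹ * (g * b * g⁻¹) * g := by group
      rw [this, h1]
      group
    · exact long_conj hG (g : G) hL
    · intro h1
      apply hS
      have h2 := small_conj hG (g : G)⁻¹ h1
      have h3 : (g : G)⁻¹ * ((g * b * g⁻¹ : stab G Y1) : G) * ((g : G)⁻¹)⁻¹ = (b : G) := by
        push_cast
        group
      rwa [h3] at h2
    · rw [axis_conj F1]
  have hne1 : ∀ b : stab G Y1, b ≠ 1 → (b : G) ≠ 1 := fun b hb h => hb (Subtype.ext h)
  have hsep : ∀ L ∈ B, ∀ L' ∈ B, L ≠ L' → ∀ x y, x ∈ L → x ∈ L' → y ∈ L → y ∈ L' →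
      t2.r x y := by
    rintro L ⟨b, hb, hL, hS, rfl⟩ L' ⟨b', hb', hL', hS', rfl⟩ hne x y hx hx' hy hy'
    have hax : axis D (b : G) ≠ axis D (b' : G) := fun h => hne (Full.axis_res_eq h)
    have h1 := overlap_small hT hG h.hl (hne1 b hb) (hne1 b' hb')
      (long_small h (hne1 b hb) hL) (long_small h (hne1 b' hb') hL') hax
      (u := (x : X)) (v := (y : X)) hx hy hx' hy'
    rw [← hC] at h1
    exact (e2 x y).2 (Relation.ReflTransGen.single (Or.inl h1))
  -- chains
  have hchain : ∀ x y : Y1, Relation.ReflTransGen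
      (fun u v => t2.r u v ∨ ∃ L ∈ B, u ∈ L ∧ v ∈ L) x y := by
    intro x y
    have hxy : s1.r (x : X) (y : X) := s1.trans (s1.symm x.2) y.2
    rw [e1] at hxy
    have key : ∀ z, Relation.ReflTransGen (StL D G (hullC l')) (x : X) z → ∃ hz : z ∈ Y1,
        Relation.ReflTransGen (fun u v : Y1 => t2.r u v ∨ ∃ L ∈ B, u ∈ L ∧ v ∈ L) x ⟨z, hz⟩ := by
      intro z hz
      induction hz with
      | refl => exact ⟨x.2, Relation.ReflTransGen.refl⟩
      | @tail u v _ huv ih =>
        obtain ⟨hu, ih⟩ := ih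
        have hv : v ∈ Y1 :=
          s1.trans hu ((e1 u v).2 (Relation.ReflTransGen.single huv))
        refine ⟨hv, ih.tail ?_⟩
        rcases huv with h1 | ⟨b, hb, hL, hub, hvb⟩
        · exact Or.inl ((e2 u v).2 (Relation.ReflTransGen.single (Or.inl h1)))
        · by_cases hS : Small D G l' b
          · exact Or.inl ((e2 u v).2
              (Relation.ReflTransGen.single (Or.inr ⟨b, hb, hL, hS, hub, hvb⟩)))
          · right
            have hbY : b ∈ stab G Y1 := by
              rw [hY1, mem_stab_class hc1]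
              have h2 : s1.r u (b • u) := (e1 u (b • u)).2 (Relation.ReflTransGen.single
                (Or.inr ⟨b, hb, hL, hub, smul_mem_axis_self hG hub⟩))
              exact s1.trans hu (s1.trans h2 (s1.symm (hc1.inv b _ _ hu)))
            refine ⟨axis (Full.res D Y1) (⟨b, hbY⟩ : stab G Y1), ⟨(⟨b, hbY⟩ : stab G Y1),
              fun h => hb (congrArg Subtype.val h), hL, hS, rfl⟩, hub, hvb⟩
    obtain ⟨hz, hr⟩ := key y hxy
    exact hr
  -- the stabilisers of the lines in the classes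
  have hst : ∀ L ∈ B, ∀ x ∈ L, (ht2.stab x ⊓ stab (stab G Y1) L).FG := by
    rintro L ⟨b, hb, hL, hS, rfl⟩ x hx
    have hb1 := hne1 b hb
    have hS1 : ¬ Small (Full.res D Y1) (stab G Y1) l' b := by
      intro hS1
      apply hS
      intro ε hε
      obtain ⟨m, m1, hm, hp⟩ := hS1 ε hε
      have hm' : (b : G) * (m : G) = (m : G) * (b : G) := congrArg Subtype.val hm
      refine ⟨m, hne1 m m1, hm', ?_⟩
      intro p hp'
      rw [len_const hT hG hb1 hm' hp' (q := (x : X)) hx]
      exact hp x hx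
    refine not_small_fg T1 F1 hl' hb hS1 _ ?_
    rintro g ⟨hg1, hg2⟩
    refine ⟨hg2, x, hx, ?_⟩
    have hgx : g • x ∈ axis (Full.res D Y1) b := (hg2 x).2 hx
    have hr : Relation.ReflTransGen (StS D G l') (x : X) ((g : G) • (x : X)) := (e2 _ _).1 hg1
    refine chain_proj hT hG hb1 (x := (x : X)) (y := (g : G) • (x : X)) hx hgx hr (hullC l')
      hconv ?_
    intro u v m n huv hm hn b1 b2
    rcases huv with h1 | ⟨b', hb', hL', hS', hu, hv⟩
    · refine hconv _ _ h1 ?_
      have e := btw_dist hT b1 b2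
      have n1 := D.nonneg u m
      have n2 := D.nonneg m v
      have n3 := D.nonneg u n
      have n4 := D.nonneg n v
      have n5 := D.nonneg m n
      unfold Btw at b1 b2
      rw [abs_of_nonneg n5, abs_of_nonneg (D.nonneg u v)]
      grind
    · have hax : axis D b' ≠ axis D (b : G) := by
        intro hax
        exact hS (small_congr hT hG hb1 hb' hax (p := (x : X)) hx hS')
      have hm' := axis_convex hT hG hb' hu hv b1
      have hn' := axis_convex hT hG hb' hu hv b2
      have h1 := overlap_small hT hG h.hl hb' hb1 (long_small h hb' hL') (long_small h hb1 hL)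
        hax hm' hn' hm hn
      rwa [← hC] at h1
  have x01 : x0 ∈ Y1 := s1.refl x0
  have hcut := cut_fg T1 F1 fg1 ht2 B hB hBi hsep hchain hst ⟨x0, x01⟩
  -- the class of `x0`
  set Y : Set X := {y | s2.r x0 y} with hY
  have cY : Full.Cvx D Y := cvx_class hs2 x0
  have hYY1 : ∀ y ∈ Y, y ∈ Y1 := fun y hy => h21 _ _ hy
  have hgY : ∀ g : G, g ∈ stab G Y ↔ s2.r x0 (g • x0) := fun g => mem_stab_class hs2
  have hmap : stab G Y = (ht2.stab ⟨x0, x01⟩).map (stab G Y1).subtype := by
    ext g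
    rw [hgY, Subgroup.mem_map]
    constructor
    · intro hg
      have hg1 : g ∈ stab G Y1 := by
        rw [hY1, mem_stab_class hc1]
        exact h21 _ _ hg
      exact ⟨⟨g, hg1⟩, hg, rfl⟩
    · rintro ⟨g', hg', rfl⟩
      exact hg'
  have fg2 : (stab G Y).FG := by
    rw [hmap]
    exact sd_fg_map hcut _
  refine ⟨Y, s2.refl x0, cY, ?_, ?_⟩
  · intro g hg
    rw [hgY, e2]
    exact Relation.ReflTransGen.single (Or.inl hg)
  refine ⟨Full.res_tree hT cY, Full.res_free hG Y, ?_, hl', ?_⟩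
  · rw [Group.fg_iff_subgroup_fg]
    exact fg2
  -- chains
  intro x y
  have hxy : s2.r (x : X) (y : X) := s2.trans (s2.symm x.2) y.2
  rw [e2] at hxy
  have key : ∀ z, Relation.ReflTransGen (StS D G l') (x : X) z → ∃ hz : z ∈ Y,
      Relation.ReflTransGen (Stl (Full.res D Y) (stab G Y) l') x ⟨z, hz⟩ := by
    intro z hz
    induction hz with
    | refl => exact ⟨x.2, Relation.ReflTransGen.refl⟩
    | @tail u v _ huv ih =>
      obtain ⟨hu, ih⟩ := ih
      have hv : v ∈ Y := s2.trans hu ((e2 u v).2 (Relation.ReflTransGen.single huv))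
      refine ⟨hv, ih.tail ?_⟩
      rcases huv with h1 | ⟨b, hb, hL, hS, hub, hvb⟩
      · exact Or.inl h1
      · right
        -- elements preserving the axis of `b` preserve `Y`
        have hmY : ∀ m : G, b * m = m * b → m ∈ stab G Y := by
          intro m hm
          rw [hgY]
          have h2 : s2.r u (m • u) := (e2 u (m • u)).2 (Relation.ReflTransGen.single
            (Or.inr ⟨b, hb, hL, hS, hub, (comm_mem_stab hG hm u).2 hub⟩))
          exact s2.trans hu (s2.trans h2 (s2.symm (hs2.inv m _ _ hu)))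
        refine ⟨⟨b, hmY b rfl⟩, fun h => hb (congrArg Subtype.val h), ?_, hub, hvb⟩
        intro ε hε
        obtain ⟨m, m1, hm, hp⟩ := hS ε hε
        refine ⟨⟨m, hmY m hm⟩, fun h => m1 (congrArg Subtype.val h), Subtype.ext hm, ?_⟩
        intro p hp'
        exact hp p hp'
  obtain ⟨hz, hr⟩ := key y hxy
  exact hr

end LTree.Fg
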