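import Pool.Agent.Work.MP_0c526b_al.Fg.Defs
import Pool.Agent.Work.MP_0c526b_al.Fg.Cyc
import Pool.Agent.Work.MP_0c526b_al.Fg.Layer
import Pool.Agent.Work.MP_0c526b_al.Fg.StepDown
import Pool.Agent.Work.MP_0c526b_al.Fg.Rank
import Pool.Agent.Work.MP_0c526b_al.Fg.FgAlg
import Pool.Agent.Work.MP_0c526b_al.Full.Convex
import Pool.Agent.Work.MP_0c526b_al.Idx.Final
import Pool.Agent.Work.MP_0c526b_al.Idx.Subtree

/-!
# Abelian subgroups are finitely generated: the descending induction
-/

set_option autoImplicit false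
set_option linter.unusedVariables false

namespace LTree.Fg

open LTree LTree.Idx LTree.Idx.Subtree

variable {Λ : Type*} [AddCommGroup Λ] [LinearOrder Λ] [IsOrderedAddMonoid Λ] {X : Type*}
variable {D : Dist Λ X} {G : Type*} [Group G] [MulAction G X]


theorem abelian_fg_state (N : ℕ) : ∀ {X : Type*} {D : Dist Λ X} {G : Type*} [Group G]
    [MulAction G X] {l : Λ}, State D G l →
    (∀ (n : ℕ) (v : Fin n → Λ), (∀ i, v i ∈ hullC l) → LinearIndependent ℤ v → n ≤ N) →
    ∀ (A : Subgroup G), (∀ a ∈ A, ∀ b ∈ A, a * b = b * a) →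
    ∀ a0 ∈ A, a0 ≠ 1 → ∀ x0 ∈ axis D a0, (∀ a ∈ A, D.d x0 (a • x0) ∈ hullC l) → A.FG := by
  induction N with
  | zero =>
    intro X D G _ _ l h hN A hA a0 ha0 ha01 x0 hx0 hlen
    exfalso
    have h1 := linInd_cons (⊥ : Submodule ℤ Λ) (fun t z hz ht => by
      rw [Submodule.mem_bot] at hz
      rw [Submodule.mem_bot]
      rw [hz, abs_zero] at ht
      exact abs_eq_zero.1 (le_antisymm ht (abs_nonneg _))) (n := 0) (v := Fin.elim0)
      (fun i => i.elim0) linearIndependent_empty_type (x := l) (by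
        rw [Submodule.mem_bot]; exact h.hl.ne')
    have h2 := hN 1 _ (fun i => by
      have : i = 0 := Subsingleton.elim _ _
      rw [this, Fin.cons_zero]; exact self_mem_hullC l) h1
    omega
  | succ N ih =>
    intro X D G _ _ l h hN A hA a0 ha0 ha01 x0 hx0 hlen
    have hT := h.hT
    have hG := h.hG
    by_cases hs : Small D G l a0
    · have hset : Setup D G a0 x0 l := ⟨hT, hG, ha01, hx0, h.hl, by
        intro ε hε
        obtain ⟨m, hm1, hm, hall⟩ := hs ε hε
        exact ⟨m, hm1, hm, (hall x0 hx0).1, (hall x0 hx0).2⟩⟩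
      obtain ⟨ψ, hψ⟩ := layer_hom hset h.chain
      apply fg_of_map A ψ (map_real_fg h.fg ψ A)
      by_cases htriv : A ⊓ ψ.ker = ⊥
      · rw [htriv]; exact Subgroup.FG.bot
      · have hst : ∀ a ∈ A, a ∈ stab G (axis D a0) := fun a ha =>
          comm_mem_stab hG (hA a0 ha0 a ha)
        have hinf : ∀ a ∈ A ⊓ ψ.ker, D.d x0 (a • x0) ∈ infC l := by
          intro a ha
          have h1 : (ψ a).toAdd = 0 := by
            rw [MonoidHom.mem_ker.1 ha.2]; rfl
          rw [hψ a (hst a ha.1) (hlen a ha.1)] at h1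
          rw [mem_infC_iff h.hl (hlen a ha.1), ← abs_coord x0 (a0 • x0) (a • x0),
            theta_abs h.hl, h1, abs_zero]
          apply hullC_convex (hlen a ha.1)
          rw [← abs_coord x0 (a0 • x0) (a • x0), abs_abs]
        obtain ⟨a1, ha1, ha11⟩ : ∃ a ∈ A ⊓ ψ.ker, a ≠ 1 := by
          by_contra hc
          push Not at hc
          exact htriv ((Subgroup.eq_bot_iff_forall _).2 hc)
        have hne : infC l ≠ ⊥ := by
          intro e
          have h1 := hinf a1 ha1
          rw [e, Submodule.mem_bot] at h1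
          exact ha11 (hG.free a1 x0 (D.eq_of_d _ _ h1).symm)
        have hrk := rank_drop h.hl hN
        obtain ⟨l', hl', hC⟩ := exists_hullC (infC l) hrk (fun t z hz ht => infC_convex hz ht) hne
        obtain ⟨Y, hx0Y, hcvx, hstY, hstate⟩ := step_down h hl' hC x0
        have hle : A ⊓ ψ.ker ≤ stab G Y := fun a ha => hstY a (by rw [hC]; exact hinf a ha)
        have hax : x0 ∈ axis D a1 := by
          rw [axis_comm_eq hT hG ha11 ha01 (hA a1 ha1.1 a0 ha0)]; exact hx0
        have key := ih (X := Y) (D := Full.res D Y) (G := stab G Y) (l := l') hstate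
          (by rw [hC]; exact hrk) ((A ⊓ ψ.ker).subgroupOf (stab G Y))
          (fun a ha b hb => Subtype.ext (hA _ ha.1 _ hb.1)) ⟨a1, hle ha1⟩ ha1
          (fun e => ha11 (congrArg Subtype.val e)) ⟨x0, hx0Y⟩ hax
          (fun a ha => by
            change D.d x0 ((a : G) • x0) ∈ hullC l'
            rw [hC]; exact hinf _ ha)
        have e : ((A ⊓ ψ.ker).subgroupOf (stab G Y)).map (stab G Y).subtype = A ⊓ ψ.ker :=
          Subgroup.map_subgroupOf_eq_of_le hle
        rw [← e]
        exact fg_image key _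
    · exact not_small_fg hT hG h.hl ha01 hs A
        (fun a ha => ⟨comm_mem_stab hG (hA a0 ha0 a ha), x0, hx0, hlen a ha⟩)

theorem abelian_fg (hT : IsTree D) (hG : FreeAct D G) (hfg : Group.FG G) (hne : Nonempty X)
    (A : Subgroup G) (hA : ∀ a ∈ A, ∀ b ∈ A, a * b = b * a) : A.FG := by
  classical
  obtain ⟨S, hS⟩ := hfg.out
  by_cases h1 : A = ⊥
  · rw [h1]; exact Subgroup.FG.bot
  obtain ⟨a, haA, ha⟩ : ∃ a ∈ A, a ≠ 1 := by
    by_contra hc
    push Not at hc
    exact h1 ((Subgroup.eq_bot_iff_forall _).2 hc)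
  obtain ⟨p, hp⟩ := axis_nonempty hT hG ha
  obtain ⟨B, F0, hF0, hδ⟩ := two_dir hT hG ha hp
  obtain ⟨Y, act, D₀, h2, h3, h4, h5, h6⟩ := exists_subtree hT hG p
  have hrk : ∀ (n : ℕ) (v : Fin n → (lengths D G p).toAddSubgroup), LinearIndependent ℤ v →
      n ≤ 3 * S.card - 2 := by
    intro n v hv
    have := lengths_rank hT hG S hS p 2 B F0 hF0 hδ n v hv
    omega
  have : Nonempty Y := ⟨⟨p, h4⟩⟩
  obtain ⟨x0, hx0⟩ := axis_nonempty h5 h6 ha
  have htop : (⊤ : Submodule ℤ (lengths D G p).toAddSubgroup) ≠ ⊥ := by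
    intro e
    have h7 : D₀.d x0 (a • x0) ∈ (⊤ : Submodule ℤ (lengths D G p).toAddSubgroup) := trivial
    rw [e, Submodule.mem_bot] at h7
    exact ha (h6.free a x0 (D₀.eq_of_d _ _ h7).symm)
  obtain ⟨l, hl, hC⟩ := exists_hullC (⊤ : Submodule ℤ (lengths D G p).toAddSubgroup)
    (fun n v _ hv => hrk n v hv) (fun _ _ _ _ => trivial) htop
  have hst : State D₀ G l := ⟨h5, h6, hfg, hl, fun x y =>
    Relation.ReflTransGen.single (Or.inl (by rw [hC]; trivial))⟩
  exact abelian_fg_state _ hst (fun n v _ hv => hrk n v hv) A hA a haA ha x0 hx0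
    (fun _ _ => by rw [hC]; trivial)

/-- Abelian subgroups are free abelian of bounded rank. -/
theorem abelian_rank (hT : IsTree D) (hG : FreeAct D G) (S : Finset G)
    (hS : Subgroup.closure (S : Set G) = ⊤) (hne : Nonempty X) (A : Subgroup G)
    (hA : ∀ a ∈ A, ∀ b ∈ A, a * b = b * a) :
    ∃ n : ℕ, n ≤ 3 * S.card - 2 ∧ Nonempty (A ≃* Multiplicative (Fin n → ℤ)) := by
  classical
  by_cases h1 : ∃ a ∈ A, a ≠ 1
  · obtain ⟨a, haA, ha⟩ := h1
    obtain ⟨p, hp⟩ := axis_nonempty hT hG ha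
    obtain ⟨B, F0, hF0, hδ⟩ := two_dir hT hG ha hp
    obtain ⟨R, hR⟩ := abelian_fg hT hG ⟨⟨S, hS⟩⟩ hne A hA
    obtain ⟨τ, hτ, hL⟩ := exists_hom hT hG p A hA
    let N : Submodule ℤ Λ :=
      { carrier := {t | ∃ b : A, (τ b).toAdd = t}
        add_mem' := by
          rintro s t ⟨b, hb⟩ ⟨c, hc⟩
          exact ⟨b * c, by rw [map_mul, toAdd_mul, hb, hc]⟩
        zero_mem' := ⟨1, by rw [map_one]; rfl⟩
        smul_mem' := by
          rintro c t ⟨b, hb⟩
          exact ⟨b ^ c, by rw [map_zpow, toAdd_zpow, hb]⟩ }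
    have hNL : N ≤ lengths D G p := by
      rintro t ⟨b, rfl⟩
      exact hL b
    have hRA : ∀ r ∈ R, r ∈ A := by
      intro r hr
      rw [← hR]; exact Subgroup.subset_closure hr
    have hNfg : N.FG := by
      refine ⟨R.attach.image (fun r => (τ ⟨r.1, hRA r.1 r.2⟩).toAdd), ?_⟩
      apply le_antisymm
      · refine Submodule.span_le.2 ?_
        intro t ht
        rw [Finset.mem_coe, Finset.mem_image] at ht
        obtain ⟨r, -, rfl⟩ := ht
        exact ⟨_, rfl⟩
      · rintro t ⟨b, rfl⟩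
        have h9 : ∀ (r : G) (_ : r ∈ Subgroup.closure (R : Set G)), ∃ h : r ∈ A,
            (τ ⟨r, h⟩).toAdd ∈ Submodule.span ℤ ((R.attach.image
              (fun r => (τ ⟨r.1, hRA r.1 r.2⟩).toAdd) : Finset Λ) : Set Λ) := by
          intro r hr
          induction hr using Subgroup.closure_induction with
          | mem s hs =>
            refine ⟨hRA s hs, Submodule.subset_span ?_⟩
            rw [Finset.mem_coe, Finset.mem_image]
            exact ⟨⟨s, hs⟩, Finset.mem_attach _ _, rfl⟩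
          | one =>
            refine ⟨A.one_mem, ?_⟩
            have : (⟨1, A.one_mem⟩ : A) = 1 := rfl
            rw [this, map_one]
            exact Submodule.zero_mem _
          | mul u v _ _ hu hv =>
            obtain ⟨u1, u2⟩ := hu
            obtain ⟨v1, v2⟩ := hv
            refine ⟨A.mul_mem u1 v1, ?_⟩
            have : (⟨u * v, A.mul_mem u1 v1⟩ : A) = ⟨u, u1⟩ * ⟨v, v1⟩ := rfl
            rw [this, map_mul, toAdd_mul]
            exact Submodule.add_mem _ u2 v2
          | inv u _ hu =>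
            obtain ⟨u1, u2⟩ := hu
            refine ⟨A.inv_mem u1, ?_⟩
            have : (⟨u⁻¹, A.inv_mem u1⟩ : A) = ⟨u, u1⟩⁻¹ := rfl
            rw [this, map_inv, toAdd_inv]
            exact Submodule.neg_mem _ u2
        exact (h9 b (by rw [hR]; exact b.2)).2
    have hfin : Module.finrank ℤ N ≤ 3 * S.card - 2 := by
      have : Module.Finite ℤ N := Module.Finite.iff_fg.2 hNfg
      let b := Module.finBasis ℤ N
      have h10 : LinearIndependent ℤ
          (fun i => (⟨(b i : Λ), hNL (b i).2⟩ : lengths D G p)) := by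
        have h6 := b.linearIndependent.map' (Submodule.inclusion hNL)
          (LinearMap.ker_eq_bot.2 (Submodule.inclusion_injective _))
        exact h6
      have := lengths_rank hT hG S hS p 2 B F0 hF0 hδ _ _ h10
      omega
    obtain ⟨m, hm, hiso⟩ := abelian_free hNfg hfin τ hτ (fun b => ⟨b, rfl⟩)
    exact ⟨m, hm, hiso⟩
  · push Not at h1
    refine ⟨0, Nat.zero_le _, ⟨?_⟩⟩
    have hsub : Subsingleton A := ⟨fun x y => Subtype.ext ((h1 x x.2).trans (h1 y y.2).symm)⟩
    exact { toFun := fun _ => 1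
            invFun := fun _ => 1
            left_inv := fun _ => Subsingleton.elim _ _
            right_inv := fun _ => Subsingleton.elim _ _
            map_mul' := fun _ _ => rfl }

/-- The maximal condition for abelian subgroups. -/
theorem chain_abelian (hT : IsTree D) (hG : FreeAct D G) (S : Finset G)
    (hS : Subgroup.closure (S : Set G) = ⊤) (hne : Nonempty X)
    (A : ℕ → Subgroup G) (hA : ∀ n, ∀ a ∈ A n, ∀ b ∈ A n, a * b = b * a)
    (hle : ∀ n, A n ≤ A (n + 1)) :
    ∃ N : ℕ, (∀ n, N ≤ n → A n = A N) ∧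
      ∃ r : ℕ, r ≤ 3 * S.card - 2 ∧ Nonempty (A N ≃* Multiplicative (Fin r → ℤ)) := by
  classical
  have hmono : Monotone A := monotone_nat_of_le_succ hle
  have hdir : Directed (· ≤ ·) A := hmono.directed_le
  obtain ⟨R, hR⟩ := abelian_fg hT hG ⟨⟨S, hS⟩⟩ hne (⨆ n, A n) (by
    intro a ha b hb
    obtain ⟨i, hi⟩ := (Subgroup.mem_iSup_of_directed hdir).1 ha
    obtain ⟨j, hj⟩ := (Subgroup.mem_iSup_of_directed hdir).1 hb
    exact hA (max i j) a (hmono (le_max_left i j) hi) b (hmono (le_max_right i j) hj))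
  have hmem : ∀ r : R, ∃ n, (r : G) ∈ A n := by
    intro r
    have : (r : G) ∈ ⨆ n, A n := by rw [← hR]; exact Subgroup.subset_closure r.2
    exact (Subgroup.mem_iSup_of_directed hdir).1 this
  choose f hf using hmem
  obtain ⟨N, hN⟩ : ∃ N, ∀ r : R, f r ≤ N :=
    ⟨Finset.univ.sup f, fun r => Finset.le_sup (Finset.mem_univ r)⟩
  have hsup : (⨆ n, A n) ≤ A N := by
    rw [← hR, Subgroup.closure_le]
    intro r hr
    exact hmono (hN ⟨r, hr⟩) (hf ⟨r, hr⟩)
  exact ⟨N, fun n hn => le_antisymm ((le_iSup A n).trans hsup) (hmono hn),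
    abelian_rank hT hG S hS hne (A N) (hA N)⟩

end LTree.Fg
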