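import Pool.Agent.Work.MP_0c526b_al.Fg.Extend
import Pool.Agent.Work.MP_0c526b_al.Idx.Classes

/-!
# M12: the least index of the admissible systems
-/

set_option autoImplicit false
set_option linter.unusedVariables false

namespace LTree.Fg

open LTree LTree.Idx LTree.Idx.Subtree

variable {Λ : Type*} [AddCommGroup Λ] [LinearOrder Λ] [IsOrderedAddMonoid Λ] {X : Type*}
variable {D : Dist Λ X} {G : Type*} [Group G] [MulAction G X]

/-- An admissible system of index at most `2|S| - 2`. -/
theorem adm_start (hT : IsTree D) (hG : FreeAct D G) (S : Finset G) (x0 : X) :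
    ∃ T : Set (Letter X G), Adm D S x0 T ∧ ClaimA D T (2 * (S.card : ℤ) - 2) := by
  classical
  induction S using Finset.induction_on with
  | empty =>
    refine ⟨∅, ⟨by simp, ∅, Set.finite_empty, by simp, by simp, by simp, by simp, by simp⟩,
      fun F hF _ => ?_⟩
    simpa using Claim_zero (G := G) hT hF
  | insert s S' hs ih =>
    obtain ⟨T, hT1, hT2⟩ := ih
    have hA := adm_ins (g := s) hT hG hT1 (base_KK x0) (base_KK x0)
    refine ⟨insert ⟨x0, x0, s, false⟩ T, ⟨?_, hA.sys⟩, ?_⟩
    · intro s' hs'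
      rcases Finset.mem_insert.1 hs' with h | h
      · rw [h]; exact Set.mem_insert _ _
      · exact Set.mem_insert_of_mem _ (hT1.base s' h)
    · intro F hF hSys
      have hS0 : Sys D F T := Sys.anti hSys (Set.subset_insert _ _)
      have hl : (⟨x0, x0, s, false⟩ : Letter X G) ∈
        (insert ⟨x0, x0, s, false⟩ T : Set (Letter X G)) := Set.mem_insert _ _
      have h := Claim_point hT hG hS0 (hT2 F hF hS0) (hSys.ha _ hl) (hSys.ga _ hl)
      have e : (2 * ((insert s S').card : ℤ) - 2) = 2 * (S'.card : ℤ) - 2 + 2 := by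
        rw [Finset.card_insert_of_notMem hs]
        push_cast
        ring
      rw [e]
      exact h

theorem claimA_lb (hT : IsTree D) (hG : FreeAct D G) (S : Finset G)
    (hS : Subgroup.closure (S : Set G) = ⊤) (x0 : X) {T : Set (Letter X G)}
    (hA : Adm D S x0 T) {c : ℤ} (hc : ClaimA D T c) : -2 ≤ c := by
  classical
  obtain ⟨n, -, hSys⟩ := adm_ball hT S hS x0 hA 0
  have hF : ∀ y, y ∈ orb x0 (ball S (n + 1)) ↔ ∃ w ∈ ball S (n + 1), y = w • x0 :=
    fun y => mem_orb
  obtain ⟨T', h1, h2, h3, h4, h5⟩ := extend_ball hT hG S x0 (K := fun T => ClaimA D T c)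
    (fun T p q g q' hA hK hp hq hd => (claimA_ins hT hG hA hK hp hq hd).2) n _ hF hA hc (hSys _ hF)
  have hx0 : x0 ∈ orb x0 (ball S (n + 1)) :=
    mem_orb.2 ⟨1, one_mem_ball S _, (one_smul G x0).symm⟩
  have hl : ∀ s ∈ S, ∀ w ∈ ball S (n + 1), s * w ∈ ball S (n + 1) → Conn D T' (w • x0) s :=
    fun s hs w hw hsw => h5 s hs w hw hsw _ (btw_right _ _)
  have hconn : ∀ k, k ≤ n + 1 → ∀ w ∈ ball S k, Conn D T' x0 w := by
    intro k
    induction k with
    | zero =>
      intro _ w hw
      rw [mem_ball_zero] at hw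
      exact ⟨[], by simp, trivial, by rw [hw]; rfl⟩
    | succ k ih =>
      intro hk w hw
      have ih' := ih (by omega)
      have hW : w ∈ ball S (n + 1) := ball_mono S hk hw
      rcases (mem_ball_succ S k w).1 hw with h | ⟨s, hs, w', hw', rfl⟩ | ⟨s, hs, w', hw', rfl⟩
      · exact ih' w h
      · have hW' : w' ∈ ball S (n + 1) := ball_mono S (by omega) hw'
        exact conn_trans (ih' w' hw') (hl s hs w' hW' hW)
      · have hW' : s * (s⁻¹ * w') ∈ ball S (n + 1) := by
          rw [mul_inv_cancel_left]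
          exact ball_mono S (by omega) hw'
        have a3 := conn_symm hG (hl s hs (s⁻¹ * w') hW hW')
        have e : s • (s⁻¹ * w') • x0 = w' • x0 := by
          rw [← mul_smul, mul_inv_cancel_left]
        rw [e] at a3
        exact conn_trans (ih' w' hw') a3
  have h := count_classes hT hG h4 (h3 _ ⟨x0, hx0⟩ h4) hx0 (by
      intro f hf
      obtain ⟨w, hw, rfl⟩ := mem_orb.1 hf
      exact ⟨w, hconn (n + 1) le_rfl w hw, rfl⟩) ∅ (by simp) (by simp) (by simp)
  simp only [Finset.card_empty, Nat.cast_zero, zero_add] at h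
  have : (0 : ℤ) ≤ ((dirs D (orb x0 (ball S (n + 1))) x0).card : ℤ) := Int.natCast_nonneg _
  linarith

theorem least_exists (hT : IsTree D) (hG : FreeAct D G) (S : Finset G)
    (hS : Subgroup.closure (S : Set G) = ⊤) (x0 : X) :
    ∃ (cX : ℤ) (T : Set (Letter X G)), Least D S x0 cX ∧ Adm D S x0 T ∧ ClaimA D T cX := by
  classical
  obtain ⟨T0, hA0, hc0⟩ := adm_start hT hG S x0
  let P : ℕ → Prop := fun n => ∃ T : Set (Letter X G), Adm D S x0 T ∧ ClaimA D T ((n : ℤ) - 2)
  have hP : ∃ n, P n := by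
    refine ⟨(2 * (S.card : ℤ) - 2 + 2).toNat, T0, hA0, ?_⟩
    have := claimA_lb hT hG S hS x0 hA0 hc0
    rw [Int.toNat_of_nonneg (by linarith)]
    simpa using hc0
  obtain ⟨T, hA, hc⟩ := Nat.find_spec hP
  refine ⟨_, T, ⟨fun T' c' hA' hc' => ?_⟩, hA, hc⟩
  have h1 := claimA_lb hT hG S hS x0 hA' hc'
  have h2 : P (c' + 2).toNat := by
    refine ⟨T', hA', ?_⟩
    rw [Int.toNat_of_nonneg (by linarith)]
    simpa using hc'
  have h3 := Nat.find_min' hP h2
  omega

end LTree.Fg
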