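import Pool.Agent.Work.MP_0c526b_al.Fg.Defs

/-!
# M1: directions at classes
-/

set_option autoImplicit false
set_option linter.unusedVariables false

namespace LTree.Fg

open LTree LTree.Idx

variable {Λ : Type*} [AddCommGroup Λ] [LinearOrder Λ] [IsOrderedAddMonoid Λ] {X : Type*}
variable {D : Dist Λ X} {G : Type*} [Group G] [MulAction G X] {s : Setoid X}

/-- Invariance as an equivalence. -/
lemma Conv.inv_iff (hs : Conv D G s) (g : G) {x y : X} : s.r (g • x) (g • y) ↔ s.r x y := by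
  constructor
  · intro h
    have h1 := hs.inv g⁻¹ _ _ h
    rwa [inv_smul_smul, inv_smul_smul] at h1
  · exact hs.inv g x y

lemma Conv.convex' (hs : Conv D G s) {x m y : X} (h : s.r x y) (hm : Btw D x m y) : s.r m y :=
  s.trans (s.symm (hs.convex x m y h hm)) h

lemma drP_congr (hs : Conv D G s) {x x' : X} (h : s.r x x') (y : X) :
    drP D s x y = drP D s x' y := by
  ext z
  constructor
  · intro h1 m hm h2
    exact h1 m hm (s.trans h h2)
  · intro h1 m hm h2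
    exact h1 m hm (s.trans (s.symm h) h2)

lemma self_mem_drP {x y : X} (h : ¬ s.r x y) : y ∈ drP D s x y := by
  intro m hm h1
  rw [eq_of_btw_self hm] at h1
  exact h h1

lemma sm_drP (hG : FreeAct D G) (hs : Conv D G s) (g : G) (x y : X) :
    sm g (drP D s x y) = drP D s (g • x) (g • y) := by
  have key : ∀ (k : G) (x y z : X), z ∈ drP D s x y → k • z ∈ drP D s (k • x) (k • y) := by
    intro k x y z hz m hm h1
    refine hz (k⁻¹ • m) ?_ ?_
    · rw [← hG.btw_iff k, smul_inv_smul]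
      exact hm
    · rw [← hs.inv_iff k, smul_inv_smul]
      exact h1
  ext w
  constructor
  · rintro ⟨z, hz, rfl⟩
    exact key g x y z hz
  · intro hw
    refine ⟨g⁻¹ • w, ?_, smul_inv_smul g w⟩
    have := key g⁻¹ _ _ _ hw
    rwa [inv_smul_smul, inv_smul_smul] at this

lemma drP_eq_iff (hT : IsTree D) (hs : Conv D G s) {x y z : X} (hy : ¬ s.r x y)
    (hz : ¬ s.r x z) : drP D s x y = drP D s x z ↔ ∀ m, Btw D y m z → ¬ s.r x m := by
  constructor
  · intro h
    have h1 : y ∈ drP D s x y := self_mem_drP hy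
    rw [h] at h1
    exact h1
  · intro h
    ext w
    constructor
    · intro h1 m hm
      by_cases c : Btw D w m y
      · exact h1 m c
      · exact h m (dir hT hm c)
    · intro h1 m hm
      by_cases c : Btw D w m z
      · exact h1 m c
      · exact h m (dir hT hm c).symm

/-- Directions at classes have trivial stabilisers. -/
lemma drP_free (hT : IsTree D) (hG : FreeAct D G) (hs : Clus D G s) {x y : X} {g : G}
    (hxy : ¬ s.r x y) (hgx : s.r x (g • x)) (hd : sm g (drP D s x y) = drP D s x y) :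
    g = 1 := by
  by_contra hg
  obtain ⟨p, -, h1, -, h2, -⟩ := exists_proj hT hG hg y
  have h3 : g • y ∈ sm g (drP D s x y) := ⟨y, self_mem_drP hxy, rfl⟩
  rw [hd] at h3
  exact h3 p h1.symm (hs.ax g x p hg hgx h2)

lemma mem_HP {F V : Finset X} {x : X} {d : Set X} :
    (x, d) ∈ HP D s F V ↔ x ∈ V ∧ ∃ f ∈ F, ¬ s.r x f ∧ d = drP D s x f := by
  classical
  unfold HP
  simp only [Finset.mem_biUnion, Finset.mem_image, Finset.mem_filter, Prod.mk.injEq]
  constructor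
  · rintro ⟨y, hy, f, ⟨h1, h2⟩, rfl, rfl⟩
    exact ⟨hy, f, h1, h2, rfl⟩
  · rintro ⟨hx, f, h1, h2, rfl⟩
    exact ⟨x, hx, f, ⟨h1, h2⟩, rfl, rfl⟩

/-- The direction of a point beyond. -/
lemma drP_eq_of_btw (hT : IsTree D) (hs : Conv D G s) {x y z : X} (hy : ¬ s.r x y)
    (h : Btw D x y z) : ¬ s.r x z ∧ drP D s x y = drP D s x z := by
  have hz : ¬ s.r x z := fun h1 => hy (hs.convex x y z h1 h)
  refine ⟨hz, (drP_eq_iff hT hs hy hz).2 ?_⟩
  intro m hm h1
  exact hy (hs.convex x y m h1 (btw_trans h hm).2)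

lemma drP_mem (hT : IsTree D) (hs : Conv D G s) {F : Finset X} {x y : X} (hy : y ∈ hull D F)
    (hxy : ¬ s.r x y) : ∃ f ∈ F, ¬ s.r x f ∧ drP D s x y = drP D s x f := by
  obtain ⟨f, hf, h⟩ := hull_beyond hT hy x
  exact ⟨f, hf, drP_eq_of_btw hT hs hxy h⟩

lemma two_drP (hT : IsTree D) (hs : Conv D G s) {F : Finset X} {x : X} (hx : x ∈ hull D F)
    (h : ∀ f ∈ F, ¬ s.r x f) : ∃ f ∈ F, ∃ f' ∈ F, drP D s x f ≠ drP D s x f' := by
  obtain ⟨f, hf, f', hf', hb⟩ := hx
  refine ⟨f, hf, f', hf', ?_⟩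
  intro he
  exact (drP_eq_iff hT hs (h f hf) (h f' hf')).1 he x hb (s.refl x)

lemma dsP_sub (e : Edge X G) : dsP D s e ⊆ {drP D s e.x e.a, drP D s e.x e.b} := by
  rintro d (⟨-, rfl⟩ | ⟨-, rfl⟩)
  · exact Set.mem_insert _ _
  · exact Set.mem_insert_of_mem _ rfl

lemma dsP_finite (e : Edge X G) : (dsP D s e).Finite :=
  (Set.toFinite {drP D s e.x e.a, drP D s e.x e.b}).subset (dsP_sub e)

lemma dsP_le_two (e : Edge X G) : (dsP D s e).ncard ≤ 2 := by
  refine (Set.ncard_le_ncard (dsP_sub e) (Set.toFinite _)).trans ?_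
  have := Set.ncard_insert_le (drP D s e.x e.a) {drP D s e.x e.b}
  rwa [Set.ncard_singleton] at this

lemma dsP_mid (hT : IsTree D) (hs : Conv D G s) {p q r : X} (g : G) (h : Btw D p r q)
    (hp : ¬ s.r r p) (hq : ¬ s.r r q) : (dsP D s (⟨p, q, g, r⟩ : Edge X G)).ncard = 2 := by
  have e : dsP D s (⟨p, q, g, r⟩ : Edge X G) = {drP D s r p, drP D s r q} := by
    ext d
    unfold dsP
    simp only [Set.mem_setOf_eq, Set.mem_insert_iff, Set.mem_singleton_iff]
    constructor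
    · rintro (⟨-, rfl⟩ | ⟨-, rfl⟩)
      · exact Or.inl rfl
      · exact Or.inr rfl
    · rintro (rfl | rfl)
      · exact Or.inl ⟨hp, rfl⟩
      · exact Or.inr ⟨hq, rfl⟩
  rw [e]
  apply Set.ncard_pair
  intro he
  exact (drP_eq_iff hT hs hp hq).1 he r h (s.refl r)

lemma dsP_end (hs : Conv D G s) {p q r : X} (g : G) (hr : s.r r q) (hpq : ¬ s.r p q) :
    (dsP D s (⟨p, q, g, r⟩ : Edge X G)).ncard = 1 := by
  have hp : ¬ s.r r p := fun h => hpq (s.trans (s.symm h) hr)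
  have e : dsP D s (⟨p, q, g, r⟩ : Edge X G) = {drP D s r p} := by
    ext d
    unfold dsP
    simp only [Set.mem_setOf_eq, Set.mem_singleton_iff]
    constructor
    · rintro (⟨-, rfl⟩ | ⟨h, -⟩)
      · rfl
      · exact absurd hr h
    · rintro rfl
      exact Or.inl ⟨hp, rfl⟩
  rw [e, Set.ncard_singleton]

lemma dsP_start (hs : Conv D G s) {p q r : X} (g : G) (hr : s.r r p) (hpq : ¬ s.r p q) :
    drP D s p q ∈ dsP D s (⟨p, q, g, r⟩ : Edge X G) :=
  Or.inr ⟨fun h => hpq (s.trans (s.symm hr) h), drP_congr hs (s.symm hr) q⟩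

lemma dsP_dir {e : Edge X G} {d : Set X} (hd : d ∈ dsP D s e) :
    ∃ y, ¬ s.r e.x y ∧ d = drP D s e.x y := by
  rcases hd with ⟨h, rfl⟩ | ⟨h, rfl⟩
  · exact ⟨_, h, rfl⟩
  · exact ⟨_, h, rfl⟩

lemma dsP_mem (hT : IsTree D) (hG : FreeAct D G) (hs : Conv D G s) {F V : Finset X}
    {e : Edge X G} (he : EV D F V e) {d : Set X} (hd : d ∈ dsP D s e) :
    (e.x, d) ∈ HP D s F V ∧ (e.h • e.x, sm e.h d) ∈ HP D s F V := by
  have key : ∀ y : X, y ∈ hull D F → e.h • y ∈ hull D F → ¬ s.r e.x y →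
      (e.x, drP D s e.x y) ∈ HP D s F V ∧
        (e.h • e.x, sm e.h (drP D s e.x y)) ∈ HP D s F V := by
    intro y h1 h2 h3
    refine ⟨mem_HP.2 ⟨he.x, drP_mem hT hs h1 h3⟩, mem_HP.2 ⟨he.hx, ?_⟩⟩
    rw [sm_drP hG hs]
    exact drP_mem hT hs h2 (fun h => h3 ((hs.inv_iff e.h).1 h))
  rcases hd with ⟨h, rfl⟩ | ⟨h, rfl⟩
  · exact key e.a he.a he.ga h
  · exact key e.b he.b he.gb h

end LTree.Fg
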