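import Pool.Agent.Work.MP_0c526b_al.Fg.PWords
import Pool.Agent.Work.MP_0c526b_al.Fg.PBasics

/-!
# M7: the chain of times crosses into the class of its end point
-/

set_option autoImplicit false
set_option linter.unusedVariables false

namespace LTree.Fg

open LTree LTree.Idx

variable {Λ : Type*} [AddCommGroup Λ] [LinearOrder Λ] [IsOrderedAddMonoid Λ] {X : Type*}
variable {D : Dist Λ X} {G : Type*} [Group G] [MulAction G X] {s : Setoid X}

/-- A letter which is used at an earlier time is used outside of the class of the end point. -/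
lemma cross_key (hT : IsTree D) (hG : FreeAct D G) (hs : Clus D G s) {p q q' : X}
    (hq' : Btw D p q' q) {a b : Λ} (ha : 0 ≤ a) (hab : a ≤ b) (hb : b ≤ D.d p q')
    (na : ¬ s.r (pt hT p q a) q') (nb : s.r (pt hT p q b) q') {v : G}
    (h1 : Btw D p (v • pt hT p q a) q) (h2 : D.d p (v • pt hT p q a) < a)
    (h3 : Btw D p (v • pt hT p q b) q) (h4 : D.d p (v • pt hT p q b) < b) :
    ¬ s.r (v • pt hT p q b) q' := by
  intro hcon
  have hbq : b ≤ D.d p q := by
    have := D.nonneg q' q
    unfold Btw at hq'
    grind
  have haq : a ≤ D.d p q := hab.trans hbq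
  have hb0 : 0 ≤ b := ha.trans hab
  have eq' : q' = pt hT p q (D.d p q') := (pt_of_btw hT hq').symm
  have hdq : D.d p q' ≤ D.d p q := by
    have := D.nonneg q' q
    unfold Btw at hq'
    grind
  -- the times of the images
  set ra := D.d p (v • pt hT p q a) with hra
  set rb := D.d p (v • pt hT p q b) with hrb
  have ra0 : 0 ≤ ra := D.nonneg _ _
  have rb0 : 0 ≤ rb := D.nonneg _ _
  have ea : v • pt hT p q a = pt hT p q ra := (pt_of_btw hT h1).symm
  have eb : v • pt hT p q b = pt hT p q rb := (pt_of_btw hT h3).symm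
  have hd : |ra - rb| = b - a := by
    have e1 := btw_dist hT h1 h3
    rw [hG.iso, pt_dist hT ha hab hbq] at e1
    exact e1.symm
  rcases le_or_gt rb a with h | h
  · -- by convexity
    have m1 : Btw D (pt hT p q rb) (pt hT p q a) (pt hT p q (D.d p q')) :=
      pt_mid hT rb0 h (hab.trans hb) hdq
    rw [← eq', ← eb] at m1
    exact na (s.trans (s.symm (hs.convex _ _ _ hcon m1)) hcon)
  · -- the element `v` translates along the segment
    have hr : rb = ra + (b - a) := by
      rcases abs_cases (ra - rb) with ⟨h5, h6⟩ | ⟨h5, h6⟩ <;> grind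
    have ht : 0 < a - ra := by grind
    -- the point `x(a + τ)`
    have k1 : v • pt hT p q (a + (a - ra)) = pt hT p q (ra + (a + (a - ra) - a)) := by
      refine pt_copy hT hG ha (by grind) (by grind) hbq ra0 (by grind) ea ?_
      rw [eb, hr]
    have k2 : v • pt hT p q (a + (a - ra)) = pt hT p q a := by
      rw [k1]; congr 1; abel
    have hv : v ≠ 1 := by
      intro e
      rw [e, one_smul] at hrb
      rw [d_pt hT hb0 hbq] at hrb
      exact absurd h4 (by rw [hrb]; exact lt_irrefl _)
    have haxz : pt hT p q (a + (a - ra)) ∈ axis D v := by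
      show D.d _ (v • v • _) = _
      rw [k2, ea]
      have d1 := pt_dist hT (p := p) (q := q) ra0 (show ra ≤ a + (a - ra) by grind) (by grind)
      have d2 := pt_dist hT (p := p) (q := q) ha (show a ≤ a + (a - ra) by grind) (by grind)
      rw [D.symm, d1, D.symm, d2]
      abel
    have hax : pt hT p q a ∈ axis D v := by
      rw [← k2]
      exact smul_mem_axis_self hG haxz
    have h5 : s.r (pt hT p q b) (v • pt hT p q b) := s.trans nb (s.symm hcon)
    exact na (s.trans (s.symm (hs.ax v _ _ hv h5 hax)) nb)

theorem pcross (hT : IsTree D) (hG : FreeAct D G) (hs : Clus D G s) {T : Set (Letter X G)}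
    (hTf : ∀ l ∈ T, l.flag = false) {p q q' : X} {g : G} (hd : FData hT T p q g q')
    (hpq : ¬ s.r p q') :
    ∃ (E : Set (Edge X G)) (R : Set X), E.Finite ∧ (∀ e ∈ E, EdgeOf D T e) ∧ R.Finite ∧
      (∀ r ∈ R, Btw D p r q' ∧ ¬ s.r r q') ∧
      WP s (E ∪ (fun r => (⟨p, q', g, r⟩ : Edge X G)) '' R) q' g := by
  have hq' := hd.btw
  have hdq : D.d p q' ≤ D.d p q := by
    have := D.nonneg q' q
    unfold Btw at hq'
    grind
  have eq' : pt hT p q (D.d p q') = q' := pt_of_btw hT hq'
  -- the step which crosses into the class of `q'`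
  obtain ⟨a, b, ha, hab, hb, -, -, na, nb, w, hw, hv, oka, okb⟩ :=
    JJ_cross (t := 0) (t' := D.d p q') hG (fun t => D.d p q' < t ∨ s.r (pt hT p q t) q') (by
      intro a b hab h
      rcases h with h | h
      · exact Or.inl (h.trans_le hab)
      · rcases lt_or_ge (D.d p q') b with h1 | h1
        · exact Or.inl h1
        · right
          have ha0 : 0 ≤ a := by
            by_contra hneg
            have : pt hT p q a = p := by
              unfold pt
              rw [dif_neg]
              rintro ⟨h2, -⟩
              exact hneg h2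
            rw [this] at h
            exact hpq h
          have m1 := pt_mid hT (p := p) (q := q) ha0 hab h1 hdq
          rw [eq'] at m1
          exact s.trans (s.symm (hs.convex _ _ _ h m1)) h)
      JJ_zero hd.time (by
        rintro (h | h)
        · exact absurd h (not_lt.2 (D.nonneg _ _))
        · rw [pt_zero] at h; exact hpq h) (Or.inr (by rw [eq']))
  have nb' : s.r (pt hT p q b) q' := by
    rcases nb with h | h
    · exact absurd h (not_lt.2 hb)
    · exact h
  have na' : ¬ s.r (pt hT p q a) q' := fun h => na (Or.inr h)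
  -- the path of the word
  have key : ∀ (w : List (Letter X G)) (u : G), (∀ l ∈ w, l ∈ LF T p q g) →
      ok D a w (u • pt hT p q a) → ok D b w (u • pt hT p q b) →
      ∃ (E : Set (Edge X G)) (R : Set X), E.Finite ∧ (∀ e ∈ E, EdgeOf D T e) ∧ R.Finite ∧
      (∀ r ∈ R, Btw D p r q' ∧ ¬ s.r r q') ∧
      WP s (E ∪ (fun r => (⟨p, q', g, r⟩ : Edge X G)) '' R) (u • pt hT p q b) (val w) := by
    intro w
    induction w with
    | nil =>
      intro u _ _ _
      exact ⟨∅, ∅, Set.finite_empty, by simp, Set.finite_empty, by simp, WP.one⟩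
    | cons l w ih =>
      intro u hw h1 h2
      have h1' := h1.2
      have h2' := h2.2
      rw [← mul_smul] at h1' h2'
      obtain ⟨E, R, hE1, hE2, hR1, hR2, h3⟩ := ih (l.h * u) (fun l' hl' => hw l' (by simp [hl']))
        h1' h2'
      rw [mul_smul] at h3
      -- it suffices to treat the first letter
      have fin : ∀ (E' : Set (Edge X G)) (R' : Set X), E ⊆ E' → R ⊆ R' →
          WP s (E' ∪ (fun r => (⟨p, q', g, r⟩ : Edge X G)) '' R') (u • pt hT p q b) l.h →
          WP s (E' ∪ (fun r => (⟨p, q', g, r⟩ : Edge X G)) '' R') (u • pt hT p q b)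
            (val (l :: w)) := by
        intro E' R' hE hR h4
        exact WP.comp hs.toConv h4 (h3.mono (Set.union_subset_union hE (Set.image_mono hR)))
      rcases hw l (by simp) with (h | ⟨l', h, rfl⟩) | h | h
      · -- a letter of the system
        have hf := hTf l h
        refine ⟨insert ⟨l.a, l.b, l.h, u • pt hT p q b⟩ E, R, hE1.insert _, ?_, hR1, hR2,
          fin _ _ (Set.subset_insert _ _) (Set.Subset.refl _)
            (WP.edge (e := ⟨l.a, l.b, l.h, u • pt hT p q b⟩) (Or.inl (Or.inl rfl)))⟩
        rintro e (rfl | he)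
        · refine ⟨?_, h2.1.1⟩
          obtain ⟨a', b', g', f'⟩ := l
          simp only at hf
          rw [hf] at h
          exact h
        · exact hE2 e he
      · -- an inverse letter
        have hf := hTf l' h
        have hb1 : Btw D l'.a (l'.h⁻¹ • u • pt hT p q b) l'.b := by
          have := hG.btw l'.h⁻¹ h2.1.1
          unfold Letter.inv at this
          simpa using this
        refine ⟨insert ⟨l'.a, l'.b, l'.h, l'.h⁻¹ • u • pt hT p q b⟩ E, R, hE1.insert _, ?_, hR1,
          hR2, fin _ _ (Set.subset_insert _ _) (Set.Subset.refl _) ?_⟩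
        · rintro e (rfl | he)
          · refine ⟨?_, hb1⟩
            obtain ⟨a', b', g', f'⟩ := l'
            simp only at hf
            rw [hf] at h
            exact h
          · exact hE2 e he
        · have h5 := WP.edge' (s := s)
            (E := insert ⟨l'.a, l'.b, l'.h, l'.h⁻¹ • u • pt hT p q b⟩ E ∪
              (fun r => (⟨p, q', g, r⟩ : Edge X G)) '' R)
            (e := ⟨l'.a, l'.b, l'.h, l'.h⁻¹ • u • pt hT p q b⟩) (Or.inl (Or.inl rfl))
          simp only [smul_inv_smul] at h5
          exact h5
      · -- the flagged letter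
        subst h
        have k1 := h1.1
        have k2 := h2.1
        have hlt : D.d p (u • pt hT p q b) < D.d p q' := (k2.2 rfl).trans_le hb
        have hnot := cross_key hT hG hs hq' ha hab hb na' nb' k1.1 (k1.2 rfl) k2.1 (k2.2 rfl)
        refine ⟨E, insert (u • pt hT p q b) R, hE1, hE2, hR1.insert _, ?_,
          fin _ _ (Set.Subset.refl _) (Set.subset_insert _ _)
            (WP.edge (e := ⟨p, q', g, u • pt hT p q b⟩) (Or.inr ⟨_, Or.inl rfl, rfl⟩))⟩
        rintro r (rfl | hr)
        · exact ⟨(btw_before hT hq' k2.1 hlt).1, hnot⟩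
        · exact hR2 r hr
      · -- the inverse of the flagged letter
        subst h
        have k1 := h1.1
        have k2 := h2.1
        have c1 : ∀ z : X, D.d (g • p) z = D.d p (g⁻¹ • z) := by
          intro z
          rw [← hG.iso g⁻¹, inv_smul_smul]
        have c2 : ∀ z : X, Btw D (g • p) z (g • q) → Btw D p (g⁻¹ • z) q := by
          intro z hz
          have := hG.btw g⁻¹ hz
          rwa [inv_smul_smul, inv_smul_smul] at this
        have l1 : D.d p (g⁻¹ • u • pt hT p q a) < a := by rw [← c1]; exact k1.2 rfl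
        have l2 : D.d p (g⁻¹ • u • pt hT p q b) < b := by rw [← c1]; exact k2.2 rfl
        have b1 := c2 _ k1.1
        have b2 := c2 _ k2.1
        have hlt := l2.trans_le hb
        have hnot : ¬ s.r (g⁻¹ • u • pt hT p q b) q' := by
          rw [← mul_smul] at b1 b2 l1 l2 ⊢
          exact cross_key hT hG hs hq' ha hab hb na' nb' b1 l1 b2 l2
        refine ⟨E, insert (g⁻¹ • u • pt hT p q b) R, hE1, hE2, hR1.insert _, ?_,
          fin _ _ (Set.Subset.refl _) (Set.subset_insert _ _) ?_⟩
        · rintro r (rfl | hr)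
          · exact ⟨(btw_before hT hq' b2 hlt).1, hnot⟩
          · exact hR2 r hr
        · have h5 := WP.edge' (s := s) (E := E ∪
              (fun r => (⟨p, q', g, r⟩ : Edge X G)) '' (insert (g⁻¹ • u • pt hT p q b) R))
            (e := ⟨p, q', g, g⁻¹ • u • pt hT p q b⟩) (Or.inr ⟨_, Or.inl rfl, rfl⟩)
          simp only [smul_inv_smul] at h5
          exact h5
  obtain ⟨E, R, hE1, hE2, hR1, hR2, h⟩ := key w 1 hw (by rwa [one_smul]) (by rwa [one_smul])
  refine ⟨E, R, hE1, hE2, hR1, hR2, ?_⟩
  rw [one_smul, hv] at h
  exact h.congr hs.toConv nb'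

end LTree.Fg
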