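import Pool.Agent.Work.MP_0c526b_al.Fg.LiftDef
import Pool.Agent.Work.MP_0c526b_al.Fg.PIns
import Pool.Agent.Work.MP_0c526b_al.Fg.PWords
import Pool.Agent.Work.MP_0c526b_al.Fg.PCount
import Pool.Agent.Work.MP_0c526b_al.Fg.PCross

/-!
# M8: the closed fold lifts
-/

set_option autoImplicit false
set_option linter.unusedVariables false

namespace LTree.Fg

open LTree LTree.Idx

variable {Λ : Type*} [AddCommGroup Λ] [LinearOrder Λ] [IsOrderedAddMonoid Λ] {X : Type*}
variable {D : Dist Λ X} {G : Type*} [Group G] [MulAction G X] {s : Setoid X}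

/-- The edges of a family at the points of `R`. -/
def famE (p q : X) (g : G) (R : Set X) : Set (Edge X G) := (fun r => (⟨p, q, g, r⟩ : Edge X G)) '' R

/-- A family: the edges at the points of `R` are inserted at no cost, if each point is interior or
its edge is redundant over the edges present at the beginning. -/
lemma stp_fam (hT : IsTree D) (hG : FreeAct D G) (hs : Clus D G s) {F V : Finset X} {p q : X}
    {g : G} (hp : p ∈ hull D F) (hq : q ∈ hull D F) (gp : g • p ∈ hull D F)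
    (gq : g • q ∈ hull D F) {R : Set X} (hR : R.Finite) (hRb : ∀ r ∈ R, Btw D p r q)
    (hRV : ∀ r ∈ R, r ∈ V ∧ g • r ∈ V) (E : Set (Edge X G))
    (h : ∀ r ∈ R, WP s E r g ∨ (¬ s.r r p ∧ ¬ s.r r q)) :
    Stp D s F V E (E ∪ famE p q g R) 0 := by
  refine stp_many (hR.image _) ?_
  rintro e ⟨r, hr, rfl⟩ E' hE _
  have hEV : EV D F V (⟨p, q, g, r⟩ : Edge X G) :=
    ⟨(hRV r hr).1, (hRV r hr).2, hp, hq, gp, gq, hRb r hr⟩
  rcases h r hr with h1 | ⟨h1, h2⟩
  · exact stp_red hT hG hs hEV (h1.mono hE)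
  · have h3 := stp_gen hT hG hs (E := E') hEV
    rw [dsP_mid hT hs.toConv g (hRb r hr) h1 h2] at h3
    exact h3.weak (by norm_num)

/-- The closed fold. -/
theorem lift_closed (hT : IsTree D) (hG : FreeAct D G) (hs : Clus D G s) {F : Finset X}
    {T : Set (Letter X G)} (hS : Sys D F T) {p q q' : X} {g : G} (hp : p ∈ hull D F)
    (hq : q ∈ hull D F) (gp : g • p ∈ hull D F) (gq : g • q ∈ hull D F)
    (hd : FData hT T p q g q') : Lift D s F T (insert ⟨p, q', g, false⟩ T) := by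
  classical
  intro V0 E0 hV0 hE0 hE0T
  have hq'h : q' ∈ hull D F := hull_convex hT hp hq hd.btw
  have gq'h : g • q' ∈ hull D F := hull_convex hT gp gq (hG.btw g hd.btw)
  obtain ⟨E1, R1, hE1, hR1, hE1T, hR1b, hsub⟩ := fx_exists_points hE0 hE0T
  obtain ⟨E3, hE3, hE3T, hE3c⟩ := conn_WP hG hs.toConv hS.flag hd.base
  -- the crossing data
  have hcr : ∃ (E2 : Set (Edge X G)) (R2 : Set X), E2.Finite ∧ (∀ e ∈ E2, EdgeOf D T e) ∧
      R2.Finite ∧ (∀ r ∈ R2, Btw D p r q' ∧ ¬ s.r r q') ∧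
      (¬ s.r p q' → WP s (E2 ∪ famE p q' g R2) q' g) := by
    by_cases hpq : s.r p q'
    · exact ⟨∅, ∅, Set.finite_empty, fun e he => absurd he (Set.notMem_empty _), Set.finite_empty,
        fun r hr => absurd hr (Set.notMem_empty _), fun h => absurd hpq h⟩
    · obtain ⟨E2, R2, h1, h2, h3, h4, h5⟩ := pcross hT hG hs hS.flag hd hpq
      exact ⟨E2, R2, h1, h2, h3, h4, fun _ => h5⟩
  obtain ⟨E2, R2, hE2, hE2T, hR2, hR2b, hR2c⟩ := hcr
  have hR : (R1 ∪ R2).Finite := hR1.union hR2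
  have hRb : ∀ r ∈ R1 ∪ R2, Btw D p r q' := by
    rintro r (h | h)
    · exact hR1b r h
    · exact (hR2b r h).1
  have hin : ∀ r, Btw D p r q' → r ∈ hull D F ∧ g • r ∈ hull D F := fun r hr =>
    ⟨hull_convex hT hp hq'h hr, hull_convex hT gp gq'h (hG.btw g hr)⟩
  refine ⟨V0 ∪ (hR.toFinset ∪ hR.toFinset.image (fun r => g • r)), E1 ∪ (E2 ∪ E3), ?_,
    hE1.union (hE2.union hE3), ?_, ?_⟩
  · intro x hx
    rcases Finset.mem_union.1 hx with h | h
    · exact hV0 x h
    · rcases Finset.mem_union.1 h with h | h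
      · exact (hin x (hRb x (hR.mem_toFinset.1 h))).1
      · obtain ⟨r, hr, rfl⟩ := Finset.mem_image.1 h
        exact (hin r (hRb r (hR.mem_toFinset.1 hr))).2
  · rintro e (h | h | h)
    · exact hE1T e h
    · exact hE2T e h
    · exact hE3T e h
  · intro V E hV hE hEf hSk hEV
    have mR : ∀ r ∈ R1 ∪ R2, r ∈ V ∧ g • r ∈ V := by
      intro r hr
      have h1 := hR.mem_toFinset.2 hr
      exact ⟨hV (Finset.mem_union_right _ (Finset.mem_union_left _ h1)),
        hV (Finset.mem_union_right _ (Finset.mem_union_right _ (Finset.mem_image_of_mem _ h1)))⟩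
    have hE1E : E1 ⊆ E := fun e he => hE (Or.inl he)
    have hE2E : E2 ⊆ E := fun e he => hE (Or.inr (Or.inl he))
    have hE3E : E3 ⊆ E := fun e he => hE (Or.inr (Or.inr he))
    have hbase : WP s E p g := hE3c.mono hE3E
    -- the two stages
    set RA : Set X := {r | r ∈ R1 ∪ R2 ∧ ¬ s.r r q'} with hRA
    set RB : Set X := {r | r ∈ R1 ∪ R2 ∧ s.r r q'} with hRB
    have hRAf : RA.Finite := hR.subset fun r hr => hr.1
    have hRBf : RB.Finite := hR.subset fun r hr => hr.1
    have sA : Stp D s F V E (E ∪ famE p q' g RA) 0 := by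
      refine stp_fam hT hG hs hp hq'h gp gq'h hRAf (fun r hr => hRb r hr.1)
        (fun r hr => mR r hr.1) E ?_
      intro r hr
      by_cases h1 : s.r r p
      · exact Or.inl (WP.congr hs.toConv (s.symm h1) hbase)
      · exact Or.inr ⟨h1, hr.2⟩
    have sB : Stp D s F V (E ∪ famE p q' g RA) ((E ∪ famE p q' g RA) ∪ famE p q' g RB) 0 := by
      refine stp_fam hT hG hs hp hq'h gp gq'h hRBf (fun r hr => hRb r hr.1)
        (fun r hr => mR r hr.1) _ ?_
      intro r hr
      left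
      by_cases hpq : s.r p q'
      · have h1 : s.r p r := s.trans hpq (s.symm hr.2)
        exact (WP.congr hs.toConv h1 hbase).mono Set.subset_union_left
      · have h1 := (hR2c hpq).mono (E' := E ∪ famE p q' g RA) (by
          rintro e (he | ⟨r, hr, rfl⟩)
          · exact Or.inl (hE2E he)
          · exact Or.inr ⟨r, ⟨Or.inr hr, (hR2b r hr).2⟩, rfl⟩)
        exact WP.congr hs.toConv (s.symm hr.2) h1
    refine ⟨fun x hx => hV (Finset.mem_union_left _ hx),
      (E ∪ famE p q' g RA) ∪ famE p q' g RB, ?_, ?_, ?_, ?_⟩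
    · intro e he
      rcases hsub he with h | ⟨r, hr, rfl⟩
      · exact Or.inl (Or.inl (hE1E h))
      · by_cases h1 : s.r r q'
        · exact Or.inr ⟨r, ⟨Or.inl hr, h1⟩, rfl⟩
        · exact Or.inl (Or.inr ⟨r, ⟨Or.inl hr, h1⟩, rfl⟩)
    · exact (hEf.union (hRAf.image _)).union (hRBf.image _)
    · rintro e ((he | ⟨r, hr, rfl⟩) | ⟨r, hr, rfl⟩)
      · obtain ⟨h1, h2⟩ := hEV e he
        exact ⟨fx_edgeOf_mono (Set.subset_insert _ _) h1, h2⟩
      · exact ⟨⟨Or.inl rfl, hRb r hr.1⟩, mR r hr.1⟩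
      · exact ⟨⟨Or.inl rfl, hRb r hr.1⟩, mR r hr.1⟩
    · have h := sA.comp sB
      rwa [add_zero] at h

end LTree.Fg
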