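import Pool.Agent.Work.MP_0c526b_al.Fg.PBasics

/-!
# The class count does not depend on the skeleton
-/

set_option autoImplicit false
set_option linter.unusedVariables false
set_option linter.unusedSectionVars false

namespace LTree.Fg

open LTree LTree.Idx

variable {Λ : Type*} [AddCommGroup Λ] [LinearOrder Λ] [IsOrderedAddMonoid Λ] {X : Type*}
variable {D : Dist Λ X} {G : Type*} [Group G] [MulAction G X] {s : Setoid X}

lemma pi_ncl_insert_new {α : Type*} [DecidableEq α] (r : α → α → Prop) (V : Finset α) (a : α)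
    (h : ∀ v ∈ V, ¬ Relation.EqvGen r v a) : ncl r (insert a V) = ncl r V + 1 := by
  classical
  rw [ncl_eq, ncl_eq, Finset.image_insert]
  apply Finset.card_insert_of_notMem
  intro h1
  obtain ⟨v, hv, h2⟩ := Finset.mem_image.1 h1
  exact h v hv (Quot.eqvGen_exact h2)

lemma pi_ncl_insert_old {α : Type*} [DecidableEq α] (r : α → α → Prop) (V : Finset α) (a : α)
    (h : ∃ v ∈ V, Relation.EqvGen r v a) : ncl r (insert a V) = ncl r V := by
  classical
  rw [ncl_eq, ncl_eq, Finset.image_insert]
  congr 1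
  apply Finset.insert_eq_of_mem
  obtain ⟨v, hv, h2⟩ := h
  exact Finset.mem_image.2 ⟨v, hv, Quot.eqvGen_sound h2⟩

lemma pi_eqv_inv {α : Type*} {r : α → α → Prop} (P : α → Prop) (h : ∀ a b, r a b → (P a ↔ P b))
    {a b : α} (hab : Relation.EqvGen r a b) : P a ↔ P b := by
  induction hab with
  | rel a b hr => exact h a b hr
  | refl a => exact Iff.rfl
  | symm a b _ ih => exact ih.symm
  | trans a b c _ _ ih1 ih2 => exact ih1.trans ih2

/-- Union with elements all equivalent to old ones. -/
lemma pi_ncl_union_old {α : Type*} [DecidableEq α] (r : α → α → Prop) (V W : Finset α)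
    (h : ∀ a ∈ W, ∃ v ∈ V, Relation.EqvGen r v a) : ncl r (V ∪ W) = ncl r V := by
  induction W using Finset.induction_on with
  | empty => simp
  | insert a W ha ih =>
    have e : V ∪ insert a W = insert a (V ∪ W) := by
      ext y
      simp only [Finset.mem_union, Finset.mem_insert]
      tauto
    rw [e, pi_ncl_insert_old r _ a, ih (fun b hb => h b (Finset.mem_insert_of_mem hb))]
    obtain ⟨v, hv, h1⟩ := h a (Finset.mem_insert_self _ _)
    exact ⟨v, Finset.mem_union_left _ hv, h1⟩

lemma pi_split (hT : IsTree D) {m p q y : X} (h1 : Btw D p m q) (h2 : Btw D p y q) :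
    Btw D p y m ∨ Btw D q y m := by
  have h3 := btw_dist hT h2 h1
  have s1 := D.symm p q
  have s2 := D.symm q y
  have s3 := D.symm q m
  have s4 := D.symm y m
  unfold Btw at *
  rcases le_total (D.d p y) (D.d p m) with h4 | h4
  · left
    rw [abs_sub_comm, abs_of_nonneg (sub_nonneg.2 h4)] at h3
    rw [h3, add_sub_cancel]
  · right
    rw [abs_of_nonneg (sub_nonneg.2 h4)] at h3
    rw [h3]
    rw [s2, s3]
    have e1 : D.d m q = D.d p q - D.d p m := by rw [← h1]; abel
    have e2 : D.d y q = D.d p q - D.d p y := by rw [← h2]; abel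
    rw [e1, e2]
    abel

/-- A class met by the three sides of a tripod contains its centre. -/
lemma pi_tripod (hT : IsTree D) (hs : Conv D G s) {x a b c m : X} (hm : IsMedian D a b c m)
    {u v w : X} (hu : Btw D a u b) (hv : Btw D b v c) (hw : Btw D a w c) (su : s.r x u)
    (sv : s.r x v) (sw : s.r x w) : s.r x m := by
  obtain ⟨m1, m2, m3⟩ := hm
  -- `m` is between two of the three points
  have key : ∀ {p q r y z : X}, Btw D p m q → Btw D q m r → Btw D p m r → s.r x y → s.r x z →
      Btw D p y m → (Btw D q z m ∨ Btw D r z m) → s.r x m := by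
    intro p q r y z h1 h2 h3 sy sz hy hz
    rcases hz with hz | hz
    · have h4 : Btw D y m q := (btw_trans' h1 hy).2
      have h5 : Btw D y m z := by
        have := (btw_trans' h4.symm hz).2
        exact this.symm
      exact s.trans sy (hs.convex y m z (s.trans (s.symm sy) sz) h5)
    · have h4 : Btw D y m r := (btw_trans' h3 hy).2
      have h5 : Btw D y m z := by
        have := (btw_trans' h4.symm hz).2
        exact this.symm
      exact s.trans sy (hs.convex y m z (s.trans (s.symm sy) sz) h5)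
  rcases pi_split hT m1 hu with h1 | h1
  · -- `u` on the leg of `a`
    rcases pi_split hT m2 hv with h2 | h2
    · exact key m1 m2 m3 su sv h1 (Or.inl h2)
    · exact key m1 m2 m3 su sv h1 (Or.inr h2)
  · -- `u` on the leg of `b`
    rcases pi_split hT m3 hw with h2 | h2
    · exact key m1.symm m3 m2 su sw h1 (Or.inl h2)
    · exact key m1.symm m3 m2 su sw h1 (Or.inr h2)

lemma pi_WP_out {E : Set (Edge X G)} {x : X}
    (hn : ∀ e ∈ E, ¬ s.r x e.x ∧ ¬ s.r x (e.h • e.x)) {g : G} (h : WP s E x g) : g = 1 := by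
  induction h with
  | one => rfl
  | fwd g e _ he h1 ih =>
    subst ih
    rw [one_smul] at h1
    exact absurd h1 (hn e he).1
  | bwd g e _ he h1 ih =>
    subst ih
    rw [one_smul] at h1
    exact absurd h1 (hn e he).2

lemma pi_step (hT : IsTree D) (hs : Conv D G s) {F V W : Finset X} (hV : Sk D F V) {x : X}
    (hx : x ∈ hull D F) (hW : ∀ y, y ∈ W ↔ y = x ∨ y ∈ V) {E : Set (Edge X G)}
    (hE : ∀ e ∈ E, e.x ∈ V ∧ e.h • e.x ∈ V) : Psi D s F W E = Psi D s F V E := by
  classical
  unfold Psi
  by_cases hold : ∃ v ∈ V, s.r x v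
  · obtain ⟨v, hv, hxv⟩ := hold
    have e1 : ncl (rVP s E) (W.filter (fun x => Tr s E x)) =
        ncl (rVP s E) (V.filter (fun x => Tr s E x)) := by
      have e : W.filter (fun x => Tr s E x) = V.filter (fun x => Tr s E x) ∪
          ({x} : Finset X).filter (fun x => Tr s E x) := by
        ext y
        simp only [Finset.mem_filter, Finset.mem_union, Finset.mem_singleton, hW]
        tauto
      rw [e]
      apply pi_ncl_union_old
      intro a ha
      rw [Finset.mem_filter, Finset.mem_singleton] at ha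
      obtain ⟨rfl, ha⟩ := ha
      refine ⟨v, Finset.mem_filter.2 ⟨hv, ?_⟩, Relation.EqvGen.rel _ _ (Or.inl (s.symm hxv))⟩
      -- triviality is transported along the class
      intro g hg hgv
      have hcongr : ∀ g, WP s E v g → WP s E a g := by
        intro g hg
        induction hg with
        | one => exact WP.one
        | fwd g e _ he h1 ih => exact WP.fwd g e ih he (s.trans (hs.inv g _ _ hxv) h1)
        | bwd g e _ he h1 ih => exact WP.bwd g e ih he (s.trans (hs.inv g _ _ hxv) h1)
      exact ha g (hcongr g hg) (s.trans hxv (s.trans hgv (hs.inv g _ _ (s.symm hxv))))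
    have e2 : ncl (rHP D s E) (HP D s F W) = ncl (rHP D s E) (HP D s F V) := by
      have e : HP D s F W = HP D s F V ∪ HP D s F {x} := by
        ext ⟨y, d⟩
        simp only [Finset.mem_union, mem_HP, hW, Finset.mem_singleton]
        constructor
        · rintro ⟨rfl | h, h1⟩
          · exact Or.inr ⟨rfl, h1⟩
          · exact Or.inl ⟨h, h1⟩
        · rintro (⟨h, h1⟩ | ⟨h, h1⟩)
          · exact ⟨Or.inr h, h1⟩
          · exact ⟨Or.inl h, h1⟩
      rw [e]
      apply pi_ncl_union_old
      rintro ⟨y, d⟩ ha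
      rw [mem_HP, Finset.mem_singleton] at ha
      obtain ⟨rfl, f, hf, h1, rfl⟩ := ha
      refine ⟨(v, drP D s v f), mem_HP.2 ⟨hv, f, hf, fun h2 => h1 (s.trans hxv h2), rfl⟩, ?_⟩
      exact Relation.EqvGen.rel _ _ (Or.inl ⟨s.symm hxv, drP_congr hs (s.symm hxv) f⟩)
    rw [e1, e2]
  · have hne : ∀ v ∈ V, ¬ s.r x v := fun v hv h => hold ⟨v, hv, h⟩
    have hF : ∀ f ∈ F, ¬ s.r x f := fun f hf => hne f (hV.F_sub hf)
    have hnx : ∀ e ∈ E, ¬ s.r x e.x ∧ ¬ s.r x (e.h • e.x) := fun e he =>
      ⟨hne _ (hE e he).1, hne _ (hE e he).2⟩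
    have hTr : Tr s E x := fun g hg _ => pi_WP_out hnx hg
    -- vertices
    have hPv : ∀ a b, rVP s E a b → (s.r x a ↔ s.r x b) := by
      rintro a b (h | ⟨e, he, h1, h2⟩)
      · exact ⟨fun h3 => s.trans h3 h, fun h3 => s.trans h3 (s.symm h)⟩
      · exact ⟨fun h3 => absurd (s.trans h3 h1) (hnx e he).1,
          fun h3 => absurd (s.trans h3 (s.symm h2)) (hnx e he).2⟩
    have e1 : ncl (rVP s E) (W.filter (fun x => Tr s E x)) =
        ncl (rVP s E) (V.filter (fun x => Tr s E x)) + 1 := by
      have e : W.filter (fun x => Tr s E x) = insert x (V.filter (fun x => Tr s E x)) := by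
        ext y
        simp only [Finset.mem_filter, Finset.mem_insert, hW]
        constructor
        · rintro ⟨rfl | h, h1⟩
          · exact Or.inl rfl
          · exact Or.inr ⟨h, h1⟩
        · rintro (rfl | ⟨h, h1⟩)
          · exact ⟨Or.inl rfl, hTr⟩
          · exact ⟨Or.inr h, h1⟩
      rw [e]
      apply pi_ncl_insert_new
      intro v hv h
      exact hne v (Finset.mem_filter.1 hv).1 ((pi_eqv_inv _ hPv h).2 (s.refl _))
    -- directions
    obtain ⟨f, hf, f', hf', hff⟩ := two_drP hT hs hx hF
    have hPd : ∀ (d : Set X) (a b : X × Set X), rHP D s E a b →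
        ((s.r x a.1 ∧ a.2 = d) ↔ (s.r x b.1 ∧ b.2 = d)) := by
      rintro d a b (⟨h, h'⟩ | ⟨e, he, h1, _, h2, _⟩)
      · rw [h']
        exact ⟨fun h3 => ⟨s.trans h3.1 h, h3.2⟩, fun h3 => ⟨s.trans h3.1 (s.symm h), h3.2⟩⟩
      · exact ⟨fun h3 => absurd (s.trans h3.1 h1) (hnx e he).1,
          fun h3 => absurd (s.trans h3.1 (s.symm h2)) (hnx e he).2⟩
    have hmid : ∀ g ∈ F, ∀ g' ∈ F, drP D s x g ≠ drP D s x g' → ∃ m, Btw D g m g' ∧ s.r x m := by
      intro g hg g' hg' h
      by_contra hcon
      push Not at hcon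
      exact h ((drP_eq_iff hT hs (hF g hg) (hF g' hg')).2 hcon)
    have hthree : ∀ k ∈ F, drP D s x k = drP D s x f ∨ drP D s x k = drP D s x f' := by
      intro k hk
      by_contra hcon
      push Not at hcon
      obtain ⟨u, hu, su⟩ := hmid f hf f' hf' hff
      obtain ⟨v, hv, sv⟩ := hmid f' hf' k hk (fun h => hcon.2 h.symm)
      obtain ⟨w, hw, sw⟩ := hmid f hf k hk (fun h => hcon.1 h.symm)
      obtain ⟨m, hm⟩ := exists_median hT f f' k
      exact hne m (hV.meds f hf f' hf' k hk m hm) (pi_tripod hT hs hm hu hv hw su sv sw)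
    have e2 : ncl (rHP D s E) (HP D s F W) = ncl (rHP D s E) (HP D s F V) + 2 := by
      have e : HP D s F W = insert (x, drP D s x f) (insert (x, drP D s x f') (HP D s F V)) := by
        ext ⟨y, d⟩
        simp only [Finset.mem_insert, mem_HP, hW, Prod.mk.injEq]
        constructor
        · rintro ⟨rfl | h, k, hk, h1, rfl⟩
          · rcases hthree k hk with h2 | h2
            · exact Or.inl ⟨rfl, h2⟩
            · exact Or.inr (Or.inl ⟨rfl, h2⟩)
          · exact Or.inr (Or.inr ⟨h, k, hk, h1, rfl⟩)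
        · rintro (⟨rfl, rfl⟩ | ⟨rfl, rfl⟩ | ⟨h, k, hk, h1, rfl⟩)
          · exact ⟨Or.inl rfl, f, hf, hF f hf, rfl⟩
          · exact ⟨Or.inl rfl, f', hf', hF f' hf', rfl⟩
          · exact ⟨Or.inr h, k, hk, h1, rfl⟩
      rw [e, pi_ncl_insert_new, pi_ncl_insert_new]
      · rintro ⟨v, d⟩ hv h
        have := ((pi_eqv_inv _ (hPd (drP D s x f')) h).2 ⟨s.refl _, rfl⟩).1
        exact hne v (mem_HP.1 hv).1 this
      · rintro ⟨v, d⟩ hv h
        have h1 := (pi_eqv_inv _ (hPd (drP D s x f)) h).2 ⟨s.refl _, rfl⟩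
        rcases Finset.mem_insert.1 hv with h2 | h2
        · rw [Prod.mk.injEq] at h2
          exact hff (h1.2.symm.trans h2.2)
        · exact hne v (mem_HP.1 h2).1 h1.1
    rw [e1, e2]
    push_cast
    ring

/-- The class count does not depend on the skeleton. -/
theorem Psi_mono (hT : IsTree D) (hs : Conv D G s) {F V V' : Finset X} (hV : Sk D F V)
    (hV' : Sk D F V') (h : V ⊆ V') {E : Set (Edge X G)}
    (hE : ∀ e ∈ E, e.x ∈ V ∧ e.h • e.x ∈ V) : Psi D s F V' E = Psi D s F V E := by
  classical
  have key : ∀ T : Finset X, T ⊆ V' → Psi D s F (V ∪ T) E = Psi D s F V E := by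
    intro T
    induction T using Finset.induction_on with
    | empty => intro _; simp
    | insert x T hx ih =>
      intro hT'
      have ih' := ih (fun y hy => hT' (Finset.mem_insert_of_mem hy))
      rw [← ih']
      have hsk : Sk D F (V ∪ T) := hV.mono Finset.subset_union_left (fun y hy => by
        rcases Finset.mem_union.1 hy with h1 | h1
        · exact hV.sub y h1
        · exact hV'.sub y (hT' (Finset.mem_insert_of_mem h1)))
      refine pi_step hT hs hsk (hV'.sub x (hT' (Finset.mem_insert_self _ _))) ?_ ?_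
      · intro y
        simp only [Finset.mem_union, Finset.mem_insert]
        tauto
      · intro e he
        exact ⟨Finset.mem_union_left _ (hE e he).1, Finset.mem_union_left _ (hE e he).2⟩
  have := key V' subset_rfl
  rwa [Finset.union_eq_right.2 h] at this

end LTree.Fg
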