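import Pool.Agent.Work.MP_0c526b_al.Fg.Defs
import Pool.Agent.Work.MP_0c526b_al.Idx.Subtree
import Pool.Agent.Work.MP_0c526b_al.Idx.BallDef
import Pool.Agent.Work.MP_0c526b_al.Idx.Index
import Pool.Agent.Work.MP_0c526b_al.Idx.Final
import Pool.Agent.Work.MP_0c526b_al.Full.Convex

/-!
# Skeleton (exact statements of all modules, with sorry; NEVER import from a finished module)
-/

set_option autoImplicit false
set_option linter.unusedVariables false

namespace LTree.Fg

open LTree LTree.Idx LTree.Idx.Subtree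

variable {Λ : Type*} [AddCommGroup Λ] [LinearOrder Λ] [IsOrderedAddMonoid Λ] {X : Type*}
variable {D : Dist Λ X} {G : Type*} [Group G] [MulAction G X] {s : Setoid X}

/-! ## M1 PBasics.lean -/

lemma drP_congr (hs : Conv D G s) {x x' : X} (h : s.r x x') (y : X) :
    drP D s x y = drP D s x' y := sorry

lemma self_mem_drP {x y : X} (h : ¬ s.r x y) : y ∈ drP D s x y := sorry

lemma sm_drP (hG : FreeAct D G) (hs : Conv D G s) (g : G) (x y : X) :
    sm g (drP D s x y) = drP D s (g • x) (g • y) := sorry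

lemma drP_eq_iff (hT : IsTree D) (hs : Conv D G s) {x y z : X} (hy : ¬ s.r x y)
    (hz : ¬ s.r x z) : drP D s x y = drP D s x z ↔ ∀ m, Btw D y m z → ¬ s.r x m := sorry

/-- Directions at classes have trivial stabilisers. -/
lemma drP_free (hT : IsTree D) (hG : FreeAct D G) (hs : Clus D G s) {x y : X} {g : G}
    (hxy : ¬ s.r x y) (hgx : s.r x (g • x)) (hd : sm g (drP D s x y) = drP D s x y) :
    g = 1 := sorry

lemma mem_HP {F V : Finset X} {x : X} {d : Set X} :
    (x, d) ∈ HP D s F V ↔ x ∈ V ∧ ∃ f ∈ F, ¬ s.r x f ∧ d = drP D s x f := sorry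

lemma drP_mem (hT : IsTree D) (hs : Conv D G s) {F : Finset X} {x y : X} (hy : y ∈ hull D F)
    (hxy : ¬ s.r x y) : ∃ f ∈ F, ¬ s.r x f ∧ drP D s x y = drP D s x f := sorry

lemma two_drP (hT : IsTree D) (hs : Conv D G s) {F : Finset X} {x : X} (hx : x ∈ hull D F)
    (h : ∀ f ∈ F, ¬ s.r x f) : ∃ f ∈ F, ∃ f' ∈ F, drP D s x f ≠ drP D s x f' := sorry

lemma dsP_finite (e : Edge X G) : (dsP D s e).Finite := sorry

lemma dsP_le_two (e : Edge X G) : (dsP D s e).ncard ≤ 2 := sorry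

lemma dsP_mid (hT : IsTree D) (hs : Conv D G s) {p q r : X} (g : G) (h : Btw D p r q)
    (hp : ¬ s.r r p) (hq : ¬ s.r r q) : (dsP D s (⟨p, q, g, r⟩ : Edge X G)).ncard = 2 := sorry

lemma dsP_end (hs : Conv D G s) {p q r : X} (g : G) (hr : s.r r q) (hpq : ¬ s.r p q) :
    (dsP D s (⟨p, q, g, r⟩ : Edge X G)).ncard = 1 := sorry

lemma dsP_start (hs : Conv D G s) {p q r : X} (g : G) (hr : s.r r p) (hpq : ¬ s.r p q) :
    drP D s p q ∈ dsP D s (⟨p, q, g, r⟩ : Edge X G) := sorry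

lemma dsP_mem (hT : IsTree D) (hG : FreeAct D G) (hs : Conv D G s) {F V : Finset X}
    {e : Edge X G} (he : EV D F V e) {d : Set X} (hd : d ∈ dsP D s e) :
    (e.x, d) ∈ HP D s F V ∧ (e.h • e.x, sm e.h d) ∈ HP D s F V := sorry

lemma dsP_dir {e : Edge X G} {d : Set X} (hd : d ∈ dsP D s e) :
    ∃ y, ¬ s.r e.x y ∧ d = drP D s e.x y := sorry

/-! ## M2 PWords.lean (uses M1) -/

lemma WP.congr (hs : Conv D G s) {E : Set (Edge X G)} {x y : X} {g : G} (h : s.r x y)
    (hw : WP s E x g) : WP s E y g := sorry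

lemma WP.comp (hs : Conv D G s) {E : Set (Edge X G)} {x : X} {g h : G} (h1 : WP s E x g)
    (h2 : WP s E (g • x) h) : WP s E x (h * g) := sorry

lemma WP.symm (hs : Conv D G s) {E : Set (Edge X G)} {x : X} {g : G} (h : WP s E x g) :
    WP s E (g • x) g⁻¹ := sorry

lemma WP.mono {E E' : Set (Edge X G)} (hE : E ⊆ E') {x : X} {g : G} (h : WP s E x g) :
    WP s E' x g := sorry

lemma WP_empty {x : X} {g : G} (h : WP s (∅ : Set (Edge X G)) x g) : g = 1 := sorry

lemma eqv_iff_WP (hs : Conv D G s) {E : Set (Edge X G)} {x y : X} :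
    Relation.EqvGen (rVP s E) x y ↔ ∃ g, WP s E x g ∧ s.r (g • x) y := sorry

/-- Connected directions have a value. -/
lemma rHP_value (hG : FreeAct D G) (hs : Conv D G s) {E : Set (Edge X G)} {x y : X}
    {d d' : Set X} (h : Relation.EqvGen (rHP D s E) (x, d) (y, d')) :
    ∃ g, WP s E x g ∧ s.r (g • x) y ∧ d' = sm g d := sorry

lemma Tr.eqv (hs : Conv D G s) {E : Set (Edge X G)} {x y : X}
    (h : Relation.EqvGen (rVP s E) x y) (hx : Tr s E x) : Tr s E y := sorry

lemma Tr.anti {E E' : Set (Edge X G)} (hE : E ⊆ E') {x : X} (h : Tr s E' x) : Tr s E x := sorry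

lemma WP_ins_red (hs : Conv D G s) {E : Set (Edge X G)} {e : Edge X G} (h : WP s E e.x e.h)
    {x : X} {g : G} (hw : WP s (insert e E) x g) : WP s E x g := sorry

lemma WP_ins_out (hs : Conv D G s) {E : Set (Edge X G)} {e : Edge X G} {x : X}
    (h1 : ¬ Relation.EqvGen (rVP s E) x e.x) (h2 : ¬ Relation.EqvGen (rVP s E) x (e.h • e.x))
    {g : G} (hw : WP s (insert e E) x g) : WP s E x g := sorry

/-- A bridge to a trivial leaf. -/
lemma WP_ins_bridge (hs : Conv D G s) {E : Set (Edge X G)} {e : Edge X G}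
    (hc : ¬ Relation.EqvGen (rVP s E) e.x (e.h • e.x)) (ht : Tr s E (e.h • e.x)) {x : X}
    (hx : Relation.EqvGen (rVP s E) x e.x) {g : G} (hg : s.r x (g • x))
    (hw : WP s (insert e E) x g) : WP s E x g := sorry

/-- A bridge from a trivial leaf. -/
lemma WP_ins_bridge' (hs : Conv D G s) {E : Set (Edge X G)} {e : Edge X G}
    (hc : ¬ Relation.EqvGen (rVP s E) e.x (e.h • e.x)) (ht : Tr s E e.x) {x : X}
    (hx : Relation.EqvGen (rVP s E) x (e.h • e.x)) {g : G} (hg : s.r x (g • x))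
    (hw : WP s (insert e E) x g) : WP s E x g := sorry

/-- A new loop. -/
lemma WP_ins_loop (hs : Conv D G s) {E : Set (Edge X G)} {e : Edge X G}
    (hc : Relation.EqvGen (rVP s E) e.x (e.h • e.x)) (hn : ¬ WP s E e.x e.h) :
    ¬ Tr s (insert e E) e.x := sorry

/-- The groups of the leaves of a finite set of edges are finitely generated. -/
theorem grp_fg (hs : Conv D G s) {E : Set (Edge X G)} (hE : E.Finite) (x : X) :
    ∃ H : Subgroup G, H.FG ∧ ∀ g, g ∈ H ↔ (WP s E x g ∧ s.r x (g • x)) := sorry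

/-- Words of a system are paths of edges. -/
theorem conn_WP (hG : FreeAct D G) (hs : Conv D G s) {T : Set (Letter X G)}
    (hTf : ∀ l ∈ T, l.flag = false) {x : X} {g : G} (h : Conn D T x g) :
    ∃ E : Set (Edge X G), E.Finite ∧ (∀ e ∈ E, EdgeOf D T e) ∧ WP s E x g := sorry

/-! ## M3 PNcl.lean (independent) -/

theorem eqv_pair {α : Type*} {r r' : α → α → Prop} {a b : α}
    (h : ∀ x y, r' x y ↔ r x y ∨ (x = a ∧ y = b)) (x y : α) :
    Relation.EqvGen r' x y ↔ Relation.EqvGen r x y ∨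
      (Relation.EqvGen r x a ∧ Relation.EqvGen r b y) ∨
      (Relation.EqvGen r x b ∧ Relation.EqvGen r a y) := sorry

/-- Adding a pair which does not concern `W`. -/
theorem ncl_out {α : Type*} {r r' : α → α → Prop} {a b : α}
    (h : ∀ x y, r' x y ↔ r x y ∨ (x = a ∧ y = b)) (W : Finset α)
    (hW : (∀ w ∈ W, ¬ Relation.EqvGen r w a) ∨ (∀ w ∈ W, ¬ Relation.EqvGen r w b)) :
    ncl r' W = ncl r W := sorry

/-- Removing one class. -/
theorem ncl_remove {α : Type*} {r : α → α → Prop} (W W' : Finset α) {a : α} (ha : a ∈ W)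
    (hW : ∀ w, w ∈ W' ↔ w ∈ W ∧ ¬ Relation.EqvGen r w a) : ncl r W' + 1 = ncl r W := sorry

theorem ncl_sub {α : Type*} {r : α → α → Prop} {V W : Finset α} (h : V ⊆ W) :
    ncl r V ≤ ncl r W := sorry

/-! ## M4 PEuler.lean (uses M1, M2) -/

theorem Psi_empty (hT : IsTree D) (hs : Conv D G s) {F V : Finset X} (hF : F.Nonempty)
    (hV : Sk D F V) : Psi D s F V (∅ : Set (Edge X G)) = -2 := sorry

/-! ## M5 PCount.lean (uses M1, M2, M3) -/

lemma Stp.refl (s : Setoid X) (F V : Finset X) (E : Set (Edge X G)) : Stp D s F V E E 0 := sorry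

lemma Stp.comp {F V : Finset X} {E E' E'' : Set (Edge X G)} {b b' : ℤ}
    (h : Stp D s F V E E' b) (h' : Stp D s F V E' E'' b') : Stp D s F V E E'' (b + b') := sorry

lemma Stp.weak {F V : Finset X} {E E' : Set (Edge X G)} {b b' : ℤ}
    (h : Stp D s F V E E' b) (hb : b ≤ b') : Stp D s F V E E' b' := sorry

/-- A redundant edge. -/
theorem stp_red (hT : IsTree D) (hG : FreeAct D G) (hs : Clus D G s) {F V : Finset X}
    {E : Set (Edge X G)} {e : Edge X G} (he : EV D F V e) (h : WP s E e.x e.h) :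
    Stp D s F V E (insert e E) 0 := sorry

/-- A redundant edge with a direction which is not merged. -/
theorem stp_merge (hT : IsTree D) (hG : FreeAct D G) (hs : Clus D G s) {F V : Finset X}
    {E : Set (Edge X G)} {e : Edge X G} (he : EV D F V e) (h : WP s E e.x e.h)
    (hd : ∃ d ∈ dsP D s e, ¬ Relation.EqvGen (rHP D s E) (e.x, d) (e.h • e.x, sm e.h d)) :
    Stp D s F V E (insert e E) (-1) := sorry

/-- Lemma K. -/
theorem stp_gen (hT : IsTree D) (hG : FreeAct D G) (hs : Clus D G s) {F V : Finset X}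
    {E : Set (Edge X G)} {e : Edge X G} (he : EV D F V e) :
    Stp D s F V E (insert e E) (2 - ((dsP D s e).ncard : ℤ)) := sorry

/-! ## M6 PGerm.lean (uses M1, M2) -/

theorem pgerm (hT : IsTree D) (hG : FreeAct D G) (hs : Clus D G s) {T : Set (Letter X G)}
    (hTf : ∀ l ∈ T, l.flag = false) {E : Set (Edge X G)} (hE : ∀ e ∈ E, EdgeOf D T e)
    {p q : X} {g : G} (hpq : ¬ s.r p q)
    (h : Relation.EqvGen (rHP D s E) (p, drP D s p q) (g • p, sm g (drP D s p q))) :
    ∃ m, Btw D p m q ∧ m ≠ p ∧ Conn D T m g := sorry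

/-! ## M7 PCross.lean (uses M1, M2) -/

theorem pcross (hT : IsTree D) (hG : FreeAct D G) (hs : Clus D G s) {T : Set (Letter X G)}
    (hTf : ∀ l ∈ T, l.flag = false) {p q q' : X} {g : G} (hd : FData hT T p q g q')
    (hpq : ¬ s.r p q') :
    ∃ (E : Set (Edge X G)) (R : Set X), E.Finite ∧ (∀ e ∈ E, EdgeOf D T e) ∧ R.Finite ∧
      (∀ r ∈ R, Btw D p r q' ∧ ¬ s.r r q') ∧
      WP s (E ∪ (fun r => (⟨p, q', g, r⟩ : Edge X G)) '' R) q' g := sorry

/-! ## M8 PFold.lean (uses M1, M2, M5, M6, M7) -/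

/-- Everything that can be done in `T` extends to `T'` without raising the count. -/
def Lift (D : Dist Λ X) (s : Setoid X) (F : Finset X) (T T' : Set (Letter X G)) : Prop :=
  ∀ (V0 : Finset X) (E0 : Set (Edge X G)), (∀ x ∈ V0, x ∈ hull D F) → E0.Finite →
    (∀ e ∈ E0, EdgeOf D T' e) → ∃ (V1 : Finset X) (E1 : Set (Edge X G)),
      (∀ x ∈ V1, x ∈ hull D F) ∧ E1.Finite ∧ (∀ e ∈ E1, EdgeOf D T e) ∧
      ∀ (V : Finset X) (E : Set (Edge X G)), V1 ⊆ V → E1 ⊆ E → E.Finite → Sk D F V →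
        (∀ e ∈ E, EdgeOf D T e ∧ e.x ∈ V ∧ e.h • e.x ∈ V) →
        V0 ⊆ V ∧ ∃ E' : Set (Edge X G), E0 ⊆ E' ∧ E'.Finite ∧
          (∀ e ∈ E', EdgeOf D T' e ∧ e.x ∈ V ∧ e.h • e.x ∈ V) ∧ Stp D s F V E E' 0

theorem Lift.comp {F : Finset X} {T T' T'' : Set (Letter X G)} (h : Lift D s F T T')
    (h' : Lift D s F T' T'') : Lift D s F T T'' := sorry

/-- The closed fold. -/
theorem lift_closed (hT : IsTree D) (hG : FreeAct D G) (hs : Clus D G s) {F : Finset X}
    {T : Set (Letter X G)} (hS : Sys D F T) {p q q' : X} {g : G} (hp : p ∈ hull D F)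
    (hq : q ∈ hull D F) (gp : g • p ∈ hull D F) (gq : g • q ∈ hull D F)
    (hd : FData hT T p q g q') : Lift D s F T (insert ⟨p, q', g, false⟩ T) := sorry

/-- The open fold. -/
theorem lift_open (hT : IsTree D) (hG : FreeAct D G) (hs : Clus D G s) {F : Finset X}
    {T : Set (Letter X G)} (hS : Sys D F T) {p q : X} {g : G} (hp : p ∈ hull D F)
    (hq : q ∈ hull D F) (gp : g • p ∈ hull D F) (gq : g • q ∈ hull D F)
    (h0 : Conn D T p g) (h1 : ∀ m, Btw D p m q → m ≠ p → ¬ Conn D T m g) :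
    Lift D s F T (insert ⟨p, q, g, false⟩ T) := sorry

/-- Transfer of the class index. -/
theorem Lift.claimP {F : Finset X} {T T' : Set (Letter X G)} (h : Lift D s F T T')
    {Q : Set (Edge X G) → Prop} {c : ℤ} (hc : ClaimP D s F T Q c)
    (hQ : (∀ E, Q E) ∨ (¬ ClaimP D s F T' (fun _ => True) (c - 1) ∧
      ∀ E E' : Set (Edge X G), E ⊆ E' → Q E →
        (∀ x, ¬ Tr s E x → ∀ g : G, s.r x (g • x) → WP s E' x g → WP s E x g) → Q E')) :
    ClaimP D s F T' Q c := sorry

/-! ## M9 Stable.lean (X-level; uses Idx.Fold, Idx.FoldAux) -/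

theorem fold_strict (hT : IsTree D) (hG : FreeAct D G) {F : Finset X} {T : Set (Letter X G)}
    (hS : Sys D F T) {c : ℤ} (hc : Claim D F T c) {p q q' : X} {g : G} (hp : p ∈ hull D F)
    (hq : q ∈ hull D F) (gp : g • p ∈ hull D F) (gq : g • q ∈ hull D F) (hq' : Btw D p q' q)
    (hne : q' ≠ p) (h0 : Conn D T p g) (h2 : Conn D T q' g)
    (h1 : ¬ ∃ (w : List (Letter X G)) (m : X), (∀ l ∈ w, l ∈ lett T) ∧ val w = g ∧ m ≠ p ∧
      Btw D p m q ∧ mem D w p ∧ mem D w m) :
    Claim D F (insert ⟨p, q', g, false⟩ T) (c - 1) := sorry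

theorem fdata_exists (hT : IsTree D) (hG : FreeAct D G) {F : Finset X} {T : Set (Letter X G)}
    (hS : Sys D F T) {p q : X} {g : G} (hp : p ∈ hull D F) (hq : q ∈ hull D F)
    (gp : g • p ∈ hull D F) (gq : g • q ∈ hull D F) (h0 : Conn D T p g) :
    ∃ q', FData hT T p q g q' := sorry

theorem fdata_claim1 (hT : IsTree D) (hG : FreeAct D G) {F : Finset X} {T : Set (Letter X G)}
    (hS : Sys D F T) {c : ℤ} (hc : Claim D F T c) {p q q' : X} {g : G} (hp : p ∈ hull D F)
    (hq : q ∈ hull D F) (gp : g • p ∈ hull D F) (gq : g • q ∈ hull D F)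
    (hd : FData hT T p q g q') : Claim D F (insert ⟨p, q', g, false⟩ T) c := sorry

theorem fdata_claim2 (hT : IsTree D) (hG : FreeAct D G) {F : Finset X} {T : Set (Letter X G)}
    (hS : Sys D F T) {c : ℤ} (hc : Claim D F T c) {p q q' : X} {g : G} (hp : p ∈ hull D F)
    (hq : q ∈ hull D F) (gp : g • p ∈ hull D F) (gq : g • q ∈ hull D F)
    (hd : FData hT T p q g q') : Claim D F (fold T p q g q') c := sorry

/-! ## M10 Adm.lean (uses M9) -/

lemma adm_sys {S : Finset G} {x0 : X} {T : Set (Letter X G)} (hA : Adm D S x0 T)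
    (P : Finset X) (hP : ∀ y ∈ P, y ∈ KK D G x0) :
    ∃ F : Finset X, F.Nonempty ∧ Sys D F T ∧ (∀ y ∈ P, y ∈ hull D F) ∧
      ∃ W : Finset G, ∀ y, y ∈ F ↔ ∃ w ∈ W, y = w • x0 := sorry

lemma adm_ins {S : Finset G} {x0 : X} {T : Set (Letter X G)} (hT : IsTree D)
    (hG : FreeAct D G) (hA : Adm D S x0 T) {p q : X} {g : G} (hp : p ∈ KK D G x0)
    (hq : q ∈ KK D G x0) : Adm D S x0 (insert ⟨p, q, g, false⟩ T) := sorry

/-- The index of a system is at least the least one; folding. -/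
theorem claimA_ins (hT : IsTree D) (hG : FreeAct D G) {S : Finset G} {x0 : X}
    {T : Set (Letter X G)} (hA : Adm D S x0 T) {c : ℤ} (hc : ClaimA D T c) {p q q' : X} {g : G}
    (hp : p ∈ KK D G x0) (hq : q ∈ KK D G x0) (hd : FData hT T p q g q') :
    ClaimA D (insert ⟨p, q', g, false⟩ T) c ∧ ClaimA D (fold T p q g q') c := sorry

/-- Stable lemma. -/
theorem stable (hT : IsTree D) (hG : FreeAct D G) {S : Finset G} {x0 : X} {cX : ℤ}
    (hL : Least D S x0 cX) {T : Set (Letter X G)} (hA : Adm D S x0 T) (hc : ClaimA D T cX)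
    {p q : X} {g : G} (hp : p ∈ KK D G x0) (hq : q ∈ KK D G x0) (h0 : Conn D T p g)
    (h1 : ¬ ∃ (w : List (Letter X G)) (m : X), (∀ l ∈ w, l ∈ lett T) ∧ val w = g ∧ m ≠ p ∧
      Btw D p m q ∧ mem D w p ∧ mem D w m) :
    ∀ m, Btw D p m q → m ≠ p → ¬ Conn D T m g := sorry

/-- The whole fold lifts, for stable systems. -/
theorem lift_fold (hT : IsTree D) (hG : FreeAct D G) (hs : Clus D G s) {S : Finset G} {x0 : X}
    {cX : ℤ} (hL : Least D S x0 cX) {T : Set (Letter X G)} (hA : Adm D S x0 T)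
    (hc : ClaimA D T cX) {p q q' : X} {g : G} (hp : p ∈ KK D G x0) (hq : q ∈ KK D G x0)
    (hd : FData hT T p q g q') {F : Finset X} (hF : Sys D F (fold T p q g q')) :
    Lift D s F T (fold T p q g q') := sorry

/-! ## M11 Extend.lean (uses M9, M10, Idx.BallDef) -/

/-- Connecting everything in a ball, keeping a property stable under folds. -/
theorem extend_ball (hT : IsTree D) (hG : FreeAct D G) (S : Finset G) (x0 : X)
    {K : Set (Letter X G) → Prop}
    (hK : ∀ (T : Set (Letter X G)) (p q : X) (g : G) (q' : X), Adm D S x0 T → K T →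
      p ∈ KK D G x0 → q ∈ KK D G x0 → FData hT T p q g q' → K (fold T p q g q'))
    (n : ℕ) (F : Finset X) (hF : ∀ y, y ∈ F ↔ ∃ w ∈ ball S (n + 1), y = w • x0)
    {T : Set (Letter X G)} (hA : Adm D S x0 T) (hKT : K T) (hS : Sys D F T) :
    ∃ T', T ⊆ T' ∧ Adm D S x0 T' ∧ K T' ∧ Sys D F T' ∧
      ∀ g ∈ S, ∀ w ∈ ball S (n + 1), g * w ∈ ball S (n + 1) →
        ∀ x, Btw D x0 x (w • x0) → Conn D T' x g := sorry

theorem ball_conn (hT : IsTree D) (hG : FreeAct D G) (S : Finset G)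
    (hS : Subgroup.closure (S : Set G) = ⊤) (x0 : X) {x : X} (hx : x ∈ KK D G x0) (g : G) :
    ∃ n0 : ℕ, ∀ n, n0 ≤ n → ∀ T' : Set (Letter X G),
      (∀ h ∈ S, ∀ w ∈ ball S (n + 1), h * w ∈ ball S (n + 1) →
        ∀ y, Btw D x0 y (w • x0) → Conn D T' y h) → Conn D T' x g := sorry

/-- Every admissible system lies in the hull of a ball. -/
theorem adm_ball (hT : IsTree D) (S : Finset G) (hS : Subgroup.closure (S : Set G) = ⊤)
    (x0 : X) {T : Set (Letter X G)} (hA : Adm D S x0 T) (n0 : ℕ) :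
    ∃ n, n0 ≤ n ∧ ∀ F : Finset X, (∀ y, y ∈ F ↔ ∃ w ∈ ball S (n + 1), y = w • x0) →
      Sys D F T := sorry

/-- Everything can be connected. -/
theorem extend_all (hT : IsTree D) (hG : FreeAct D G) (S : Finset G)
    (hS : Subgroup.closure (S : Set G) = ⊤) (x0 : X) {K : Set (Letter X G) → Prop}
    (hK : ∀ (T : Set (Letter X G)) (p q : X) (g : G) (q' : X), Adm D S x0 T → K T →
      p ∈ KK D G x0 → q ∈ KK D G x0 → FData hT T p q g q' → K (fold T p q g q'))
    {T : Set (Letter X G)} (hA : Adm D S x0 T) (hKT : K T) (g : G) :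
    ∃ T', T ⊆ T' ∧ Adm D S x0 T' ∧ K T' ∧ Conn D T' x0 g := sorry

/-! ## M12 Lower.lean (uses M10, M11, Idx.Index count_sum) -/

/-- An admissible system of index at most `2|S| - 2`. -/
theorem adm_start (hT : IsTree D) (hG : FreeAct D G) (S : Finset G) (x0 : X) :
    ∃ T : Set (Letter X G), Adm D S x0 T ∧ ClaimA D T (2 * (S.card : ℤ) - 2) := sorry

theorem claimA_lb (hT : IsTree D) (hG : FreeAct D G) (S : Finset G)
    (hS : Subgroup.closure (S : Set G) = ⊤) (x0 : X) {T : Set (Letter X G)}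
    (hA : Adm D S x0 T) {c : ℤ} (hc : ClaimA D T c) : -2 ≤ c := sorry

theorem least_exists (hT : IsTree D) (hG : FreeAct D G) (S : Finset G)
    (hS : Subgroup.closure (S : Set G) = ⊤) (x0 : X) :
    ∃ (cX : ℤ) (T : Set (Letter X G)), Least D S x0 cX ∧ Adm D S x0 T ∧ ClaimA D T cX := sorry

/-! ## M13 PLower.lean (uses M1, M2, M3) -/

theorem claimP_lb (hT : IsTree D) (hG : FreeAct D G) (hs : Clus D G s) {F : Finset X}
    {T : Set (Letter X G)} (hS : Sys D F T) {x0 : X} (hx0 : x0 ∈ F)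
    (hconn : ∀ f ∈ F, ∃ g : G, Conn D T x0 g ∧ f = g • x0) {c : ℤ}
    (hc : ClaimP D s F T (fun _ => True) c) : -2 ≤ c := sorry

/-! ## M14 PUpper.lean (uses M1, M2, M4, M5) -/

theorem claimP_ub (hT : IsTree D) (hG : FreeAct D G) (hs : Clus D G s)
    (T : Set (Letter X G)) : ∃ c : ℤ, ClaimPA D s T c := sorry

/-- In a system, below the least count, adding edges to a large set of edges changes no group. -/
theorem claimP_grp (hT : IsTree D) (hG : FreeAct D G) (hs : Clus D G s) {F : Finset X}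
    {T : Set (Letter X G)} (hS : Sys D F T) {c : ℤ} (hc : ClaimP D s F T (fun _ => True) c)
    (hlow : ¬ ClaimP D s F T (fun _ => True) (c - 1)) {x0 : X} {g1 : G} (hg1 : g1 ≠ 1)
    (h1 : s.r x0 (g1 • x0)) (h2 : Conn D T x0 g1) :
    ∃ H : Subgroup G, H.FG ∧ g1 ∈ H ∧ (∀ g, Conn D T x0 g → s.r x0 (g • x0) → g ∈ H) ∧
      ClaimP D s F T (fun E => ∀ g, (WP s E x0 g ∧ s.r x0 (g • x0)) ↔ g ∈ H) c := sorry

/-! ## M15 Cluster.lean (T1; uses everything above) -/

theorem cluster_fg (hT : IsTree D) (hG : FreeAct D G) (hfg : Group.FG G) (hs : Clus D G s)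
    (x0 : X) : (hs.toConv.stab x0).FG := sorry

/-! ## M16 Walk.lean (T2, abstract part; independent) -/

theorem walk_fg {G V : Type*} [Group G] [MulAction G V] (S : Finset G)
    (hS : Subgroup.closure (S : Set G) = ⊤) (A : V → V → Prop) (hsymm : ∀ u v, A u v → A v u)
    (hinv : ∀ (g : G) (u v : V), A u v → A (g • u) (g • v)) (q0 : V)
    (hpath : ∀ g ∈ S, Relation.ReflTransGen A q0 (g • q0)) (β : V → V)
    (h1 : ∀ u, A q0 u → u ≠ q0 → β u = u)
    (h2 : ∀ u v, u ≠ q0 → v ≠ q0 → A u v → β u = β v)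
    (hst : ∀ u, A q0 u → u ≠ q0 →
      (MulAction.stabilizer G q0 ⊓ MulAction.stabilizer G u).FG) :
    (MulAction.stabilizer G q0).FG := sorry

/-! ## M17 Cut.lean (T2; helper47's statement) -/

/-- The stabiliser of the class of `x`. -/
def clStab (r : Setoid X) (hr : ∀ (g : G) (x y : X), r x y → r (g • x) (g • y)) (x : X) :
    Subgroup G where
  carrier := {g | r x (g • x)}
  one_mem' := by
    show r x ((1 : G) • x)
    rw [one_smul]
  mul_mem' := by
    intro a b ha hb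
    show r x ((a * b) • x)
    rw [mul_smul]
    exact r.trans ha (hr a _ _ hb)
  inv_mem' := by
    intro a ha
    show r x (a⁻¹ • x)
    have h := hr a⁻¹ _ _ ha
    rw [inv_smul_smul] at h
    exact r.symm h

/-- The stabiliser of a line. -/
def lineStab (l : Set X) : Subgroup G where
  carrier := {g | sm g l = l}
  one_mem' := sorry
  mul_mem' := sorry
  inv_mem' := sorry

theorem cut_fg (hT : IsTree D)
    (hB : ∀ (g : G) (x m y : X), Btw D x m y → Btw D (g • x) (g • m) (g • y))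
    (S : Finset G) (hS : Subgroup.closure (S : Set G) = ⊤) (r : Setoid X)
    (hr : ∀ (g : G) (x y : X), r x y → r (g • x) (g • y))
    (hc : ∀ x y z, r x z → Btw D x y z → r x y) (BB : Set (Set X))
    (hBi : ∀ (g : G), ∀ l ∈ BB, sm g l ∈ BB)
    (hBc : ∀ l ∈ BB, ∀ x ∈ l, ∀ z ∈ l, ∀ y, Btw D x y z → y ∈ l)
    (hch : ∀ x y, Relation.ReflTransGen (fun x y => r x y ∨ ∃ l ∈ BB, x ∈ l ∧ y ∈ l) x y)
    (hx : ∀ l ∈ BB, ∀ l' ∈ BB, l ≠ l' → ∀ x y, x ∈ l → x ∈ l' → y ∈ l → y ∈ l' → r x y)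
    (hfg : ∀ l ∈ BB, ∀ x ∈ l, Subgroup.FG (clStab r hr x ⊓ lineStab l)) (x0 : X) :
    (clStab r hr x0).FG := sorry

/-! ## M18 Layer.lean (T3; variant of Sum.lean) -/

/-- An additive extension of `theta l`. -/
theorem theta_ext {l : Λ} (hl : 0 < l) :
    ∃ π : Λ →+ ℝ, ∀ x ∈ hullC l, π x = theta l x := sorry

theorem layer_hom {a : G} {p : X} {l : Λ} (h : Setup D G a p l)
    (hchain : ∀ x y : X, Relation.ReflTransGen (Stl D G l) x y) :
    ∃ ψ : G →* Multiplicative ℝ, ∀ m ∈ stab G (axis D a), D.d p (m • p) ∈ hullC l →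
      (ψ m).toAdd = theta l (coord D p (a • p) (m • p)) := sorry

/-! ## M19: see Full/Convex.lean (Cvx, res, res_tree, stabAct, res_free) -/

/-! ## M20 Chain.lean (chains and projections) -/

/-- The relation generated by steps, as a setoid. -/
def genS {R : X → X → Prop} (hsymm : ∀ x y, R x y → R y x) : Setoid X where
  r := Relation.ReflTransGen R
  iseqv := ⟨fun x => Relation.ReflTransGen.refl,
    fun h => by
      induction h with
      | refl => exact Relation.ReflTransGen.refl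
      | tail _ h ih => exact Relation.ReflTransGen.head (hsymm _ _ h) ih,
    fun h h' => h.trans h'⟩

/-- A segment is covered by the steps of a chain. -/
theorem chain_cover (hT : IsTree D) {R : X → X → Prop} {x y : X}
    (h : Relation.ReflTransGen R x y) {m : X} (hm : Btw D x m y) :
    m = x ∨ ∃ u v, Relation.ReflTransGen R x u ∧ R u v ∧ Btw D u m v := sorry

/-- A chain between two points of an axis, projected to this axis (uses `pr`, `pr_path`,
`pr_dist_le` of Top.lean): if every step moves the projection by an element of the convex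
subgroup `C`, then the distance is in `C`. -/
theorem chain_proj (hT : IsTree D) (hG : FreeAct D G) {a : G} (ha : a ≠ 1)
    {R : X → X → Prop} {x y : X} (hx : x ∈ axis D a) (hy : y ∈ axis D a)
    (h : Relation.ReflTransGen R x y) (C : Submodule ℤ Λ)
    (hC : ∀ t z : Λ, z ∈ C → |t| ≤ |z| → t ∈ C)
    (hstep : ∀ u v m n, R u v → m ∈ axis D a → n ∈ axis D a → Btw D u m v → Btw D u n v →
      D.d m n ∈ C) : D.d x y ∈ C := sorry

/-- The same for the projection to a segment: the chain can be taken in the segment. -/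
theorem chain_seg (hT : IsTree D) {R : X → X → Prop}
    (hsub : ∀ u v m n, R u v → Btw D u m v → Btw D u n v → R m n) {x y : X}
    (h : Relation.ReflTransGen R x y) {m : X} (hm : Btw D x m y) :
    Relation.ReflTransGen R x m := sorry

/-! ## M21 Overlap.lean -/

/-- Two axes with a long overlap coincide. -/
theorem overlap_two (hT : IsTree D) (hG : FreeAct D G) {a b m m' : G} (ha : a ≠ 1) (hb : b ≠ 1)
    (hm1 : m ≠ 1) (hm1' : m' ≠ 1) (hm : a * m = m * a) (hm' : b * m' = m' * b) {p q : X}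
    (hp : p ∈ axis D a) (hq : q ∈ axis D b) {u v : X} (hu : u ∈ axis D a) (hv : v ∈ axis D a)
    (hu' : u ∈ axis D b) (hv' : v ∈ axis D b)
    (hle : D.d p (m • p) + D.d q (m' • q) ≤ D.d u v) : axis D a = axis D b := sorry

/-- Two different small axes overlap in an infinitesimal segment. -/
theorem overlap_small (hT : IsTree D) (hG : FreeAct D G) {l : Λ} (hl : 0 < l) {a b : G}
    (ha : a ≠ 1) (hb : b ≠ 1) (sa : Small D G l a) (sb : Small D G l b)
    (hab : axis D a ≠ axis D b) {u v : X} (hu : u ∈ axis D a) (hv : v ∈ axis D a)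
    (hu' : u ∈ axis D b) (hv' : v ∈ axis D b) : D.d u v ∈ infC l := sorry

/-! ## M22 Levels.lean (uses M20, M21) -/

/-- Every long axis is small. -/
theorem long_small {l : Λ} (h : State D G l) {b : G} (hb : b ≠ 1) (hL : Long D G b) :
    Small D G l b := sorry

/-- The relation of the clusters. -/
theorem clus_long (hT : IsTree D) (hG : FreeAct D G) (C : Submodule ℤ Λ)
    (hC : ∀ t z : Λ, z ∈ C → |t| ≤ |z| → t ∈ C) :
    ∃ s : Setoid X, Clus D G s ∧ ∀ x y, s.r x y ↔ Relation.ReflTransGen (StL D G C) x y := sorry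

theorem conv_small (hT : IsTree D) (hG : FreeAct D G) (l : Λ) :
    ∃ s : Setoid X, Conv D G s ∧ ∀ x y, s.r x y ↔ Relation.ReflTransGen (StS D G l) x y := sorry

/-! ## M23 StepDown.lean (uses M15, M17, M22, Full/Convex) -/

theorem step_down {l l' : Λ} (h : State D G l) (hl' : 0 < l') (hC : hullC l' = infC l) (x0 : X) :
    ∃ Y : Set X, x0 ∈ Y ∧ Full.Cvx D Y ∧
      (∀ g : G, D.d x0 (g • x0) ∈ hullC l' → g ∈ stab G Y) ∧
      State (Full.res D Y) (stab G Y) l' := sorry

/-! ## M24 Rank.lean (independent) -/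

/-- In a group of finite rank every nonzero convex subgroup is the hull of an element. -/
theorem exists_hullC {N : ℕ} (C : Submodule ℤ Λ) (hC : ∀ t z : Λ, z ∈ C → |t| ≤ |z| → t ∈ C)
    (hne : C ≠ ⊥)
    (hN : ∀ (n : ℕ) (v : Fin n → Λ), (∀ i, v i ∈ C) → LinearIndependent ℤ v → n ≤ N) :
    ∃ l : Λ, 0 < l ∧ hullC l = C := sorry

/-- The rank drops. -/
theorem rank_drop {N : ℕ} {l : Λ} (hl : 0 < l)
    (hN : ∀ (n : ℕ) (v : Fin n → Λ), (∀ i, v i ∈ hullC l) → LinearIndependent ℤ v → n ≤ N + 1) :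
    ∀ (n : ℕ) (v : Fin n → Λ), (∀ i, v i ∈ infC l) → LinearIndependent ℤ v → n ≤ N := sorry

/-! ## M25 Cyc.lean, Final.lean (uses M18, M23, M24) -/

/-- If the axis of `b` is not small, groups of short elements preserving it are f.g. -/
theorem not_small_fg (hT : IsTree D) (hG : FreeAct D G) {l : Λ} (hl : 0 < l) {b : G}
    (hb : b ≠ 1) (hs : ¬ Small D G l b) (H : Subgroup G)
    (hH : ∀ h ∈ H, h ∈ stab G (axis D b) ∧ ∃ p ∈ axis D b, D.d p (h • p) ∈ hullC l) :
    H.FG := sorry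

theorem abelian_fg_state (N : ℕ) : ∀ {X : Type*} {D : Dist Λ X} {G : Type*} [Group G]
    [MulAction G X] {l : Λ}, State D G l →
    (∀ (n : ℕ) (v : Fin n → Λ), (∀ i, v i ∈ hullC l) → LinearIndependent ℤ v → n ≤ N) →
    ∀ (A : Subgroup G), (∀ a ∈ A, ∀ b ∈ A, a * b = b * a) →
    ∀ a0 ∈ A, a0 ≠ 1 → ∀ x0 ∈ axis D a0, (∀ a ∈ A, D.d x0 (a • x0) ∈ hullC l) → A.FG := sorry

theorem abelian_fg (hT : IsTree D) (hG : FreeAct D G) (hfg : Group.FG G) (hne : Nonempty X)
    (A : Subgroup G) (hA : ∀ a ∈ A, ∀ b ∈ A, a * b = b * a) : A.FG := sorry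

end LTree.Fg
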