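import Pool.Agent.Work.MP_0c526b_al.Fg.Defs
import Pool.Agent.Work.MP_0c526b_al.Full.Clos

/-!
# M9: the fold data and the strict fold (X-level)
-/

set_option autoImplicit false

namespace LTree.Fg

open LTree LTree.Idx

variable {Λ : Type*} [AddCommGroup Λ] [LinearOrder Λ] [IsOrderedAddMonoid Λ] {X : Type*}
variable {D : Dist Λ X} {G : Type*} [Group G] [MulAction G X]

theorem fold_strict (hT : IsTree D) (hG : FreeAct D G) {F : Finset X} {T : Set (Letter X G)}
    (hS : Sys D F T) {c : ℤ} (hc : Claim D F T c) {p q q' : X} {g : G} (hp : p ∈ hull D F)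
    (hq : q ∈ hull D F) (gp : g • p ∈ hull D F) (gq : g • q ∈ hull D F) (hq' : Btw D p q' q)
    (hne : q' ≠ p) (h0 : Conn D T p g) (h2 : Conn D T q' g)
    (h1 : ¬ ∃ (w : List (Letter X G)) (m : X), (∀ l ∈ w, l ∈ lett T) ∧ val w = g ∧ m ≠ p ∧
      Btw D p m q ∧ mem D w p ∧ mem D w m) :
    Claim D F (insert ⟨p, q', g, false⟩ T) (c - 1) := by
  refine stable_step hT hG hS hc hp (hull_convex hT hp hq hq') gp
    (hull_convex hT gp gq (hG.btw g hq')) h0 (Ne.symm hne) ?_ h2
  rintro ⟨w, m, a1, a2, a3, a4, a5, a6⟩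
  exact h1 ⟨w, m, a1, a2, a3, (btw_trans' hq' a4).1, a5, a6⟩

theorem fdata_exists (hT : IsTree D) (hG : FreeAct D G) {F : Finset X} {T : Set (Letter X G)}
    (hS : Sys D F T) {p q : X} {g : G} (hp : p ∈ hull D F) (hq : q ∈ hull D F)
    (gp : g • p ∈ hull D F) (gq : g • q ∈ hull D F) (h0 : Conn D T p g) :
    ∃ q', FData hT T p q g q' := by
  obtain ⟨Sg, hAl⟩ := fx_exists_Alph hT hS hp hq gp gq
  obtain ⟨w0, hw0, hm0, hv0⟩ := id h0
  have hCl : Cl hT F Sg (LF T p q g) p q g w0 :=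
    { hG := hG
      al := hAl
      he := Or.inr (Or.inl rfl)
      w0L := fun l hl => Or.inl (hw0 l hl)
      w0ok := ok_of_mem hm0 (fun l hl => fx_lett_flag hS.flag (hw0 l hl))
      w0val := hv0 }
  obtain ⟨μ, hμ, hmax⟩ := closing' hCl hp hq gp gq
  have hb0 := JJ_nonneg hμ
  have hb : Btw D p (pt hT p q μ) q := pt_btw hT hb0.1 hb0.2
  have hd : D.d p (pt hT p q μ) = μ := d_pt hT hb0.1 hb0.2
  refine ⟨pt hT p q μ, hb, h0, by rw [hd]; exact hμ, ?_, ?_⟩
  · rw [hd]
    exact JJ_word hCl hμ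
  · rintro ⟨w1, m, hw1, hv1, hm, hbm, m1, m2⟩
    obtain ⟨w', hw', hv', ok1, ok2⟩ := flag_word hT hG hS.flag hb hbm hm hw1 m1 m2
    obtain ⟨hpm, h3⟩ := btw_trans hb hbm
    have hlt : μ < D.d p m := by
      have h1 := D.nonneg (pt hT p q μ) m
      have h2 : D.d (pt hT p q μ) m ≠ 0 := fun h => hm (D.eq_of_d _ _ h).symm
      unfold Btw at h3
      grind
    have hle : D.d p m ≤ D.d p q := by
      have := D.nonneg m q
      unfold Btw at hpm
      grind
    have : D.d p m ∈ JJ hT (LF T p q g) p q g := by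
      refine Relation.ReflTransGen.tail hμ ⟨hb0.1, hlt.le, hle, w', hw', by rw [hv', hv1], ?_, ?_⟩
      · rw [hd] at ok1; exact ok1
      · rw [pt_of_btw hT hpm]; exact ok2
    exact absurd (hmax _ this) (not_le.2 hlt)

/-- The first half of the fold, in any hull containing the new system. -/
theorem fdata_claim1' (hT : IsTree D) (hG : FreeAct D G) {F : Finset X} {T : Set (Letter X G)}
    {c : ℤ} (hc : Claim D F T c) {p q q' : X} {g : G}
    (hS : Sys D F (insert ⟨p, q', g, false⟩ T))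
    (hd : FData hT T p q g q') : Claim D F (insert ⟨p, q', g, false⟩ T) c := by
  have hl : (⟨p, q', g, false⟩ : Letter X G) ∈
    (insert ⟨p, q', g, false⟩ T : Set (Letter X G)) := Set.mem_insert _ _
  have hS0 : Sys D F T := ⟨hS.fin.subset (Set.subset_insert _ _),
    fun l h => hS.flag l (Or.inr h), fun l h => hS.ha l (Or.inr h), fun l h => hS.hb l (Or.inr h),
    fun l h => hS.ga l (Or.inr h), fun l h => hS.gb l (Or.inr h)⟩
  obtain ⟨w, hw, hv, hok⟩ := hd.word
  obtain ⟨w', hw', hv', hok'⟩ := short_word hT hG hd.btw hw le_rfl hok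
  exact fold_closed hT hG hS0 hc (hS.ha _ hl) (hS.hb _ hl) (hS.ga _ hl) (hS.gb _ hl)
    (btw_right _ _) hd.base ⟨w', hw', hv'.trans hv, hok'⟩

theorem fdata_claim1 (hT : IsTree D) (hG : FreeAct D G) {F : Finset X} {T : Set (Letter X G)}
    (hS : Sys D F T) {c : ℤ} (hc : Claim D F T c) {p q q' : X} {g : G} (hp : p ∈ hull D F)
    (hq : q ∈ hull D F) (gp : g • p ∈ hull D F) (gq : g • q ∈ hull D F)
    (hd : FData hT T p q g q') : Claim D F (insert ⟨p, q', g, false⟩ T) c :=
  fdata_claim1' hT hG hc (fx_sys_insert hS hp (hull_convex hT hp hq hd.btw) gp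
    (hull_convex hT gp gq (hG.btw g hd.btw))) hd

/-- The new family connects its end point. -/
lemma conn_new {T : Set (Letter X G)} {p q : X} {g : G} :
    Conn D (insert (⟨p, q, g, false⟩ : Letter X G) T) q g :=
  ⟨[⟨p, q, g, false⟩], by
    intro l h
    rw [List.mem_singleton] at h
    rw [h]; exact Or.inl (Or.inl rfl), ⟨btw_right _ _, trivial⟩, by simp [val]⟩

/-- The fold, in any hull containing the new system. -/
theorem fdata_claim2' (hT : IsTree D) (hG : FreeAct D G) {F : Finset X} {T : Set (Letter X G)}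
    {c : ℤ} (hc : Claim D F T c) {p q q' : X} {g : G}
    (hS : Sys D F (fold T p q g q'))
    (hd : FData hT T p q g q') : Claim D F (fold T p q g q') c := by
  have hS1 : Sys D F (insert ⟨p, q', g, false⟩ T) := ⟨hS.fin.subset (Set.subset_insert _ _),
    fun l h => hS.flag l (Or.inr h), fun l h => hS.ha l (Or.inr h), fun l h => hS.hb l (Or.inr h),
    fun l h => hS.ga l (Or.inr h), fun l h => hS.gb l (Or.inr h)⟩
  have c1 := fdata_claim1' hT hG hc hS1 hd
  have hl : (⟨q', q, g, false⟩ : Letter X G) ∈ fold T p q g q' := Set.mem_insert _ _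
  by_cases e : q' = q
  · subst e
    refine fold_closed hT hG hS1 c1 (hS.ha _ hl) (hS.hb _ hl) (hS.ga _ hl) (hS.gb _ hl)
      (btw_right _ _) conn_new ⟨[⟨p, q', g, false⟩], ?_, by simp [val], ?_⟩
    · intro l h
      rw [List.mem_singleton] at h
      rw [h]; exact Or.inl (Or.inl (Or.inl rfl))
    · exact ⟨⟨btw_right _ _, fun h => absurd h (by simp)⟩, trivial⟩
  · exact fold_open hT hG hS1 c1 (hS.ha _ hl) (hS.hb _ hl) (hS.ga _ hl) (hS.gb _ hl)
      conn_new e hd.stop

theorem fdata_claim2 (hT : IsTree D) (hG : FreeAct D G) {F : Finset X} {T : Set (Letter X G)}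
    (hS : Sys D F T) {c : ℤ} (hc : Claim D F T c) {p q q' : X} {g : G} (hp : p ∈ hull D F)
    (hq : q ∈ hull D F) (gp : g • p ∈ hull D F) (gq : g • q ∈ hull D F)
    (hd : FData hT T p q g q') : Claim D F (fold T p q g q') c := by
  have h1 := hull_convex hT hp hq hd.btw
  have h2 := hull_convex hT gp gq (hG.btw g hd.btw)
  exact fdata_claim2' hT hG hc (fx_sys_insert (fx_sys_insert hS hp h1 gp h2) h1 hq h2 gq) hd

end LTree.Fg
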