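import Mathlib

/-!
# M16: vertex stabilisers of actions on graphs with a branch function
-/

set_option autoImplicit false
set_option linter.unusedVariables false

namespace LTree.Fg

lemma rtg_mono {α : Type*} {r r' : α → α → Prop} (h : ∀ a b, r a b → r' a b) {a b : α}
    (hr : Relation.ReflTransGen r a b) : Relation.ReflTransGen r' a b :=
  Relation.ReflTransGen.mono h _ _ hr

lemma rtg_symm {V : Type*} {A : V → V → Prop} (hsymm : ∀ u v, A u v → A v u) {p p' : V}
    (h : Relation.ReflTransGen A p p') : Relation.ReflTransGen A p' p := by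
  induction h with
  | refl => exact Relation.ReflTransGen.refl
  | tail _ h2 ih => exact Relation.ReflTransGen.head (hsymm _ _ h2) ih

lemma rtg_smul {G V : Type*} [Group G] [MulAction G V] {A : V → V → Prop}
    (hinv : ∀ (g : G) (u v : V), A u v → A (g • u) (g • v)) (g : G) {p p' : V}
    (h : Relation.ReflTransGen A p p') : Relation.ReflTransGen A (g • p) (g • p') := by
  induction h with
  | refl => exact Relation.ReflTransGen.refl
  | tail _ h2 ih => exact ih.tail (hinv g _ _ h2)

/-- The finite set of steps used by a walk. -/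
lemma walk_steps {V : Type*} {A : V → V → Prop} {p p' : V} (h : Relation.ReflTransGen A p p') :
    ∃ P : Set (V × V), P.Finite ∧ (∀ x ∈ P, A x.1 x.2) ∧
      Relation.ReflTransGen (fun a b => (a, b) ∈ P) p p' := by
  induction h with
  | refl => exact ⟨∅, Set.finite_empty, by simp, Relation.ReflTransGen.refl⟩
  | @tail b c _ h2 ih =>
    obtain ⟨P, hP, hadj, hr⟩ := ih
    refine ⟨insert (b, c) P, hP.insert _, ?_, ?_⟩
    · intro x hx
      rcases Set.mem_insert_iff.1 hx with rfl | hx
      · exact h2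
      · exact hadj x hx
    · refine Relation.ReflTransGen.tail (b := b) ?_ (Set.mem_insert _ _)
      exact rtg_mono (fun a b hl => Set.mem_insert_of_mem _ hl) hr

theorem walk_fg {G V : Type*} [Group G] [MulAction G V] (S : Finset G)
    (hS : Subgroup.closure (S : Set G) = ⊤) (A : V → V → Prop) (hsymm : ∀ u v, A u v → A v u)
    (hinv : ∀ (g : G) (u v : V), A u v → A (g • u) (g • v)) (q0 : V)
    (hpath : ∀ g ∈ S, Relation.ReflTransGen A q0 (g • q0)) (β : V → V)
    (h1 : ∀ u, A q0 u → u ≠ q0 → β u = u)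
    (h2 : ∀ u v, u ≠ q0 → v ≠ q0 → A u v → β u = β v)
    (hst : ∀ u, A q0 u → u ≠ q0 →
      (MulAction.stabilizer G q0 ⊓ MulAction.stabilizer G u).FG) :
    (MulAction.stabilizer G q0).FG := by
  classical
  -- symmetric generating set
  have hconn' : ∀ s : G, s ∈ (S : Set G) ∪ (S : Set G)⁻¹ →
      Relation.ReflTransGen A q0 (s • q0) := by
    intro s hs
    rcases hs with hs | hs
    · exact hpath s hs
    · have h1 := hpath s⁻¹ (by simpa using hs)
      have h2 := rtg_smul hinv s h1
      rw [smul_smul, mul_inv_cancel, one_smul] at h2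
      exact rtg_symm hsymm h2
  set S' : Set G := (S : Set G) ∪ (S : Set G)⁻¹ with hS'
  have hS'f : S'.Finite := by
    rw [hS']
    exact (Finset.finite_toSet S).union (Finset.finite_toSet S).inv
  -- steps
  have hw : ∀ s : S', ∃ P : Set (V × V), P.Finite ∧ (∀ x ∈ P, A x.1 x.2) ∧
      Relation.ReflTransGen (fun a b => (a, b) ∈ P) q0 ((s : G) • q0) :=
    fun s => walk_steps (hconn' s s.2)
  choose Ps hPf hPadj hPr using hw
  have : Finite S' := hS'f
  set P : Set (V × V) := ⋃ s : S', Ps s with hP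
  have hPfin : P.Finite := Set.finite_iUnion hPf
  have hPa : ∀ x ∈ P, A x.1 x.2 := by
    intro x hx
    obtain ⟨s, hs⟩ := Set.mem_iUnion.1 hx
    exact hPadj s x hs
  have hPc : ∀ s ∈ S', Relation.ReflTransGen (fun a b => (a, b) ∈ P) q0 (s • q0) := by
    intro s hs
    exact rtg_mono (fun a b hl => Set.mem_iUnion.2 ⟨⟨s, hs⟩, hl⟩) (hPr ⟨s, hs⟩)
  -- transporters
  let t : V → G := fun p => if h : ∃ g : G, g • p = q0 then h.choose else 1
  have ht : ∀ p (k : G), k • p = q0 → t p • p = q0 := by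
    intro p k hk
    have h : ∃ g : G, g • p = q0 := ⟨k, hk⟩
    simp only [t, dif_pos h]
    exact h.choose_spec
  set St := MulAction.stabilizer G q0 with hSt
  -- neighbours
  let N0 : Set V := (fun x : V × V => t x.1 • x.2) '' P ∪ (fun x : V × V => t x.2 • x.1) '' P
  have hN0 : N0.Finite := (hPfin.image _).union (hPfin.image _)
  let τ : V × V → G := fun n => if h : ∃ g ∈ St, g • n.2 = n.1 then h.choose else 1
  have hτ : ∀ n n' (g : G), g ∈ St → g • n' = n → τ (n, n') ∈ St ∧ τ (n, n') • n' = n := by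
    intro n n' g hg hgn
    have h : ∃ g ∈ St, g • (n, n').2 = (n, n').1 := ⟨g, hg, hgn⟩
    simp only [τ, dif_pos h]
    exact h.choose_spec
  have hgen : ∀ n : N0, ∃ B : Set G, B.Finite ∧ (A q0 n → (n : V) ≠ q0 →
      Subgroup.closure B = St ⊓ MulAction.stabilizer G (n : V)) := by
    intro n
    by_cases h : A q0 n ∧ (n : V) ≠ q0
    · obtain ⟨B, hB⟩ := hst n h.1 h.2
      exact ⟨B, B.finite_toSet, fun _ _ => hB⟩
    · exact ⟨∅, Set.finite_empty, fun h' h'' => absurd ⟨h', h''⟩ h⟩
  choose Bn hBnf hBn using hgen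
  have : Finite N0 := hN0
  -- the finite generating set
  let B1 : Set G := (fun x : V × V => t x.1 * (t x.2)⁻¹) '' P
  let B2 : Set G := (fun s : G => t (s • q0) * s * (t q0)⁻¹) '' S'
  let B3 : Set G := {t q0}
  let B4 : Set G := τ '' (N0 ×ˢ N0)
  let B5 : Set G := ⋃ n : N0, Bn n
  let B : Set G := (B1 ∪ B2 ∪ B3 ∪ B4 ∪ B5) ∩ St
  have hBf : B.Finite := by
    refine Set.Finite.inter_of_left ?_ _
    exact ((((hPfin.image _).union (hS'f.image _)).union (Set.finite_singleton _)).union
      ((hN0.prod hN0).image _)).union (Set.finite_iUnion hBnf)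
  set H := Subgroup.closure B with hH
  have hHS : H ≤ St := by
    rw [hH, Subgroup.closure_le]
    exact Set.inter_subset_right
  have hBH : ∀ g, (g ∈ B1 ∨ g ∈ B2 ∨ g ∈ B3 ∨ g ∈ B4) → g ∈ St → g ∈ H := by
    intro g hg hgs
    apply Subgroup.subset_closure
    refine ⟨?_, hgs⟩
    rcases hg with h | h | h | h
    · exact Or.inl (Or.inl (Or.inl (Or.inl h)))
    · exact Or.inl (Or.inl (Or.inl (Or.inr h)))
    · exact Or.inl (Or.inl (Or.inr h))
    · exact Or.inl (Or.inr h)
  have hB5H : ∀ n ∈ N0, A q0 n → n ≠ q0 → ∀ g ∈ St ⊓ MulAction.stabilizer G (n : V), g ∈ H := by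
    intro n hn hadjn hnq g hg
    have h1 := hBn ⟨n, hn⟩ hadjn hnq
    rw [← h1] at hg
    refine (Subgroup.closure_le (K := H)).2 ?_ hg
    intro b hb
    apply Subgroup.subset_closure
    refine ⟨Or.inr (Set.mem_iUnion.2 ⟨⟨n, hn⟩, hb⟩), ?_⟩
    have : b ∈ Subgroup.closure (Bn ⟨n, hn⟩) := Subgroup.subset_closure hb
    rw [h1] at this
    exact this.1
  -- the invariant
  let Inv : G → V → Prop := fun k p => (k • p = q0 → k * (t p)⁻¹ ∈ H) ∧
    (k • p ≠ q0 → ∃ γ ∈ H, ∃ n ∈ N0, β (k • p) = γ • n)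
  have hktS : ∀ k p, k • p = q0 → k * (t p)⁻¹ ∈ St := by
    intro k p hp
    rw [hSt, MulAction.mem_stabilizer_iff, mul_smul]
    have h1 := ht p k hp
    have h2 : (t p)⁻¹ • q0 = p := by
      rw [inv_smul_eq_iff]
      exact h1.symm
    rw [h2, hp]
  have hstep : ∀ k p p', (p, p') ∈ P → Inv k p → Inv k p' := by
    intro k p p' hx hinv'
    have ha : A p p' := hPa _ hx
    have hak : A (k • p) (k • p') := hinv k _ _ ha
    constructor
    · intro hp'
      by_cases hp : k • p = q0
      · have hγ := hinv'.1 hp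
        have h3 : t p * (t p')⁻¹ ∈ St := by
          have h4 : t p * (t p')⁻¹ = (k * (t p)⁻¹)⁻¹ * (k * (t p')⁻¹) := by group
          rw [h4]
          exact St.mul_mem (St.inv_mem (hktS k p hp)) (hktS k p' hp')
        have h5 : k * (t p')⁻¹ = (k * (t p)⁻¹) * (t p * (t p')⁻¹) := by group
        rw [h5]
        exact H.mul_mem hγ (hBH _ (Or.inl ⟨_, hx, rfl⟩) h3)
      · obtain ⟨γ, hγ, n, hn, e⟩ := hinv'.2 hp
        rw [hp'] at hak
        rw [h1 _ (hsymm _ _ hak) hp] at e
        have hkt := hktS k p' hp'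
        have hn' : t p' • p ∈ N0 := Or.inr ⟨_, hx, rfl⟩
        have e2 : (γ⁻¹ * (k * (t p')⁻¹)) • (t p' • p) = n := by
          rw [mul_smul, smul_smul (k * (t p')⁻¹), mul_assoc, inv_mul_cancel, mul_one, e,
            smul_smul, inv_mul_cancel, one_smul]
        have hg : γ⁻¹ * (k * (t p')⁻¹) ∈ St := St.mul_mem (St.inv_mem (hHS hγ)) hkt
        obtain ⟨g1, g2⟩ := hτ n (t p' • p) _ hg e2
        have hτH : τ (n, t p' • p) ∈ H :=
          hBH _ (Or.inr (Or.inr (Or.inr ⟨_, ⟨hn, hn'⟩, rfl⟩))) g1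
        have h3 : γ⁻¹ • q0 = q0 := St.inv_mem (hHS hγ)
        have e4 : γ⁻¹ • (k • p) = n := by rw [e, smul_smul, inv_mul_cancel, one_smul]
        have hadjn : A q0 n := by
          have := hinv γ⁻¹ _ _ (hsymm _ _ hak)
          rwa [h3, e4] at this
        have hnq : n ≠ q0 := by
          intro h
          apply hp
          rw [e, h]
          exact hHS hγ
        have h4 : γ⁻¹ * (k * (t p')⁻¹) * (τ (n, t p' • p))⁻¹ ∈ H := by
          refine hB5H n hn hadjn hnq _ ⟨St.mul_mem hg (St.inv_mem g1), ?_⟩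
          change (_ : G) • n = n
          have e3 : (τ (n, t p' • p))⁻¹ • n = t p' • p := by
            rw [inv_smul_eq_iff]
            exact g2.symm
          rw [mul_smul, e3, e2]
        have h5 : k * (t p')⁻¹ = γ * (γ⁻¹ * (k * (t p')⁻¹) * (τ (n, t p' • p))⁻¹) *
            τ (n, t p' • p) := by group
        rw [h5]
        exact H.mul_mem (H.mul_mem hγ h4) hτH
    · intro hp'
      by_cases hp : k • p = q0
      · have hγ := hinv'.1 hp
        refine ⟨_, hγ, t p • p', Or.inl ⟨_, hx, rfl⟩, ?_⟩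
        rw [hp] at hak
        rw [h1 _ hak hp', smul_smul, mul_assoc, inv_mul_cancel, mul_one]
      · obtain ⟨γ, hγ, n, hn, e⟩ := hinv'.2 hp
        exact ⟨γ, hγ, n, hn, by rw [← h2 _ _ hp hp' hak, e]⟩
  have hwalk : ∀ k s, s ∈ S' → Inv k q0 → Inv k (s • q0) := by
    intro k s hs hk
    have key : ∀ v, Relation.ReflTransGen (fun a b => (a, b) ∈ P) q0 v → Inv k v := by
      intro v hv
      induction hv with
      | refl => exact hk
      | tail _ h2 ih => exact hstep k _ _ h2 ih
    exact key _ (hPc s hs)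
  have hjunc : ∀ k s, s ∈ S' → Inv k q0 → Inv (k * s) q0 := by
    intro k s hs hk
    have h1 := hwalk k s hs hk
    constructor
    · intro h
      rw [mul_smul] at h
      have h2 := h1.1 h
      have h3 : t (s • q0) * s * (t q0)⁻¹ ∈ St := by
        have e1 : t (s • q0) • (s • q0) = q0 := ht _ k h
        have e2 : t q0 • q0 = q0 := ht q0 1 (one_smul _ _)
        have e3 : (t q0)⁻¹ • q0 = q0 := by
          rw [inv_smul_eq_iff]
          exact e2.symm
        rw [hSt, MulAction.mem_stabilizer_iff, mul_smul, mul_smul, e3, e1]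
      have h4 : t (s • q0) * s * (t q0)⁻¹ ∈ H := hBH _ (Or.inr (Or.inl ⟨s, hs, rfl⟩)) h3
      have h5 : k * s * (t q0)⁻¹ = (k * (t (s • q0))⁻¹) * (t (s • q0) * s * (t q0)⁻¹) := by group
      rw [h5]
      exact H.mul_mem h2 h4
    · intro h
      rw [mul_smul] at h ⊢
      exact h1.2 h
  have htq : t q0 ∈ H := by
    refine hBH _ (Or.inr (Or.inr (Or.inl rfl))) ?_
    exact ht q0 1 (one_smul _ _)
  have hall : ∀ g : G, Inv g q0 := by
    intro g
    have hg : g ∈ Subgroup.closure (S : Set G) := by rw [hS]; trivial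
    induction hg using Subgroup.closure_induction_right with
    | one =>
      constructor
      · intro _
        rw [one_mul]
        exact H.inv_mem htq
      · intro h
        exact absurd (one_smul _ _) h
    | mul_right x _ y hy ih => exact hjunc x y (Or.inl hy) ih
    | mul_inv_cancel x _ y hy ih => exact hjunc x y⁻¹ (Or.inr (by simpa using hy)) ih
  refine ⟨hBf.toFinset, ?_⟩
  rw [Set.Finite.coe_toFinset]
  refine le_antisymm hHS ?_
  intro g hg
  have h1 := (hall g).1 hg
  have h2 : g = g * (t q0)⁻¹ * t q0 := by group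
  rw [h2]
  exact H.mul_mem h1 htq

end LTree.Fg
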